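import Pool.Agent.Lib.MP_7f581e_Z.Alt3.Spec

/-!
# `MP_7f581e_nt`: the group `SL_2(F_4)` is the alternating group of degree five
-/

set_option autoImplicit false

namespace MP7Z.A3.A5M

open Matrix

variable {F : Type} [Field F]

theorem det_surj : Function.Surjective (Matrix.GeneralLinearGroup.det : GL (Fin 2) F →* Fˣ) := by
  intro u
  refine ⟨Matrix.GeneralLinearGroup.mkOfDetNeZero !![(u : F), 0; 0, 1] ?_, ?_⟩
  · rw [Matrix.det_fin_two_of]
    simp
  · apply Units.ext
    show Matrix.det !![(u : F), 0; 0, 1] = (u : F)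
    rw [Matrix.det_fin_two_of]
    simp

theorem card_ker : Nat.card (Matrix.GeneralLinearGroup.det : GL (Fin 2) F →* Fˣ).ker =
    Nat.card (SpecialLinearGroup (Fin 2) F) := by
  have hm : ∀ g : SpecialLinearGroup (Fin 2) F, SpecialLinearGroup.toGL g ∈
      (Matrix.GeneralLinearGroup.det : GL (Fin 2) F →* Fˣ).ker := by
    intro g
    rw [MonoidHom.mem_ker]
    apply Units.ext
    exact g.2
  refine (Nat.card_congr (Equiv.ofBijective
    (fun g : SpecialLinearGroup (Fin 2) F => (⟨SpecialLinearGroup.toGL g, hm g⟩ :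
      (Matrix.GeneralLinearGroup.det : GL (Fin 2) F →* Fˣ).ker)) ⟨?_, ?_⟩)).symm
  · intro g g' h
    exact SpecialLinearGroup.toGL_injective (congrArg Subtype.val h)
  · rintro ⟨A, hA⟩
    rw [MonoidHom.mem_ker] at hA
    refine ⟨⟨(A : Matrix (Fin 2) (Fin 2) F), congrArg Units.val hA⟩, ?_⟩
    apply Subtype.ext
    apply Units.ext
    rfl

theorem card_SL [Finite F] (hF : Nat.card F = 4) :
    Nat.card (SpecialLinearGroup (Fin 2) F) = 60 := by
  have : Fintype F := Fintype.ofFinite F
  have hq : Fintype.card F = 4 := by rw [← Nat.card_eq_fintype_card, hF]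
  have h1 : Nat.card (GL (Fin 2) F) = 180 := by
    rw [Matrix.card_GL_field, hq, Fin.prod_univ_two]
    norm_num
  have h2 : Nat.card Fˣ = 3 := by
    rw [Nat.card_units, hF]
  have h3 := Subgroup.card_mul_index (Matrix.GeneralLinearGroup.det : GL (Fin 2) F →* Fˣ).ker
  rw [Subgroup.index_ker, MonoidHom.range_eq_top.2 det_surj, Subgroup.card_top, h1, h2,
    card_ker] at h3
  omega

theorem center_bot [CharP F 2] :
    Subgroup.center (SpecialLinearGroup (Fin 2) F) = ⊥ := by
  rw [eq_bot_iff]
  intro A hA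
  obtain ⟨r, hr, hA⟩ := Matrix.SpecialLinearGroup.mem_center_iff.1 hA
  rw [Fintype.card_fin] at hr
  have h1 : (r - 1) ^ 2 = 0 := by
    rw [sub_sq, hr, CharTwo.two_eq_zero]
    ring_nf
    exact CharTwo.two_eq_zero
  have h2 : r = 1 := sub_eq_zero.1 (pow_eq_zero_iff two_ne_zero |>.1 h1)
  rw [Subgroup.mem_bot]
  apply Subtype.ext
  rw [← hA, h2, map_one]
  rfl

end MP7Z.A3.A5M

namespace MP7Z.A3

open Matrix A5M

/-- **A5.** -/
theorem tA5 : A5Stmt := by
  classical
  let F := GaloisField 2 2
  have hF : Nat.card F = 4 := by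
    rw [GaloisField.card 2 2 two_ne_zero]
    rfl
  refine ⟨F, inferInstance, hF, ?_⟩
  have hH : Nat.card (SpecialLinearGroup (Fin 2) F) = 60 := card_SL hF
  have hq : Nat.card (SpecialLinearGroup (Fin 2) F ⧸
      Subgroup.center (SpecialLinearGroup (Fin 2) F)) = 60 := by
    have h1 := Subgroup.card_eq_card_quotient_mul_card_subgroup
      (Subgroup.center (SpecialLinearGroup (Fin 2) F))
    rw [hH, center_bot, Subgroup.card_bot, mul_one] at h1
    rw [center_bot]
    exact h1.symm
  have hP : Nat.card (Projectivization F (Fin 2 → F)) = 5 := by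
    rw [Projectivization.card_of_finrank_two (k := F) (V := Fin 2 → F) (by simp), hF]
  have : Finite (Projectivization F (Fin 2 → F)) := Nat.finite_of_card_ne_zero (by rw [hP]; norm_num)
  let e : Projectivization F (Fin 2 → F) ≃ Fin 5 := Finite.equivFinOfCardEq hP
  let φ : SpecialLinearGroup (Fin 2) F ⧸ Subgroup.center (SpecialLinearGroup (Fin 2) F) →*
      Equiv.Perm (Fin 5) :=
    (e.permCongrHom : Equiv.Perm (Projectivization F (Fin 2 → F)) ≃* Equiv.Perm (Fin 5)).toMonoidHom.comp
      (Projectivization.PSLAction.toPermHom (K := F) (ι := Fin 2))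
  have hφ : Function.Injective φ :=
    e.permCongrHom.injective.comp Matrix.ProjectiveSpecialLinearGroup.toPermHom_injective
  have hr : Nat.card φ.range = 60 := by
    rw [← hq]
    exact (Nat.card_congr (MonoidHom.ofInjective hφ).toEquiv).symm
  have hi : φ.range.index = 2 := by
    have h1 := Subgroup.card_mul_index φ.range
    rw [hr, Nat.card_eq_fintype_card, Fintype.card_perm, Fintype.card_fin] at h1
    have h2 : Nat.factorial 5 = 120 := rfl
    rw [h2] at h1
    omega
  have hA : φ.range = alternatingGroup (Fin 5) := Equiv.Perm.eq_alternatingGroup_of_index_eq_two hi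
  exact ⟨(MulEquiv.subgroupCongr hA.symm).trans (MonoidHom.ofInjective hφ).symm⟩

end MP7Z.A3
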