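import Pool.Agent.Lib.MP_7f581e_Z.Alt3.Spec

/-!
# Alt3, task AlgI: independent parameters from a linear substitution
-/

set_option autoImplicit false

namespace MP7Z.A3

namespace AlgIM

variable {Ω N : Type} [Field Ω] [Field N] [Algebra Ω N]

/-- The inverse of the Vandermonde matrix. -/
theorem exists_inv {k : ℕ} (θ : Fin k → Ω) (hθ : Function.Injective θ) :
    ∃ M : Fin k → Fin k → Ω,
      (∀ l l' : Fin k, ∑ j, M l j * θ j ^ (l' : ℕ) = if l = l' then 1 else 0) ∧
      ∀ j j', ∑ l : Fin k, θ j ^ (l : ℕ) * M l j' = if j = j' then 1 else 0 := by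
  classical
  have hdet : IsUnit (Matrix.vandermonde θ).det :=
    isUnit_iff_ne_zero.2 (Matrix.det_vandermonde_ne_zero_iff.2 hθ)
  refine ⟨((Matrix.vandermonde θ)⁻¹ : Matrix (Fin k) (Fin k) Ω), ?_, ?_⟩
  · intro l l'
    have h := congrFun (congrFun (Matrix.nonsing_inv_mul _ hdet) l) l'
    rw [Matrix.mul_apply, Matrix.one_apply] at h
    simpa [Matrix.vandermonde_apply] using h
  · intro j j'
    have h := congrFun (congrFun (Matrix.mul_nonsing_inv _ hdet) j) j'
    rw [Matrix.mul_apply, Matrix.one_apply] at h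
    simpa [Matrix.vandermonde_apply] using h

variable {k r : ℕ} {U : Fin k × Fin r → N} {θ : Fin k → Ω} {v : Fin k → Fin r → N}

theorem U_eq (M : Fin k → Fin k → Ω)
    (hM : ∀ l l' : Fin k, ∑ j, M l j * θ j ^ (l' : ℕ) = if l = l' then 1 else 0)
    (hv : ∀ j i, v j i = ∑ l : Fin k, algebraMap Ω N (θ j) ^ (l : ℕ) * U (l, i)) (l : Fin k)
    (i : Fin r) : U (l, i) = ∑ j, algebraMap Ω N (M l j) * v j i := by
  classical
  have h1 : ∀ j, algebraMap Ω N (M l j) * v j i =
      ∑ l' : Fin k, algebraMap Ω N (M l j * θ j ^ (l' : ℕ)) * U (l', i) := by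
    intro j
    rw [hv, Finset.mul_sum]
    refine Finset.sum_congr rfl fun l' _ => ?_
    rw [map_mul, map_pow, mul_assoc]
  simp only [h1]
  rw [Finset.sum_comm]
  have h2 : ∀ l' : Fin k, ∑ j, algebraMap Ω N (M l j * θ j ^ (l' : ℕ)) * U (l', i) =
      if l = l' then U (l', i) else 0 := by
    intro l'
    rw [← Finset.sum_mul, ← map_sum, hM]
    split_ifs <;> simp
  simp only [h2]
  rw [Finset.sum_ite_eq, if_pos (Finset.mem_univ _)]

/-- The new family is algebraically independent. -/
theorem indep (hU : AlgebraicIndependent Ω U) (M : Fin k → Fin k → Ω)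
    (hM : ∀ j j', ∑ l : Fin k, θ j ^ (l : ℕ) * M l j' = if j = j' then 1 else 0)
    (hv : ∀ j i, v j i = ∑ l : Fin k, algebraMap Ω N (θ j) ^ (l : ℕ) * U (l, i)) :
    AlgebraicIndependent Ω (fun q : Fin k × Fin r => v q.1 q.2) := by
  classical
  let φ : MvPolynomial (Fin k × Fin r) Ω →ₐ[Ω] MvPolynomial (Fin k × Fin r) Ω :=
    MvPolynomial.aeval fun q => ∑ l : Fin k, MvPolynomial.C (θ q.1 ^ (l : ℕ)) *
      MvPolynomial.X (l, q.2)
  let ψ : MvPolynomial (Fin k × Fin r) Ω →ₐ[Ω] MvPolynomial (Fin k × Fin r) Ω :=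
    MvPolynomial.aeval fun q => ∑ j : Fin k, MvPolynomial.C (M q.1 j) * MvPolynomial.X (j, q.2)
  have h1 : ψ.comp φ = AlgHom.id Ω _ := by
    apply MvPolynomial.algHom_ext
    rintro ⟨j, i⟩
    rw [AlgHom.comp_apply, AlgHom.id_apply]
    change ψ (MvPolynomial.aeval _ (MvPolynomial.X (j, i))) = _
    rw [MvPolynomial.aeval_X, map_sum]
    have h2 : ∀ l : Fin k, ψ (MvPolynomial.C (θ j ^ (l : ℕ)) * MvPolynomial.X (l, i)) =
        ∑ j' : Fin k, MvPolynomial.C (θ j ^ (l : ℕ) * M l j') * MvPolynomial.X (j', i) := by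
      intro l
      rw [map_mul]
      change MvPolynomial.aeval _ (MvPolynomial.C _) * MvPolynomial.aeval _ (MvPolynomial.X _) = _
      rw [MvPolynomial.aeval_C, MvPolynomial.aeval_X, Finset.mul_sum]
      refine Finset.sum_congr rfl fun j' _ => ?_
      rw [MvPolynomial.algebraMap_eq, MvPolynomial.C_mul, mul_assoc]
    simp only [h2]
    rw [Finset.sum_comm]
    have h3 : ∀ j' : Fin k, ∑ l : Fin k, (MvPolynomial.C (θ j ^ (l : ℕ) * M l j') *
        MvPolynomial.X (j', i) : MvPolynomial (Fin k × Fin r) Ω) =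
        if j = j' then MvPolynomial.X (j', i) else 0 := by
      intro j'
      rw [← Finset.sum_mul, ← map_sum, hM]
      split_ifs <;> simp
    simp only [h3]
    rw [Finset.sum_ite_eq, if_pos (Finset.mem_univ _)]
  have h4 : Function.Injective φ := by
    intro a b hab
    have h5 := congrArg ψ hab
    rw [← AlgHom.comp_apply, ← AlgHom.comp_apply, h1] at h5
    exact h5
  have h6 : MvPolynomial.aeval (R := Ω) (fun q : Fin k × Fin r => v q.1 q.2) =
      (MvPolynomial.aeval U).comp φ := by
    apply MvPolynomial.algHom_ext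
    rintro ⟨j, i⟩
    rw [AlgHom.comp_apply, MvPolynomial.aeval_X]
    change v j i = MvPolynomial.aeval U (MvPolynomial.aeval _ (MvPolynomial.X (j, i)))
    rw [MvPolynomial.aeval_X, map_sum, hv]
    refine Finset.sum_congr rfl fun l _ => ?_
    rw [map_mul, MvPolynomial.aeval_C, MvPolynomial.aeval_X, map_pow]
  have h7 : Function.Injective (MvPolynomial.aeval (R := Ω)
      (fun q : Fin k × Fin r => v q.1 q.2)) := by
    rw [h6]
    intro a b hab
    exact h4 (hU hab)
  exact h7

end AlgIM

open AlgIM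

theorem tAlgI : AlgIStmt := by
  intro Ω N _ _ _ _ k r U hU halg θ hθ v hv j₀
  obtain ⟨M, hM1, hM2⟩ := exists_inv θ hθ
  have hUeq := U_eq M hM1 hv
  have hvi := indep hU M hM2 hv
  let S : Set N := (fun q : Fin k × Fin r => v q.1 q.2) '' {q | q.1 = j₀}ᶜ
  let K₁ : IntermediateField Ω N := IntermediateField.adjoin Ω S
  let L₁ : IntermediateField K₁ N := algebraicClosure K₁ N
  let L : IntermediateField Ω N := L₁.restrictScalars Ω
  have hL₁ : IsAlgClosed L₁ := (algebraicClosure.isAlgClosure K₁ N).1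
  have hmem : ∀ j, j ≠ j₀ → ∀ i, v j i ∈ L := by
    intro j hj i
    have h1 : v j i ∈ K₁ := IntermediateField.subset_adjoin Ω S ⟨(j, i), hj, rfl⟩
    exact L₁.algebraMap_mem ⟨v j i, h1⟩
  have hind : AlgebraicIndependent L (v j₀) := by
    have h1 := (AlgebraicIndependent.iff_adjoin_image_compl {q : Fin k × Fin r | q.1 = j₀}).1 hvi
    have h2 : AlgebraicIndependent (Algebra.adjoin Ω S)
        (fun q : {q : Fin k × Fin r // q.1 = j₀} => v q.1.1 q.1.2) := h1.2
    let e : Fin r → {q : Fin k × Fin r // q.1 = j₀} := fun i => ⟨(j₀, i), rfl⟩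
    have he : Function.Injective e := by
      intro a b hab
      exact congrArg (fun q : {q : Fin k × Fin r // q.1 = j₀} => q.1.2) hab
    have h3 : AlgebraicIndependent (Algebra.adjoin Ω S) (v j₀) := h2.comp e he
    have h4 : AlgebraicIndependent K₁ (v j₀) :=
      IntermediateField.algebraicIndependent_adjoin_iff.2 h3
    exact h4.algebraicClosure
  refine ⟨L, hL₁, hmem, hind, ?_, ?_⟩
  · have hsub : ∀ x ∈ IntermediateField.adjoin Ω (Set.range U),
        x ∈ IntermediateField.adjoin L (Set.range (v j₀)) := by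
      have h1 : IntermediateField.adjoin Ω (Set.range U) ≤
          (IntermediateField.adjoin L (Set.range (v j₀))).restrictScalars Ω := by
        rw [IntermediateField.adjoin_le_iff]
        rintro _ ⟨⟨l, i⟩, rfl⟩
        change U (l, i) ∈ IntermediateField.adjoin L (Set.range (v j₀))
        rw [hUeq l i]
        refine sum_mem fun j _ => mul_mem ?_ ?_
        · exact (IntermediateField.adjoin L (Set.range (v j₀))).algebraMap_mem
            (algebraMap Ω L (M l j))
        · by_cases hj : j = j₀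
          · rw [hj]
            exact IntermediateField.subset_adjoin _ _ ⟨i, rfl⟩
          · exact (IntermediateField.adjoin L (Set.range (v j₀))).algebraMap_mem
              ⟨v j i, hmem j hj i⟩
      exact fun x hx => h1 hx
    let ι : IntermediateField.adjoin Ω (Set.range U) →+*
        IntermediateField.adjoin L (Set.range (v j₀)) :=
      { toFun := fun x => ⟨x.1, hsub x.1 x.2⟩
        map_one' := rfl
        map_mul' := fun _ _ => rfl
        map_zero' := rfl
        map_add' := fun _ _ => rfl }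
    letI : Algebra (IntermediateField.adjoin Ω (Set.range U))
      (IntermediateField.adjoin L (Set.range (v j₀))) := ι.toAlgebra
    haveI : IsScalarTower (IntermediateField.adjoin Ω (Set.range U))
      (IntermediateField.adjoin L (Set.range (v j₀))) N := IsScalarTower.of_algebraMap_eq' rfl
    haveI := halg
    exact Algebra.IsAlgebraic.tower_top (K := IntermediateField.adjoin Ω (Set.range U)) _
  · rintro σ hσ ⟨l, i⟩
    rw [hUeq l i, map_sum]
    refine Finset.sum_congr rfl fun j _ => ?_
    rw [map_mul, hσ, AlgEquiv.commutes]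

end MP7Z.A3
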