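import Pool.Agent.Lib.MP_7f581e_Z.Alt3.Spec

/-!
# Alternating groups of small degree: assembly
-/

set_option autoImplicit false

namespace MP7Z.A3

open Polynomial MP7Z

/-- Degrees `p` and `p + 2`. -/
theorem sysO (hK : SysKStmt) (hTy : OTyStmt) (hDisc : ODiscStmt) (hLab : OLabStmt)
    (hLoc : OLocStmt) (hTr : OTrStmt) (hPr : OPrStmt) (hGen : OGenStmt) (p : ℕ) [Fact p.Prime]
    (h5 : 5 ≤ p) : SysA p p ∧ SysA p (p + 2) := by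
  obtain ⟨⟨t, h1, h2⟩, ⟨t', h1', h2'⟩⟩ := hTy p h5
  obtain ⟨c, hc⟩ := hDisc p p t
  obtain ⟨c', hc'⟩ := hDisc p (p + 2) t'
  constructor
  · obtain ⟨hl, hs, hn⟩ := hLab p p t c (by omega) hc
    refine hK p p 1 (t.fam c) h5 ⟨hl, hs, hLoc p p t c, hGen p p t c hc ?_, hn⟩
    intro L N _ _ _ _ _ _ _ _ κ hκ halg y hy hf
    have htr : MulAction.IsPretransitive (PermGrp L {κ} y) (Fin p) := by
      refine ⟨fun i l => ?_⟩
      obtain ⟨ρ, hρ, hρ'⟩ := (hTr p p t L N κ hκ halg y hy hf).1 i l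
      exact ⟨⟨ρ, hρ⟩, hρ'⟩
    refine MulAction.IsPreprimitive.of_prime_card ?_
    rw [Nat.card_eq_fintype_card, Fintype.card_fin]
    exact Fact.out
  · obtain ⟨hl, hs, hn⟩ := hLab p (p + 2) t' c' (by omega) hc'
    exact hK p (p + 2) 1 (t'.fam c') (by omega)
      ⟨hl, hs, hLoc p (p + 2) t' c', hGen p (p + 2) t' c' hc' (hPr p h5 t' h1' h2'), hn⟩

/-- Degree `p + 1`. -/
theorem sysN (hK : SysKStmt) (hLab : NLabStmt) (hLoc : NLocStmt) (hGen : NGenStmt) (p : ℕ)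
    [Fact p.Prime] (h5 : 5 ≤ p) : SysA p (p + 1) := by
  have h2 : p ≠ 2 := by omega
  obtain ⟨hl, hs, hn⟩ := hLab p h2 h5
  exact hK p (p + 1) 1 (nfam p h2) (by omega) ⟨hl, hs, hLoc p h2 h5, hGen p h2 h5, hn⟩

/-- Characteristic two. -/
theorem sysB (hK : SysKStmt) (hLab : BLabStmt) (hLoc : BLocStmt) (hGen : BGenStmt)
    (hTy : BTyStmt) (h7 : BC7Stmt) (h8 : BC8Stmt) (h9 : BC9Stmt) (h10 : BC10Stmt) (n : ℕ)
    (hn : 7 ≤ n) (hn' : n ≤ 10) : SysA 2 n := by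
  have key : ∀ (n : ℕ) (t : BType n), (∃ c, BCls t c) → SysA 2 n := by
    rintro n t ⟨c, hc⟩
    obtain ⟨hl, hs, hn⟩ := hLab n t c hc
    exact hK 2 n 2 (t.fam c) (by have := t.le; omega) ⟨hl, hs, hLoc n t c, hGen n t c, hn⟩
  obtain ⟨⟨t7, a7, b7⟩, ⟨t8, a8, b8⟩, ⟨t9, a9, b9⟩, ⟨t10, a10, b10⟩⟩ := hTy
  obtain rfl | rfl | rfl | rfl : n = 7 ∨ n = 8 ∨ n = 9 ∨ n = 10 := by omega
  · exact key 7 t7 (h7 t7 a7 b7)
  · exact key 8 t8 (h8 t8 a8 b8)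
  · exact key 9 t9 (h9 t9 a9 b9)
  · exact key 10 t10 (h10 t10 a10 b10)

/-- The small degrees. -/
theorem small_step (hK : SysKStmt) (hTy : OTyStmt) (hDisc : ODiscStmt) (hOLab : OLabStmt)
    (hOLoc : OLocStmt) (hTr : OTrStmt) (hPr : OPrStmt) (hOGen : OGenStmt)
    (hNLab : NLabStmt) (hNLoc : NLocStmt) (hNGen : NGenStmt)
    (hBLab : BLabStmt) (hBLoc : BLocStmt) (hBGen : BGenStmt)
    (hBTy : BTyStmt) (h7 : BC7Stmt) (h8 : BC8Stmt) (h9 : BC9Stmt) (h10 : BC10Stmt)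
    (hStep : StepAStmt) (p n : ℕ) [Fact p.Prime] (h5 : 5 ≤ n) (h6 : n ≠ 6)
    (h : (5 ≤ p ∧ p ≤ n ∧ n ≤ p + 2) ∨ (p = 2 ∧ 7 ≤ n ∧ n ≤ 10)) :
    LieStep p (fun S [Group S] => Nonempty (S ≃* alternatingGroup (Fin n))) := by
  refine hStep p n h5 h6 ?_
  rcases h with ⟨hp, h1, h2⟩ | ⟨rfl, h1, h2⟩
  · obtain rfl | rfl | rfl : n = p ∨ n = p + 1 ∨ n = p + 2 := by omega
    · exact (sysO hK hTy hDisc hOLab hOLoc hTr hPr hOGen n hp).1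
    · exact sysN hK hNLab hNLoc hNGen p hp
    · exact (sysO hK hTy hDisc hOLab hOLoc hTr hPr hOGen p hp).2
  · exact sysB hK hBLab hBLoc hBGen hBTy h7 h8 h9 h10 n h1 h2

end MP7Z.A3
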