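import Pool.Agent.Lib.MP_7f581e_Z.Alt3.Spec

/-! # Pencils `α A + B` have transitive groups -/

set_option autoImplicit false

namespace MP7Z.A3

open Polynomial MP7Z IntermediateField

namespace AutLinP

variable {F N : Type} [Field F] [Field N] [Algebra F N]

theorem aeval_mem_adj (y : N) (B : F[X]) : aeval y B ∈ F⟮y⟯ := by
  have h := Polynomial.aeval_mem_adjoin_singleton F y (p := B)
  exact IntermediateField.algebra_adjoin_le_adjoin F {y} h

theorem eq_div {α y : N} {A B : F[X]} (hA : aeval y A ≠ 0)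
    (hy : α * aeval y A + aeval y B = 0) : α = -(aeval y B) / aeval y A := by
  rw [eq_div_iff hA]
  linear_combination hy

theorem aeval_ne {α y : N} {A B : F[X]} (hAB : IsCoprime A B)
    (hy : α * aeval y A + aeval y B = 0) : aeval y A ≠ 0 := by
  intro h
  have hB : aeval y B = 0 := by simpa [h] using hy
  obtain ⟨u, v, huv⟩ := hAB
  have := congrArg (aeval y) huv
  simp [h, hB] at this

theorem mem_adj {α y : N} {A B : F[X]} (hAB : IsCoprime A B)
    (hy : α * aeval y A + aeval y B = 0) : α ∈ F⟮y⟯ := by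
  rw [eq_div (aeval_ne hAB hy) hy]
  exact div_mem (neg_mem (aeval_mem_adj y B)) (aeval_mem_adj y A)

theorem trans_root {α y : N} (hα : Transcendental F α) {A B : F[X]} (hAB : IsCoprime A B)
    (hy : α * aeval y A + aeval y B = 0) : Transcendental F y := by
  intro halg
  apply hα
  have h1 : F⟮y⟯ ≤ algebraicClosure F N := by
    rw [IntermediateField.adjoin_le_iff]
    intro t ht
    rw [Set.mem_singleton_iff.1 ht]
    exact mem_algebraicClosure_iff.2 halg
  exact mem_algebraicClosure_iff.1 (h1 (mem_adj hAB hy))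

theorem alg_of_le {K K' : IntermediateField F N} (h : K ≤ K') [Algebra.IsAlgebraic K N] :
    Algebra.IsAlgebraic K' N := by
  let _ : Algebra K K' := (IntermediateField.inclusion h).toRingHom.toAlgebra
  have : IsScalarTower K K' N := IsScalarTower.of_algebraMap_eq fun _ => rfl
  exact Algebra.IsAlgebraic.tower_top (K := K) K'

end AutLinP

open AutLinP

theorem tAutLin : AutLinStmt := by
  intro F N _ _ _ _ α hα halg A B hAB y z hy hz
  have hyt : Transcendental F y := trans_root hα hAB hy
  have hzt : Transcendental F z := trans_root hα hAB hz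
  have hly : F⟮α⟯ ≤ F⟮y⟯ := by
    rw [IntermediateField.adjoin_le_iff]
    intro t ht
    rw [Set.mem_singleton_iff.1 ht]
    exact mem_adj hAB hy
  have hlz : F⟮α⟯ ≤ F⟮z⟯ := by
    rw [IntermediateField.adjoin_le_iff]
    intro t ht
    rw [Set.mem_singleton_iff.1 ht]
    exact mem_adj hAB hz
  have := alg_of_le hly
  have := alg_of_le hlz
  have : IsAlgClosure F⟮y⟯ N := ⟨inferInstance, inferInstance⟩
  have : IsAlgClosure F⟮z⟯ N := ⟨inferInstance, inferInstance⟩
  let e : F⟮y⟯ ≃ₐ[F] F⟮z⟯ :=
    (RatFunc.algEquivOfTranscendental y hyt).symm.trans (RatFunc.algEquivOfTranscendental z hzt)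
  have he : e (AdjoinSimple.gen F y) = AdjoinSimple.gen F z := by
    simp only [e, AlgEquiv.trans_apply, RatFunc.algEquivOfTranscendental_symm_gen]
    apply Subtype.ext
    simp
  let σ₀ : N ≃+* N := IsAlgClosure.equivOfEquiv N N e.toRingEquiv
  have hσ₀ : ∀ s : F⟮y⟯, σ₀ (algebraMap F⟮y⟯ N s) = algebraMap F⟮z⟯ N (e s) := fun s =>
    IsAlgClosure.equivOfEquiv_algebraMap N N e.toRingEquiv s
  let σ : N ≃ₐ[F] N := AlgEquiv.ofRingEquiv (f := σ₀) (fun r => by
    have h1 := hσ₀ (algebraMap F F⟮y⟯ r)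
    rw [AlgEquiv.commutes] at h1
    exact h1)
  have hσy : σ y = z := by
    have h1 := hσ₀ (AdjoinSimple.gen F y)
    rw [he] at h1
    exact h1
  refine ⟨σ, ?_, hσy⟩
  have h1 := congrArg σ hy
  have h2 : ∀ Q : F[X], σ (aeval y Q) = aeval z Q := fun Q => by
    rw [← hσy]
    exact (Polynomial.aeval_algHom_apply σ.toAlgHom y Q).symm
  rw [map_add, map_mul, map_zero, h2, h2] at h1
  have h3 : aeval z A ≠ 0 := aeval_ne hAB hz
  exact mul_right_cancel₀ h3 (by linear_combination h1 - hz)

end MP7Z.A3
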