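import Pool.Agent.Lib.MP_7f581e_Z.Alt3.Spec

/-!
# The generic group in characteristic two contains a three-cycle
-/

set_option autoImplicit false

namespace MP7Z.A3
namespace B3CM

open Polynomial MP7Z

section field

variable {L N : Type} [Field L] [Field N] [Algebra L N]

theorem alg_mono {K₁ K₂ : IntermediateField L N}
    (h : K₁ ≤ K₂) (ha : Algebra.IsAlgebraic K₁ N) : Algebra.IsAlgebraic K₂ N := by
  let _ : Algebra K₁ K₂ := (IntermediateField.inclusion h).toRingHom.toAlgebra
  have : IsScalarTower K₁ K₂ N := .of_algebraMap_eq (fun _ => rfl)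
  exact Algebra.IsAlgebraic.tower_top (K := K₁) K₂

/-- The elements algebraic over `L(a)`. -/
noncomputable def cl (L : Type) {N : Type} [Field L] [Field N] [Algebra L N] (a : N) :
    IntermediateField L N :=
  (algebraicClosure (IntermediateField.adjoin L {a}) N).restrictScalars L

theorem mem_cl {a z : N} : z ∈ cl L a ↔ IsAlgebraic (IntermediateField.adjoin L {a}) z := by
  rw [cl, IntermediateField.mem_restrictScalars, mem_algebraicClosure_iff]

theorem self_mem_cl (a : N) : a ∈ cl L a := by
  rw [mem_cl]
  exact isAlgebraic_algebraMap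
    (⟨a, IntermediateField.mem_adjoin_simple_self L a⟩ : IntermediateField.adjoin L {a})

open scoped IntermediateField.algebraAdjoinAdjoin in
theorem no2 {U T : N} (hUT : AlgebraicIndependent L ![U, T])
    (halg : Algebra.IsAlgebraic (IntermediateField.adjoin L {U, T}) N) (a : N)
    (hU : U ∈ cl L a) (hT : T ∈ cl L a) : False := by
  have h1 : IntermediateField.adjoin L {U, T} ≤ cl L a := by
    rw [IntermediateField.adjoin_le_iff]
    rintro z (rfl | hz)
    · exact hU
    · rw [Set.mem_singleton_iff] at hz
      rw [hz]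
      exact hT
  have h2 : Algebra.IsAlgebraic (cl L a) N := alg_mono h1 halg
  have h3 : Algebra.IsAlgebraic (IntermediateField.adjoin L {a}) N := by
    have h2' : Algebra.IsAlgebraic (algebraicClosure (IntermediateField.adjoin L {a}) N) N := h2
    exact Algebra.IsAlgebraic.trans (IntermediateField.adjoin L {a})
      (algebraicClosure (IntermediateField.adjoin L {a}) N) N
  have h4 : Algebra.IsAlgebraic (Algebra.adjoin L {a}) N :=
    (IsFractionRing.comap_isAlgebraic_iff (A := Algebra.adjoin L {a})
      (K := IntermediateField.adjoin L {a}) (C := N)).mpr h3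
  have h5 : Algebra.trdeg L N ≤ 1 := by
    have := Algebra.IsAlgebraic.trdeg_le_cardinalMk (R := L) (A := N) {a}
    simpa using this
  have h6 : 2 ≤ Algebra.trdeg L N := by
    have := hUT.cardinalMk_le_trdeg
    simpa using this
  have h7 := h6.trans h5
  norm_num at h7

theorem closed_cl [IsAlgClosed N] (a : N) : IsAlgClosed (cl L a) := by
  have h : IsAlgClosure (IntermediateField.adjoin L {a})
      (algebraicClosure (IntermediateField.adjoin L {a}) N) := inferInstance
  exact h.isAlgClosed

theorem mem_cl_of_alg {a z : N} (h : IsAlgebraic (cl L a) z) : z ∈ cl L a := by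
  rw [mem_cl]
  have h' : IsAlgebraic (algebraicClosure (IntermediateField.adjoin L {a}) N) z := h
  exact h'.restrictScalars (IntermediateField.adjoin L {a})

theorem alg_adjoin {A κ : N} (halg : Algebra.IsAlgebraic (IntermediateField.adjoin L {A, κ}) N)
    (F : IntermediateField L N) (hA : A ∈ (IntermediateField.adjoin F {κ}).restrictScalars L) :
    Algebra.IsAlgebraic (IntermediateField.adjoin F {κ}) N := by
  have h1 : IntermediateField.adjoin L {A, κ} ≤
      (IntermediateField.adjoin F {κ}).restrictScalars L := by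
    rw [IntermediateField.adjoin_le_iff]
    rintro z (rfl | hz)
    · exact hA
    · rw [Set.mem_singleton_iff] at hz
      rw [hz]
      exact IntermediateField.mem_adjoin_simple_self F κ
  have h2 := alg_mono h1 halg
  exact h2

end field

end B3CM

open Polynomial MP7Z B3CM in
theorem tB3C (h0 : CycStmt) (h1 : BSepStmt) : B3CStmt := by
  intro n t L N _ _ _ _ _ _ _ A κ hind halg y hy hf
  have hκ0 : κ ≠ 0 := by
    have := hind.ne_zero 1
    simpa using this
  set a := A / κ with ha
  have haκ : a * κ = A := by rw [ha, div_mul_cancel₀ _ hκ0]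
  have hcl : IsAlgClosed (cl L a) := closed_cl a
  have hκ : Transcendental (cl L a) κ := by
    intro h
    have hk := mem_cl_of_alg h
    refine no2 hind halg a ?_ hk
    rw [← haκ]
    exact mul_mem (self_mem_cl a) hk
  let aF : cl L a := ⟨a, self_mem_cl a⟩
  have haF : algebraMap (cl L a) N aF = a := rfl
  have hA : A ∈ (IntermediateField.adjoin (cl L a) {κ}).restrictScalars L := by
    rw [← haκ, IntermediateField.mem_restrictScalars]
    refine mul_mem ?_ (IntermediateField.mem_adjoin_simple_self _ κ)
    rw [← haF]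
    exact IntermediateField.algebraMap_mem _ aF
  have halgF := alg_adjoin halg (cl L a) hA
  obtain ⟨-, hsep⟩ := h1 n t (cl L a)
  have hRm : (t.R.map (algebraMap (ZMod 2) (cl L a))).Monic := t.hR.map _
  have hRz : (t.R.map (algebraMap (ZMod 2) (cl L a))).eval 0 = 1 := by
    rw [← map_zero (algebraMap (ZMod 2) (cl L a)), eval_map, eval₂_at_apply, t.R_zero, map_one]
  have hPz : (t.P.map (algebraMap (ZMod 2) (cl L a))).eval 0 = 1 := by
    rw [← map_zero (algebraMap (ZMod 2) (cl L a)), eval_map, eval₂_at_apply, t.P_zero, map_one]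
  have h3 : ((3 : ℕ) : cl L a) ≠ 0 := by
    have h2 := two_eq_zero' (cl L a)
    have : ((3 : ℕ) : cl L a) = 1 := by
      push_cast
      linear_combination h2
    rw [this]
    exact one_ne_zero
  have hdeg0 : (X ^ 3 * t.R.map (algebraMap (ZMod 2) (cl L a))).natDegree = n := by
    rw [(monic_X_pow 3).natDegree_mul hRm, natDegree_X_pow, t.hR.natDegree_map]
    have := t.hn
    omega
  have hdeg1 : (t.P.map (algebraMap (ZMod 2) (cl L a)) * (1 + C aF * X ^ 2)).natDegree < n := by
    refine lt_of_le_of_lt natDegree_mul_le (lt_of_le_of_lt (add_le_add natDegree_map_le ?_) t.hP)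
    compute_degree
  have hT : ((algebraMap (cl L a) N).comp (algebraMap (ZMod 2) (cl L a))) =
      algebraMap (ZMod 2) N := Subsingleton.elim _ _
  obtain ⟨ρ, hρ, hcyc, hcard⟩ := h0 (cl L a) N κ hκ halgF n 3
    (X ^ 3 * t.R.map (algebraMap (ZMod 2) (cl L a)))
    (t.P.map (algebraMap (ZMod 2) (cl L a)) * (1 + C aF * X ^ 2))
    (t.R.map (algebraMap (ZMod 2) (cl L a))) 0 0 (by norm_num) h3 hdeg0 hdeg1
    (by rw [C_0, zero_mul, add_zero, sub_zero]) hsep (by rw [hRz]; exact one_ne_zero)
    (by
      rw [eval_mul, hPz]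
      simp)
    1 y hy (by
      rw [C_1, one_mul, ← hf, BType.f]
      simp only [Polynomial.map_mul, Polynomial.map_pow, map_X, Polynomial.map_map, hT,
        Polynomial.map_add, Polynomial.map_one, map_C, haF]
      rw [← haκ]
      simp only [map_mul]
      ring)
  refine ⟨ρ, ?_, card_support_eq_three_iff.1 hcard⟩
  rw [mem_permGrp] at hρ ⊢
  obtain ⟨σ, hσ, hσy⟩ := hρ
  refine ⟨σ.restrictScalars L, ?_, hσy⟩
  have hσκ : σ κ = κ := hσ κ rfl
  have hσa : σ a = a := σ.commutes aF
  rintro z (rfl | hz)
  · show σ z = z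
    rw [← haκ, map_mul, hσκ, hσa]
  · rw [Set.mem_singleton_iff] at hz
    rw [hz]
    exact hσκ

end MP7Z.A3
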