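import Pool.Agent.Lib.MP_7f581e_Z.Alt3.Spec

/-!
# The sign class in degree `10` (`BC10Stmt`)
-/

set_option autoImplicit false

namespace MP7Z.A3

open Polynomial MP7Z

namespace BC10M

variable {F : Type} [Field F] [Algebra (ZMod 2) F]

/-- the polynomial of degree `10` -/
noncomputable def g (A κ : F) : F[X] := X ^ 10 + X ^ 3 + C A * X ^ 2 + C κ

theorem der_g (A κ : F) : derivative (g A κ) = X ^ 2 := by
  have h2 := two_eq_zero' F
  have e10 : ((10 : ℕ) : F) = 0 := by
    push_cast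
    linear_combination 5 * h2
  have e2 : ((2 : ℕ) : F) = 0 := by
    push_cast
    exact h2
  have e3 : ((3 : ℕ) : F) = 1 := by
    push_cast
    linear_combination h2
  rw [g, derivative_add, derivative_add, derivative_add, derivative_C_mul_X_pow, derivative_X_pow,
    derivative_X_pow, derivative_C, e2, e3, e10, mul_zero, C_0, C_1, zero_mul, zero_mul, one_mul,
    zero_add, add_zero, add_zero]

theorem h2_g (A κ : F) : hasseDeriv 2 (g A κ) = X ^ 8 + X + C A := by
  have h2 := two_eq_zero' F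
  have e1 : hasseDeriv 2 ((X : F[X]) ^ 10) = X ^ 8 := by
    rw [← monomial_one_right_eq_X_pow, hasseDeriv_monomial]
    have h3 : ((Nat.choose 10 2 : ℕ) : F) = 1 := by
      rw [show Nat.choose 10 2 = 45 from rfl]
      push_cast
      linear_combination 22 * h2
    rw [h3, mul_one]
    exact monomial_one_right_eq_X_pow 8
  have e2 : hasseDeriv 2 ((X : F[X]) ^ 3) = X := by
    rw [← monomial_one_right_eq_X_pow, hasseDeriv_monomial]
    have h3 : ((Nat.choose 3 2 : ℕ) : F) = 1 := by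
      rw [show Nat.choose 3 2 = 3 from rfl]
      push_cast
      linear_combination h2
    rw [h3, mul_one]
    exact monomial_one_one_eq_X
  have e3 : hasseDeriv 2 (C A * X ^ 2) = C A := by
    rw [C_mul_X_pow_eq_monomial, hasseDeriv_monomial]
    simp
  have e4 : hasseDeriv 2 (C κ : F[X]) = 0 := by
    rw [← monomial_zero_left, hasseDeriv_monomial]
    simp
  rw [g, map_add, map_add, map_add, e1, e2, e3, e4, add_zero]

theorem h3_g (A κ : F) : hasseDeriv 3 (g A κ) = 1 := by
  have h2 := two_eq_zero' F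
  have e1 : hasseDeriv 3 ((X : F[X]) ^ 10) = 0 := by
    rw [← monomial_one_right_eq_X_pow, hasseDeriv_monomial]
    have h3 : ((Nat.choose 10 3 : ℕ) : F) = 0 := by
      rw [show Nat.choose 10 3 = 120 from rfl]
      push_cast
      linear_combination 60 * h2
    rw [h3, zero_mul, monomial_zero_right]
  have e2 : hasseDeriv 3 ((X : F[X]) ^ 3) = 1 := by
    rw [← monomial_one_right_eq_X_pow, hasseDeriv_monomial]
    simp
  have e3 : hasseDeriv 3 (C A * X ^ 2) = 0 := by
    rw [C_mul_X_pow_eq_monomial, hasseDeriv_monomial]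
    simp
  have e4 : hasseDeriv 3 (C κ : F[X]) = 0 := by
    rw [← monomial_zero_left, hasseDeriv_monomial]
    simp
  rw [g, map_add, map_add, map_add, e1, e2, e3, e4, zero_add, add_zero, add_zero]

theorem coeff_g (A κ : F) : (g A κ).coeff 1 = 0 ∧ (g A κ).coeff 2 = A ∧ (g A κ).coeff 3 = 1 ∧
    (g A κ).coeff 4 = 0 ∧ (g A κ).coeff 5 = 0 ∧ (g A κ).coeff 6 = 0 := by
  refine ⟨?_, ?_, ?_, ?_, ?_, ?_⟩ <;> simp [g, coeff_X_pow, coeff_C]

/-- reversal -/
theorem prod_rev {n : ℕ} (y t : Fin n → F) (ht : ∀ i, y i * t i = 1) :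
    ∏ i, (X - C (y i)) = C (∏ i, y i) * ∏ i, (1 + C (t i) * X) := by
  have h2 := two_eq_zero' F
  rw [map_prod, ← Finset.prod_mul_distrib]
  refine Finset.prod_congr rfl fun i _ => ?_
  have h3 : (C (y i) * C (t i) : F[X]) = 1 := by rw [← C_mul, ht, C_1]
  have h4 : (2 : F[X]) = 0 := by
    have := congrArg (C : F →+* F[X]) h2
    rwa [map_ofNat, map_zero] at this
  linear_combination (-X) * h3 - C (y i) * h4

end BC10M

/-- **BC10.** -/
theorem tBC10 (hE2 : A2.E2Stmt) (hBB : A2.BBStmt) (hHD : A2.HDStmt) (hE6 : E6Stmt) :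
    BC10Stmt := by
  intro t htP htR
  obtain ⟨k₁, hk⟩ := hBB 10
  refine ⟨1 + k₁, ?_⟩
  intro F _ _ A κ y hκ hy hf
  have := AType2.charP F
  have h2 := two_eq_zero' F
  have hfg : t.f A κ = BC10M.g A κ := by
    rw [BType.f, htP, htR, BC10M.g]
    simp only [Polynomial.map_one, Polynomial.map_add, Polynomial.map_pow, map_X]
    ring
  rw [hfg] at hf
  have hf1 : BC10M.g A κ = C 1 * ∏ i, (X - C (y i)) := by rw [C_1, one_mul]; exact hf
  -- the roots
  have hroot : ∀ i, y i ^ 10 + y i ^ 3 + A * y i ^ 2 + κ = 0 := by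
    intro i
    have h1 : (BC10M.g A κ).eval (y i) = 0 := by
      rw [hf, eval_prod, Finset.prod_eq_zero (Finset.mem_univ i)]
      rw [eval_sub, eval_X, eval_C, sub_self]
    rw [BC10M.g] at h1
    simpa using h1
  have hy0 : ∀ i, y i ≠ 0 := by
    intro i h
    have h1 := hroot i
    rw [h] at h1
    apply hκ
    simpa using h1
  obtain ⟨s, hs⟩ : ∃ s : Fin 10 → F, s = fun i => (y i)⁻¹ := ⟨_, rfl⟩
  have hs' : ∀ i, y i * s i = 1 := fun i => by rw [hs]; exact mul_inv_cancel₀ (hy0 i)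
  have hrev := BC10M.prod_rev y s hs'
  have hprod : ∏ i, y i = κ := by
    have h1 : (BC10M.g A κ).eval 0 = κ := by
      rw [BC10M.g]
      simp
    rw [hf, hrev, eval_mul, eval_C, eval_prod] at h1
    simpa using h1
  rw [← hf, hprod] at hrev
  obtain ⟨e, he⟩ : ∃ e : ℕ → F, e = fun k => (∏ i, (1 + C (s i) * X) : F[X]).coeff k := ⟨_, rfl⟩
  have hek : ∀ k, (BC10M.g A κ).coeff k = κ * e k := by
    intro k
    rw [hrev, coeff_C_mul, he]
  obtain ⟨c1, c2, c3, c4, c5, c6⟩ := BC10M.coeff_g A κ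
  have z0 : ∀ k, (BC10M.g A κ).coeff k = 0 → e k = 0 := by
    intro k h
    rw [hek] at h
    exact (mul_eq_zero.1 h).resolve_left hκ
  have e1 := z0 1 c1
  have e4 := z0 4 c4
  have e5 := z0 5 c5
  have e6 := z0 6 c6
  have e2 : e 2 = A / κ := by
    rw [eq_div_iff hκ, mul_comm, ← hek, c2]
  have e3 : e 3 = 1 / κ := by
    rw [eq_div_iff hκ, mul_comm, ← hek, c3]
  have hsym := hE6 10 F s e (fun k => by rw [he])
  rw [e1, e2, e3, e4, e5, e6] at hsym
  have hD := hHD 10 F (BC10M.g A κ) 1 y hy one_ne_zero hf1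
  have hz : ∀ i, ∑ j ∈ Finset.univ.erase i, y i / (y i + y j) = κ * s i ^ 3 := by
    intro i
    have h1 := (hD i).2.1
    rw [BC10M.der_g, BC10M.h2_g] at h1
    simp only [eval_add, eval_pow, eval_X, eval_C] at h1
    have h4 := hy0 i
    have h5 := hroot i
    rw [eq_div_iff (pow_ne_zero 2 h4) |>.2 h1, hs]
    field_simp
    linear_combination h5 - κ * h2
  have hw : ∀ i, ∑ j ∈ Finset.univ.erase i, ∑ l ∈ (Finset.Ioi j).erase i,
      y i / (y i + y j) * (y i / (y i + y l)) = 1 := by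
    intro i
    have h1 := (hD i).2.2
    rw [BC10M.der_g, BC10M.h3_g] at h1
    simp only [eval_pow, eval_X, eval_one] at h1
    have h4 := hy0 i
    rw [eq_div_iff (pow_ne_zero 2 h4) |>.2 h1]
    field_simp
  have hne : ∀ i j, i ≠ j → y i + y j ≠ 0 := fun i j hij h => hij (hy (CharTwo.add_eq_zero.1 h))
  have hab : ∀ i j, i ≠ j → y i / (y i + y j) + y j / (y j + y i) = 1 := by
    intro i j hij
    rw [add_comm (y j) (y i), ← add_div, div_self (hne i j hij)]
  have hbb := hk F (fun i j => y i / (y i + y j)) hab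
  have hbeta : bsum y ^ 2 + bsum y =
      ∑ i, ∑ j ∈ Finset.Ioi i, y i / (y i + y j) * (y j / (y j + y i)) := by
    rw [bsum, sum_pow_char 2, ← Finset.sum_add_distrib]
    refine Finset.sum_congr rfl fun i _ => ?_
    rw [sum_pow_char 2, ← Finset.sum_add_distrib]
    refine Finset.sum_congr rfl fun j hj => ?_
    have hij : i ≠ j := (Finset.mem_Ioi.1 hj).ne
    have h3 : y j / (y j + y i) = 1 - y i / (y i + y j) := by
      rw [← hab i j hij]
      ring
    rw [h3]
    linear_combination (y i / (y i + y j)) ^ 2 * h2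
  simp only [hz, hw] at hbb
  rw [← hbeta] at hbb
  have E5 := (hE2 10 F (fun i => s i ^ 3) s κ).2.1
  rw [hsym] at E5
  rw [E5] at hbb
  have v3 : ∑ _i : Fin 10, (1 : F) = 0 := by
    rw [Finset.sum_const, Finset.card_univ, Fintype.card_fin, nsmul_eq_mul]
    push_cast
    linear_combination 5 * h2
  rw [v3] at hbb
  rw [map_add, map_one]
  have h7 : κ ^ 2 * ((A / κ) ^ 3 + 0 * (A / κ) * (1 / κ) + (1 / κ) ^ 2 + 0 ^ 2 * 0 + A / κ * 0 +
      0 * 0 + 0) = A ^ 3 / κ + 1 := by
    field_simp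
    ring
  rw [h7] at hbb
  linear_combination -hbb - (algebraMap (ZMod 2) F k₁) * h2

end MP7Z.A3
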