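import Pool.Agent.Lib.MP_7f581e_Z.Alt3.Spec
import Pool.Agent.Lib.MP_7f581e_Z.Alt2.TE

/-!
# The sign class in degree `7`
-/

set_option autoImplicit false

namespace MP7Z.A3

open Polynomial MP7Z

namespace BC7M

/-- The identity for the sign class when `z_i = 1 + A t_i` and `w_i = 1`. -/
theorem core (hE2 : A2.E2Stmt) (hBB : A2.BBStmt) (n : ℕ) : ∃ c : ZMod 2, ∀ (F : Type) [Field F]
    [Algebra (ZMod 2) F] (y t : Fin n → F) (A : F), Function.Injective y →
    (∀ i, ∑ j ∈ Finset.univ.erase i, y i / (y i + y j) = 1 + A * t i) →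
    (∀ i, ∑ j ∈ Finset.univ.erase i, ∑ l ∈ (Finset.Ioi j).erase i,
      y i / (y i + y j) * (y i / (y i + y l)) = 1) → ∑ i, t i = 0 →
    bsum y ^ 2 + bsum y = A ^ 2 * esym2 t + algebraMap (ZMod 2) F c := by
  obtain ⟨κ, hκ⟩ := hBB n
  refine ⟨(n.choose 2 : ZMod 2) + (n : ZMod 2) + κ, ?_⟩
  intro F _ _ y t A hy hz hw hs
  have := AType2.charP F
  have h2 := AType2.two_eq_zero F
  have hne : ∀ i j, i ≠ j → y i + y j ≠ 0 := fun i j hij h => hij (hy (CharTwo.add_eq_zero.1 h))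
  have hab : ∀ i j, i ≠ j → y i / (y i + y j) + y j / (y j + y i) = 1 := by
    intro i j hij
    rw [add_comm (y j) (y i), ← add_div, div_self (hne i j hij)]
  have hbb := hκ F (fun i j => y i / (y i + y j)) hab
  have hbeta : bsum y ^ 2 + bsum y =
      ∑ i, ∑ j ∈ Finset.Ioi i, y i / (y i + y j) * (y j / (y j + y i)) := by
    rw [bsum, sum_pow_char 2, ← Finset.sum_add_distrib]
    refine Finset.sum_congr rfl fun i _ => ?_
    rw [sum_pow_char 2, ← Finset.sum_add_distrib]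
    refine Finset.sum_congr rfl fun j hj => ?_
    have hij : i ≠ j := (Finset.mem_Ioi.1 hj).ne
    have h3 : y j / (y j + y i) = 1 - y i / (y i + y j) := by
      rw [← hab i j hij]
      ring
    rw [h3]
    linear_combination (y i / (y i + y j)) ^ 2 * h2
  simp only [hz, hw] at hbb
  rw [← hbeta] at hbb
  have E1 := (hE2 n F (fun _ => 1) (fun i => A * t i) 1).1
  have E1c := (hE2 n F (fun _ => 1) t 1).2.2.2
  have E5 := (hE2 n F t t A).2.1
  have v0 : ∑ i, A * t i = 0 := by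
    rw [← Finset.mul_sum, hs, mul_zero]
  have v3 : ∑ _i : Fin n, (1 : F) = (n : F) := by
    simp
  simp only [one_mul] at E1
  rw [v0, mul_zero, add_zero, add_zero, E1c, E5] at E1
  rw [E1, v3] at hbb
  rw [map_add, map_add, map_natCast, map_natCast]
  linear_combination -hbb - ((n : F) + algebraMap (ZMod 2) F κ) * h2

/-- The first coefficients and the inverse roots. -/
theorem inv_roots {n : ℕ} {F : Type} [Field F] [Algebra (ZMod 2) F] (P : F[X]) (y : Fin n → F)
    (hP : P = ∏ i, (X - C (y i))) (h0 : P.coeff 0 ≠ 0) :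
    (∀ i, y i ≠ 0) ∧ P.coeff 1 = P.coeff 0 * ∑ i, (y i)⁻¹ ∧
      P.coeff 2 = P.coeff 0 * esym2 (fun i => (y i)⁻¹) := by
  have := AType2.charP F
  have h20 := AType2.two_eq_zero F
  have hev : P.coeff 0 = ∏ i, y i := by
    rw [hP, coeff_zero_eq_eval_zero, eval_prod]
    refine Finset.prod_congr rfl fun i _ => ?_
    rw [eval_sub, eval_X, eval_C, CharTwo.sub_eq_add, zero_add]
  have hy : ∀ i, y i ≠ 0 := by
    intro i h
    apply h0
    rw [hev, Finset.prod_eq_zero (Finset.mem_univ i) h]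
  have htay : P = C (P.coeff 0) * ∏ i, (1 + C ((y i)⁻¹) * X) := by
    rw [hev]
    conv_lhs => rw [hP]
    rw [map_prod, ← Finset.prod_mul_distrib]
    refine Finset.prod_congr rfl fun i _ => ?_
    rw [mul_add, mul_one, ← mul_assoc, ← C_mul, mul_inv_cancel₀ (hy i), C_1, one_mul,
      CharTwo.sub_eq_add, add_comm]
  obtain ⟨q0, q1, q2, q3⟩ := A2.TE_coeff h20 Finset.univ (fun i => (y i)⁻¹)
  refine ⟨hy, ?_, ?_⟩
  · conv_lhs => rw [htay]
    rw [coeff_C_mul, q1]
  · conv_lhs => rw [htay]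
    rw [coeff_C_mul, q2, A2.TE_e2_univ]

end BC7M

open BC7M in
theorem tBC7 (h0 : A2.E2Stmt) (h1 : A2.BBStmt) (h2 : A2.HDStmt) : BC7Stmt := by
  intro t hP hR
  obtain ⟨c, hc⟩ := core h0 h1 7
  refine ⟨c, ?_⟩
  intro F _ _ A κ y hκ hy hf
  have := AType2.charP F
  have h20 := AType2.two_eq_zero F
  obtain ⟨f, hfd⟩ : ∃ f, f = t.f A κ := ⟨_, rfl⟩
  have hfe : f = X ^ 7 + C A * X ^ 6 + C (κ + 1) * X ^ 4 + X ^ 3 + C A * X ^ 2 + C κ := by
    rw [hfd, BType.f, hP, hR]
    simp only [Polynomial.map_add, Polynomial.map_pow, map_X, Polynomial.map_one, C_add, C_1]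
    ring
  rw [← hfd] at hf
  have hder : derivative f = X ^ 6 + X ^ 2 := by
    rw [hfe]
    simp only [derivative_add, derivative_C_mul_X_pow, derivative_X_pow, derivative_C]
    have e7 : ((7 : ℕ) : F) = 1 := by
      push_cast
      linear_combination 3 * h20
    have e6 : ((6 : ℕ) : F) = 0 := by
      push_cast
      linear_combination 3 * h20
    have e4 : ((4 : ℕ) : F) = 0 := by
      push_cast
      linear_combination 2 * h20
    have e3 : ((3 : ℕ) : F) = 1 := by
      push_cast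
      linear_combination h20
    have e2 : ((2 : ℕ) : F) = 0 := by
      push_cast
      exact h20
    rw [e7, e6, e4, e3, e2]
    simp only [mul_zero, C_0, C_1]
    ring
  have hmon : ∀ (k m : ℕ) (a : F), hasseDeriv k (C a * X ^ m) =
      C ((m.choose k : F) * a) * X ^ (m - k) := by
    intro k m a
    rw [C_mul_X_pow_eq_monomial, hasseDeriv_monomial, C_mul_X_pow_eq_monomial]
  obtain ⟨μ, hμ⟩ : ∃ μ, μ = κ + 1 := ⟨_, rfl⟩
  have hf' : f = C 1 * X ^ 7 + C A * X ^ 6 + C μ * X ^ 4 + C 1 * X ^ 3 + C A * X ^ 2 +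
      C κ * X ^ 0 := by
    rw [hfe, hμ]
    simp only [C_1, one_mul, pow_zero, mul_one]
  have ch : ∀ m k : ℕ, m.choose k % 2 = 0 → ((m.choose k : ℕ) : F) = 0 := by
    intro m k h
    obtain ⟨q, hq⟩ := Nat.dvd_of_mod_eq_zero h
    rw [hq]
    push_cast
    rw [h20, zero_mul]
  have ch' : ∀ m k : ℕ, m.choose k % 2 = 1 → ((m.choose k : ℕ) : F) = 1 := by
    intro m k h
    obtain ⟨q, hq⟩ : ∃ q, m.choose k = 2 * q + 1 := ⟨m.choose k / 2, by omega⟩
    rw [hq]
    push_cast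
    rw [h20, zero_mul, zero_add]
  have hh2 : hasseDeriv 2 f = X ^ 5 + C A * X ^ 4 + X + C A := by
    rw [hf']
    simp only [map_add, hmon]
    rw [ch' 7 2 (by decide), ch' 6 2 (by decide), ch 4 2 (by decide), ch' 3 2 (by decide),
      ch' 2 2 (by decide), ch 0 2 (by decide)]
    simp only [one_mul, zero_mul, C_0, C_1, pow_zero, mul_one]
    ring
  have hh3 : hasseDeriv 3 f = X ^ 4 + 1 := by
    rw [hf']
    simp only [map_add, hmon]
    rw [ch' 7 3 (by decide), ch 6 3 (by decide), ch 4 3 (by decide), ch' 3 3 (by decide),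
      ch 2 3 (by decide), ch 0 3 (by decide)]
    simp only [one_mul, zero_mul, C_0, C_1, pow_zero, mul_one]
    ring
  have hc0 : f.coeff 0 = κ := by
    rw [hfe]
    simp [coeff_X]
  have hc1 : f.coeff 1 = 0 := by
    rw [hf']
    simp only [coeff_add, coeff_C_mul, coeff_X_pow]
    norm_num
  have hc2 : f.coeff 2 = A := by
    rw [hf']
    simp only [coeff_add, coeff_C_mul, coeff_X_pow]
    norm_num
  obtain ⟨hy0, q1, q2⟩ := inv_roots f y hf (by rw [hc0]; exact hκ)
  rw [hc0, hc1] at q1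
  rw [hc0, hc2] at q2
  have s1 : ∑ i, (y i)⁻¹ = 0 := (mul_eq_zero.1 q1.symm).resolve_left hκ
  have hD := h2 7 F f 1 y hy one_ne_zero (by rw [C_1, one_mul]; exact hf)
  have hd0 : ∀ i, y i ^ 4 + 1 ≠ 0 := by
    intro i h
    apply (hD i).1
    rw [hder, eval_add, eval_pow, eval_pow, eval_X]
    linear_combination y i ^ 2 * h
  have hz : ∀ i, ∑ j ∈ Finset.univ.erase i, y i / (y i + y j) = 1 + A * (y i)⁻¹ := by
    intro i
    have h3 := (hD i).2.1
    rw [hder, hh2] at h3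
    simp only [eval_add, eval_pow, eval_X, eval_mul, eval_C] at h3
    have h4 := hy0 i
    have h5 : y i ^ 6 + y i ^ 2 ≠ 0 := by
      rw [show y i ^ 6 + y i ^ 2 = y i ^ 2 * (y i ^ 4 + 1) by ring]
      exact mul_ne_zero (pow_ne_zero 2 h4) (hd0 i)
    apply mul_right_cancel₀ h5
    rw [h3]
    field_simp
    ring
  have hw : ∀ i, ∑ j ∈ Finset.univ.erase i, ∑ l ∈ (Finset.Ioi j).erase i,
      y i / (y i + y j) * (y i / (y i + y l)) = 1 := by
    intro i
    have h3 := (hD i).2.2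
    rw [hder, hh3] at h3
    simp only [eval_add, eval_pow, eval_X, eval_one] at h3
    have h4 := hy0 i
    have h5 : y i ^ 6 + y i ^ 2 ≠ 0 := by
      rw [show y i ^ 6 + y i ^ 2 = y i ^ 2 * (y i ^ 4 + 1) by ring]
      exact mul_ne_zero (pow_ne_zero 2 h4) (hd0 i)
    apply mul_right_cancel₀ h5
    rw [h3]
    ring
  have key := hc F y (fun i => (y i)⁻¹) A hy hz hw s1
  rw [key]
  have e2 : esym2 (fun i => (y i)⁻¹) = A / κ := by
    rw [eq_div_iff hκ, mul_comm]
    exact q2.symm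
  rw [e2]
  ring

end MP7Z.A3
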