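import Pool.Agent.Lib.MP_7f581e_Z.Alt3.Spec
import Pool.Agent.Lib.MP_7f581e_Z.Alt2.TE

/-!
# The sign class in degree nine (`BC9Stmt`)
-/

set_option autoImplicit false

namespace MP7Z.A3

open Polynomial MP7Z

namespace BC9M

section

variable {F : Type} [Field F] [Algebra (ZMod 2) F]

theorem f_eq (t : BType 9) (hP : t.P = 1 + X) (hR : t.R = X ^ 6 + X ^ 5 + 1) (A κ : F) :
    t.f A κ = monomial 9 1 + monomial 8 1 + monomial 3 (A + 1) + monomial 2 A + monomial 1 κ +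
      monomial 0 κ := by
  simp only [← C_mul_X_pow_eq_monomial]
  rw [BType.f, hP, hR]
  simp only [Polynomial.map_add, Polynomial.map_one, map_X, Polynomial.map_pow, C_add, C_1]
  ring

theorem eval_f (t : BType 9) (hP : t.P = 1 + X) (hR : t.R = X ^ 6 + X ^ 5 + 1) (A κ z : F) :
    (t.f A κ).eval z = z ^ 9 + z ^ 8 + (A + 1) * z ^ 3 + A * z ^ 2 + κ * z + κ := by
  rw [f_eq t hP hR]
  simp only [eval_add, eval_monomial, one_mul, pow_one, pow_zero, mul_one]

theorem eval_d (t : BType 9) (hP : t.P = 1 + X) (hR : t.R = X ^ 6 + X ^ 5 + 1) (A κ z : F) :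
    (derivative (t.f A κ)).eval z = 9 * z ^ 8 + 8 * z ^ 7 + 3 * (A + 1) * z ^ 2 + 2 * A * z + κ := by
  rw [f_eq t hP hR]
  simp only [map_add, derivative_monomial, eval_add, eval_monomial]
  push_cast
  ring

theorem eval_h2 (t : BType 9) (hP : t.P = 1 + X) (hR : t.R = X ^ 6 + X ^ 5 + 1) (A κ z : F) :
    (hasseDeriv 2 (t.f A κ)).eval z = 36 * z ^ 7 + 28 * z ^ 6 + 3 * (A + 1) * z + A := by
  rw [f_eq t hP hR]
  simp only [map_add, hasseDeriv_monomial, eval_add, eval_monomial]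
  rw [show Nat.choose 9 2 = 36 from rfl, show Nat.choose 8 2 = 28 from rfl,
    show Nat.choose 3 2 = 3 from rfl, show Nat.choose 2 2 = 1 from rfl,
    show Nat.choose 1 2 = 0 from rfl, show Nat.choose 0 2 = 0 from rfl]
  push_cast
  ring

theorem eval_h3 (t : BType 9) (hP : t.P = 1 + X) (hR : t.R = X ^ 6 + X ^ 5 + 1) (A κ z : F) :
    (hasseDeriv 3 (t.f A κ)).eval z = 84 * z ^ 6 + 56 * z ^ 5 + (A + 1) := by
  rw [f_eq t hP hR]
  simp only [map_add, hasseDeriv_monomial, eval_add, eval_monomial]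
  rw [show Nat.choose 9 3 = 84 from rfl, show Nat.choose 8 3 = 56 from rfl,
    show Nat.choose 3 3 = 1 from rfl, show Nat.choose 2 3 = 0 from rfl,
    show Nat.choose 1 3 = 0 from rfl, show Nat.choose 0 3 = 0 from rfl]
  push_cast
  ring

/-- The lowest coefficients of `∏ (X + y_i)`. -/
theorem low (t : BType 9) (hP : t.P = 1 + X) (hR : t.R = X ^ 6 + X ^ 5 + 1) (A κ : F)
    (y s : Fin 9 → F) (hκ : κ ≠ 0) (hf : t.f A κ = ∏ i, (X - C (y i))) (h0 : ∀ i, y i ≠ 0)
    (hs : ∀ i, s i = (y i)⁻¹) : ∑ i, s i = 1 ∧ esym2 s = A / κ := by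
  have := AType2.charP F
  have h2 := AType2.two_eq_zero F
  have h1 : t.f A κ = C (∏ i, y i) * ∏ i, (1 + C (s i) * X) := by
    rw [hf, map_prod, ← Finset.prod_mul_distrib]
    refine Finset.prod_congr rfl fun i _ => ?_
    rw [mul_add, mul_one, ← mul_assoc, ← C_mul, hs, mul_inv_cancel₀ (h0 i), C_1, one_mul,
      CharTwo.sub_eq_add, add_comm]
  obtain ⟨q0, q1, q2, -⟩ := A2.TE_coeff h2 Finset.univ s
  rw [f_eq t hP hR] at h1
  have e0 := congrArg (fun f : F[X] => f.coeff 0) h1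
  have e1 := congrArg (fun f : F[X] => f.coeff 1) h1
  have e2 := congrArg (fun f : F[X] => f.coeff 2) h1
  simp only [coeff_C_mul, q0, q1, q2, coeff_add, coeff_monomial, mul_one, A2.TE_e2_univ] at e0 e1 e2
  norm_num at e0 e1 e2
  rw [← e0] at e1 e2
  refine ⟨?_, ?_⟩
  · exact (mul_eq_left₀ hκ).1 e1.symm
  · rw [eq_div_iff hκ, e2, mul_comm]

end

end BC9M

theorem tBC9 (h0 : A2.E2Stmt) (h1 : A2.BBStmt) (h2 : A2.HDStmt) : BC9Stmt := by
  intro t hP hR
  obtain ⟨κ₁, hκ₁⟩ := h1 9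
  refine ⟨κ₁, ?_⟩
  intro F _ _ A κ y hκ hy hf
  have := AType2.charP F
  have h20 := AType2.two_eq_zero F
  have hroot : ∀ i, (y i) ^ 9 + (y i) ^ 8 + (A + 1) * (y i) ^ 3 + A * (y i) ^ 2 + κ * y i + κ = 0 := by
    intro i
    rw [← BC9M.eval_f t hP hR, hf, eval_prod]
    refine Finset.prod_eq_zero (Finset.mem_univ i) ?_
    rw [eval_sub, eval_X, eval_C, sub_self]
  have hy0 : ∀ i, y i ≠ 0 := by
    intro i h
    have := hroot i
    rw [h] at this
    apply hκ
    simpa using this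
  have hy1 : ∀ i, 1 + y i ≠ 0 := by
    intro i h
    have h3 : y i = 1 := by linear_combination h - h20
    have h4 := hroot i
    rw [h3] at h4
    exact one_ne_zero (α := F) (by linear_combination h4 - (1 + A + κ) * h20)
  have hf' : t.f A κ = C 1 * ∏ i, (X - C (y i)) := by rw [C_1, one_mul, hf]
  have hD := h2 9 F (t.f A κ) 1 y hy one_ne_zero hf'
  obtain ⟨s, hs⟩ : ∃ s : Fin 9 → F, s = fun i => (y i)⁻¹ := ⟨_, rfl⟩
  have hs' : ∀ i, s i = (y i)⁻¹ := fun i => by rw [hs]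
  obtain ⟨s1, s2⟩ := BC9M.low t hP hR A κ y s hκ hf hy0 hs'
  obtain ⟨-, hT1, hT2⟩ := A2.tTE 9 F (t.f A κ) 1 y one_ne_zero hf'
  have y1 : ∑ i, y i = 1 := by
    have h3 := hT1 (by norm_num)
    rw [BC9M.f_eq t hP hR, one_mul] at h3
    rw [← h3]
    simp only [coeff_add, coeff_monomial]
    norm_num
  have y2 : esym2 y = 0 := by
    have h3 := hT2 (by norm_num)
    rw [BC9M.f_eq t hP hR, one_mul] at h3
    rw [← h3]
    simp only [coeff_add, coeff_monomial]
    norm_num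
  have hd : ∀ i, (derivative (t.f A κ)).eval (y i) = (y i) ^ 2 / (1 + y i) := by
    intro i
    rw [eq_div_iff (hy1 i), BC9M.eval_d t hP hR]
    linear_combination (-1) * hroot i + (5 * (y i) ^ 9 + 9 * (y i) ^ 8 + 4 * (y i) ^ 7 +
      2 * (A + 1) * (y i) ^ 3 + (3 * A + 1) * (y i) ^ 2 + A * y i + κ + κ * y i) * h20
  have hz : ∀ i, ∑ j ∈ Finset.univ.erase i, y i / (y i + y j) = 1 + (A * s i + (A + 1) * y i) := by
    intro i
    have h3 := (hD i).2.1
    rw [hd i, BC9M.eval_h2 t hP hR, mul_div_assoc', div_eq_iff (hy1 i)] at h3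
    have h4 : (y i) ^ 2 ≠ 0 := pow_ne_zero 2 (hy0 i)
    apply mul_right_cancel₀ h4
    rw [h3, hs' i]
    have h6 : (y i)⁻¹ * (y i) ^ 2 = y i := by
      rw [pow_two, ← mul_assoc, inv_mul_cancel₀ (hy0 i), one_mul]
    linear_combination (18 * (y i) ^ 9 + 32 * (y i) ^ 8 + 14 * (y i) ^ 7 + (2 * A + 1) * (y i) ^ 2 +
      (A + 1) * (y i) ^ 3) * h20 - A * h6
  have hw : ∀ i, ∑ j ∈ Finset.univ.erase i, ∑ l ∈ (Finset.Ioi j).erase i,
      y i / (y i + y j) * (y i / (y i + y l)) = (A + 1) * (1 + y i) := by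
    intro i
    have h3 := (hD i).2.2
    rw [hd i, BC9M.eval_h3 t hP hR, mul_div_assoc', div_eq_iff (hy1 i)] at h3
    have h4 : (y i) ^ 2 ≠ 0 := pow_ne_zero 2 (hy0 i)
    apply mul_right_cancel₀ h4
    rw [h3]
    linear_combination ((y i) ^ 2 * (42 * (y i) ^ 6 + 28 * (y i) ^ 5) * (1 + y i)) * h20
  have hne : ∀ i j, i ≠ j → y i + y j ≠ 0 := fun i j hij h => hij (hy (CharTwo.add_eq_zero.1 h))
  have hab : ∀ i j, i ≠ j → y i / (y i + y j) + y j / (y j + y i) = 1 := by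
    intro i j hij
    rw [add_comm (y j) (y i), ← add_div, div_self (hne i j hij)]
  have hbb := hκ₁ F (fun i j => y i / (y i + y j)) hab
  have hbeta : bsum y ^ 2 + bsum y =
      ∑ i, ∑ j ∈ Finset.Ioi i, y i / (y i + y j) * (y j / (y j + y i)) := by
    rw [bsum, sum_pow_char 2, ← Finset.sum_add_distrib]
    refine Finset.sum_congr rfl fun i _ => ?_
    rw [sum_pow_char 2, ← Finset.sum_add_distrib]
    refine Finset.sum_congr rfl fun j hj => ?_
    have hij : i ≠ j := (Finset.mem_Ioi.1 hj).ne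
    have h3 : y j / (y j + y i) = 1 - y i / (y i + y j) := by
      rw [← hab i j hij]
      ring
    rw [h3]
    linear_combination (y i / (y i + y j)) ^ 2 * h20
  simp only [hz, hw] at hbb
  rw [← hbeta] at hbb
  have E1 := (h0 9 F (fun _ => 1) (fun i => A * s i + (A + 1) * y i) 1).1
  have E1c := (h0 9 F (fun _ => 1) y 1).2.2.2
  have E2 := (h0 9 F (fun i => A * s i) (fun i => (A + 1) * y i) 0).1
  have E3 := (h0 9 F s s A).2.1
  have E4 := (h0 9 F y y (A + 1)).2.1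
  have v1 : ∑ i, A * s i = A := by rw [← Finset.mul_sum, s1, mul_one]
  have v2 : ∑ i, (A + 1) * y i = A + 1 := by rw [← Finset.mul_sum, y1, mul_one]
  have v0 : ∑ i, (A * s i + (A + 1) * y i) = 2 * A + 1 := by
    rw [Finset.sum_add_distrib, v1, v2]
    ring
  have v3 : ∑ i, A * s i * ((A + 1) * y i) = 9 * (A * (A + 1)) := by
    have h3 : ∀ i, A * s i * ((A + 1) * y i) = A * (A + 1) := by
      intro i
      rw [hs' i]
      have h5 := hy0 i
      field_simp
    simp only [h3, Finset.sum_const, Finset.card_univ, Fintype.card_fin, nsmul_eq_mul]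
    push_cast
    ring
  have v4 : ∑ i, (A + 1) * (1 + y i) = 10 * (A + 1) := by
    rw [← Finset.mul_sum, Finset.sum_add_distrib, y1, Finset.sum_const, Finset.card_univ,
      Fintype.card_fin, nsmul_eq_mul]
    push_cast
    ring
  have v5 : ∑ _i : Fin 9, (1 : F) = 9 := by
    rw [Finset.sum_const, Finset.card_univ, Fintype.card_fin, nsmul_eq_mul]
    push_cast
    ring
  simp only [one_mul] at E1
  rw [v0, v5, E1c, E2, E3, E4, v1, v2, v3, s2, y2, show Nat.choose 9 2 = 36 from rfl] at E1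
  rw [E1, v4] at hbb
  push_cast at hbb
  linear_combination (-1) * hbb + (18 + 5 * A * (A + 1) + 5 * (2 * A + 1) - 5 * (A + 1) -
    algebraMap (ZMod 2) F κ₁) * h20

end MP7Z.A3
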