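import Pool.Agent.Lib.MP_7f581e_Z.Alt3.Spec

/-! # Automorphisms fixing `a b` and `(a³ + b³)²`: the second commutators fix `a` and `b` -/

set_option autoImplicit false

namespace MP7Z.A3

open Polynomial MP7Z

namespace BDerP

variable {L N : Type} [Field L] [Field N] [Algebra L N]

theorem two_case {q r : N} (σ : N ≃ₐ[L] N) (hd : σ (q + r) = q + r) (hp : σ (q * r) = q * r) :
    (σ q = q ∧ σ r = r) ∨ (σ q = r ∧ σ r = q) := by
  rw [map_add] at hd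
  rw [map_mul] at hp
  have h1 : (σ q - q) * (σ q - r) = 0 := by
    linear_combination (σ q) * hd - hp
  rcases mul_eq_zero.1 h1 with h | h
  · left
    exact ⟨sub_eq_zero.1 h, by linear_combination hd - h⟩
  · right
    exact ⟨sub_eq_zero.1 h, by linear_combination hd - h⟩

theorem comm_two {q r : N} (σ τ : N ≃ₐ[L] N) (hσ : (σ q = q ∧ σ r = r) ∨ (σ q = r ∧ σ r = q))
    (hτ : (τ q = q ∧ τ r = r) ∨ (τ q = r ∧ τ r = q)) :
    (σ * τ * σ⁻¹ * τ⁻¹) q = q := by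
  have h1 : ∀ (φ : N ≃ₐ[L] N) (u v : N), φ u = v → φ⁻¹ v = u := fun φ u v h => by
    rw [← h]; exact φ.symm_apply_apply u
  simp only [AlgEquiv.mul_apply]
  rcases hσ with ⟨a1, a2⟩ | ⟨a1, a2⟩ <;> rcases hτ with ⟨b1, b2⟩ | ⟨b1, b2⟩
  · rw [h1 τ _ _ b1, h1 σ _ _ a1, b1, a1]
  · rw [h1 τ _ _ b2, h1 σ _ _ a2, b2, a1]
  · rw [h1 τ _ _ b1, h1 σ _ _ a2, b2, a2]
  · rw [h1 τ _ _ b2, h1 σ _ _ a1, b1, a2]

theorem range_of_cube [IsAlgClosed L] {ω : N} (h : ω ^ 3 = 1) : ∃ c : L, algebraMap L N c = ω := by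
  have hint : IsIntegral L ω := ⟨X ^ 3 - 1, by
    simpa using monic_X_pow_sub_C (1 : L) (n := 3) (by norm_num), by simp [h]⟩
  have h1 := IsAlgClosed.degree_eq_one_of_irreducible L (minpoly.irreducible hint)
  obtain ⟨c, hc⟩ := minpoly.mem_range_of_degree_eq_one L ω h1
  exact ⟨c, hc⟩

theorem scal [IsAlgClosed L] {a : N} (ha : a ≠ 0) (σ : N ≃ₐ[L] N) (h : σ (a ^ 3) = a ^ 3) :
    ∃ c : L, σ a = algebraMap L N c * a := by
  have h1 : (σ a / a) ^ 3 = 1 := by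
    rw [div_pow, ← map_pow, h, div_self (pow_ne_zero 3 ha)]
  obtain ⟨c, hc⟩ := range_of_cube (L := L) h1
  exact ⟨c, by rw [hc, div_mul_cancel₀ _ ha]⟩

theorem comm_scal [IsAlgClosed L] {a : N} (ha : a ≠ 0) (σ τ : N ≃ₐ[L] N)
    (hσ : σ (a ^ 3) = a ^ 3) (hτ : τ (a ^ 3) = a ^ 3) :
    (σ * τ * σ⁻¹ * τ⁻¹) a = a := by
  obtain ⟨c, hc⟩ := scal ha σ hσ
  obtain ⟨d, hd⟩ := scal ha τ hτ
  have hσ' : σ⁻¹ (a ^ 3) = a ^ 3 := by
    conv_lhs => rw [← hσ]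
    exact σ.symm_apply_apply _
  have hτ' : τ⁻¹ (a ^ 3) = a ^ 3 := by
    conv_lhs => rw [← hτ]
    exact τ.symm_apply_apply _
  obtain ⟨e, he⟩ := scal ha (σ⁻¹ * τ⁻¹) (by rw [AlgEquiv.mul_apply, hτ', hσ'])
  have h1 : τ (σ ((σ⁻¹ * τ⁻¹) a)) = a := by
    rw [AlgEquiv.mul_apply]
    have h2 : σ (σ⁻¹ (τ⁻¹ a)) = τ⁻¹ a := σ.apply_symm_apply _
    rw [h2]
    exact τ.apply_symm_apply _
  rw [he, map_mul, AlgEquiv.commutes, hc, map_mul, map_mul, AlgEquiv.commutes, AlgEquiv.commutes,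
    hd] at h1
  have h3 : (σ * τ * σ⁻¹ * τ⁻¹) a = σ (τ ((σ⁻¹ * τ⁻¹) a)) := rfl
  rw [h3, he, map_mul, AlgEquiv.commutes, hd, map_mul, map_mul, AlgEquiv.commutes,
    AlgEquiv.commutes, hc]
  linear_combination h1

end BDerP

open BDerP

theorem tBDer (hPer : PerStmt) : BDerStmt := by
  intro n L N _ _ _ _ _ _ _ A κ a b hn hA hκ hab hden y hy
  have h2 : (2 : N) = 0 := two_eq_zero' N
  have ha : a ≠ 0 := fun h => hA (by rw [hab, h, zero_mul])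
  have hK1 : alternatingGroup (Fin n) ≤ PermGrp L {A, κ, a ^ 3} y := by
    refine hPer n hn _ _ hy fun ρ hρ ρ' hρ' => ?_
    obtain ⟨σ, hσ, hσy⟩ := hρ
    obtain ⟨τ, hτ, hτy⟩ := hρ'
    have key : ∀ φ : N ≃ₐ[L] N, (∀ t ∈ ({A, κ} : Set N), φ t = t) →
        (φ (a ^ 3) = a ^ 3 ∧ φ (b ^ 3) = b ^ 3) ∨ (φ (a ^ 3) = b ^ 3 ∧ φ (b ^ 3) = a ^ 3) := by
      intro φ hφ
      have hφA : φ A = A := hφ A (by simp)
      have hφκ : φ κ = κ := hφ κ (by simp)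
      apply two_case
      · have h3 : φ (a ^ 3 + b ^ 3) ^ 2 = (a ^ 3 + b ^ 3) ^ 2 := by
          rw [← map_pow, ← hden, hφκ]
        rcases sq_eq_sq_iff_eq_or_eq_neg.1 h3 with h4 | h4
        · exact h4
        · rw [h4]
          linear_combination (-(a ^ 3 + b ^ 3)) * h2
      · rw [← mul_pow, map_pow, ← hab, hφA]
    have hσ1 := key σ hσ
    have hτ1 := key τ hτ
    have hmem : ∀ φ : N ≃ₐ[L] N, ∀ t, φ t = t → φ⁻¹ t = t := fun φ t h => by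
      conv_lhs => rw [← h]
      exact φ.symm_apply_apply t
    refine ⟨σ * τ * σ⁻¹ * τ⁻¹, ?_, ?_⟩
    · intro t ht
      have h5 : t ∈ ({A, κ} : Set N) ∨ t = a ^ 3 := by
        simp only [Set.mem_insert_iff, Set.mem_singleton_iff] at ht ⊢
        tauto
      rcases h5 with h5 | rfl
      · simp only [AlgEquiv.mul_apply]
        rw [hmem τ t (hτ t h5), hmem σ t (hσ t h5), hτ t h5, hσ t h5]
      · exact comm_two σ τ hσ1 hτ1
    · intro i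
      have hinv : ∀ (φ : N ≃ₐ[L] N) (π : Equiv.Perm (Fin n)), (∀ i, φ (y i) = y (π i)) →
          ∀ i, φ⁻¹ (y i) = y (π⁻¹ i) := by
        intro φ π h i
        have h6 : φ (y (π⁻¹ i)) = y i := by
          rw [h]; congr 1; exact π.apply_symm_apply i
        rw [← h6]
        exact φ.symm_apply_apply _
      simp only [AlgEquiv.mul_apply, Equiv.Perm.mul_apply]
      rw [hinv τ ρ' hτy, hinv σ ρ hσy, hτy, hσy]
  refine hPer n hn _ _ hK1 fun ρ hρ ρ' hρ' => ?_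
  obtain ⟨σ, hσ, hσy⟩ := hρ
  obtain ⟨τ, hτ, hτy⟩ := hρ'
  have hmem : ∀ φ : N ≃ₐ[L] N, ∀ t, φ t = t → φ⁻¹ t = t := fun φ t h => by
    conv_lhs => rw [← h]
    exact φ.symm_apply_apply t
  have hca : (σ * τ * σ⁻¹ * τ⁻¹) a = a :=
    comm_scal ha σ τ (hσ _ (by simp)) (hτ _ (by simp))
  refine ⟨σ * τ * σ⁻¹ * τ⁻¹, ?_, ?_⟩
  · intro t ht
    simp only [Set.mem_insert_iff, Set.mem_singleton_iff] at ht
    rcases ht with rfl | rfl
    · exact hca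
    · have hcA : (σ * τ * σ⁻¹ * τ⁻¹) A = A := by
        have s1 : σ A = A := hσ _ (by simp)
        have t1 : τ A = A := hτ _ (by simp)
        simp only [AlgEquiv.mul_apply]
        rw [hmem τ A t1, hmem σ A s1, t1, s1]
      rw [hab, map_mul, hca] at hcA
      exact mul_left_cancel₀ ha hcA
  · intro i
    have hinv : ∀ (φ : N ≃ₐ[L] N) (π : Equiv.Perm (Fin n)), (∀ i, φ (y i) = y (π i)) →
        ∀ i, φ⁻¹ (y i) = y (π⁻¹ i) := by
      intro φ π h i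
      have h6 : φ (y (π⁻¹ i)) = y i := by
        rw [h]; congr 1; exact π.apply_symm_apply i
      rw [← h6]
      exact φ.symm_apply_apply _
    simp only [AlgEquiv.mul_apply, Equiv.Perm.mul_apply]
    rw [hinv τ ρ' hτy, hinv σ ρ hσy, hτy, hσy]

end MP7Z.A3
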