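import Pool.Agent.Lib.MP_7f581e_Z.Alt3.Spec

/-!
# The generic group of the families in characteristic two
-/

set_option autoImplicit false

namespace MP7Z.A3
namespace BGenM

open Polynomial MP7Z

section field

variable {L N : Type} [Field L] [Field N] [Algebra L N]

theorem alg_mono {K₁ K₂ : IntermediateField L N}
    (h : K₁ ≤ K₂) (ha : Algebra.IsAlgebraic K₁ N) : Algebra.IsAlgebraic K₂ N := by
  let _ : Algebra K₁ K₂ := (IntermediateField.inclusion h).toRingHom.toAlgebra
  have : IsScalarTower K₁ K₂ N := .of_algebraMap_eq (fun _ => rfl)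
  exact Algebra.IsAlgebraic.tower_top (K := K₁) K₂

/-- The elements algebraic over `L(S)`. -/
noncomputable def cl (L : Type) {N : Type} [Field L] [Field N] [Algebra L N] (S : Set N) :
    IntermediateField L N :=
  (algebraicClosure (IntermediateField.adjoin L S) N).restrictScalars L

theorem mem_cl {S : Set N} {z : N} :
    z ∈ cl L S ↔ IsAlgebraic (IntermediateField.adjoin L S) z := by
  rw [cl, IntermediateField.mem_restrictScalars, mem_algebraicClosure_iff]

theorem self_mem_cl {S : Set N} {a : N} (h : a ∈ S) : a ∈ cl L S := by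
  rw [mem_cl]
  exact isAlgebraic_algebraMap
    (⟨a, IntermediateField.subset_adjoin L S h⟩ : IntermediateField.adjoin L S)

theorem mem_cl_of_alg {S : Set N} {z : N} (h : IsAlgebraic (cl L S) z) : z ∈ cl L S := by
  rw [mem_cl]
  have h' : IsAlgebraic (algebraicClosure (IntermediateField.adjoin L S) N) z := h
  exact h'.restrictScalars (IntermediateField.adjoin L S)

theorem pow_mem_cl {S : Set N} {z : N} {k : ℕ} (hk : 0 < k) (h : z ^ k ∈ cl L S) :
    z ∈ cl L S := by
  rw [mem_cl] at h ⊢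
  exact h.of_pow hk

theorem quad_mem_cl {S : Set N} {z d e : N} (hd : d ∈ cl L S) (he : e ∈ cl L S)
    (h : z ^ 2 + d * z + e = 0) : z ∈ cl L S := by
  refine mem_cl_of_alg ⟨X ^ 2 + (C (⟨d, hd⟩ : cl L S) * X + C (⟨e, he⟩ : cl L S)), ?_, ?_⟩
  · refine Monic.ne_zero ((monic_X_pow 2).add_of_left ?_)
    rw [degree_X_pow]
    refine lt_of_le_of_lt degree_linear_le ?_
    norm_num
  · simp only [map_add, map_mul, map_pow, aeval_X, aeval_C]
    show z ^ 2 + (d * z + e) = 0
    rw [← h]
    ring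

theorem alg_of_le {S S' : Set N} (halg : Algebra.IsAlgebraic (IntermediateField.adjoin L S) N)
    (h : S ⊆ cl L S') : Algebra.IsAlgebraic (IntermediateField.adjoin L S') N := by
  have h1 : IntermediateField.adjoin L S ≤ cl L S' := IntermediateField.adjoin_le_iff.2 h
  have h2 : Algebra.IsAlgebraic (cl L S') N := alg_mono h1 halg
  have h2' : Algebra.IsAlgebraic (algebraicClosure (IntermediateField.adjoin L S') N) N := h2
  exact Algebra.IsAlgebraic.trans (IntermediateField.adjoin L S')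
    (algebraicClosure (IntermediateField.adjoin L S') N) N

open scoped IntermediateField.algebraAdjoinAdjoin in
theorem ind_of {u : Fin 2 → N} (hu : AlgebraicIndependent L u) {A κ : N}
    (halg : Algebra.IsAlgebraic (IntermediateField.adjoin L {A, κ}) N) :
    AlgebraicIndependent L ![A, κ] := by
  have hr : Set.range ![A, κ] = {A, κ} := by simp [Set.pair_comm]
  rw [← hr] at halg
  have h4 : Algebra.IsAlgebraic (Algebra.adjoin L (Set.range ![A, κ])) N :=
    (IsFractionRing.comap_isAlgebraic_iff (A := Algebra.adjoin L (Set.range ![A, κ]))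
      (K := IntermediateField.adjoin L (Set.range ![A, κ])) (C := N)).mpr halg
  exact (Algebra.IsAlgebraic.isTranscendenceBasis_of_le_trdeg_of_finite L ![A, κ]
    hu.cardinalMk_le_trdeg).1

theorem exists_rho [IsAlgClosed L] (c : L) : ∃ ρ : L, ρ ^ 2 + ρ = c := by
  obtain ⟨ρ, h⟩ := IsAlgClosed.exists_root (X ^ 2 + (C 1 * X + C (-c)) : L[X]) (by
    have h1 : (C 1 * X + C (-c) : L[X]).degree < ((X : L[X]) ^ 2).degree := by
      rw [degree_X_pow]
      refine lt_of_le_of_lt degree_linear_le ?_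
      norm_num
    rw [degree_add_eq_left_of_degree_lt h1, degree_X_pow]
    norm_num)
  refine ⟨ρ, ?_⟩
  rw [IsRoot, eval_add, eval_add, eval_mul, eval_pow, eval_X, eval_C, eval_C] at h
  linear_combination h

end field

end BGenM

open Polynomial MP7Z BGenM in
theorem tBGen (h0 : BTrStmt) (h1 : B3CStmt) (h2 : RecStmt) (h3 : BDerStmt) : BGenStmt := by
  intro n t c L N _ _ _ _ _ _ _ _ u hu halg w g _ hg y hy hf π hπ
  have hg0 : algebraMap L N g ≠ 0 := by
    have := hg rfl
    simpa using this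
  have hf' : t.f (bA c (u 0 + u 1 * algebraMap L N w) (algebraMap L N g * u 1))
      (bDen c (u 0 + u 1 * algebraMap L N w) (algebraMap L N g * u 1) ^ 2)
      = ∏ i, (X - C (y i)) := by
    have e : (t.fam c).F N (algebraMap L N w) (algebraMap L N g) u =
      C (1 : N) * ∏ i, (X - C (y i)) := hf
    rw [C_1, one_mul] at e
    exact e
  obtain ⟨ρ₀, hρ₀⟩ := exists_rho (algebraMap (ZMod 2) L c)
  set W := algebraMap L N w with hW
  set Gg := algebraMap L N g with hGg
  set s := u 0 + u 1 * W with hs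
  set h := Gg * u 1 with hh
  set R₀ := algebraMap L N ρ₀ with hR₀
  have hR : R₀ ^ 2 + R₀ = algebraMap (ZMod 2) N c := by
    rw [hR₀, ← map_pow, ← map_add, hρ₀, ← IsScalarTower.algebraMap_apply]
  set A := bA c s h with hA
  set κ := bDen c s h ^ 2 with hκ
  set a := s + h * R₀ with ha
  set b := a + h with hb
  have two := two_eq_zero' N
  have hab : A = a * b := by
    rw [hA, bA, ← hR, hb, ha]
    linear_combination -(s * h * R₀) * two
  have hden : bDen c s h = a ^ 3 + b ^ 3 := by
    have e1 : bDen c s h = h * (h ^ 2 + A) := rfl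
    rw [e1, hab, hb]
    linear_combination -(a ^ 3 + a ^ 2 * h + a * h ^ 2) * two
  have hκ2 : κ = (a ^ 3 + b ^ 3) ^ 2 := by rw [hκ, hden]
  -- membership
  have mA : A ∈ cl L ({A, κ} : Set N) := self_mem_cl (by simp)
  have mκ : κ ∈ cl L ({A, κ} : Set N) := self_mem_cl (by simp)
  have md : a ^ 3 + b ^ 3 ∈ cl L ({A, κ} : Set N) := by
    refine pow_mem_cl (k := 2) (by norm_num) ?_
    rw [← hκ2]
    exact mκ
  have ma3 : a ^ 3 ∈ cl L ({A, κ} : Set N) := by
    refine quad_mem_cl (d := a ^ 3 + b ^ 3) (e := A ^ 3) md (pow_mem mA 3) ?_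
    rw [hab]
    linear_combination (a ^ 6 + a ^ 3 * b ^ 3) * two
  have mb3 : b ^ 3 ∈ cl L ({A, κ} : Set N) := by
    have : b ^ 3 = (a ^ 3 + b ^ 3) - a ^ 3 := by ring
    rw [this]
    exact sub_mem md ma3
  have ma : a ∈ cl L ({A, κ} : Set N) := pow_mem_cl (k := 3) (by norm_num) ma3
  have mb : b ∈ cl L ({A, κ} : Set N) := pow_mem_cl (k := 3) (by norm_num) mb3
  have eh : h = b - a := by rw [hb]; ring
  have es : s = a - h * R₀ := by rw [ha]; ring
  have eu1 : u 1 = h / Gg := by rw [hh, mul_div_cancel_left₀ _ hg0]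
  have eu0 : u 0 = s - u 1 * W := by rw [hs]; ring
  have mh : h ∈ cl L ({A, κ} : Set N) := by rw [eh]; exact sub_mem mb ma
  have mL : ∀ z : L, algebraMap L N z ∈ cl L ({A, κ} : Set N) := fun z =>
    IntermediateField.algebraMap_mem _ z
  have ms : s ∈ cl L ({A, κ} : Set N) := by rw [es]; exact sub_mem ma (mul_mem mh (mL ρ₀))
  have mu1 : u 1 ∈ cl L ({A, κ} : Set N) := by rw [eu1]; exact div_mem mh (mL g)
  have mu0 : u 0 ∈ cl L ({A, κ} : Set N) := by rw [eu0]; exact sub_mem ms (mul_mem mu1 (mL w))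
  have halg' : Algebra.IsAlgebraic (IntermediateField.adjoin L {A, κ}) N := by
    refine alg_of_le halg ?_
    rintro z ⟨i, rfl⟩
    fin_cases i
    · exact mu0
    · exact mu1
  have hind := ind_of hu halg'
  have hA0 : A ≠ 0 := by simpa using hind.ne_zero 0
  have hκ0 : κ ≠ 0 := by simpa using hind.ne_zero 1
  have hn5 : 5 ≤ n := by have := t.le; omega
  obtain ⟨ρ, hρ, h3c⟩ := h1 n t L N A κ hind halg' y hy hf'
  have hAn := h2 n (PermGrp L {A, κ} y) (h0 n t L N A κ hind halg' y hy hf')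
    ⟨ρ, hρ, Or.inr h3c⟩
  have hAn2 := h3 n L N A κ a b hn5 hA0 hκ0 hab hκ2 y hAn
  obtain ⟨σ, hσ, hσy⟩ := mem_permGrp.1 (hAn2 hπ)
  have σa : σ a = a := hσ a (by simp)
  have σb : σ b = b := hσ b (by simp)
  have σL : ∀ z : L, σ (algebraMap L N z) = algebraMap L N z := σ.commutes
  have σh : σ h = h := by rw [eh, map_sub, σa, σb]
  have σs : σ s = s := by
    conv_lhs => rw [es, map_sub, map_mul, σa, σh, hR₀, σL]
    rw [es]
  have σu1 : σ (u 1) = u 1 := by rw [eu1, map_div₀, σh, hGg, σL]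
  have σu0 : σ (u 0) = u 0 := by
    conv_lhs => rw [eu0, map_sub, map_mul, σs, σu1, hW, σL]
    rw [eu0]
  refine ⟨σ, fun i => ?_, hσy⟩
  fin_cases i
  · exact σu0
  · exact σu1

end MP7Z.A3
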