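import Pool.Agent.Lib.MP_7f581e_Z.Alt3.Spec
import Pool.Agent.Lib.MP_7f581e_Z.Alt.Lab

/-!
# Labelled roots of the families in characteristic two
-/

set_option autoImplicit false

namespace MP7Z.A3

open Polynomial MP7Z MP7Z.A2

theorem BLab_chi {Ω : Type} [Field Ω] {a b : ℤˣ} (h : chi Ω a = chi Ω b) : a = b := by
  rcases Int.units_eq_one_or a with rfl | rfl <;> rcases Int.units_eq_one_or b with rfl | rfl
  · rfl
  · have h1 : ((-1 : ℤˣ) = 1) = False := by simp
    simp [chi, h1] at h
  · have h1 : ((-1 : ℤˣ) = 1) = False := by simp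
    simp [chi, h1] at h
  · rfl

theorem BLab_bsum {Ω : Type} [Field Ω] {n : ℕ} (σ : Ω ≃+* Ω) (y y' : Fin n → Ω)
    (ρ : Equiv.Perm (Fin n)) (h : ∀ i, σ (y i) = y' (ρ i)) : σ (bsum y) = bsum (y' ∘ ρ) := by
  unfold bsum
  rw [map_sum]
  refine Finset.sum_congr rfl fun i _ => ?_
  rw [map_sum]
  refine Finset.sum_congr rfl fun j _ => ?_
  rw [map_div₀, map_add, h, h]
  rfl

theorem tBLab (h0 : BSepStmt) (h1 : PrmStmt) : BLabStmt := by
  intro n t c hcls
  refine ⟨?_, ?_, ?_⟩
  · intro Ω _ _ _ w g u _ hD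
    have h20 : (2 : Ω) = 0 := two_eq_zero' Ω
    obtain ⟨s, hs⟩ : ∃ s : Ω, s = u 0 + u 1 * w := ⟨_, rfl⟩
    obtain ⟨h, hh⟩ : ∃ h : Ω, h = g * u 1 := ⟨_, rfl⟩
    have hden : bDen c s h ≠ 0 := by
      rw [hs, hh]
      exact hD
    obtain ⟨hm, hdeg, -, hsep, -, -, -⟩ := (h0 n t Ω).1 (bA c s h) (bDen c s h ^ 2)
    obtain ⟨y, hy, hf⟩ := LabM.exists_roots _ n (hsep (pow_ne_zero 2 hden)) hdeg
    rw [hm.leadingCoeff, C_1, one_mul] at hf
    have hb := hcls Ω (bA c s h) (bDen c s h ^ 2) y (pow_ne_zero 2 hden) hy hf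
    have hz : (bNum c s h / bDen c s h) ^ 2 + bNum c s h / bDen c s h =
        bA c s h ^ 3 / bDen c s h ^ 2 + algebraMap (ZMod 2) Ω c := by
      have h3 := bNum_sq c s h
      field_simp
      linear_combination h3
    have hprod : (bsum y + bNum c s h / bDen c s h) * (bsum y + bNum c s h / bDen c s h + 1) =
        0 := by
      linear_combination hb - hz + ((bNum c s h / bDen c s h) ^ 2 + bNum c s h / bDen c s h +
        bsum y * (bNum c s h / bDen c s h)) * h20
    rcases mul_eq_zero.1 hprod with h3 | h3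
    · refine ⟨y, hy, ?_, ?_⟩
      · change t.f _ _ = C 1 * _
        rw [C_1, one_mul, ← hs, ← hh]
        exact hf
      · change bsum y * bDen c _ _ = bNum c _ _
        rw [← hs, ← hh]
        have h4 : bsum y = bNum c s h / bDen c s h := by
          linear_combination h3 - (bNum c s h / bDen c s h) * h20
        rw [h4, div_mul_cancel₀ _ hden]
    · have hn : 7 ≤ n := t.le
      obtain ⟨a, b, hab⟩ : ∃ a b : Fin n, a ≠ b := by
        refine ⟨⟨0, by omega⟩, ⟨1, by omega⟩, ?_⟩
        intro hh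
        have := congrArg Fin.val hh
        simp at this
      refine ⟨y ∘ Equiv.swap a b, hy.comp (Equiv.swap a b).injective, ?_, ?_⟩
      · change t.f _ _ = C 1 * _
        rw [C_1, one_mul, ← hs, ← hh, hf]
        exact (Equiv.prod_comp (Equiv.swap a b) (fun i => (X - C (y i) : Polynomial Ω))).symm
      · change bsum (y ∘ Equiv.swap a b) * bDen c _ _ = bNum c _ _
        rw [← hs, ← hh, h1 n Ω y (Equiv.swap a b) hy, Equiv.Perm.sign_swap hab]
        have h4 : chi Ω (-1) = 1 := by
          rw [chi, if_neg (by decide)]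
        rw [h4]
        have h5 : bsum y + 1 = bNum c s h / bDen c s h := by
          linear_combination h3 - (bNum c s h / bDen c s h) * h20
        rw [h5, div_mul_cancel₀ _ hden]
  · intro Ω _ _ σ w w' g u u' ε y y' ρ _ hD' hw hg hu hy hy' hρ
    have h20 : (2 : Ω) = 0 := two_eq_zero' Ω
    obtain ⟨s, hs⟩ : ∃ s : Ω, s = u 0 + u 1 * w := ⟨_, rfl⟩
    obtain ⟨h, hh⟩ : ∃ h : Ω, h = g * u 1 := ⟨_, rfl⟩
    obtain ⟨s', hs'⟩ : ∃ s' : Ω, s' = u' 0 + u' 1 * w' := ⟨_, rfl⟩
    obtain ⟨h', hh'⟩ : ∃ h' : Ω, h' = g * u' 1 := ⟨_, rfl⟩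
    have hden' : bDen c s' h' ≠ 0 := by
      rw [hs', hh']
      exact hD'
    have hy2 : bsum y * bDen c s h = bNum c s h := by
      rw [hs, hh]
      exact hy.2.2
    have hy2' : bsum y' * bDen c s' h' = bNum c s' h' := by
      rw [hs', hh']
      exact hy'.2.2
    have hσh : σ h = h' := by
      rw [hh, hh', map_mul, hg, hu]
    have hσs : σ s = s' + (if ε = 1 then 0 else h') := by
      rw [hs, hs', hh', map_add, map_mul, hu, hu, hw, tw, if_pos rfl]
      split_ifs <;> ring
    have hmap : ∀ a : ZMod 2, σ (algebraMap (ZMod 2) Ω a) = algebraMap (ZMod 2) Ω a := by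
      intro a
      have h3 : (σ : Ω →+* Ω).comp (algebraMap (ZMod 2) Ω) = algebraMap (ZMod 2) Ω :=
        Subsingleton.elim _ _
      exact congrArg (fun f => f a) h3
    have hσden : σ (bDen c s h) = bDen c s' h' := by
      have h3 := map_bDen (σ : Ω →+* Ω) c s h
      have h4 : σ (bDen c s h) = bDen c (σ s) (σ h) := h3
      rw [h4, hσh, hσs]
      split_ifs
      · rw [add_zero]
      · rw [bDen_add]
    have hσnum : σ (bNum c s h) = bNum c s' h' + chi Ω ε * bDen c s' h' := by
      have h4 : σ (bNum c s h) = bNum c (σ s) (σ h) := by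
        simp only [bNum, map_add, map_mul, map_pow, hmap]
      rw [h4, hσh, hσs, chi]
      split_ifs
      · rw [add_zero, zero_mul, add_zero]
      · rw [bNum_add, one_mul]
    have h5 : σ (bsum y) * bDen c s' h' = bNum c s' h' + chi Ω ε * bDen c s' h' := by
      rw [← hσden, ← map_mul, hy2, hσnum, hσden]
    rw [BLab_bsum σ y y' ρ hρ, h1 n Ω y' ρ hy'.1, add_mul, hy2'] at h5
    have h6 := mul_right_cancel₀ hden' (add_left_cancel h5)
    exact BLab_chi h6
  · intro L N _ _ _ _ _ _ u hu w g _ hg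
    refine ⟨one_ne_zero, ?_⟩
    change bDen c (u 0 + u 1 * algebraMap L N w) (algebraMap L N g * u 1) ≠ 0
    have hg0 : g ≠ 0 := hg rfl
    have hg1 : algebraMap L N g ≠ 0 := fun h => hg0 ((algebraMap L N).injective (by
      rw [h, map_zero]))
    intro h3
    rw [bDen, mul_eq_zero] at h3
    rcases h3 with h3 | h3
    · exact mul_ne_zero hg1 (hu.ne_zero 1) h3
    · -- evaluate a polynomial relation
      have h4 : MvPolynomial.aeval u ((MvPolynomial.C g * MvPolynomial.X 1) ^ 2 +
          bA c (MvPolynomial.X 0 + MvPolynomial.X 1 * MvPolynomial.C w)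
            (MvPolynomial.C g * MvPolynomial.X 1) : MvPolynomial (Fin 2) L) = 0 := by
        rw [map_add, map_pow]
        have h5 := map_bA ((MvPolynomial.aeval u : MvPolynomial (Fin 2) L →ₐ[L] N) :
          MvPolynomial (Fin 2) L →+* N) c (MvPolynomial.X 0 + MvPolynomial.X 1 * MvPolynomial.C w)
            (MvPolynomial.C g * MvPolynomial.X 1)
        have h6 : ((MvPolynomial.aeval u : MvPolynomial (Fin 2) L →ₐ[L] N) :
          MvPolynomial (Fin 2) L →+* N) (bA c (MvPolynomial.X 0 + MvPolynomial.X 1 *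
            MvPolynomial.C w) (MvPolynomial.C g * MvPolynomial.X 1)) = MvPolynomial.aeval u
            (bA c (MvPolynomial.X 0 + MvPolynomial.X 1 *
            MvPolynomial.C w) (MvPolynomial.C g * MvPolynomial.X 1)) := rfl
        rw [← h6, h5]
        simpa using h3
      have h7 := (injective_iff_map_eq_zero _).1 hu _ h4
      have h8 := congrArg (MvPolynomial.eval (fun i : Fin 2 => if i = 0 then (1 : L) else 0)) h7
      rw [map_zero, map_add, map_pow] at h8
      have h9 := map_bA (MvPolynomial.eval (fun i : Fin 2 => if i = 0 then (1 : L) else 0)) c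
        (MvPolynomial.X 0 + MvPolynomial.X 1 * MvPolynomial.C w)
            (MvPolynomial.C g * MvPolynomial.X 1)
      rw [h9] at h8
      simp [bA] at h8

end MP7Z.A3
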