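import Pool.Agent.Lib.MP_7f581e_Z.Alt3.Spec

/-!
# Alternating groups of small degree: inertia in characteristic two (module BLoc)
-/

set_option autoImplicit false

namespace MP7Z.A3

open Polynomial MP7Z

namespace BLocM

theorem alg_mem {Ω : Type} [Field Ω] [Algebra (ZMod 2) Ω] (V : ValuationSubring Ω) (c : ZMod 2) :
    algebraMap (ZMod 2) Ω c ∈ V := by
  obtain ⟨n, rfl⟩ := ZMod.natCast_zmod_surjective c
  rw [map_natCast]
  exact natCast_mem V n

theorem lt_of_ne {Ω : Type} [Field Ω] {V : ValuationSubring Ω} {a : Ω} (ha : a ∈ V)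
    (h : V.valuation a ≠ 1) : V.valuation a < 1 :=
  lt_of_le_of_ne ((V.valuation_le_one_iff _).2 ha) h

/-- a root of `X² + X = c` -/
theorem exists_rho (Ω : Type) [Field Ω] [Algebra (ZMod 2) Ω] [IsSepClosed Ω] (c : ZMod 2) :
    ∃ ρ₀ ∈ Cst 2 Ω, ρ₀ ^ 2 + ρ₀ = algebraMap (ZMod 2) Ω c := by
  have h2 : ((2 : ℕ) : Ω) = 0 := by
    rw [Nat.cast_ofNat]
    exact two_eq_zero' Ω
  obtain ⟨z, hz⟩ := IsSepClosed.exists_root_C_mul_X_pow_add_C_mul_X_add_C (k := Ω) (n := 2) 1 1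
    (-algebraMap (ZMod 2) Ω c) h2 le_rfl one_ne_zero
  have hz' : z ^ 2 + z = algebraMap (ZMod 2) Ω c := by linear_combination hz
  refine ⟨z, ?_, hz'⟩
  rw [mem_algebraicClosure_iff]
  refine ⟨X ^ 2 + X - C c, ?_, ?_⟩
  · intro h
    have h1 := congrArg (fun q => q.coeff 2) h
    simp [coeff_X] at h1
  · rw [map_sub, map_add, map_pow, aeval_X, aeval_C, hz', sub_self]

end BLocM

theorem tBLoc (hA : BLocAStmt) (hB : BLocBStmt) : BLocStmt := by
  intro n t c Ω _ _ x hx V hV w g u y hw hg hu _ hD ⟨hinj, hF, _⟩ δ hδ hδw hδg hδu ρ hρ hsign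
  have hF' : t.f (bA c (u 0 + u 1 * w) (g * u 1)) (bDen c (u 0 + u 1 * w) (g * u 1) ^ 2) =
      ∏ i, (X - C (y i)) := by
    have h := hF
    change t.f (bA c (u 0 + u 1 * w) (g * u 1)) (bDen c (u 0 + u 1 * w) (g * u 1) ^ 2) =
      C 1 * ∏ i, (X - C (y i)) at h
    rwa [C_1, one_mul] at h
  have hD' : bDen c (u 0 + u 1 * w) (g * u 1) ≠ 0 := hD
  have hs : u 0 + u 1 * w ∈ V := V.add_mem _ _ (hu 0) (V.mul_mem _ _ (hu 1) hw)
  have hh : g * u 1 ∈ V := V.mul_mem _ _ hg (hu 1)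
  have hδs : δ (u 0 + u 1 * w) = u 0 + u 1 * w := by rw [map_add, map_mul, hδu, hδu, hδw]
  have hδh : δ (g * u 1) = g * u 1 := by rw [map_mul, hδg, hδu]
  generalize u 0 + u 1 * w = s at *
  generalize g * u 1 = h at *
  have hc := BLocM.alg_mem V c
  have hAV : bA c s h ∈ V := V.add_mem _ _ (V.add_mem _ _ (pow_mem hs 2) (V.mul_mem _ _ hs hh))
    (V.mul_mem _ _ hc (pow_mem hh 2))
  have hDV : bDen c s h ∈ V := V.mul_mem _ _ hh (V.add_mem _ _ (pow_mem hh 2) hAV)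
  have hρ1 : ρ = 1 := by
    by_cases h1 : V.valuation (bA c s h) = 1 ∨ V.valuation (bDen c s h ^ 2) = 1
    · exact hA n t Ω x hx V hV _ _ y hAV (pow_mem hDV 2) h1 hinj hF' δ hδ ρ hρ hsign
    · rw [not_or] at h1
      have hsc : IsSepClosed Ω := hx.sepClosed
      obtain ⟨r, hrC, hr⟩ := BLocM.exists_rho Ω c
      have h2 := two_eq_zero' Ω
      have hδr : δ r = r := hδ.1 r hrC
      refine hB n t Ω x hx V hV _ _ (s + h * r) (s + h * r + h) y (BLocM.lt_of_ne hAV h1.1)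
        (BLocM.lt_of_ne (pow_mem hDV 2) h1.2) (pow_ne_zero 2 hD') ?_ ?_ hinj hF' δ hδ ?_ ?_
        ρ hρ hsign
      · rw [bA, ← hr]
        linear_combination (-(s * h * r)) * h2
      · rw [bDen, bA, ← hr]
        congr 1
        linear_combination (-(s + h * r) ^ 3 - h * s ^ 2 - 3 * s * h ^ 2 * r - h ^ 3 * r ^ 2 -
          s * h ^ 2 - h ^ 3 * r) * h2
      · rw [map_add, map_mul, hδs, hδh, hδr]
      · rw [map_add, map_add, map_mul, hδs, hδh, hδr]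
  rw [hρ1, one_pow]

end MP7Z.A3
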