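import Pool.Agent.Lib.MP_7f581e_Z.Alt3.Spec
import Pool.Agent.Lib.MP_7f581e_Z.Alt2.LocA

/-!
# Local analysis in characteristic two, away from the common zeros of `A` and `κ`
-/

set_option autoImplicit false

namespace MP7Z.A3

open Polynomial MP7Z MP7Z.A2

theorem tBLocA (h0 : ResStmt) (h1 : BSepStmt) : BLocAStmt := by
  intro n t Ω _ _ x hst V hV A κ y hA hκ hAκ hinj hf δ hδI ρ hρ hs
  obtain ⟨hcst, -, -, hδ⟩ := h0 2 Ω x hst V hV
  have hz : ∀ c : ZMod 2, algebraMap (ZMod 2) Ω c ∈ V := fun c =>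
    hcst _ ((Cst 2 Ω).algebraMap_mem c)
  let φ : ZMod 2 →+* V := (algebraMap (ZMod 2) Ω).codRestrict V.toSubring hz
  let : Algebra (ZMod 2) V := φ.toAlgebra
  obtain ⟨A', hA'⟩ : ∃ e' : V, (e' : Ω) = A := ⟨⟨A, hA⟩, rfl⟩
  obtain ⟨κ', hκ'⟩ : ∃ e' : V, (e' : Ω) = κ := ⟨⟨κ, hκ⟩, rfl⟩
  have hinjV : Function.Injective (algebraMap V Ω) := Subtype.val_injective
  have hfV : (t.f A' κ').map (algebraMap V Ω) = t.f A κ := by
    rw [t.map_f]
    have h1 : algebraMap V Ω A' = A := hA'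
    have h2 : algebraMap V Ω κ' = κ := hκ'
    rw [h1, h2]
  have hyV : ∀ i, y i ∈ V := by
    intro i
    have hm : (t.f A' κ').Monic := by
      apply Polynomial.monic_of_injective hinjV
      rw [hfV]
      exact ((h1 n t Ω).1 A κ).1
    have hint : IsIntegral V (y i) := by
      refine ⟨_, hm, ?_⟩
      rw [← eval_map, hfV, hf, eval_prod]
      exact Finset.prod_eq_zero (Finset.mem_univ i) (by simp)
    obtain ⟨z, hz⟩ := (IsIntegrallyClosed.isIntegral_iff (R := V) (K := Ω)).1 hint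
    rw [← hz]
    exact z.2
  have hf2 : t.f A' κ' = ∏ i, (X - C (⟨y i, hyV i⟩ : V)) := by
    apply Polynomial.map_injective _ hinjV
    rw [hfV, hf, Polynomial.map_prod]
    apply Finset.prod_congr rfl
    intro i _
    rw [Polynomial.map_sub, map_X, map_C]
    rfl
  have hf3 : t.f (IsLocalRing.residue V A') (IsLocalRing.residue V κ') =
      1 * ∏ i, (X - C (IsLocalRing.residue V ⟨y i, hyV i⟩)) := by
    rw [one_mul, ← t.map_f, hf2, Polynomial.map_prod]
    apply Finset.prod_congr rfl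
    intro i _
    rw [Polynomial.map_sub, map_X, map_C]
  obtain ⟨-, -, -, -, h2, h3, -⟩ := (h1 n t (IsLocalRing.ResidueField V)).1
    (IsLocalRing.residue V A') (IsLocalRing.residue V κ')
  have h3' : ¬ (X - C (0 : IsLocalRing.ResidueField V)) ^ 3 ∣
      t.f (IsLocalRing.residue V A') (IsLocalRing.residue V κ') := by
    intro h
    have h4 : IsLocalRing.residue V κ' = 0 := by
      refine (h2 0 ((pow_dvd_pow _ (by norm_num)).trans h)).2
    rw [C_0, sub_zero] at h
    have h5 := h3 h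
    rcases hAκ with h6 | h6
    · rw [IsLocalRing.residue_eq_zero_iff, V.valuation_lt_one_iff, hA', h6] at h5
      exact lt_irrefl _ h5
    · rw [IsLocalRing.residue_eq_zero_iff, V.valuation_lt_one_iff, hκ', h6] at h4
      exact lt_irrefl _ h4
  refine LocAM.perm_eq_one (fun i => IsLocalRing.residue V ⟨y i, hyV i⟩)
    0 1 _ hf3 (fun r hr => (h2 r hr).1) h3' ρ (fun i => ?_) hs
  obtain ⟨hδ1, hδ2⟩ := hδI
  have h4 := hδ 1 δ hδ2 (fun c hc => by rw [pow_one]; exact hδ1 c hc) (y i) (hyV i)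
  rw [pow_one, hρ i] at h4
  rw [← sub_eq_zero]
  change IsLocalRing.residue V ⟨y (ρ i), hyV (ρ i)⟩ - IsLocalRing.residue V ⟨y i, hyV i⟩ = 0
  rw [← map_sub, IsLocalRing.residue_eq_zero_iff, V.valuation_lt_one_iff]
  exact h4

end MP7Z.A3
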