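import Pool.Agent.Lib.MP_7f581e_Z.Alt3.Spec

/-!
# Alternating groups of small degree: local analysis at a common zero of `A` and `κ`
-/

set_option autoImplicit false

namespace MP7Z.A3

open Polynomial MP7Z

namespace BLocBM

/-- Values of a polynomial with constant term one at small elements. -/
theorem val_one {Ω : Type} [Field Ω] [Algebra (ZMod 2) Ω] (V : ValuationSubring Ω)
    (hz : ∀ c : ZMod 2, algebraMap (ZMod 2) Ω c ∈ V) (Q : (ZMod 2)[X]) (hQ : Q.eval 0 = 1)
    (y : Ω) (hy : V.valuation y < 1) : V.valuation (aeval y Q) = 1 := by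
  have hyV : y ∈ V := (V.valuation_le_one_iff y).1 hy.le
  have h1 : aeval y Q = aeval y Q.divX * y + 1 := by
    conv_lhs => rw [← Q.divX_mul_X_add]
    rw [map_add, map_mul, aeval_X, aeval_C, coeff_zero_eq_eval_zero, hQ, map_one]
  have h2 : aeval y Q.divX ∈ V := by
    rw [aeval_def, eval₂_eq_sum_range]
    exact sum_mem fun i _ => mul_mem (hz _) (pow_mem hyV i)
  have h3 : V.valuation (aeval y Q.divX * y) < 1 := by
    rw [map_mul]
    exact mul_lt_one_of_nonneg_of_lt_one_right ((V.valuation_le_one_iff _).2 h2) zero_le hy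
  rw [h1, Valuation.map_add_eq_of_lt_right _ (by rwa [map_one]), map_one]

/-- The roots of `X³ R`. -/
theorem three {k : Type} [Field k] {n : ℕ} (y : Fin n → k) (R : k[X]) (hR : R.eval 0 ≠ 0)
    (hs : R.Separable) (h : X ^ 3 * R = ∏ i, (X - C (y i))) (T : Finset (Fin n))
    (hT : ∀ i, i ∈ T ↔ y i = 0) : T.card = 3 ∧ ∀ i j, i ≠ j → y i = y j → y i = 0 := by
  classical
  have h1 : ∏ i, (X - C (y i)) = X ^ T.card * ∏ i ∈ Finset.univ \ T, (X - C (y i)) := by
    rw [← Finset.prod_sdiff (Finset.subset_univ T), mul_comm, ← Finset.prod_const]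
    congr 1
    apply Finset.prod_congr rfl
    intro i hi
    rw [(hT i).1 hi, C_0, sub_zero]
  set Q := ∏ i ∈ Finset.univ \ T, (X - C (y i)) with hQ
  have hQ0 : Q.eval 0 ≠ 0 := by
    rw [hQ, eval_prod]
    refine Finset.prod_ne_zero_iff.2 fun i hi => ?_
    rw [eval_sub, eval_X, eval_C, zero_sub]
    refine neg_ne_zero.2 fun h2 => ?_
    exact (Finset.mem_sdiff.1 hi).2 ((hT i).2 h2)
  have hX : (X : k[X]) ≠ 0 := X_ne_zero
  have hdvd : ∀ P : k[X], X ∣ P → P.eval 0 = 0 := by
    rintro P ⟨S, rfl⟩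
    rw [eval_mul, eval_X, zero_mul]
  rw [h1] at h
  have hc : T.card = 3 := by
    rcases lt_trichotomy T.card 3 with h2 | h2 | h2
    · exfalso
      apply hQ0
      apply hdvd
      obtain ⟨m, hm⟩ : ∃ m, 3 = T.card + (m + 1) := ⟨2 - T.card, by omega⟩
      rw [hm, pow_add, mul_assoc] at h
      have h3 := mul_left_cancel₀ (pow_ne_zero _ hX) h
      exact ⟨X ^ m * R, by rw [← h3, pow_succ]; ring⟩
    · exact h2
    · exfalso
      apply hR
      apply hdvd
      obtain ⟨m, hm⟩ : ∃ m, T.card = 3 + (m + 1) := ⟨T.card - 4, by omega⟩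
      rw [hm, pow_add X 3 (m + 1), mul_assoc] at h
      have h3 := mul_left_cancel₀ (pow_ne_zero _ hX) h
      exact ⟨X ^ m * Q, by rw [h3, pow_succ]; ring⟩
  refine ⟨hc, fun i j hij hy => ?_⟩
  by_contra h0
  rw [hc] at h
  have hRQ : R = Q := mul_left_cancel₀ (pow_ne_zero _ hX) h
  have hsq : (X - C (y i)) * (X - C (y i)) ∣ R := by
    rw [hRQ, hQ]
    have hsub : ({i, j} : Finset (Fin n)) ⊆ Finset.univ \ T := by
      intro m hm
      rw [Finset.mem_insert, Finset.mem_singleton] at hm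
      rw [Finset.mem_sdiff, hT]
      refine ⟨Finset.mem_univ _, ?_⟩
      rcases hm with rfl | rfl
      · exact h0
      · rwa [← hy]
    have h4 := Finset.prod_dvd_prod_of_subset _ _ (fun m => X - C (y m)) hsub
    rwa [Finset.prod_pair hij, ← hy] at h4
  exact not_isUnit_X_sub_C _ (hs.squarefree _ hsq)

variable {n : ℕ} (t : BType n) {Ω : Type} [Field Ω] [Algebra (ZMod 2) Ω]
  (V : ValuationSubring Ω)

/-- The derivative at a small root. -/
theorem der (hz : ∀ c : ZMod 2, algebraMap (ZMod 2) Ω c ∈ V) (f : Polynomial Ω) (y : Fin n → Ω)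
    (hf : f = ∏ i, (X - C (y i)))
    (hd : derivative (t.P.map (algebraMap (ZMod 2) Ω) * f) =
      X ^ 2 * t.D.map (algebraMap (ZMod 2) Ω)) (i j l : Fin n) (hij : i ≠ j) (hil : i ≠ l)
    (hjl : j ≠ l) (hi : V.valuation (y i) < 1)
    (hm : ∀ m, m ≠ i → m ≠ j → m ≠ l → V.valuation (y m) = 1) :
    V.valuation (y i) ^ 2 = V.valuation (y i - y j) * V.valuation (y i - y l) := by
  have hD0 : t.D.eval 0 = 1 := by
    have h1 : t.D.eval 0 ≠ 0 := by
      intro h2
      obtain ⟨S, hS⟩ := t.dvd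
      have h3 := congrArg (eval 0) hS
      rw [eval_pow, t.P_zero, one_pow, eval_mul, h2, zero_mul] at h3
      exact one_ne_zero h3
    have h2 : ∀ c : ZMod 2, c ≠ 0 → c = 1 := by decide
    exact h2 _ h1
  have hP := val_one V hz t.P t.P_zero (y i) hi
  have hD := val_one V hz t.D hD0 (y i) hi
  have hf2 : f = (X - C (y i)) * ∏ m ∈ Finset.univ.erase i, (X - C (y m)) := by
    rw [hf]
    exact (Finset.mul_prod_erase Finset.univ (fun m => X - C (y m)) (Finset.mem_univ i)).symm
  have h1 : (derivative f).eval (y i) = ∏ m ∈ Finset.univ.erase i, (y i - y m) := by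
    rw [hf2, derivative_mul, eval_add, eval_mul, eval_mul, derivative_sub, derivative_X,
      derivative_C, eval_sub, eval_sub, eval_X, eval_C, sub_self, zero_mul, add_zero, eval_one,
      eval_zero, sub_zero, one_mul, eval_prod]
    apply Finset.prod_congr rfl
    intro m _
    rw [eval_sub, eval_X, eval_C]
  have h0 : f.eval (y i) = 0 := by
    rw [hf2, eval_mul, eval_sub, eval_X, eval_C, sub_self, zero_mul]
  have h2 := congrArg (eval (y i)) hd
  rw [derivative_mul, eval_add, eval_mul, eval_mul, h0, mul_zero, zero_add, h1, eval_mul,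
    eval_pow, eval_X, eval_map_algebraMap, eval_map_algebraMap] at h2
  have h3 := congrArg V.valuation h2
  rw [map_mul, map_mul, hP, hD, one_mul, mul_one, map_pow, map_prod] at h3
  rw [← h3]
  have h4 : ({j, l} : Finset (Fin n)) ⊆ Finset.univ.erase i := by
    intro m hm
    rw [Finset.mem_insert, Finset.mem_singleton] at hm
    rw [Finset.mem_erase]
    refine ⟨?_, Finset.mem_univ _⟩
    rcases hm with rfl | rfl
    · exact hij.symm
    · exact hil.symm
  rw [← Finset.prod_subset h4, Finset.prod_pair hjl]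
  intro m hm1 hm2
  rw [Finset.mem_insert, Finset.mem_singleton, not_or] at hm2
  have h5 := hm m (Finset.mem_erase.1 hm1).1 hm2.1 hm2.2
  rw [Valuation.map_sub_eq_of_lt_right _ (by rwa [h5]), h5]

/-- The core of the argument. -/
theorem core (hz : ∀ c : ZMod 2, algebraMap (ZMod 2) Ω c ∈ V) (A κ a b : Ω) (y : Fin n → Ω)
    (hκ0 : κ ≠ 0) (hA : A = a * b) (hκ : κ = (a ^ 3 + b ^ 3) ^ 2)
    (hab : V.valuation b ≤ V.valuation a) (hf : t.f A κ = ∏ i, (X - C (y i)))
    (hd : derivative (t.P.map (algebraMap (ZMod 2) Ω) * t.f A κ) =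
      X ^ 2 * t.D.map (algebraMap (ZMod 2) Ω)) (i j l : Fin n) (hij : i ≠ j) (hil : i ≠ l)
    (hjl : j ≠ l) (hi : V.valuation (y i) < 1) (hj : V.valuation (y j) < 1)
    (hl : V.valuation (y l) < 1)
    (hm : ∀ m, m ≠ i → m ≠ j → m ≠ l → V.valuation (y m) = 1)
    (δ : Ω ≃ₐ[ZMod 2] Ω) (hmod : ∀ u ∈ V, V.valuation (δ u - u) < 1) (hδa : δ a = a)
    (h1 : δ (y i) = y j) (h2 : δ (y j) = y l) (h3 : δ (y l) = y i) : False := by
  have ha : a ≠ 0 := by
    intro h
    rw [h, map_zero] at hab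
    have hb : b = 0 := (Valuation.zero_iff _).1 (le_antisymm hab zero_le)
    apply hκ0
    rw [hκ, h, hb]
    ring
  have hva : V.valuation a ≠ 0 := (Valuation.ne_zero_iff _).2 ha
  obtain ⟨β, hβ⟩ : ∃ β, b = a * β := ⟨b / a, by rw [mul_div_cancel₀ _ ha]⟩
  have hβ1 : V.valuation β ≤ 1 := by
    rw [hβ, map_mul] at hab
    by_contra h
    rw [not_le] at h
    exact absurd hab (not_le.2 (lt_mul_of_one_lt_right (zero_lt_iff.2 hva) h))
  have hβV : β ∈ V := (V.valuation_le_one_iff _).1 hβ1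
  have heval : ∀ z : Ω, (t.f A κ).eval z =
      aeval z t.P * (κ + A * z ^ 2) + z ^ 3 * aeval z t.R := by
    intro z
    rw [BType.f, eval_add, eval_mul, eval_mul, eval_add, eval_C, eval_mul, eval_C, eval_pow,
      eval_pow, eval_X, eval_map_algebraMap, eval_map_algebraMap]
  have hroot : ∀ m, aeval (y m) t.P * (κ + A * y m ^ 2) + y m ^ 3 * aeval (y m) t.R = 0 := by
    intro m
    rw [← heval, hf, eval_prod]
    exact Finset.prod_eq_zero (Finset.mem_univ m) (by simp)
  have hprod : κ = ∏ m, (-y m) := by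
    have h4 := heval 0
    rw [hf, eval_prod] at h4
    have h5 : aeval (0 : Ω) t.P = 1 := by
      have h6 := congrArg (algebraMap (ZMod 2) Ω) t.P_zero
      rw [map_one] at h6
      rw [← h6, ← aeval_algebraMap_apply_eq_algebraMap_eval, map_zero]
    rw [h5] at h4
    simp only [eval_sub, eval_X, eval_C, zero_sub] at h4
    rw [h4]
    ring
  have hy0 : ∀ m, y m ≠ 0 := by
    intro m h4
    apply hκ0
    rw [hprod]
    exact Finset.prod_eq_zero (Finset.mem_univ m) (by rw [h4, neg_zero])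
  -- the rescaled roots
  obtain ⟨Z, hZ⟩ : ∃ Z : Fin n → Ω, ∀ m, y m = a ^ 2 * Z m :=
    ⟨fun m => y m / a ^ 2, fun m => by rw [mul_div_cancel₀ _ (pow_ne_zero 2 ha)]⟩
  have hZ0 : ∀ m, V.valuation (Z m) ≠ 0 := by
    intro m
    rw [Valuation.ne_zero_iff]
    intro h4
    apply hy0 m
    rw [hZ, h4, mul_zero]
  have hδZ : ∀ m m', δ (y m) = y m' → δ (Z m) = Z m' := by
    intro m m' h4
    rw [hZ, hZ, map_mul, map_pow, hδa] at h4
    exact mul_left_cancel₀ (pow_ne_zero 2 ha) h4
  have hS : ∀ m, V.valuation (y m) < 1 →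
      V.valuation ((1 + β ^ 3) ^ 2 + β * Z m ^ 2) = V.valuation (Z m) ^ 3 := by
    intro m hm'
    have hP := val_one V hz t.P t.P_zero (y m) hm'
    have hR := val_one V hz t.R t.R_zero (y m) hm'
    have h4 : aeval (y m) t.P * ((1 + β ^ 3) ^ 2 + β * Z m ^ 2) =
        -(Z m ^ 3 * aeval (y m) t.R) := by
      apply mul_left_cancel₀ (pow_ne_zero 6 ha)
      have h5 := hroot m
      generalize aeval (y m) t.P = p at *
      generalize aeval (y m) t.R = r at *
      rw [hZ m, hA, hκ, hβ] at h5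
      linear_combination h5
    have h5 := congrArg V.valuation h4
    rwa [map_mul, hP, one_mul, Valuation.map_neg, map_mul, hR, mul_one, map_pow] at h5
  have hqV : V.valuation (1 + β ^ 3) ≤ 1 :=
    (V.valuation_le_one_iff _).2 (add_mem V.one_mem (pow_mem hβV 3))
  have hZ1 : ∀ m, V.valuation (y m) < 1 → V.valuation (Z m) ≤ 1 := by
    intro m hm'
    by_contra h4
    rw [not_le] at h4
    have h5 : V.valuation (Z m) ^ 3 ≤ V.valuation (Z m) ^ 2 := by
      rw [← hS m hm']
      refine (Valuation.map_add _ _ _).trans (max_le ?_ ?_)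
      · rw [map_pow]
        exact (pow_le_one₀ zero_le hqV).trans (one_le_pow₀ h4.le)
      · rw [map_mul, map_pow]
        exact mul_le_of_le_one_left zero_le hβ1
    exact absurd h5 (not_le.2 (pow_lt_pow_right₀ h4 (by norm_num)))
  have hZV : ∀ m, V.valuation (y m) < 1 → Z m ∈ V := fun m hm' =>
    (V.valuation_le_one_iff _).1 (hZ1 m hm')
  have hdZ : ∀ m m', V.valuation (y m) < 1 → δ (y m) = y m' →
      V.valuation (Z m' - Z m) < 1 := by
    intro m m' hm' h4
    have h5 := hmod _ (hZV m hm')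
    rwa [hδZ m m' h4] at h5
  have e1 : V.valuation (Z j - Z i) < 1 := hdZ i j hi h1
  have e2 : V.valuation (Z l - Z j) < 1 := hdZ j l hj h2
  have e3 : V.valuation (Z i - Z l) < 1 := hdZ l i hl h3
  have e1' : V.valuation (Z i - Z j) < 1 := by rwa [Valuation.map_sub_swap]
  have e2' : V.valuation (Z j - Z l) < 1 := by rwa [Valuation.map_sub_swap]
  have e3' : V.valuation (Z l - Z i) < 1 := by rwa [Valuation.map_sub_swap]
  have hsm : ∀ m m' m'', V.valuation (Z m - Z m') < 1 → V.valuation (Z m - Z m'') < 1 →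
      V.valuation (y m) ^ 2 = V.valuation (y m - y m') * V.valuation (y m - y m'') →
      V.valuation (Z m) < 1 := by
    intro m m' m'' h4 h5 h6
    rw [hZ m, hZ m', hZ m'', ← mul_sub, ← mul_sub, map_mul, map_mul, map_mul, map_pow] at h6
    have h7 : V.valuation (Z m) ^ 2 = V.valuation (Z m - Z m') * V.valuation (Z m - Z m'') := by
      apply mul_left_cancel₀ (pow_ne_zero 4 hva)
      calc V.valuation a ^ 4 * V.valuation (Z m) ^ 2
          = (V.valuation a ^ 2 * V.valuation (Z m)) ^ 2 := by rw [mul_pow, ← pow_mul]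
        _ = V.valuation a ^ 2 * V.valuation (Z m - Z m') *
            (V.valuation a ^ 2 * V.valuation (Z m - Z m'')) := h6
        _ = _ := by rw [mul_mul_mul_comm, ← pow_add]
    by_contra h8
    rw [not_lt] at h8
    have h9 : V.valuation (Z m - Z m') * V.valuation (Z m - Z m'') < 1 :=
      mul_lt_one_of_nonneg_of_lt_one_right h4.le zero_le h5
    rw [← h7] at h9
    exact absurd h9 (not_lt.2 (one_le_pow₀ h8))
  have hzi := hsm i j l e1' e3 (der t V hz _ y hf hd i j l hij hil hjl hi hm)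
  have hzj := hsm j i l e1 e2' (der t V hz _ y hf hd j i l hij.symm hjl hil hj
    (fun m h4 h5 h6 => hm m h5 h4 h6))
  have hzl := hsm l i j e3' e2 (der t V hz _ y hf hd l i j hil.symm hjl.symm hij hl
    (fun m h4 h5 h6 => hm m h5 h6 h4))
  -- the value `q`
  have hq : V.valuation (1 + β ^ 3) < 1 := by
    have h4 : (1 + β ^ 3) ^ 2 = ((1 + β ^ 3) ^ 2 + β * Z i ^ 2) - β * Z i ^ 2 := by ring
    have h5 : V.valuation ((1 + β ^ 3) ^ 2) < 1 := by
      rw [h4]
      refine (Valuation.map_sub _ _ _).trans_lt (max_lt ?_ ?_)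
      · rw [hS i hi]
        exact pow_lt_one₀ zero_le hzi (by norm_num)
      · rw [map_mul, map_pow]
        exact mul_lt_one_of_nonneg_of_lt_one_right hβ1 zero_le
          (pow_lt_one₀ zero_le hzi (by norm_num))
    by_contra h6
    rw [not_lt] at h6
    rw [map_pow] at h5
    exact absurd h5 (not_lt.2 (one_le_pow₀ h6))
  have hβe : V.valuation β = 1 := by
    have h4 : β ^ 3 = (1 + β ^ 3) - 1 := by ring
    have h5 : V.valuation (β ^ 3) = 1 := by
      rw [h4, Valuation.map_sub_eq_of_lt_right _ (by rwa [map_one]), map_one]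
    rw [map_pow] at h5
    exact (pow_eq_one_iff_of_nonneg zero_le (by norm_num)).1 h5
  have hqz : ∀ m, V.valuation (y m) < 1 → V.valuation (Z m) < 1 →
      V.valuation (Z m) = V.valuation (1 + β ^ 3) := by
    intro m h4 h5
    have h6 : (1 + β ^ 3) ^ 2 = ((1 + β ^ 3) ^ 2 + β * Z m ^ 2) - β * Z m ^ 2 := by ring
    have h7 : V.valuation (β * Z m ^ 2) = V.valuation (Z m) ^ 2 := by
      rw [map_mul, hβe, one_mul, map_pow]
    have h8 : V.valuation ((1 + β ^ 3) ^ 2) = V.valuation (Z m) ^ 2 := by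
      rw [h6, Valuation.map_sub_eq_of_lt_right, h7]
      rw [h7, hS m h4]
      exact pow_lt_pow_right_of_lt_one₀ (zero_lt_iff.2 (hZ0 m)) h5 (by norm_num)
    rw [map_pow] at h8
    exact ((pow_left_inj₀ zero_le zero_le two_ne_zero).1 h8).symm
  have hpr : V.valuation κ = V.valuation (y i) * (V.valuation (y j) * V.valuation (y l)) := by
    rw [hprod, map_prod]
    simp only [Valuation.map_neg]
    rw [← Finset.prod_subset (Finset.subset_univ ({i, j, l} : Finset (Fin n))),
      Finset.prod_insert, Finset.prod_pair hjl]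
    · rw [Finset.mem_insert, Finset.mem_singleton, not_or]
      exact ⟨hij, hil⟩
    · intro m _ h4
      rw [Finset.mem_insert, Finset.mem_insert, Finset.mem_singleton, not_or, not_or] at h4
      exact hm m h4.1 h4.2.1 h4.2.2
  have hκa : κ = a ^ 6 * (1 + β ^ 3) ^ 2 := by
    rw [hκ, hβ]
    ring
  rw [hκa, hZ i, hZ j, hZ l, map_mul, map_mul, map_mul, map_mul, map_pow, map_pow, map_pow,
    hqz i hi hzi, hqz j hj hzj, hqz l hl hzl] at hpr
  have hfin : V.valuation (1 + β ^ 3) ^ 2 = V.valuation (1 + β ^ 3) ^ 3 := by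
    apply mul_left_cancel₀ (pow_ne_zero 6 hva)
    rw [hpr, ← pow_two, ← pow_succ', mul_pow, ← pow_mul]
  have hq0 : 0 < V.valuation (1 + β ^ 3) := by
    rw [← hqz i hi hzi]
    exact zero_lt_iff.2 (hZ0 i)
  exact absurd hfin (pow_lt_pow_right_of_lt_one₀ hq0 hq (by norm_num)).ne'

end BLocBM

open BLocBM

theorem tBLocB (h0 : ResStmt) (h1 : BSepStmt) : BLocBStmt := by
  intro n t Ω _ _ x hst V hV A κ a b y hA1 hκ1 hκ0 hAab hκab hinj hf δ hδI hδa hδb ρ hρ hs
  classical
  obtain ⟨hcst, -, -, hδ⟩ := h0 2 Ω x hst V hV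
  have hz : ∀ c : ZMod 2, algebraMap (ZMod 2) Ω c ∈ V := fun c =>
    hcst _ ((Cst 2 Ω).algebraMap_mem c)
  have hmod : ∀ u ∈ V, V.valuation (δ u - u) < 1 := by
    intro u hu
    have h3 := hδ 1 δ hδI.2 (fun c hc => by
      rw [pow_one]
      exact hδI.1 c hc) u hu
    rwa [pow_one] at h3
  let φ : ZMod 2 →+* V := (algebraMap (ZMod 2) Ω).codRestrict V.toSubring hz
  let : Algebra (ZMod 2) V := φ.toAlgebra
  obtain ⟨A', hA'⟩ : ∃ e' : V, (e' : Ω) = A :=
    ⟨⟨A, (V.valuation_le_one_iff _).1 hA1.le⟩, rfl⟩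
  obtain ⟨κ', hκ'⟩ : ∃ e' : V, (e' : Ω) = κ :=
    ⟨⟨κ, (V.valuation_le_one_iff _).1 hκ1.le⟩, rfl⟩
  have hinjV : Function.Injective (algebraMap V Ω) := Subtype.val_injective
  have hfV : (t.f A' κ').map (algebraMap V Ω) = t.f A κ := by
    rw [t.map_f]
    have h1 : algebraMap V Ω A' = A := hA'
    have h2 : algebraMap V Ω κ' = κ := hκ'
    rw [h1, h2]
  have hyV : ∀ i, y i ∈ V := by
    intro i
    have hm : (t.f A' κ').Monic := by
      apply Polynomial.monic_of_injective hinjV
      rw [hfV, hf]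
      exact monic_prod_of_monic _ _ fun i _ => monic_X_sub_C _
    have hint : IsIntegral V (y i) := by
      refine ⟨_, hm, ?_⟩
      rw [← eval_map, hfV, hf, eval_prod]
      exact Finset.prod_eq_zero (Finset.mem_univ i) (by simp)
    obtain ⟨z, hz⟩ := (IsIntegrallyClosed.isIntegral_iff (R := V) (K := Ω)).1 hint
    rw [← hz]
    exact z.2
  have hf2 : t.f A' κ' = ∏ i, (X - C (⟨y i, hyV i⟩ : V)) := by
    apply Polynomial.map_injective _ hinjV
    rw [hfV, hf, Polynomial.map_prod]
    apply Finset.prod_congr rfl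
    intro i _
    rw [Polynomial.map_sub, map_X, map_C]
    rfl
  have hf3 : t.f (IsLocalRing.residue V A') (IsLocalRing.residue V κ') =
        ∏ i, (X - C (IsLocalRing.residue V ⟨y i, hyV i⟩)) := by
    rw [← t.map_f, hf2, Polynomial.map_prod]
    apply Finset.prod_congr rfl
    intro i _
    rw [Polynomial.map_sub, map_X, map_C]
  have hrA : IsLocalRing.residue V A' = 0 := by
    rw [IsLocalRing.residue_eq_zero_iff, V.valuation_lt_one_iff, hA']
    exact hA1
  have hrκ : IsLocalRing.residue V κ' = 0 := by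
    rw [IsLocalRing.residue_eq_zero_iff, V.valuation_lt_one_iff, hκ']
    exact hκ1
  have hres0 : ∀ i, IsLocalRing.residue V ⟨y i, hyV i⟩ = 0 ↔ V.valuation (y i) < 1 := by
    intro i
    rw [IsLocalRing.residue_eq_zero_iff, V.valuation_lt_one_iff]
  rw [hrA, hrκ, BType.f, C_0, zero_mul, add_zero, mul_zero, zero_add] at hf3
  obtain ⟨-, hsepR⟩ := h1 n t (IsLocalRing.ResidueField V)
  have hR0 : (t.R.map (algebraMap (ZMod 2) (IsLocalRing.ResidueField V))).eval 0 ≠ 0 := by
    have h4 : (t.R.map (algebraMap (ZMod 2) (IsLocalRing.ResidueField V))).eval 0 = 1 := by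
      rw [← map_zero (algebraMap (ZMod 2) (IsLocalRing.ResidueField V)), eval_map,
        eval₂_at_apply, t.R_zero, map_one]
    rw [h4]
    exact one_ne_zero
  obtain ⟨hT1, hT2⟩ := three _ _ hR0 hsepR hf3
    (Finset.univ.filter (fun i => V.valuation (y i) < 1)) (fun i => by
      rw [Finset.mem_filter, hres0]
      exact and_iff_right (Finset.mem_univ i))
  set T := Finset.univ.filter (fun i => V.valuation (y i) < 1) with hT
  have hmemT : ∀ i, i ∈ T ↔ V.valuation (y i) < 1 := by
    intro i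
    rw [hT, Finset.mem_filter]
    exact and_iff_right (Finset.mem_univ i)
  have hsupp : ρ.support ⊆ T := by
    intro i hi
    rw [Equiv.Perm.mem_support] at hi
    rw [hmemT, ← hres0]
    apply hT2 i (ρ i) hi.symm
    have h4 := hmod (y i) (hyV i)
    rw [hρ i] at h4
    symm
    rw [← sub_eq_zero]
    change IsLocalRing.residue V ⟨y (ρ i), hyV (ρ i)⟩ -
      IsLocalRing.residue V ⟨y i, hyV i⟩ = 0
    rw [← map_sub, IsLocalRing.residue_eq_zero_iff, V.valuation_lt_one_iff]
    exact h4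
  have hcard : ρ.support.card ≤ 3 := by
    rw [← hT1]
    exact Finset.card_le_card hsupp
  have hcases : ρ.support.card ≤ 1 ∨ ρ.support.card = 2 ∨ ρ.support.card = 3 := by omega
  rcases hcases with h | h | h
  · exact Equiv.Perm.card_support_le_one.1 h
  · have h5 := (Equiv.Perm.card_support_eq_two.1 h).sign_eq
    rw [hs] at h5
    exact absurd h5 (by decide)
  · exfalso
    have h3c := card_support_eq_three_iff.1 h
    have hTeq : ρ.support = T := Finset.eq_of_subset_of_card_le hsupp (by rw [hT1, h])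
    obtain ⟨i, hi⟩ : ρ.support.Nonempty := by
      rw [← Finset.card_pos, h]
      norm_num
    have hnd := h3c.nodup_iff_mem_support.2 hi
    have hse := h3c.support_eq_iff_mem_support.2 hi
    have h3i : ρ (ρ (ρ i)) = i := by
      have h6 : ρ ^ 3 = 1 := by
        rw [← h3c.orderOf]
        exact pow_orderOf_eq_one ρ
      have h7 := congrArg (fun g : Equiv.Perm (Fin n) => g i) h6
      simpa [pow_succ] using h7
    simp only [List.nodup_cons, List.mem_cons, List.not_mem_nil, or_false, not_or,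
      not_false_eq_true, List.nodup_nil, and_true] at hnd
    obtain ⟨⟨hn1, hn2⟩, hn3⟩ := hnd
    have hval : ∀ m ∈ ρ.support, V.valuation (y m) < 1 := by
      intro m hm
      rw [hTeq] at hm
      exact (hmemT m).1 hm
    have hi2 : ρ i ∈ ρ.support := by rwa [Equiv.Perm.apply_mem_support]
    have hi3 : ρ (ρ i) ∈ ρ.support := by rwa [Equiv.Perm.apply_mem_support]
    have hm : ∀ m, m ≠ i → m ≠ ρ i → m ≠ ρ (ρ i) → V.valuation (y m) = 1 := by
      intro m hm1 hm2 hm3
      have hle : V.valuation (y m) ≤ 1 := (V.valuation_le_one_iff _).2 (hyV m)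
      rcases hle.eq_or_lt with h6 | h6
      · exact h6
      · exfalso
        have h7 : m ∈ ρ.support := by
          rw [hTeq]
          exact (hmemT m).2 h6
        rw [hse, Finset.mem_insert, Finset.mem_insert, Finset.mem_singleton] at h7
        rcases h7 with h7 | h7 | h7
        · exact hm1 h7
        · exact hm2 h7
        · exact hm3 h7
    obtain ⟨hB, -⟩ := h1 n t Ω
    obtain ⟨-, -, -, -, -, -, hd⟩ := hB A κ
    rcases le_total (V.valuation b) (V.valuation a) with hab | hab
    · exact core t V hz A κ a b y hκ0 hAab hκab hab hf hd i (ρ i) (ρ (ρ i)) hn1 hn2 hn3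
        (hval i hi) (hval _ hi2) (hval _ hi3) hm δ hmod hδa (hρ i) (hρ (ρ i))
        (by rw [hρ, h3i])
    · exact core t V hz A κ b a y hκ0 (by rw [hAab, mul_comm])
        (by rw [hκab, add_comm]) hab hf hd i (ρ i) (ρ (ρ i)) hn1 hn2 hn3
        (hval i hi) (hval _ hi2) (hval _ hi3) hm δ hmod hδb (hρ i) (hρ (ρ i))
        (by rw [hρ, h3i])

end MP7Z.A3
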