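import Pool.Agent.Lib.MP_7f581e_Z.Alt3.Spec

/-!
# Separability of the polynomials in characteristic two
-/

set_option autoImplicit false

namespace MP7Z.A3
namespace BSepM

open Polynomial MP7Z

section

variable {n : ℕ} (t : BType n) {F : Type} [Field F] [Algebra (ZMod 2) F]

/-- the polynomial over `F` -/
noncomputable abbrev m (F : Type) [Field F] [Algebra (ZMod 2) F] (Q : (ZMod 2)[X]) : F[X] :=
  Q.map (algebraMap (ZMod 2) F)

theorem eval_zero_of {Q : (ZMod 2)[X]} (h : Q.eval 0 = 1) : (m F Q).eval 0 = 1 := by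
  rw [← map_zero (algebraMap (ZMod 2) F), eval_map, eval₂_at_apply, h, map_one]

theorem cop_X {f : F[X]} (h : f.eval 0 ≠ 0) : IsCoprime f X := by
  refine (irreducible_X.coprime_iff_not_dvd.2 ?_).symm
  rw [X_dvd_iff, coeff_zero_eq_eval_zero]
  exact h

theorem cop_PR : IsCoprime (m F t.P) (m F t.R) := t.cop.map (mapRingHom (algebraMap (ZMod 2) F))

theorem key' : derivative (X ^ 3 * m F t.P * m F t.R) = X ^ 2 * m F t.D := by
  have h := congrArg (Polynomial.map (algebraMap (ZMod 2) F)) t.key
  rw [← derivative_map] at h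
  simp only [Polynomial.map_mul, Polynomial.map_pow, map_X] at h
  exact h

theorem dvd' : m F t.D ∣ m F t.P ^ t.k := by
  have h := Polynomial.map_dvd (algebraMap (ZMod 2) F) t.dvd
  rwa [Polynomial.map_pow] at h

theorem two' : (2 : F[X]) = 0 := by
  have h := two_eq_zero' F
  have : (2 : F[X]) = C (2 : F) := (map_ofNat C 2).symm
  rw [this, h, C_0]

theorem der (A κ : F) : derivative (m F t.P * t.f A κ) = X ^ 2 * m F t.D := by
  have h : m F t.P * t.f A κ = m F t.P ^ 2 * (C κ + C A * X ^ 2)
      + X ^ 3 * m F t.P * m F t.R := by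
    rw [BType.f]; ring
  rw [h, derivative_add, key']
  have h2 : derivative (m F t.P ^ 2 * (C κ + C A * X ^ 2)) = 0 := by
    simp only [derivative_mul, derivative_pow, derivative_add, derivative_C, derivative_X,
      Nat.cast_ofNat, map_ofNat]
    rw [two']
    ring
  rw [h2, zero_add]

theorem f_zero (A κ : F) : (t.f A κ).eval 0 = κ := by
  have h := eval_zero_of (F := F) t.P_zero
  simp only [BType.f, eval_add, eval_mul, eval_pow, eval_X, eval_C]
  rw [h]
  ring

theorem cop_fP (A κ : F) : IsCoprime (t.f A κ) (m F t.P) := by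
  have h1 : IsCoprime (X ^ 3 * m F t.R) (m F t.P) := by
    refine IsCoprime.mul_left (IsCoprime.pow_left ?_) (cop_PR t).symm
    refine (cop_X ?_).symm
    rw [eval_zero_of t.P_zero]
    exact one_ne_zero
  rw [BType.f, add_comm]
  exact (IsCoprime.add_mul_left_left_iff (y := m F t.P)).2 h1

theorem sep_of {g h : F[X]} (h0 : g.eval 0 ≠ 0) (hP : IsCoprime g (m F t.P))
    (hd : derivative (h * g) = X ^ 2 * m F t.D) : g.Separable := by
  have h1 : IsCoprime g (X ^ 2 * m F t.D) := by
    refine IsCoprime.mul_right ((cop_X h0).pow_right) ?_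
    exact (hP.pow_right (n := t.k)).of_isCoprime_of_dvd_right (dvd' t)
  rw [← hd, derivative_mul, add_comm] at h1
  have h2 : IsCoprime g (h * derivative g) := (IsCoprime.add_mul_right_right_iff).1 h1
  exact h2.of_mul_right_right

theorem monic_deg (A κ : F) : (t.f A κ).Monic ∧ (t.f A κ).natDegree = n := by
  have hR : (m F t.R).Monic := t.hR.map _
  have hX : (X ^ 3 * m F t.R).Monic := (monic_X_pow 3).mul hR
  have hd : (X ^ 3 * m F t.R).natDegree = n := by
    rw [(monic_X_pow 3).natDegree_mul hR, natDegree_X_pow, t.hR.natDegree_map]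
    have := t.hn
    omega
  have hl : (m F t.P * (C κ + C A * X ^ 2)).natDegree < n := by
    refine lt_of_le_of_lt natDegree_mul_le (lt_of_le_of_lt (add_le_add natDegree_map_le ?_) t.hP)
    compute_degree
  have hlt : (m F t.P * (C κ + C A * X ^ 2)).degree < (X ^ 3 * m F t.R).degree :=
    degree_lt_degree (by rw [hd]; exact hl)
  refine ⟨?_, ?_⟩
  · rw [BType.f]
    exact hX.add_of_right hlt
  · rw [BType.f, natDegree_add_eq_right_of_degree_lt hlt, hd]

theorem root (A κ r : F) (h : (X - C r) ^ 2 ∣ t.f A κ) : r = 0 ∧ κ = 0 := by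
  have h1 : (X - C r) ^ 2 ∣ m F t.P * t.f A κ := Dvd.dvd.mul_left h _
  have h2 : (X - C r) ∣ X ^ 2 * m F t.D := by
    rw [← der t A κ]
    obtain ⟨g, hg⟩ := h1
    have e : derivative ((X - C r) ^ 2 * g) =
        (X - C r) * (2 * g + (X - C r) * derivative g) := by
      rw [pow_two, derivative_mul, derivative_mul, derivative_sub, derivative_X, derivative_C]
      ring
    rw [hg, e]
    exact dvd_mul_right _ _
  have h3 : (X ^ 2 * m F t.D).eval r = 0 := dvd_iff_isRoot.1 h2
  have h4 : (t.f A κ).eval r = 0 := dvd_iff_isRoot.1 ((dvd_pow_self _ (by norm_num)).trans h)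
  have hr : r = 0 := by
    by_contra hr
    rw [eval_mul, eval_pow, eval_X, mul_eq_zero, or_iff_right (pow_ne_zero 2 hr)] at h3
    have h5 : (m F t.P).eval r = 0 := by
      have h6 : (m F t.P ^ t.k).eval r = 0 := eval_eq_zero_of_dvd_of_eval_eq_zero (dvd' t) h3
      rw [eval_pow] at h6
      by_contra h7
      exact pow_ne_zero _ h7 h6
    obtain ⟨a, b, hab⟩ := cop_fP t A κ
    have h8 := congrArg (eval r) hab
    rw [eval_add, eval_mul, eval_mul, h4, h5, eval_one] at h8
    simp at h8
  refine ⟨hr, ?_⟩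
  rw [hr, f_zero] at h4
  exact h4

theorem cube (A κ : F) (h : X ^ 3 ∣ t.f A κ) : A = 0 := by
  rw [X_pow_dvd_iff] at h
  have h0 : κ = 0 := by
    have := h 0 (by norm_num)
    rwa [coeff_zero_eq_eval_zero, f_zero] at this
  have h2 := h 2 (by norm_num)
  have hP : (m F t.P).coeff 0 = 1 := by
    rw [coeff_zero_eq_eval_zero, eval_zero_of t.P_zero]
  rw [BType.f, h0, C_0, zero_add] at h2
  have e : m F t.P * (C A * X ^ 2) + X ^ 3 * m F t.R
      = X ^ 2 * (C A * m F t.P + X * m F t.R) := by ring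
  rw [e] at h2
  have e2 : (X ^ 2 * (C A * m F t.P + X * m F t.R)).coeff 2
      = (C A * m F t.P + X * m F t.R).coeff 0 := by
    have := coeff_X_pow_mul (C A * m F t.P + X * m F t.R) 2 0
    simpa using this
  rw [e2, coeff_add, coeff_C_mul, hP, mul_coeff_zero, coeff_X_zero] at h2
  simpa using h2

end

end BSepM

open Polynomial MP7Z BSepM in
theorem tBSep : BSepStmt := by
  intro n t F _ _
  refine ⟨fun A κ => ⟨(monic_deg t A κ).1, (monic_deg t A κ).2, f_zero t A κ, fun hκ => ?_,
    root t A κ, cube t A κ, der t A κ⟩, ?_⟩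
  · exact sep_of t (h := m F t.P) (by rw [f_zero]; exact hκ) (cop_fP t A κ) (der t A κ)
  · refine sep_of t (h := X ^ 3 * m F t.P) ?_ (cop_PR t).symm (key' t)
    rw [eval_zero_of t.R_zero]
    exact one_ne_zero

end MP7Z.A3
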