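import Pool.Agent.Lib.MP_7f581e_Z.Alt3.Spec

/-!
# The generic group of the families in characteristic two is doubly transitive
-/

set_option autoImplicit false

namespace MP7Z.A3
namespace BTrM

open Polynomial MP7Z

section field

variable {L N : Type} [Field L] [Field N] [Algebra L N]

theorem alg_mono {K₁ K₂ : IntermediateField L N}
    (h : K₁ ≤ K₂) (ha : Algebra.IsAlgebraic K₁ N) : Algebra.IsAlgebraic K₂ N := by
  let _ : Algebra K₁ K₂ := (IntermediateField.inclusion h).toRingHom.toAlgebra
  have : IsScalarTower K₁ K₂ N := .of_algebraMap_eq (fun _ => rfl)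
  exact Algebra.IsAlgebraic.tower_top (K := K₁) K₂

/-- The elements algebraic over `L(a)`. -/
noncomputable def cl (L : Type) {N : Type} [Field L] [Field N] [Algebra L N] (a : N) :
    IntermediateField L N :=
  (algebraicClosure (IntermediateField.adjoin L {a}) N).restrictScalars L

theorem mem_cl {a z : N} : z ∈ cl L a ↔ IsAlgebraic (IntermediateField.adjoin L {a}) z := by
  rw [cl, IntermediateField.mem_restrictScalars, mem_algebraicClosure_iff]

theorem adj_mem_cl {a z : N} (h : z ∈ IntermediateField.adjoin L {a}) : z ∈ cl L a := by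
  rw [mem_cl]
  exact isAlgebraic_algebraMap (⟨z, h⟩ : IntermediateField.adjoin L {a})

open scoped IntermediateField.algebraAdjoinAdjoin in
theorem no2 {U T : N} (hUT : AlgebraicIndependent L ![U, T])
    (halg : Algebra.IsAlgebraic (IntermediateField.adjoin L {U, T}) N) (a : N)
    (hU : U ∈ cl L a) (hT : T ∈ cl L a) : False := by
  have h1 : IntermediateField.adjoin L {U, T} ≤ cl L a := by
    rw [IntermediateField.adjoin_le_iff]
    rintro z (rfl | hz)
    · exact hU
    · rw [Set.mem_singleton_iff] at hz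
      rw [hz]
      exact hT
  have h2 : Algebra.IsAlgebraic (cl L a) N := alg_mono h1 halg
  have h3 : Algebra.IsAlgebraic (IntermediateField.adjoin L {a}) N := by
    have h2' : Algebra.IsAlgebraic (algebraicClosure (IntermediateField.adjoin L {a}) N) N := h2
    exact Algebra.IsAlgebraic.trans (IntermediateField.adjoin L {a})
      (algebraicClosure (IntermediateField.adjoin L {a}) N) N
  have h4 : Algebra.IsAlgebraic (Algebra.adjoin L {a}) N :=
    (IsFractionRing.comap_isAlgebraic_iff (A := Algebra.adjoin L {a})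
      (K := IntermediateField.adjoin L {a}) (C := N)).mpr h3
  have h5 : Algebra.trdeg L N ≤ 1 := by
    have := Algebra.IsAlgebraic.trdeg_le_cardinalMk (R := L) (A := N) {a}
    simpa using this
  have h6 : 2 ≤ Algebra.trdeg L N := by
    have := hUT.cardinalMk_le_trdeg
    simpa using this
  have h7 := h6.trans h5
  norm_num at h7

theorem alg_adjoin {A κ : N} (halg : Algebra.IsAlgebraic (IntermediateField.adjoin L {A, κ}) N)
    (F : IntermediateField L N) (c : N)
    (hA : A ∈ (IntermediateField.adjoin F {c}).restrictScalars L)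
    (hκ : κ ∈ (IntermediateField.adjoin F {c}).restrictScalars L) :
    Algebra.IsAlgebraic (IntermediateField.adjoin F {c}) N := by
  have h1 : IntermediateField.adjoin L {A, κ} ≤
      (IntermediateField.adjoin F {c}).restrictScalars L := by
    rw [IntermediateField.adjoin_le_iff]
    rintro z (rfl | hz)
    · exact hA
    · rw [Set.mem_singleton_iff] at hz
      rw [hz]
      exact hκ
  have h2 := alg_mono h1 halg
  exact h2

end field

/-- `P` is coprime to `X³ R`. -/
theorem cop {n : ℕ} (t : BType n) (F : Type) [Field F] [Algebra (ZMod 2) F] :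
    IsCoprime (t.P.map (algebraMap (ZMod 2) F)) (X ^ 3 * t.R.map (algebraMap (ZMod 2) F)) := by
  have h1 : IsCoprime (t.P.map (algebraMap (ZMod 2) F)) (t.R.map (algebraMap (ZMod 2) F)) :=
    t.cop.map (mapRingHom (algebraMap (ZMod 2) F))
  have h2 : IsCoprime t.P X := by
    refine ⟨1, -t.P.divX, ?_⟩
    have h3 := t.P.divX_mul_X_add
    rw [coeff_zero_eq_eval_zero, t.P_zero, C_1] at h3
    linear_combination (-1 : (ZMod 2)[X]) * h3
  have h3 : IsCoprime (t.P.map (algebraMap (ZMod 2) F)) X := by
    have h4 := h2.map (mapRingHom (algebraMap (ZMod 2) F))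
    rwa [coe_mapRingHom, map_X] at h4
  exact (h3.pow_right).mul_right h1

variable {L N : Type} [Field L] [Field N]
    [Algebra (ZMod 2) L] [Algebra (ZMod 2) N] [Algebra L N] [IsScalarTower (ZMod 2) L N]
    [IsAlgClosed N]

omit [IsAlgClosed N] in
/-- The value of the polynomial. -/
theorem eval_f {n : ℕ} (t : BType n) (A κ z : N) : (t.f A κ).eval z =
    aeval z t.P * (κ + A * z ^ 2) + z ^ 3 * aeval z t.R := by
  rw [BType.f, eval_add, eval_mul, eval_mul, eval_add, eval_C, eval_mul, eval_C, eval_pow,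
    eval_pow, eval_X, eval_map_algebraMap, eval_map_algebraMap]

/-- Transitivity. -/
theorem trans (h0 : AutLinStmt) {n : ℕ} (t : BType n) {A κ : N}
    (hind : AlgebraicIndependent L ![A, κ])
    (halg : Algebra.IsAlgebraic (IntermediateField.adjoin L {A, κ}) N) {a b : N}
    (ha : (t.f A κ).eval a = 0) (hb : (t.f A κ).eval b = 0) :
    ∃ σ : N ≃ₐ[L] N, σ A = A ∧ σ κ = κ ∧ σ a = b := by
  set F := IntermediateField.adjoin L {A} with hF
  have hAF : A ∈ F := IntermediateField.mem_adjoin_simple_self L A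
  have hκ : Transcendental F κ := fun h =>
    no2 hind halg A (adj_mem_cl hAF) (mem_cl.2 h)
  let aF : F := ⟨A, hAF⟩
  have haF : algebraMap F N aF = A := rfl
  have hmA : A ∈ (IntermediateField.adjoin F {κ}).restrictScalars L := by
    rw [IntermediateField.mem_restrictScalars, ← haF]
    exact IntermediateField.algebraMap_mem _ aF
  have hmκ : κ ∈ (IntermediateField.adjoin F {κ}).restrictScalars L := by
    rw [IntermediateField.mem_restrictScalars]
    exact IntermediateField.mem_adjoin_simple_self _ κ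
  have hval : ∀ z : N, (t.f A κ).eval z = 0 →
      κ * aeval z (t.P.map (algebraMap (ZMod 2) F)) +
        aeval z (X ^ 3 * t.R.map (algebraMap (ZMod 2) F) +
          t.P.map (algebraMap (ZMod 2) F) * (C aF * X ^ 2)) = 0 := by
    intro z hz
    rw [eval_f] at hz
    rw [map_add, map_mul, map_mul, map_mul, map_pow, map_pow, aeval_X, aeval_C, haF,
      aeval_map_algebraMap, aeval_map_algebraMap]
    linear_combination hz
  obtain ⟨σ, h1, h2⟩ := h0 F N κ hκ (alg_adjoin halg F κ hmA hmκ)
    (t.P.map (algebraMap (ZMod 2) F))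
    (X ^ 3 * t.R.map (algebraMap (ZMod 2) F) +
      t.P.map (algebraMap (ZMod 2) F) * (C aF * X ^ 2))
    ((cop t F).add_mul_left_right _) a b (hval a ha) (hval b hb)
  exact ⟨σ.restrictScalars L, σ.commutes aF, h1, h2⟩

/-- The stabilizer of a root is transitive on the other roots. -/
theorem stab (h0 : AutLinStmt) {n : ℕ} (t : BType n) {A κ : N}
    (hind : AlgebraicIndependent L ![A, κ])
    (halg : Algebra.IsAlgebraic (IntermediateField.adjoin L {A, κ}) N) {a b c : N}
    (ha : (t.f A κ).eval a = 0) (hb : (t.f A κ).eval b = 0) (hc : (t.f A κ).eval c = 0)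
    (hba : b ≠ a) (hca : c ≠ a) :
    ∃ σ : N ≃ₐ[L] N, σ A = A ∧ σ κ = κ ∧ σ a = a ∧ σ b = c := by
  have hκ0 : κ ≠ 0 := by
    have := hind.ne_zero 1
    simpa using this
  have two : (2 : N) = 0 := two_eq_zero' N
  -- `a ≠ 0`, `P(a) ≠ 0`
  have ha' := ha
  rw [eval_f] at ha'
  have ha0 : a ≠ 0 := by
    intro h
    have h5 : aeval (0 : N) t.P = 1 := by
      have h6 := congrArg (algebraMap (ZMod 2) N) t.P_zero
      rw [map_one] at h6
      rw [← h6, ← aeval_algebraMap_apply_eq_algebraMap_eval, map_zero]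
    rw [h, h5] at ha'
    apply hκ0
    linear_combination ha'
  have hPa : aeval a t.P ≠ 0 := by
    intro h
    rw [h, zero_mul, zero_add] at ha'
    have h1 : aeval a t.R = 0 := (mul_eq_zero.1 ha').resolve_left (pow_ne_zero 3 ha0)
    obtain ⟨u, v, huv⟩ := t.cop
    have h2 := congrArg (aeval a) huv
    rw [map_add, map_mul, map_mul, h, h1, mul_zero, mul_zero, add_zero, map_one] at h2
    exact zero_ne_one h2
  have hDa : aeval a t.D ≠ 0 := by
    intro h
    obtain ⟨S, hS⟩ := t.dvd
    have h2 := congrArg (aeval a) hS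
    rw [map_pow, map_mul, h, zero_mul] at h2
    exact pow_ne_zero _ hPa h2
  set F := IntermediateField.adjoin L {a} with hF
  have haF' : a ∈ F := IntermediateField.mem_adjoin_simple_self L a
  let aF : F := ⟨a, haF'⟩
  have haF : algebraMap F N aF = a := rfl
  have hev : ∀ Q : (ZMod 2)[X],
      algebraMap F N ((Q.map (algebraMap (ZMod 2) F)).eval aF) = aeval a Q := by
    intro Q
    rw [eval_map_algebraMap, ← aeval_algebraMap_apply, haF]
  set PF := t.P.map (algebraMap (ZMod 2) F) with hPF
  set RF := t.R.map (algebraMap (ZMod 2) F) with hRF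
  have hPa' : PF.eval aF ≠ 0 := by
    intro h
    apply hPa
    rw [← hev, h, map_zero]
  obtain ⟨c₀, hc₀⟩ : ∃ c₀ : F, c₀ * PF.eval aF = -(aF ^ 3 * RF.eval aF) :=
    ⟨-(aF ^ 3 * RF.eval aF) / PF.eval aF, div_mul_cancel₀ _ hPa'⟩
  have hκc : κ = -(A * a ^ 2) + algebraMap F N c₀ := by
    have h1 := congrArg (algebraMap F N) hc₀
    rw [map_mul, map_neg, map_mul, map_pow, haF, hev, hev] at h1
    apply mul_right_cancel₀ hPa
    linear_combination ha' - h1
  have hc₀F : algebraMap F N c₀ ∈ F := c₀.2
  -- `A` is transcendental over `F`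
  have hA : Transcendental F A := by
    intro h
    have h1 : A ∈ cl L a := mem_cl.2 h
    refine no2 hind halg a h1 ?_
    rw [hκc]
    exact add_mem (neg_mem (mul_mem h1 (pow_mem (adj_mem_cl haF') 2))) (adj_mem_cl hc₀F)
  have hmA : A ∈ (IntermediateField.adjoin F {A}).restrictScalars L := by
    rw [IntermediateField.mem_restrictScalars]
    exact IntermediateField.mem_adjoin_simple_self _ A
  have hmF : ∀ z : F, algebraMap F N z ∈ (IntermediateField.adjoin F {A}).restrictScalars L := by
    intro z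
    rw [IntermediateField.mem_restrictScalars]
    exact IntermediateField.algebraMap_mem _ z
  have hmκ : κ ∈ (IntermediateField.adjoin F {A}).restrictScalars L := by
    rw [hκc]
    exact add_mem (neg_mem (mul_mem hmA (pow_mem (hmF aF) 2))) (hmF c₀)
  -- the polynomial
  obtain ⟨Φ₁, hΦ⟩ : X - C aF ∣ C c₀ * PF + X ^ 3 * RF := by
    rw [dvd_iff_isRoot, IsRoot, eval_add, eval_mul, eval_mul, eval_C, eval_pow, eval_X, hc₀]
    ring
  have hcop1 : IsCoprime PF Φ₁ := by
    have h1 : IsCoprime PF (X ^ 3 * RF + PF * C c₀) := (cop t F).add_mul_left_right _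
    rw [show X ^ 3 * RF + PF * C c₀ = (X - C aF) * Φ₁ by rw [← hΦ]; ring] at h1
    exact h1.of_mul_right_right
  have hder : Φ₁.eval aF ≠ 0 := by
    have h1 := congrArg derivative hΦ
    rw [derivative_add, derivative_C_mul, derivative_mul (f := X - C aF), derivative_sub,
      derivative_X, derivative_C, sub_zero, one_mul] at h1
    have h2 := congrArg (eval aF) h1
    rw [eval_add, eval_mul, eval_C, eval_add, eval_mul, eval_sub, eval_X, eval_C, sub_self,
      zero_mul, add_zero] at h2
    intro h3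
    rw [h3] at h2
    have h4 : derivative (X ^ 3 * PF * RF) = X ^ 2 * t.D.map (algebraMap (ZMod 2) F) := by
      have h5 := congrArg (Polynomial.map (algebraMap (ZMod 2) F)) t.key
      rw [← derivative_map, Polynomial.map_mul, Polynomial.map_mul, Polynomial.map_mul,
        Polynomial.map_pow, Polynomial.map_pow, map_X] at h5
      exact h5
    have h6 : X ^ 3 * PF * RF = PF * (X ^ 3 * RF) := by ring
    rw [h6, derivative_mul] at h4
    have h7 := congrArg (eval aF) h4
    rw [eval_add, eval_mul, eval_mul, eval_mul, eval_mul, eval_pow, eval_pow, eval_X] at h7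
    have h8 : aF ^ 2 * (t.D.map (algebraMap (ZMod 2) F)).eval aF = 0 := by
      rw [← h7]
      have two' : (2 : F) = 0 := two_eq_zero' F
      linear_combination PF.eval aF * h2 - (derivative PF).eval aF * hc₀ +
        ((derivative PF).eval aF * (aF ^ 3 * RF.eval aF)) * two'
    have h9 := congrArg (algebraMap F N) h8
    rw [map_mul, map_pow, haF, hev, map_zero] at h9
    exact (mul_ne_zero (pow_ne_zero 2 ha0) hDa) h9
  have hcop2 : IsCoprime (X - C aF) Φ₁ := by
    rw [(irreducible_X_sub_C aF).coprime_iff_not_dvd, dvd_iff_isRoot]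
    exact hder
  have hval : ∀ z : N, (t.f A κ).eval z = 0 → z ≠ a →
      A * aeval z (PF * (X - C aF)) + aeval z (X * 0 + Φ₁) = 0 := by
    intro z hz hza
    apply (mul_eq_zero.1 _).resolve_left (sub_ne_zero.2 hza)
    rw [eval_f, hκc] at hz
    have h1 := congrArg (aeval z) hΦ
    simp only [map_add, map_mul, map_pow, map_sub, aeval_X, aeval_C, haF] at h1
    simp only [map_add, map_mul, map_sub, aeval_X, aeval_C, haF, map_zero]
    rw [hPF, hRF, aeval_map_algebraMap, aeval_map_algebraMap] at h1
    rw [hPF, aeval_map_algebraMap]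
    linear_combination hz - h1 + (aeval z t.P * A * (a ^ 2 - a * z)) * two
  obtain ⟨σ, h1, h2⟩ := h0 F N A hA (alg_adjoin halg F A hmA hmκ)
    (PF * (X - C aF)) (X * 0 + Φ₁) (by
      rw [mul_zero, zero_add]
      exact hcop1.mul_left hcop2) b c (hval b hb hba) (hval c hc hca)
  have hσa : σ a = a := σ.commutes aF
  refine ⟨σ.restrictScalars L, h1, ?_, hσa, h2⟩
  show σ κ = κ
  rw [hκc, map_add, map_neg, map_mul, map_pow, h1, hσa, σ.commutes]

end BTrM

open Polynomial MP7Z BTrM in
theorem tBTr (h0 : AutLinStmt) : BTrStmt := by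
  intro n t L N _ _ _ _ _ _ _ A κ hind halg y hy hf
  have hroot : ∀ i, (t.f A κ).eval (y i) = 0 := by
    intro i
    rw [hf, eval_prod]
    exact Finset.prod_eq_zero (Finset.mem_univ i) (by simp)
  have hf1 : t.f A κ = C 1 * ∏ i, (X - C (y i)) := by rw [C_1, one_mul, hf]
  -- automorphisms which fix `A` and `κ` permute the roots
  have hperm : ∀ σ : N ≃ₐ[L] N, σ A = A → σ κ = κ →
      ∃ ρ ∈ PermGrp L {A, κ} y, ∀ i, σ (y i) = y (ρ i) := by
    intro σ hA hκ
    have hmap : (t.f A κ).map (σ : N →+* N) = C 1 * ∏ i, (X - C (y i)) := by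
      rw [t.map_f]
      have h5 : (σ : N →+* N) κ = κ := hκ
      have h6 : (σ : N →+* N) A = A := hA
      rw [h5, h6, hf1]
    obtain ⟨ρ, hρ⟩ := exists_perm hy one_ne_zero (σ : N →+* N) hf1 hmap
    refine ⟨ρ, mem_permGrp.2 ⟨σ, ?_, hρ⟩, hρ⟩
    rintro z (rfl | hz)
    · exact hA
    · rw [Set.mem_singleton_iff] at hz
      rw [hz]
      exact hκ
  intro i i' l l' hi hl
  obtain ⟨σ, hσ1, hσ2, hσ3⟩ := trans h0 t hind halg (hroot i) (hroot l)
  obtain ⟨ρ, hρm, hρ⟩ := hperm σ hσ1 hσ2
  have hρi : ρ i = l := hy (by rw [← hρ, hσ3])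
  have hne : ρ i' ≠ l := by
    rw [← hρi]
    exact fun h => hi (ρ.injective h).symm
  obtain ⟨σ', hσ1', hσ2', hσ3', hσ4'⟩ := stab h0 t hind halg (hroot l) (hroot (ρ i'))
    (hroot l') (fun h => hne (hy h)) (fun h => hl (hy h).symm)
  obtain ⟨ρ', hρm', hρ'⟩ := hperm σ' hσ1' hσ2'
  refine ⟨ρ' * ρ, mul_mem hρm' hρm, ?_, ?_⟩
  · rw [Equiv.Perm.mul_apply, hρi]
    exact hy (by rw [← hρ', hσ3'])
  · rw [Equiv.Perm.mul_apply]
    exact hy (by rw [← hρ', hσ4'])

end MP7Z.A3
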