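import Pool.Agent.Lib.MP_7f581e_Z.Alt3.Spec

/-!
# Alt3, task Cho: choice of the parameters
-/

set_option autoImplicit false

namespace MP7Z.A3

open Polynomial MP7Z

namespace ChoM

/-- The elements fixed by the kernel of `ψ`. -/
def fixL {p : ℕ} [Fact p.Prime] {Ω : Type} [Field Ω] [Algebra (ZMod p) Ω] {x : Ω}
    {Q : Type} [Group Q] (ψ : Gx p x →* Q) : IntermediateField (ZMod p) Ω where
  carrier := {a | ∀ γ : Gx p x, ψ γ = 1 → (γ : Ω ≃ₐ[ZMod p] Ω) a = a}
  mul_mem' := by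
    intro a b ha hb γ hγ
    rw [map_mul, ha γ hγ, hb γ hγ]
  add_mem' := by
    intro a b ha hb γ hγ
    rw [map_add, ha γ hγ, hb γ hγ]
  algebraMap_mem' := by
    intro r γ _
    exact AlgEquiv.commutes _ r
  inv_mem' := by
    intro a ha γ hγ
    rw [map_inv₀, ha γ hγ]

theorem mem_fixL {p : ℕ} [Fact p.Prime] {Ω : Type} [Field Ω] [Algebra (ZMod p) Ω] {x : Ω}
    {Q : Type} [Group Q] (ψ : Gx p x →* Q) (a : Ω) :
    a ∈ fixL ψ ↔ ∀ γ : Gx p x, ψ γ = 1 → (γ : Ω ≃ₐ[ZMod p] Ω) a = a := Iff.rfl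

/-- An algebraically closed field with `m` algebraically independent elements. -/
theorem exists_N (Ω : Type) [Field Ω] (m : ℕ) : ∃ (N : Type) (_ : Field N) (_ : Algebra Ω N)
    (_ : IsAlgClosed N) (U : Fin m → N), AlgebraicIndependent Ω U ∧
      Algebra.IsAlgebraic (IntermediateField.adjoin Ω (Set.range U)) N := by
  let R := MvPolynomial (Fin m) Ω
  let F := FractionRing R
  let N := AlgebraicClosure F
  let φ : R →ₐ[Ω] N := (IsScalarTower.toAlgHom Ω F N).comp (IsScalarTower.toAlgHom Ω R F)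
  have hφ : Function.Injective φ := by
    have h1 : Function.Injective (algebraMap F N) := (algebraMap F N).injective
    have h2 : Function.Injective (algebraMap R F) := IsFractionRing.injective R F
    exact h1.comp h2
  let U : Fin m → N := fun i => φ (MvPolynomial.X i)
  refine ⟨N, inferInstance, inferInstance, inferInstance, U, ?_, ?_⟩
  · exact (MvPolynomial.algebraicIndependent_X (Fin m) Ω).map' hφ
  · let K : IntermediateField Ω N := IntermediateField.adjoin Ω (Set.range U)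
    have hR : ∀ a : R, φ a ∈ K := by
      intro a
      induction a using MvPolynomial.induction_on with
      | C r =>
        have h : φ (MvPolynomial.C r) = algebraMap Ω N r := φ.commutes r
        rw [h]
        exact K.algebraMap_mem r
      | add a b ha hb =>
        rw [map_add]
        exact K.add_mem ha hb
      | mul_X a i ha =>
        rw [map_mul]
        exact K.mul_mem ha (IntermediateField.subset_adjoin Ω _ ⟨i, rfl⟩)
    have hF : ∀ a : F, algebraMap F N a ∈ K := by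
      intro a
      obtain ⟨r, s, hs⟩ := IsFractionRing.div_surjective (A := R) a
      rw [← hs.2, map_div₀]
      exact K.div_mem (hR r) (hR s)
    let i : F →+* K := (algebraMap F N).codRestrict K hF
    let _ : Algebra F K := i.toAlgebra
    have : IsScalarTower F K N := IsScalarTower.of_algebraMap_eq (fun _ => rfl)
    have h0 : Algebra.IsAlgebraic F N := inferInstance
    exact Algebra.IsAlgebraic.tower_top (K := F) K

end ChoM

open ChoM in
theorem tCho (h0 : HilbFStmt) (h1 : GenKStmt) : ChoStmt := by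
  intro p n r _ G hLab hGen hNe Ω _ _ x hst Q _ _ ψ hψ hsur k θ w g hθ hθf hwf hgx hg0 hw0
  classical
  let L : IntermediateField (ZMod p) Ω := fixL ψ
  have hxL : x ∈ L := fun γ _ => mem_Gx.1 γ.2
  have hgL : g ∈ L := by
    have hle : Algebra.adjoin (ZMod p) {x} ≤ L.toSubalgebra := by
      rw [Algebra.adjoin_le_iff, Set.singleton_subset_iff]
      exact hxL
    exact hle hgx
  let e : Fin k × Fin r ≃ Fin (k * r) := finProdFinEquiv
  obtain ⟨N, _, _, _, U, hU, hN⟩ := exists_N Ω (k * r)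
  let _ : Algebra (ZMod p) N := ((algebraMap Ω N).comp (algebraMap (ZMod p) Ω)).toAlgebra
  have : IsScalarTower (ZMod p) Ω N := IsScalarTower.of_algebraMap_eq (fun _ => rfl)
  let θL : Fin k → L := fun j => ⟨θ j, fun γ hγ => hθf γ j hγ⟩
  let wL : Fin k → L := fun j => ⟨w j, fun γ hγ => hwf γ j hγ⟩
  let gL : L := ⟨g, hgL⟩
  let A := MvPolynomial (Fin (k * r)) L
  let vA : Fin k → Fin r → A := fun j i => ∑ l : Fin k, MvPolynomial.C (θL j) ^ (l : ℕ) *
    MvPolynomial.X (e (l, i))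
  let evN : A →+* N := MvPolynomial.eval₂Hom ((algebraMap Ω N).comp (algebraMap L Ω)) U
  have hevC : ∀ a : L, evN (MvPolynomial.C a) = algebraMap Ω N a := fun a =>
    MvPolynomial.eval₂Hom_C _ _ _
  have hevX : ∀ i, evN (MvPolynomial.X i) = U i := fun i => MvPolynomial.eval₂Hom_X' _ _ _
  let vN : Fin k → Fin r → N := fun j i => ∑ l : Fin k, algebraMap Ω N (θ j) ^ (l : ℕ) *
    (U ∘ e) (l, i)
  have hvN : ∀ j, (fun i => evN (vA j i)) = vN j := by
    intro j
    funext i
    change evN (∑ l : Fin k, MvPolynomial.C (θL j) ^ (l : ℕ) * MvPolynomial.X (e (l, i))) = _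
    rw [map_sum]
    refine Finset.sum_congr rfl fun l _ => ?_
    rw [map_mul, map_pow, hevC, hevX]
    rfl
  have hUe : AlgebraicIndependent Ω (U ∘ e) := hU.comp e e.injective
  have hNe' : Algebra.IsAlgebraic (IntermediateField.adjoin Ω (Set.range (U ∘ e))) N := by
    rw [e.surjective.range_comp]
    exact hN
  obtain ⟨hG1, hG2⟩ := h1 p n r G hGen hNe Ω N k (U ∘ e) hUe hNe' θ w g hθ hw0
    (fun _ => hg0) vN (fun j i => rfl)
  have hη : ∀ j, ∃ η : Fin n → N, Function.Injective η ∧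
      G.F N (algebraMap Ω N (w j)) (algebraMap Ω N g) (vN j) =
        C (G.ℓ N (algebraMap Ω N (w j)) (algebraMap Ω N g) (vN j)) * ∏ i, (X - C (η i)) := by
    intro j
    obtain ⟨η, h2, h3, -⟩ := hLab N (algebraMap Ω N (w j)) (algebraMap Ω N g) (vN j)
      (hG1 j).1 (hG1 j).2
    exact ⟨η, h2, h3⟩
  choose η hηi hηF using hη
  let gg : Fin k → A[X] := fun j => G.F A (MvPolynomial.C (wL j)) (MvPolynomial.C gL) (vA j)
  let ℓ : Fin k → A := fun j => G.ℓ A (MvPolynomial.C (wL j)) (MvPolynomial.C gL) (vA j)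
  let dd : Fin k → A := fun j => G.D A (MvPolynomial.C (wL j)) (MvPolynomial.C gL) (vA j)
  have hggN : ∀ j, (gg j).map evN =
      G.F N (algebraMap Ω N (w j)) (algebraMap Ω N g) (vN j) := by
    intro j
    change (G.F A _ _ _).map evN = _
    rw [G.map_F A N evN, hevC, hevC, hvN]
  have hℓN : ∀ j, evN (ℓ j) = G.ℓ N (algebraMap Ω N (w j)) (algebraMap Ω N g) (vN j) := by
    intro j
    change evN (G.ℓ A _ _ _) = _
    rw [G.map_ℓ A N evN, hevC, hevC, hvN]
  have hdN : ∀ j, evN (dd j) = G.D N (algebraMap Ω N (w j)) (algebraMap Ω N g) (vN j) := by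
    intro j
    change evN (G.D A _ _ _) = _
    rw [G.map_D A N evN, hevC, hevC, hvN]
  have hℓ0 : ∀ j, ℓ j ≠ 0 := by
    intro j h
    apply (hG1 j).1
    rw [← hℓN, h, map_zero]
  have hd0 : ∏ j, dd j ≠ 0 := by
    rw [Finset.prod_ne_zero_iff]
    intro j _ h
    apply (hG1 j).2
    rw [← hdN, h, map_zero]
  obtain ⟨u, hu, hH⟩ := h0 p Ω x hst Q ψ hψ hsur L (fun a => mem_fixL ψ a) N (k * r) U hU hN k n
    gg ℓ (∏ j, dd j) η evN rfl hηi hℓ0 hd0 (fun j => by rw [hggN, hℓN]; exact hηF j)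
  refine ⟨fun q => u (e q), fun q => hu _, ?_⟩
  intro v hv
  let ev : A →+* Ω := MvPolynomial.eval₂Hom (algebraMap L Ω) u
  obtain ⟨hℓ, hc, y', hy', hσ⟩ := hH ev rfl
  have hC : ∀ a : L, ev (MvPolynomial.C a) = (a : Ω) := fun a => MvPolynomial.eval₂Hom_C _ _ _
  have hX : ∀ i, ev (MvPolynomial.X i) = u i := fun i => MvPolynomial.eval₂Hom_X' _ _ _
  have hvΩ : ∀ j, (fun i => ev (vA j i)) = v j := by
    intro j
    funext i
    change ev (∑ l : Fin k, MvPolynomial.C (θL j) ^ (l : ℕ) * MvPolynomial.X (e (l, i))) = _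
    rw [map_sum, hv]
    refine Finset.sum_congr rfl fun l _ => ?_
    rw [map_mul, map_pow, hC, hX]
  have hggΩ : ∀ j, (gg j).map ev = G.F Ω (w j) g (v j) := by
    intro j
    change (G.F A _ _ _).map ev = _
    rw [G.map_F A Ω ev, hC, hC, hvΩ]
  have hℓΩ : ∀ j, ev (ℓ j) = G.ℓ Ω (w j) g (v j) := by
    intro j
    change ev (G.ℓ A _ _ _) = _
    rw [G.map_ℓ A Ω ev, hC, hC, hvΩ]
  have hdΩ : ∀ j, ev (dd j) = G.D Ω (w j) g (v j) := by
    intro j
    change ev (G.D A _ _ _) = _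
    rw [G.map_D A Ω ev, hC, hC, hvΩ]
  have hne : ∀ j, G.ℓ Ω (w j) g (v j) ≠ 0 ∧ G.D Ω (w j) g (v j) ≠ 0 := by
    intro j
    refine ⟨?_, ?_⟩
    · rw [← hℓΩ]
      exact hℓ j
    · rw [← hdΩ]
      rw [map_prod, Finset.prod_ne_zero_iff] at hc
      exact hc j (Finset.mem_univ j)
  refine ⟨hne, ?_⟩
  intro y hyi hyF j₀ a ha
  have hπ : ∀ j, ∃ π : Equiv.Perm (Fin n), ∀ i, y j i = y' j (π i) := by
    intro j
    have h2 := hy' j
    rw [hggΩ, hℓΩ] at h2
    obtain ⟨π, hπ⟩ := exists_perm (hyi j) (hne j).1 (RingHom.id Ω) (hyF j) (by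
      rw [Polynomial.map_id]
      exact h2)
    exact ⟨π, hπ⟩
  choose π hπ using hπ
  have ha' : π j₀ * a * (π j₀)⁻¹ ∈ alternatingGroup (Fin n) := by
    rw [Equiv.Perm.mem_alternatingGroup] at ha ⊢
    rw [Equiv.Perm.sign_mul, Equiv.Perm.sign_mul, ha, mul_one, Equiv.Perm.sign_inv]
    exact Int.units_mul_self _
  obtain ⟨σ, hσU, hσ0, hσj⟩ := hG2 η hηi hηF j₀ _ ha'
  obtain ⟨γ, hγ1, hγ2⟩ := hσ (σ : N ≃+* N) (fun b => σ.commutes (b : Ω)) (by
      intro i
      have h2 := hσU (e.symm i)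
      rw [Function.comp_apply, e.apply_symm_apply] at h2
      exact h2)
    (fun j => if j = j₀ then π j₀ * a * (π j₀)⁻¹ else 1) (by
      intro j i
      by_cases hj : j = j₀
      · subst hj
        rw [if_pos rfl]
        exact hσ0 i
      · rw [if_neg hj]
        exact hσj j hj i)
  refine ⟨γ, hγ1, ?_, ?_⟩
  · intro i
    have h2 := hγ2 j₀ (π j₀ i)
    rw [if_pos rfl] at h2
    rw [hπ j₀ i, h2, hπ j₀ (a i)]
    simp
  · intro j hj i
    have h2 := hγ2 j (π j i)
    rw [if_neg hj] at h2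
    rw [hπ j i, h2]
    rfl

end MP7Z.A3
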