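import Pool.Agent.Lib.MP_7f581e_Z.Alt3.Spec

/-!
# Small degrees, task ComC: automorphisms commute on the constants
-/

set_option autoImplicit false

namespace MP7Z.A3

open MP7Z

theorem tComC : ComCStmt := by
  intro p _ Ω _ _ γ δ c hc
  have halg : IsAlgebraic (ZMod p) c := mem_algebraicClosure_iff.1 hc
  have hfd : FiniteDimensional (ZMod p) (IntermediateField.adjoin (ZMod p) {c}) :=
    IntermediateField.adjoin.finiteDimensional halg.isIntegral
  have hfin : Finite (IntermediateField.adjoin (ZMod p) {c}) := Module.finite_of_finite (ZMod p)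
  have hgal : IsGalois (ZMod p) (IntermediateField.adjoin (ZMod p) {c}) := inferInstance
  have hnor : Normal (ZMod p) (IntermediateField.adjoin (ZMod p) {c}) := inferInstance
  obtain ⟨e, he⟩ : ∃ e : IntermediateField.adjoin (ZMod p) {c},
      algebraMap (IntermediateField.adjoin (ZMod p) {c}) Ω e = c :=
    ⟨⟨c, IntermediateField.mem_adjoin_simple_self (ZMod p) c⟩, rfl⟩
  have hcyc : IsCyclic ((IntermediateField.adjoin (ZMod p) {c}) ≃ₐ[ZMod p]
      (IntermediateField.adjoin (ZMod p) {c})) := inferInstance
  have hcomm : γ.restrictNormal (IntermediateField.adjoin (ZMod p) {c}) *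
      δ.restrictNormal (IntermediateField.adjoin (ZMod p) {c}) =
      δ.restrictNormal (IntermediateField.adjoin (ZMod p) {c}) *
      γ.restrictNormal (IntermediateField.adjoin (ZMod p) {c}) :=
    IsCyclic.isMulCommutative.is_comm.comm _ _
  have h1 := AlgEquiv.restrictNormal_commutes γ (IntermediateField.adjoin (ZMod p) {c})
  have h2 := AlgEquiv.restrictNormal_commutes δ (IntermediateField.adjoin (ZMod p) {c})
  rw [← he, ← h2, ← h1, ← h1, ← h2]
  congr 1
  exact AlgEquiv.congr_fun hcomm e

end MP7Z.A3
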