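import Pool.Agent.Lib.MP_7f581e_Z.Alt3.Spec

/-! # Conjugate roots -/

set_option autoImplicit false

namespace MP7Z.A3

open Polynomial MP7Z

theorem tConj : ConjStmt := by
  intro K N _ _ _ _ _ P hP a b ha hb
  have h1 : IsAlgClosure K N := ⟨inferInstance, inferInstance⟩
  have h2 : Normal K N := IsAlgClosure.normal K N
  have hd : minpoly K a ∣ P := minpoly.dvd K a ha
  have hu : ¬ IsUnit (minpoly K a) :=
    minpoly.not_isUnit K a
  have hass : Associated (minpoly K a) P := by
    obtain ⟨c, hc⟩ := hd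
    have hc' := (hP.isUnit_or_isUnit hc).resolve_left hu
    exact ⟨hc'.unit, by rw [hc]; rfl⟩
  have hb' : aeval b (minpoly K a) = 0 := by
    obtain ⟨c, hc⟩ := hass.symm.dvd
    rw [hc, map_mul, hb, zero_mul]
  exact minpoly.exists_algEquiv_of_root' (Algebra.IsAlgebraic.isAlgebraic a) hb'

end MP7Z.A3
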