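import Pool.Agent.Lib.MP_7f581e_Z.Alt3.Spec

/-!
# `CycStmt` : a root of multiplicity `m` gives a cycle of length `m`
-/

set_option autoImplicit false

namespace MP7Z.A3.CycM

open Polynomial MP7Z

theorem transc_X (F : Type) [Field F] : Transcendental F (PowerSeries.X : PowerSeries F) := by
  intro ⟨p, hp0, hp⟩
  apply hp0
  have h : aeval (PowerSeries.X : PowerSeries F) p = (p : PowerSeries F) := by
    rw [aeval_def]
    exact Polynomial.eval₂_C_X_eq_coe
  rw [h] at hp
  exact_mod_cast hp

/-- `κ₀ + c t^m` is transcendental in every extension of the power series ring. -/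
theorem transc_kap (F M : Type) [Field F] [Field M] [Algebra (PowerSeries F) M] [Algebra F M]
    [IsScalarTower F (PowerSeries F) M]
    (hinj : Function.Injective (algebraMap (PowerSeries F) M)) (κ₀ c : F) (m : ℕ) (hm : 2 ≤ m)
    (hc : c ≠ 0) : Transcendental F (algebraMap (PowerSeries F) M
      (PowerSeries.C κ₀ + PowerSeries.C c * PowerSeries.X ^ m)) := by
  intro h
  have hC : ∀ a : F, algebraMap (PowerSeries F) M (PowerSeries.C a) = algebraMap F M a := fun a =>
    (IsScalarTower.algebraMap_apply F (PowerSeries F) M a).symm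
  rw [map_add, map_mul, map_pow, hC, hC] at h
  have h1 : IsAlgebraic F (algebraMap F M c * algebraMap (PowerSeries F) M PowerSeries.X ^ m) := by
    have h2 := h.sub (isAlgebraic_algebraMap (R := F) (A := M) κ₀)
    rwa [add_sub_cancel_left] at h2
  have h3 : IsAlgebraic F (algebraMap (PowerSeries F) M PowerSeries.X ^ m) := by
    have h4 := (isAlgebraic_algebraMap (R := F) (A := M) c⁻¹).mul h1
    rwa [← mul_assoc, ← map_mul, inv_mul_cancel₀ hc, map_one, one_mul] at h4
  have h5 := h3.of_pow (by omega)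
  rw [isAlgebraic_algebraMap_iff hinj] at h5
  exact transc_X F h5

/-- an automorphism of `M` over `E` induces one of `N` -/
theorem restr0 {E N M : Type} [Field E] [Field N] [Field M] [Algebra E N] [Algebra E M]
    [IsAlgClosed N] [IsAlgClosed M] [Algebra.IsAlgebraic E N] (χ : M ≃ₐ[E] M) :
    ∃ (ι : N →ₐ[E] M) (σ : N ≃ₐ[E] N), ∀ a, ι (σ a) = χ (ι a) := by
  let ι : N →ₐ[E] M := IsAlgClosed.lift
  let _ : Algebra N M := ι.toRingHom.toAlgebra
  have htower2 : IsScalarTower E N M := IsScalarTower.of_algebraMap_eq fun a =>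
    (ι.commutes a).symm
  have : IsAlgClosure E N := ⟨inferInstance, inferInstance⟩
  have : Normal E N := IsAlgClosure.normal E N
  exact ⟨ι, χ.restrictNormal N, fun a => χ.restrictNormal_commutes N a⟩

/-- an automorphism of `M` induces one of `N` -/
theorem restr {F N M : Type} [Field F] [Field N] [Field M] [Algebra F N] [Algebra F M]
    [IsAlgClosed N] [IsAlgClosed M] (κ : N) (hκ : Transcendental F κ)
    (hN : Algebra.IsAlgebraic (IntermediateField.adjoin F {κ}) N) (κM : M)
    (hκM : Transcendental F κM) (τ : M ≃ₐ[F] M) (hτ : τ κM = κM) :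
    ∃ (ι : N →ₐ[F] M) (σ : N ≃ₐ[F] N), ι κ = κM ∧ σ κ = κ ∧ ∀ a, ι (σ a) = τ (ι a) := by
  let E := IntermediateField.adjoin F {κ}
  let φ : E →ₐ[F] M := (IntermediateField.adjoin F {κM}).val.comp
    ((RatFunc.algEquivOfTranscendental κ hκ).symm.trans
      (RatFunc.algEquivOfTranscendental κM hκM)).toAlgHom
  have hφ : φ (IntermediateField.AdjoinSimple.gen F κ) = κM := by
    show ((RatFunc.algEquivOfTranscendental κM hκM
      ((RatFunc.algEquivOfTranscendental κ hκ).symm (IntermediateField.AdjoinSimple.gen F κ)) :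
      IntermediateField.adjoin F {κM}) : M) = κM
    rw [RatFunc.algEquivOfTranscendental_symm_gen, RatFunc.algEquivOfTranscendental_X]
  have hfix : ∀ e : E, τ (φ e) = φ e := by
    have h1 : (τ : M →ₐ[F] M).comp φ = φ := by
      apply IntermediateField.adjoin_algHom_ext F
      intro x hx
      have hx' : x = κ := hx
      subst hx'
      show τ (φ (IntermediateField.AdjoinSimple.gen F x)) =
        φ (IntermediateField.AdjoinSimple.gen F x)
      rw [hφ, hτ]
    intro e
    exact DFunLike.congr_fun h1 e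
  let _ : Algebra E M := φ.toRingHom.toAlgebra
  have htower : IsScalarTower F E M := IsScalarTower.of_algebraMap_eq fun a =>
    (φ.commutes a).symm
  have := hN
  let χ : M ≃ₐ[E] M := AlgEquiv.ofRingEquiv (f := τ.toRingEquiv) hfix
  obtain ⟨ι, σ, h⟩ := restr0 (E := E) (N := N) χ
  refine ⟨ι.restrictScalars F, σ.restrictScalars F, ?_, ?_, h⟩
  · have h1 := ι.commutes (IntermediateField.AdjoinSimple.gen F κ)
    exact h1.trans hφ
  · exact σ.commutes (IntermediateField.AdjoinSimple.gen F κ)

end MP7Z.A3.CycM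

namespace MP7Z.A3

open Polynomial MP7Z

/-- **Cyc.** -/
theorem tCyc (h0 : CycPStmt) : CycStmt := by
  intro F N _ _ _ _ _ κ hκ hN n m f₀ f₁ q s κ₀ hm hmF hf₀ hf₁ hf hq hqs hf₁s lc y hy hfy
  obtain ⟨c, τ, z, ρ, hc, hτC, hτX, hz, hfz, hτz, hρ, hρm⟩ :=
    h0 F n m f₀ f₁ q s κ₀ hm hmF hf₀ hf₁ hf hq hqs hf₁s
  let A := PowerSeries F
  let K := FractionRing A
  let M := AlgebraicClosure K
  let τK : K ≃+* K := IsFractionRing.ringEquivOfRingEquiv τ
  let τM : M ≃+* M := IsAlgClosure.equivOfEquiv M M τK
  have hτM : ∀ a : A, τM (algebraMap A M a) = algebraMap A M (τ a) := by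
    intro a
    rw [IsScalarTower.algebraMap_apply A K M, IsScalarTower.algebraMap_apply A K M]
    show IsAlgClosure.equivOfEquiv M M τK _ = _
    rw [IsAlgClosure.equivOfEquiv_algebraMap]
    congr 1
    exact IsFractionRing.ringEquivOfRingEquiv_algebraMap τ a
  have hinj : Function.Injective (algebraMap A M) := by
    rw [IsScalarTower.algebraMap_eq A K M]
    exact (algebraMap K M).injective.comp (IsFractionRing.injective A K)
  have hFA : ∀ a : F, algebraMap F M a = algebraMap A M (PowerSeries.C a) := fun a =>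
    IsScalarTower.algebraMap_apply F A M a
  let τF : M ≃ₐ[F] M := AlgEquiv.ofRingEquiv (f := τM) (fun a => by
    rw [hFA, hτM, hτC])
  let κM : M := algebraMap A M (PowerSeries.C κ₀ + PowerSeries.C c * PowerSeries.X ^ m)
  have hκM : Transcendental F κM := CycM.transc_kap F M hinj κ₀ c m hm hc
  have hτκ : τF κM = κM := by
    show τM κM = κM
    rw [hτM, map_add, map_mul, hτC, hτC, hτX]
  obtain ⟨ι, σ, hι, hσκ, hσ⟩ := CycM.restr κ hκ hN κM hκM τF hτκ
  -- the leading coefficient
  have hn : 0 < n := by omega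
  have hlc : lc ≠ 0 := by
    intro h
    rw [h, C_0, zero_mul] at hfy
    have h1 := congrArg (fun p => coeff p n) hfy
    simp only [coeff_add, coeff_C_mul, coeff_map, coeff_zero] at h1
    rw [coeff_eq_zero_of_natDegree_lt hf₁, map_zero, mul_zero, add_zero, ← hf₀] at h1
    have h2 : f₀.leadingCoeff = 0 := (map_eq_zero _).1 h1
    rw [leadingCoeff_eq_zero] at h2
    rw [h2, natDegree_zero] at hf₀
    omega
  -- the images of the roots
  have hmap : (f₀.map (algebraMap F N) + C κ * f₁.map (algebraMap F N)).map (ι : N →+* M) =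
      C (algebraMap F M f₀.leadingCoeff) * ∏ i, (X - C (algebraMap A M (z i))) := by
    have h1 := congrArg (Polynomial.map (algebraMap A M)) hfz
    simp only [Polynomial.map_add, Polynomial.map_mul, map_C, Polynomial.map_prod,
      Polynomial.map_sub, map_X, Polynomial.map_map] at h1
    simp only [Polynomial.map_add, Polynomial.map_mul, map_C, Polynomial.map_map]
    have e1 : (algebraMap A M).comp (PowerSeries.C (R := F)) = algebraMap F M :=
      RingHom.ext fun a => (hFA a).symm
    have e2 : (ι : N →+* M).comp (algebraMap F N) = algebraMap F M :=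
      RingHom.ext fun a => ι.commutes a
    have e3 : (ι : N →+* M) κ = κM := hι
    rw [e1] at h1
    rw [e2, e3, hFA]
    exact h1
  obtain ⟨π, hπ⟩ := exists_perm hy hlc (ι : N →+* M) hfy hmap
  refine ⟨π⁻¹ * ρ * π, ?_, ?_, ?_⟩
  · rw [mem_permGrp]
    refine ⟨σ, fun a ha => ?_, fun i => ?_⟩
    · have ha' : a = κ := ha
      rw [ha', hσκ]
    · apply (ι : N →+* M).injective
      show ι (σ (y i)) = ι (y ((π⁻¹ * ρ * π) i))
      rw [hσ]
      have h1 : ι (y i) = algebraMap A M (z (π i)) := hπ i
      have h2 : ι (y ((π⁻¹ * ρ * π) i)) = algebraMap A M (z (π ((π⁻¹ * ρ * π) i))) := hπ _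
      rw [h1, h2]
      show τM _ = _
      rw [hτM, hτz]
      congr 2
      simp [Equiv.Perm.mul_apply]
  · have := hρ.conj (g := π⁻¹)
    rwa [inv_inv] at this
  · have := Equiv.Perm.card_support_conj (σ := π⁻¹) (τ := ρ)
    rw [inv_inv] at this
    rw [this, hρm]

end MP7Z.A3
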