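import Pool.Agent.Lib.MP_7f581e_Z.Alt3.Spec

/-!
# `MP_7f581e_nt`: the local situation at a root of multiplicity `m` over the power series ring
-/

set_option autoImplicit false

namespace MP7Z.A3.CycPM

open Polynomial MP7Z MP7Z.A3

/-- A polynomial over a domain with as many distinct roots as its degree. -/
theorem fac {A : Type} [CommRing A] [IsDomain A] {I : Type} [Fintype I] (f : A[X]) (lc : A)
    (hlc : lc ≠ 0) (z : I → A) (hz : Function.Injective z) (hd : f.natDegree = Fintype.card I)
    (hl : f.leadingCoeff = lc) (hr : ∀ i, f.eval (z i) = 0) :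
    f = C lc * ∏ i, (X - C (z i)) := by
  classical
  have hf : f ≠ 0 := by
    intro h
    rw [h, leadingCoeff_zero] at hl
    exact hlc hl.symm
  have hm : (∏ i, (X - C (z i))).Monic := monic_prod_of_monic _ _ fun i _ => monic_X_sub_C _
  have hlm : (C lc * ∏ i, (X - C (z i))).leadingCoeff = lc := by
    rw [leadingCoeff_mul, hm.leadingCoeff, mul_one, leadingCoeff_C]
  have hdm : (C lc * ∏ i, (X - C (z i))).degree = f.degree := by
    rw [degree_C_mul hlc, degree_prod, degree_eq_natDegree hf, hd]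
    simp
  refine eq_of_degree_le_of_eval_index_eq (s := Finset.univ) (v := z) hz.injOn ?_ hdm.symm
    (by rw [hlm, hl]) ?_
  · rw [degree_eq_natDegree hf, hd, Finset.card_univ]
  · intro i _
    rw [hr, eval_mul, eval_prod, Finset.prod_eq_zero (Finset.mem_univ i), mul_zero]
    rw [eval_sub, eval_X, eval_C, sub_self]

/-- Rescaling by a unit is an automorphism. -/
noncomputable def rs {F : Type} [Field F] (ζ : F) (h : ζ ≠ 0) : PowerSeries F ≃+* PowerSeries F :=
  RingEquiv.ofRingHom (PowerSeries.rescale ζ) (PowerSeries.rescale ζ⁻¹)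
    (by
      rw [← PowerSeries.rescale_mul, inv_mul_cancel₀ h, PowerSeries.rescale_one])
    (by
      rw [← PowerSeries.rescale_mul, mul_inv_cancel₀ h, PowerSeries.rescale_one])

theorem rs_apply {F : Type} [Field F] (ζ : F) (h : ζ ≠ 0) (a : PowerSeries F) :
    rs ζ h a = PowerSeries.rescale ζ a := rfl

theorem rs_C {F : Type} [Field F] (ζ : F) (h : ζ ≠ 0) (a : F) :
    rs ζ h (PowerSeries.C a) = PowerSeries.C a := by
  rw [rs_apply]
  ext k
  rw [PowerSeries.coeff_rescale, PowerSeries.coeff_C]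
  split_ifs with h0
  · rw [h0, pow_zero, one_mul]
  · rw [mul_zero]

theorem rs_X {F : Type} [Field F] (ζ : F) (h : ζ ≠ 0) :
    rs ζ h PowerSeries.X = PowerSeries.C ζ * PowerSeries.X := by
  rw [rs_apply, PowerSeries.rescale_X]

theorem cc_rs {F : Type} [Field F] (ζ : F) (h : ζ ≠ 0) (a : PowerSeries F) :
    PowerSeries.constantCoeff (rs ζ h a) = PowerSeries.constantCoeff a := by
  rw [rs_apply, ← PowerSeries.coeff_zero_eq_constantCoeff_apply, PowerSeries.coeff_rescale,
    pow_zero, one_mul, PowerSeries.coeff_zero_eq_constantCoeff_apply]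

theorem cc_comp_C (F : Type) [Field F] :
    (PowerSeries.constantCoeff (R := F)).comp (PowerSeries.C (R := F)) = RingHom.id F :=
  RingHom.ext fun a => by
    rw [RingHom.comp_apply, PowerSeries.constantCoeff_C, RingHom.id_apply]

theorem finRotate_val {m : ℕ} (_hm : 2 ≤ m) (i : Fin m) :
    (finRotate m i : ℕ) = (i + 1) % m := by
  obtain ⟨k, rfl⟩ : ∃ k, m = k + 1 := ⟨m - 1, by omega⟩
  rw [finRotate_apply, Fin.val_add, Fin.val_one']
  simp

/-- The permutation of the roots. -/
theorem perm {A : Type} {n m : ℕ} {J : Type} [Fintype J] (hm : 2 ≤ m)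
    (hn : m + Fintype.card J = n) (τ : A → A) (z : Fin m ⊕ J → A)
    (h1 : ∀ i, τ (z (Sum.inl i)) = z (Sum.inl (finRotate m i)))
    (h2 : ∀ j, τ (z (Sum.inr j)) = z (Sum.inr j)) :
    ∃ (e : Fin n ≃ Fin m ⊕ J) (ρ : Equiv.Perm (Fin n)),
      (∀ i, τ (z (e i)) = z (e (ρ i))) ∧ ρ.IsCycle ∧ ρ.support.card = m := by
  classical
  have hc : Fintype.card (Fin n) = Fintype.card (Fin m ⊕ J) := by
    rw [Fintype.card_fin, Fintype.card_sum, Fintype.card_fin, hn]
  let e : Fin n ≃ Fin m ⊕ J := Fintype.equivOfCardEq hc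
  let P : Fin n → Prop := fun i => (e i).isLeft = true
  let f : Fin m ≃ Subtype P :=
    { toFun := fun i => ⟨e.symm (Sum.inl i), by
        show (e (e.symm (Sum.inl i))).isLeft = true
        rw [e.apply_symm_apply]
        rfl⟩
      invFun := fun x => (e x.1).getLeft x.2
      left_inv := fun i => by
        apply Sum.inl_injective (β := J)
        rw [Sum.inl_getLeft]
        exact e.apply_symm_apply _
      right_inv := fun x => by
        apply Subtype.ext
        show e.symm (Sum.inl ((e x.1).getLeft x.2)) = x.1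
        rw [Sum.inl_getLeft, e.symm_apply_apply] }
  have hf : ∀ i, e (f i : Fin n) = Sum.inl i := fun i => e.apply_symm_apply _
  refine ⟨e, (finRotate m).extendDomain f, ?_, (isCycle_finRotate_of_le hm).extendDomain f, ?_⟩
  · intro i
    by_cases hi : P i
    · obtain ⟨a, ha⟩ : ∃ a, f a = ⟨i, hi⟩ := ⟨f.symm ⟨i, hi⟩, f.apply_symm_apply _⟩
      have hia : i = (f a : Fin n) := by rw [ha]
      rw [hia, Equiv.Perm.extendDomain_apply_image, hf, hf, h1]
    · rw [Equiv.Perm.extendDomain_apply_not_subtype _ _ hi]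
      cases h : e i with
      | inl a =>
        exfalso
        apply hi
        show (e i).isLeft = true
        rw [h]
        rfl
      | inr b => exact h2 b
  · rw [Equiv.Perm.card_support_extend_domain, support_finRotate_of_le hm, Finset.card_univ,
      Fintype.card_fin]

section roots

variable {F : Type} [Field F]

/-- The polynomial `(X - s)^m q + c t^m f₁`. -/
noncomputable def pol (q f₁ : F[X]) (s c : F) (m : ℕ) : (PowerSeries F)[X] :=
  ((X - C s) ^ m * q).map (PowerSeries.C (R := F)) +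
    C (PowerSeries.C c * PowerSeries.X ^ m) * f₁.map (PowerSeries.C (R := F))

theorem eval_pol (q f₁ : F[X]) (s c : F) (m : ℕ) (z : PowerSeries F) :
    (pol q f₁ s c m).eval z = (z - PowerSeries.C s) ^ m *
      (q.map (PowerSeries.C (R := F))).eval z +
      PowerSeries.C c * PowerSeries.X ^ m * (f₁.map (PowerSeries.C (R := F))).eval z := by
  rw [pol, Polynomial.map_mul, Polynomial.map_pow, Polynomial.map_sub, map_X, map_C, eval_add,
    eval_mul, eval_mul, eval_pow, eval_sub, eval_X, eval_C, eval_C]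

theorem map_pol (q f₁ : F[X]) (s c : F) {m : ℕ} (hm : m ≠ 0) :
    (pol q f₁ s c m).map (PowerSeries.constantCoeff (R := F)) = (X - C s) ^ m * q := by
  rw [pol, Polynomial.map_add, Polynomial.map_mul (p := C _), Polynomial.map_map,
    Polynomial.map_map, cc_comp_C, Polynomial.map_id, Polynomial.map_id, map_C, map_mul, map_pow,
    PowerSeries.constantCoeff_X, zero_pow hm, mul_zero, C_0, zero_mul, add_zero]

theorem rs_pol (ζ : F) (h : ζ ≠ 0) {m : ℕ} (hz : ζ ^ m = 1) (q f₁ : F[X]) (s c : F) :
    (pol q f₁ s c m).map (rs ζ h).toRingHom = pol q f₁ s c m := by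
  have h1 : (rs ζ h).toRingHom.comp (PowerSeries.C (R := F)) = PowerSeries.C (R := F) :=
    RingHom.ext fun a => rs_C ζ h a
  have h2 : (rs ζ h).toRingHom (PowerSeries.C c * PowerSeries.X ^ m) =
      PowerSeries.C c * PowerSeries.X ^ m := by
    show rs ζ h (PowerSeries.C c * PowerSeries.X ^ m) = _
    rw [map_mul, map_pow, rs_C, rs_X, mul_pow, ← map_pow, hz, map_one, one_mul]
  rw [pol, Polynomial.map_add, Polynomial.map_mul (p := C _), Polynomial.map_map,
    Polynomial.map_map, h1, map_C, h2]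

/-- Roots of the first kind. -/
theorem kind1 (hH : HenGStmt) (q f₁ : F[X]) (s c : F) {m : ℕ} (hm : 2 ≤ m) (hmF : (m : F) ≠ 0)
    (hq : q.eval s ≠ 0) (hc : c * f₁.eval s = -q.eval s) (ξ : F) (hξ : ξ ^ m = 1) :
    ∃ Z : PowerSeries F, PowerSeries.constantCoeff Z = ξ ∧
      (pol q f₁ s c m).eval (PowerSeries.C s + PowerSeries.X * Z) = 0 := by
  let l : (PowerSeries F)[X] := C (PowerSeries.C s) + C PowerSeries.X * X
  let g : (PowerSeries F)[X] := X ^ m * (q.map (PowerSeries.C (R := F))).comp l +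
    C (PowerSeries.C c) * (f₁.map (PowerSeries.C (R := F))).comp l
  have hl : l.map (PowerSeries.constantCoeff (R := F)) = C s := by
    show (C (PowerSeries.C s) + C PowerSeries.X * X : (PowerSeries F)[X]).map
      (PowerSeries.constantCoeff (R := F)) = C s
    rw [Polynomial.map_add, Polynomial.map_mul, map_C, map_C, map_X,
      PowerSeries.constantCoeff_X, PowerSeries.constantCoeff_C, C_0, zero_mul, add_zero]
  have hg : g.map (PowerSeries.constantCoeff (R := F)) = C (q.eval s) * (X ^ m - 1) := by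
    show (X ^ m * (q.map (PowerSeries.C (R := F))).comp l +
      C (PowerSeries.C c) * (f₁.map (PowerSeries.C (R := F))).comp l).map
      (PowerSeries.constantCoeff (R := F)) = _
    rw [Polynomial.map_add, Polynomial.map_mul, Polynomial.map_mul, map_comp, map_comp, hl,
      Polynomial.map_map, Polynomial.map_map, cc_comp_C, Polynomial.map_id, Polynomial.map_id,
      Polynomial.map_pow, map_X, map_C, PowerSeries.constantCoeff_C, comp_C, comp_C, ← C_mul, hc,
      C_neg]
    ring
  obtain ⟨Z, hZ1, hZ2⟩ := hH F g ξ (by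
    rw [hg, eval_mul, eval_sub, eval_pow, eval_X, eval_one, hξ, sub_self, mul_zero]) (by
    rw [hg, derivative_C_mul, derivative_sub, derivative_X_pow, derivative_one, sub_zero,
      eval_mul, eval_C, eval_mul, eval_C, eval_pow, eval_X]
    refine mul_ne_zero hq (mul_ne_zero hmF (pow_ne_zero _ ?_))
    intro h0
    rw [h0, zero_pow (by omega)] at hξ
    exact zero_ne_one hξ)
  refine ⟨Z, hZ2, ?_⟩
  have hle : l.eval Z = PowerSeries.C s + PowerSeries.X * Z := by
    show (C (PowerSeries.C s) + C PowerSeries.X * X : (PowerSeries F)[X]).eval Z = _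
    rw [eval_add, eval_mul, eval_C, eval_C, eval_X]
  have hgz : Z ^ m * (q.map (PowerSeries.C (R := F))).eval (PowerSeries.C s + PowerSeries.X * Z) +
      PowerSeries.C c *
        (f₁.map (PowerSeries.C (R := F))).eval (PowerSeries.C s + PowerSeries.X * Z) = 0 := by
    have h5 : (X ^ m * (q.map (PowerSeries.C (R := F))).comp l +
      C (PowerSeries.C c) * (f₁.map (PowerSeries.C (R := F))).comp l).eval Z = 0 := hZ1
    rwa [eval_add, eval_mul, eval_mul, eval_pow, eval_X, eval_C, eval_comp, eval_comp, hle] at h5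
  rw [eval_pol, add_sub_cancel_left]
  linear_combination PowerSeries.X ^ m * hgz

/-- Roots of the second kind. -/
theorem kind2 (hH : HenGStmt) (q f₁ : F[X]) (s c : F) {m : ℕ} (hm : 2 ≤ m) (hqs : q.Separable)
    (b : F) (hb : q.eval b = 0) (hbs : b ≠ s) :
    ∃ z : PowerSeries F, PowerSeries.constantCoeff z = b ∧ (pol q f₁ s c m).eval z = 0 := by
  have hmap := map_pol q f₁ s c (m := m) (by omega)
  obtain ⟨z, hz1, hz2⟩ := hH F (pol q f₁ s c m) b (by
    rw [hmap, eval_mul, hb, mul_zero]) (by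
    rw [hmap, derivative_mul, eval_add, eval_mul, eval_mul, hb, mul_zero, zero_add, eval_pow,
      eval_sub, eval_X, eval_C]
    refine mul_ne_zero (pow_ne_zero _ (sub_ne_zero.2 hbs)) ?_
    intro h0
    obtain ⟨u, v, huv⟩ := hqs
    have h1 := congrArg (Polynomial.eval b) huv
    rw [eval_add, eval_mul, eval_mul, hb, h0, mul_zero, mul_zero, add_zero, eval_one] at h1
    exact zero_ne_one h1)
  exact ⟨z, hz2, hz1⟩

/-- The main argument. -/
theorem main [IsAlgClosed F] (hH : HenGStmt) (n m : ℕ) (f₀ f₁ q : F[X]) (s κ₀ : F) (hm : 2 ≤ m)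
    (hmF : (m : F) ≠ 0) (hn : f₀.natDegree = n) (h1n : f₁.natDegree < n)
    (hf : f₀ + C κ₀ * f₁ = (X - C s) ^ m * q) (hqs : q.Separable) (hq : q.eval s ≠ 0)
    (hf1 : f₁.eval s ≠ 0) :
    ∃ (c : F) (τ : PowerSeries F ≃+* PowerSeries F) (z : Fin n → PowerSeries F)
      (ρ : Equiv.Perm (Fin n)), c ≠ 0 ∧
      (∀ a : F, τ (PowerSeries.C a) = PowerSeries.C a) ∧
      τ (PowerSeries.X ^ m) = PowerSeries.X ^ m ∧ Function.Injective z ∧
      f₀.map (PowerSeries.C (R := F)) +
        C (PowerSeries.C κ₀ + PowerSeries.C c * PowerSeries.X ^ m) *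
          f₁.map (PowerSeries.C (R := F)) =
        C (PowerSeries.C f₀.leadingCoeff) * ∏ i, (X - C (z i)) ∧
      (∀ i, τ (z i) = z (ρ i)) ∧ ρ.IsCycle ∧ ρ.support.card = m := by
  classical
  -- a primitive root of unity
  have hmne : NeZero (m : F) := ⟨hmF⟩
  obtain ⟨ζ, hζ⟩ : ∃ ζ : F, IsPrimitiveRoot ζ m := HasEnoughRootsOfUnity.exists_primitiveRoot F m
  have hζ0 : ζ ≠ 0 := hζ.ne_zero (by omega)
  obtain ⟨c, hc⟩ : ∃ c : F, c * f₁.eval s = -q.eval s := ⟨-q.eval s / f₁.eval s, by
    rw [div_mul_cancel₀ _ hf1]⟩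
  have hc0 : c ≠ 0 := by
    intro h0
    rw [h0, zero_mul] at hc
    exact hq (neg_eq_zero.1 hc.symm)
  let τ := rs ζ hζ0
  -- degrees
  have hf0 : f₀ ≠ 0 := by
    intro h0
    rw [h0, natDegree_zero] at hn
    omega
  have hq0 : q ≠ 0 := by
    intro h0
    rw [h0, eval_zero] at hq
    exact hq rfl
  have hdeg : ∀ {A : Type} [CommRing A] [IsDomain A] (ι : F →+* A) (k : A),
      (f₀.map ι + C k * f₁.map ι).natDegree = n ∧
      (f₀.map ι + C k * f₁.map ι).leadingCoeff = ι f₀.leadingCoeff := by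
    intro A _ _ ι k
    have hi := ι.injective
    have h1 : (C k * f₁.map ι).natDegree < (f₀.map ι).natDegree := by
      refine (natDegree_C_mul_le _ _).trans_lt ?_
      rw [natDegree_map_eq_of_injective hi, natDegree_map_eq_of_injective hi, hn]
      exact h1n
    constructor
    · rw [natDegree_add_eq_left_of_natDegree_lt h1, natDegree_map_eq_of_injective hi, hn]
    · rw [leadingCoeff_add_of_degree_lt' (degree_lt_degree h1), leadingCoeff_map_of_injective hi]
  have hdq : m + q.natDegree = n := by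
    have h1 := (hdeg (RingHom.id F) κ₀).1
    rw [Polynomial.map_id, Polynomial.map_id, hf, natDegree_mul (pow_ne_zero _ (X_sub_C_ne_zero s))
      hq0, natDegree_pow, natDegree_X_sub_C, mul_one] at h1
    exact h1
  -- the roots
  have hk1 : ∀ i : Fin m, ∃ Z : PowerSeries F, PowerSeries.constantCoeff Z = ζ ^ (i : ℕ) ∧
      (pol q f₁ s c m).eval (PowerSeries.C s + PowerSeries.X * Z) = 0 := fun i =>
    kind1 hH q f₁ s c hm hmF hq hc _ (by rw [← pow_mul, mul_comm, pow_mul, hζ.pow_eq_one, one_pow])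
  choose Z hZ1 hZ2 using hk1
  have hk2 : ∀ b : q.roots.toFinset, ∃ z : PowerSeries F,
      PowerSeries.constantCoeff z = (b : F) ∧ (pol q f₁ s c m).eval z = 0 := fun b => by
    have hb : q.eval (b : F) = 0 := by
      have h1 := b.2
      rw [Multiset.mem_toFinset, mem_roots hq0] at h1
      exact h1
    exact kind2 hH q f₁ s c hm hqs b hb (fun h => hq (h ▸ hb))
  choose w hw1 hw2 using hk2
  have hqb : ∀ b : q.roots.toFinset, (b : F) ≠ s := fun b h => by
    have h1 := b.2
    rw [Multiset.mem_toFinset, mem_roots hq0, h] at h1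
    exact hq h1
  let z' : Fin m ⊕ q.roots.toFinset → PowerSeries F :=
    Sum.elim (fun i => PowerSeries.C s + PowerSeries.X * Z i) w
  have hz'0 : ∀ i, (pol q f₁ s c m).eval (z' i) = 0 := by
    intro i
    cases i with
    | inl i => exact hZ2 i
    | inr b => exact hw2 b
  have hccl : ∀ i, PowerSeries.constantCoeff (z' (Sum.inl i)) = s := by
    intro i
    show PowerSeries.constantCoeff (PowerSeries.C s + PowerSeries.X * Z i) = s
    rw [map_add, map_mul, PowerSeries.constantCoeff_C, PowerSeries.constantCoeff_X, zero_mul,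
      add_zero]
  have hccr : ∀ b, PowerSeries.constantCoeff (z' (Sum.inr b)) = (b : F) := fun b => hw1 b
  have hX0 : (PowerSeries.X : PowerSeries F) ≠ 0 := PowerSeries.X_ne_zero
  have hll : ∀ i j : Fin m, z' (Sum.inl i) = z' (Sum.inl j) → i = j := by
    intro i j h
    have h1 : PowerSeries.C s + PowerSeries.X * Z i = PowerSeries.C s + PowerSeries.X * Z j := h
    have h2 : Z i = Z j := mul_left_cancel₀ hX0 (add_left_cancel h1)
    have h3 : ζ ^ (i : ℕ) = ζ ^ (j : ℕ) := by rw [← hZ1, ← hZ1, h2]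
    exact Fin.ext (hζ.pow_inj i.2 j.2 h3)
  have hz' : Function.Injective z' := by
    intro i j hij
    cases i with
    | inl i =>
      cases j with
      | inl j => rw [hll i j hij]
      | inr b =>
        exfalso
        have h1 := congrArg (PowerSeries.constantCoeff (R := F)) hij
        rw [hccl, hccr] at h1
        exact hqb b h1.symm
    | inr b =>
      cases j with
      | inl j =>
        exfalso
        have h1 := congrArg (PowerSeries.constantCoeff (R := F)) hij
        rw [hccl, hccr] at h1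
        exact hqb b h1
      | inr b' =>
        have h1 := congrArg (PowerSeries.constantCoeff (R := F)) hij
        rw [hccr, hccr] at h1
        rw [Subtype.ext h1]
  -- cardinality
  have hcard : Fintype.card q.roots.toFinset = q.natDegree := by
    rw [Fintype.card_coe, Multiset.toFinset_card_of_nodup (nodup_roots hqs)]
    exact (IsAlgClosed.splits q).natDegree_eq_card_roots.symm
  have hcI : Fintype.card (Fin m ⊕ q.roots.toFinset) = n := by
    rw [Fintype.card_sum, Fintype.card_fin, hcard, hdq]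
  -- the polynomial
  have hpol : f₀.map (PowerSeries.C (R := F)) +
      C (PowerSeries.C κ₀ + PowerSeries.C c * PowerSeries.X ^ m) *
        f₁.map (PowerSeries.C (R := F)) = pol q f₁ s c m := by
    rw [pol, ← hf, Polynomial.map_add, Polynomial.map_mul, map_C, C_add]
    ring
  have hlc0 : PowerSeries.C f₀.leadingCoeff ≠ 0 := by
    intro h0
    have h1 := congrArg (PowerSeries.constantCoeff (R := F)) h0
    rw [PowerSeries.constantCoeff_C, map_zero] at h1
    exact leadingCoeff_ne_zero.2 hf0 h1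
  have hfac : pol q f₁ s c m = C (PowerSeries.C f₀.leadingCoeff) * ∏ i, (X - C (z' i)) := by
    refine fac _ _ hlc0 z' hz' ?_ ?_ hz'0
    · rw [← hpol, (hdeg (PowerSeries.C (R := F)) _).1, hcI]
    · rw [← hpol, (hdeg (PowerSeries.C (R := F)) _).2]
  -- the action of `τ`
  have hτ : ∀ i, ∃ j, τ (z' i) = z' j := by
    intro i
    have h1 : (pol q f₁ s c m).eval (τ (z' i)) = 0 := by
      have h2 : ((pol q f₁ s c m).map (rs ζ hζ0).toRingHom).eval ((rs ζ hζ0).toRingHom (z' i)) =
          (rs ζ hζ0).toRingHom ((pol q f₁ s c m).eval (z' i)) := by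
        rw [eval_map, eval₂_at_apply]
      rw [rs_pol ζ hζ0 hζ.pow_eq_one, hz'0, map_zero] at h2
      exact h2
    rw [hfac, eval_mul, eval_C, mul_eq_zero, or_iff_right hlc0, eval_prod,
      Finset.prod_eq_zero_iff] at h1
    obtain ⟨j, -, hj⟩ := h1
    exact ⟨j, by rwa [eval_sub, eval_X, eval_C, sub_eq_zero] at hj⟩
  have hτc : ∀ a, PowerSeries.constantCoeff (τ a) = PowerSeries.constantCoeff a :=
    fun a => cc_rs ζ hζ0 a
  have hτ1 : ∀ i, τ (z' (Sum.inl i)) = z' (Sum.inl (finRotate m i)) := by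
    intro i
    obtain ⟨j, hj⟩ := hτ (Sum.inl i)
    cases j with
    | inr b =>
      exfalso
      have h1 := congrArg (PowerSeries.constantCoeff (R := F)) hj
      rw [hτc, hccl, hccr] at h1
      exact hqb b h1.symm
    | inl j =>
      rw [hj]
      have h1 : τ (PowerSeries.C s + PowerSeries.X * Z i) =
        PowerSeries.C s + PowerSeries.X * Z j := hj
      have h2 : τ (PowerSeries.C s + PowerSeries.X * Z i) =
          PowerSeries.C s + PowerSeries.X * (PowerSeries.C ζ * τ (Z i)) := by
        rw [map_add, map_mul]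
        show rs ζ hζ0 (PowerSeries.C s) + rs ζ hζ0 PowerSeries.X * _ = _
        rw [rs_C, rs_X]
        ring
      have h3 : Z j = PowerSeries.C ζ * τ (Z i) :=
        mul_left_cancel₀ hX0 (add_left_cancel (h1.symm.trans h2))
      have h4 : ζ ^ (j : ℕ) = ζ ^ ((finRotate m i : Fin m) : ℕ) := by
        rw [← hZ1, h3, map_mul, PowerSeries.constantCoeff_C, hτc, hZ1, finRotate_val hm,
          ← pow_eq_pow_mod _ hζ.pow_eq_one, pow_succ']
      rw [Fin.ext (hζ.pow_inj j.2 (finRotate m i).2 h4)]
  have hτ2 : ∀ b, τ (z' (Sum.inr b)) = z' (Sum.inr b) := by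
    intro b
    obtain ⟨j, hj⟩ := hτ (Sum.inr b)
    have h1 := congrArg (PowerSeries.constantCoeff (R := F)) hj
    cases j with
    | inl j =>
      exfalso
      rw [hτc, hccl, hccr] at h1
      exact hqb b h1
    | inr b' =>
      rw [hτc, hccr, hccr] at h1
      rw [hj, Subtype.ext h1]
  obtain ⟨e, ρ, he, hρ1, hρ2⟩ := perm hm (by rw [hcard, hdq] : _ = n) (fun a => τ a) z' hτ1 hτ2
  refine ⟨c, τ, fun i => z' (e i), ρ, hc0, fun a => rs_C ζ hζ0 a, ?_, hz'.comp e.injective, ?_,
    he, hρ1, hρ2⟩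
  · rw [map_pow]
    show (rs ζ hζ0 PowerSeries.X) ^ m = _
    rw [rs_X, mul_pow, ← map_pow, hζ.pow_eq_one, map_one, one_mul]
  · rw [hpol, hfac]
    congr 1
    exact (Equiv.prod_comp e fun i => (X - C (z' i) : (PowerSeries F)[X])).symm

end roots

end MP7Z.A3.CycPM

namespace MP7Z.A3

/-- **CycP.** -/
theorem tCycP (h0 : HenGStmt) : CycPStmt := fun _ _ _ n m f₀ f₁ q s κ₀ hm hmF hn h1n hf hqs hq hf1 =>
  CycPM.main h0 n m f₀ f₁ q s κ₀ hm hmF hn h1n hf hqs hq hf1

end MP7Z.A3
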