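import Pool.Agent.Lib.MP_7f581e_Z.Alt3.Spec

set_option autoImplicit false

/-!
# The second elementary symmetric function of the cubes, in characteristic two (`E6Stmt`)
-/

namespace MP7Z.A3

open Polynomial MP7Z MP7Z.A2

namespace E6M

variable {F : Type} [Field F] {n : ℕ}

/-- The sum over the pairs of elements of `s`. -/
def e2 (s : Finset (Fin n)) (g : Fin n → F) : F :=
  ∑ j ∈ s, ∑ l ∈ s.filter (fun l => j < l), g j * g l

theorem e2_insert (s : Finset (Fin n)) (a : Fin n) (ha : ∀ x ∈ s, x < a) (g : Fin n → F) :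
    e2 (insert a s) g = e2 s g + (∑ j ∈ s, g j) * g a := by
  have has : a ∉ s := fun h => lt_irrefl _ (ha a h)
  rw [e2, Finset.sum_insert has]
  have h1 : (insert a s).filter (fun l => a < l) = ∅ := by
    rw [Finset.filter_eq_empty_iff]
    intro l hl
    rcases Finset.mem_insert.1 hl with rfl | hl
    · exact lt_irrefl _
    · exact not_lt.2 (ha l hl).le
  have h2 : ∀ j ∈ s, ∑ l ∈ (insert a s).filter (fun l => j < l), g j * g l =
      g j * g a + ∑ l ∈ s.filter (fun l => j < l), g j * g l := by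
    intro j hj
    rw [Finset.filter_insert, if_pos (ha j hj),
      Finset.sum_insert (fun h => has (Finset.mem_filter.1 h).1)]
  rw [h1, Finset.sum_empty, zero_add, Finset.sum_congr rfl h2, Finset.sum_add_distrib,
    ← Finset.sum_mul, add_comm]
  rfl

theorem e2_univ (g : Fin n → F) : e2 Finset.univ g = esym2 g := by
  rw [e2, esym2]
  refine Finset.sum_congr rfl fun j _ => Finset.sum_congr ?_ fun _ _ => rfl
  ext l
  simp

theorem main (h2 : (2 : F) = 0) (s : Finset (Fin n)) (t : Fin n → F) :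
    ∀ e : ℕ → F, (∀ k, e k = (∏ j ∈ s, (1 + C (t j) * X)).coeff k) →
    e 0 = 1 ∧ (∑ j ∈ s, t j ^ 3 = e 1 ^ 3 + e 1 * e 2 + e 3) ∧
    E6M.e2 s (fun j => t j ^ 3) = e 2 ^ 3 + e 1 * e 2 * e 3 + e 3 ^ 2 + e 1 ^ 2 * e 4 + e 2 * e 4 +
      e 1 * e 5 + e 6 := by
  induction s using Finset.induction_on_max with
  | empty =>
    intro e he
    simp only [Finset.prod_empty, coeff_one] at he
    refine ⟨by rw [he]; simp, ?_, ?_⟩
    · rw [he 1, he 2, he 3]
      simp
    · rw [he 1, he 2, he 3, he 4, he 5, he 6]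
      simp [E6M.e2]
  | insert a s ha ih =>
    intro e' he'
    have has : a ∉ s := fun h => lt_irrefl _ (ha a h)
    obtain ⟨h0, h1, h3⟩ := ih (fun k => (∏ j ∈ s, (1 + C (t j) * X)).coeff k) (fun _ => rfl)
    set e : ℕ → F := fun k => (∏ j ∈ s, (1 + C (t j) * X)).coeff k with he
    have hz : e' 0 = e 0 := by
      rw [he', Finset.prod_insert has, add_mul, one_mul, mul_assoc, coeff_add, coeff_C_mul,
        coeff_X_mul_zero, mul_zero, add_zero]
    have hs : ∀ k, e' (k + 1) = e (k + 1) + t a * e k := by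
      intro k
      rw [he', Finset.prod_insert has, add_mul, one_mul, mul_assoc, coeff_add, coeff_C_mul,
        coeff_X_mul]
    have s1 := hs 0
    have s2 := hs 1
    have s3 := hs 2
    have s4 := hs 3
    have s5 := hs 4
    have s6 := hs 5
    norm_num at s1 s2 s3 s4 s5 s6
    have h0' : e 0 = 1 := h0
    have h1' : ∑ j ∈ s, t j ^ 3 = e 1 ^ 3 + e 1 * e 2 + e 3 := h1
    have h3' : E6M.e2 s (fun j => t j ^ 3) = e 2 ^ 3 + e 1 * e 2 * e 3 + e 3 ^ 2 + e 1 ^ 2 * e 4 +
      e 2 * e 4 + e 1 * e 5 + e 6 := h3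
    rw [h0', mul_one] at s1
    refine ⟨by rw [hz, h0'], ?_, ?_⟩
    · rw [Finset.sum_insert has, h1', s1, s2, s3]
      linear_combination ((-2 * e 1 ^ 2 * t a) + (-2 * e 1 * t a ^ 2) + (-1 * e 2 * t a)) * h2
    · rw [e2_insert s a ha, h3', h1', s1, s2, s3, s4, s5, s6]
      linear_combination ((-2 * e 1 * e 2 ^ 2 * t a) + (-2 * e 1 ^ 2 * e 2 * t a ^ 2) +
        (-1 * e 1 ^ 2 * e 3 * t a) + (-2 * e 2 * e 3 * t a) + (-1 * e 2 ^ 2 * t a ^ 2) +
        (-2 * e 1 * e 3 * t a ^ 2) + (-2 * e 1 * e 4 * t a) + (-1 * e 4 * t a ^ 2) +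
        (-1 * e 5 * t a)) * h2

end E6M

theorem tE6 : E6Stmt := by
  intro n F _ _ t e he
  have h2 : (2 : F) = 0 := by
    have h3 : algebraMap (ZMod 2) F 2 = 2 := map_ofNat _ 2
    have h4 : (2 : ZMod 2) = 0 := rfl
    rw [← h3, h4, map_zero]
  have := (E6M.main h2 Finset.univ t e he).2.2
  rw [E6M.e2_univ] at this
  exact this

end MP7Z.A3
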