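import Pool.Agent.Lib.MP_7f581e_Z.Alt3.Spec

/-!
# Alt3, task GenK: the generic group of the family of `k` polynomials
-/

set_option autoImplicit false

namespace MP7Z.A3

open Polynomial MP7Z

namespace GenKM

/-- Roots of nonzero polynomials over an algebraically closed field are in this field. -/
theorem root_mem {L N : Type} [Field L] [Field N] [Algebra L N] [IsAlgClosed L] {P : L[X]}
    (hP : P.map (algebraMap L N) ≠ 0) {y : N} (hy : (P.map (algebraMap L N)).eval y = 0) :
    ∃ a : L, algebraMap L N a = y := by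
  have h1 : IsAlgebraic L y := by
    refine ⟨P, ?_, ?_⟩
    · rintro rfl
      exact hP (Polynomial.map_zero _)
    · rw [← hy, eval_map, aeval_def]
  have h2 : y ∈ algebraicClosure L N := mem_algebraicClosure_iff.2 h1
  have h3 : algebraicClosure L N = ⊥ :=
    IntermediateField.eq_bot_of_isAlgClosed_of_isAlgebraic _
  rw [h3, IntermediateField.mem_bot] at h2
  exact h2

end GenKM

open GenKM

theorem tGenK (h0 : AlgIStmt) : GenKStmt := by
  intro p n r _ G hGen hNe Ω N _ _ _ _ _ _ _ k U hU halg θ w g hθ hw hg v hv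
  have hne : ∀ j, G.ℓ N (algebraMap Ω N (w j)) (algebraMap Ω N g) (v j) ≠ 0 ∧
      G.D N (algebraMap Ω N (w j)) (algebraMap Ω N g) (v j) ≠ 0 := by
    intro j
    obtain ⟨L, -, -, hind, -, -⟩ := h0 Ω N k r U hU halg θ hθ v hv j
    exact hNe L N (v j) hind (algebraMap Ω L (w j)) (algebraMap Ω L g)
      (fun hp h => hw hp j ((map_eq_zero _).1 h)) (fun hp h => hg hp ((map_eq_zero _).1 h))
  refine ⟨hne, ?_⟩
  intro η hη hF j₀ a ha
  obtain ⟨L, hL, hmem, hind, halgL, hfix⟩ := h0 Ω N k r U hU halg θ hθ v hv j₀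
  haveI := hL
  obtain ⟨σ, hσ1, hσ2⟩ := hGen L N (v j₀) hind halgL (algebraMap Ω L (w j₀)) (algebraMap Ω L g)
    (fun hp h => hw hp j₀ ((map_eq_zero _).1 h)) (fun hp h => hg hp ((map_eq_zero _).1 h))
    (η j₀) (hη j₀) (hF j₀) a ha
  refine ⟨σ.restrictScalars Ω, ?_, hσ2, ?_⟩
  · apply hfix
    intro j i
    by_cases hj : j = j₀
    · rw [hj]
      exact hσ1 i
    · exact σ.commutes ⟨v j i, hmem j hj i⟩
  · intro j hj i
    have h1 : (G.F L (algebraMap Ω L (w j)) (algebraMap Ω L g)
        (fun i => ⟨v j i, hmem j hj i⟩)).map (algebraMap L N) =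
        G.F N (algebraMap Ω N (w j)) (algebraMap Ω N g) (v j) := by
      rw [G.map_F L N (algebraMap L N)]
      rfl
    obtain ⟨b, hb⟩ := root_mem (L := L) (N := N) (P := G.F L (algebraMap Ω L (w j))
      (algebraMap Ω L g) (fun i => ⟨v j i, hmem j hj i⟩)) (y := η j i) (by
        rw [h1, hF j]
        exact mul_ne_zero (C_ne_zero.2 (hne j).1)
          (Finset.prod_ne_zero_iff.2 fun i _ => X_sub_C_ne_zero _)) (by
        rw [h1, hF j, eval_mul, eval_prod, Finset.prod_eq_zero (Finset.mem_univ i), mul_zero]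
        rw [eval_sub, eval_X, eval_C, sub_self])
    rw [← hb]
    exact σ.commutes b

end MP7Z.A3
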