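import Pool.Agent.Lib.MP_7f581e_Z.Alt3.Spec

/-!
# Hilbert irreducibility with polynomial values, several parameters
-/

set_option autoImplicit false

namespace MP7Z.A3

open Polynomial MP7Z

namespace HRmM

/-- A subfield of `E(X)` containing `E` and `X` is everything. -/
theorem ratfunc_top {E : Type} [Field E] (S : Subfield (RatFunc E))
    (hC : ∀ c, RatFunc.C c ∈ S) (hX : RatFunc.X ∈ S) (z : RatFunc E) : z ∈ S := by
  have hpoly : ∀ f : E[X], algebraMap E[X] (RatFunc E) f ∈ S := by
    intro f
    induction f using Polynomial.induction_on' with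
    | add f g hf hg =>
      rw [map_add]
      exact S.add_mem hf hg
    | monomial n a =>
      rw [← C_mul_X_pow_eq_monomial, map_mul, map_pow, RatFunc.algebraMap_C,
        RatFunc.algebraMap_X]
      exact S.mul_mem (hC a) (S.pow_mem hX n)
  induction z using RatFunc.induction_on with
  | _ p q hq => exact S.div_mem (hpoly p) (hpoly q)

theorem infinite_ratFunc {K : Type} [Field K] : Infinite (RatFunc K) :=
  Infinite.of_injective (algebraMap K[X] (RatFunc K)) (IsFractionRing.injective _ _)

/-- A subfield of the fraction field of a polynomial ring containing the constants and the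
variables is everything. -/
theorem frac_top {m : ℕ} {E : Type} [Field E] (S : Subfield (FractionRing (MvPolynomial (Fin m) E)))
    (hC : ∀ c : E, algebraMap (MvPolynomial (Fin m) E) (FractionRing (MvPolynomial (Fin m) E))
      (MvPolynomial.C c) ∈ S)
    (hX : ∀ i : Fin m, algebraMap (MvPolynomial (Fin m) E)
      (FractionRing (MvPolynomial (Fin m) E)) (MvPolynomial.X i) ∈ S)
    (z : FractionRing (MvPolynomial (Fin m) E)) : z ∈ S := by
  have hpoly : ∀ f : MvPolynomial (Fin m) E,
      algebraMap (MvPolynomial (Fin m) E) (FractionRing (MvPolynomial (Fin m) E)) f ∈ S := by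
    intro f
    induction f using MvPolynomial.induction_on with
    | C a => exact hC a
    | add f g hf hg =>
      rw [map_add]
      exact S.add_mem hf hg
    | mul_X f i hf =>
      rw [map_mul]
      exact S.mul_mem hf (hX i)
  obtain ⟨x, y, -, rfl⟩ := IsFractionRing.div_surjective (A := MvPolynomial (Fin m) E) z
  exact S.div_mem (hpoly x) (hpoly y)

section step

variable (m : ℕ) (K : Type) [Field K]

/-- `K[X_0, …, X_m] → K(X_0)[X_1, …, X_m]`. -/
noncomputable def Ph : MvPolynomial (Fin (m + 1)) K →+* MvPolynomial (Fin m) (RatFunc K) :=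
  MvPolynomial.eval₂Hom ((MvPolynomial.C : RatFunc K →+* MvPolynomial (Fin m) (RatFunc K)).comp
    (RatFunc.C : K →+* RatFunc K))
    (Fin.cons (MvPolynomial.C RatFunc.X) fun i => MvPolynomial.X i)

theorem Ph_C (k : K) : Ph m K (MvPolynomial.C k) = MvPolynomial.C (RatFunc.C k) := by
  rw [Ph, MvPolynomial.coe_eval₂Hom, MvPolynomial.eval₂_C]
  rfl

theorem Ph_X0 : Ph m K (MvPolynomial.X 0) = MvPolynomial.C RatFunc.X := by
  rw [Ph, MvPolynomial.coe_eval₂Hom, MvPolynomial.eval₂_X, Fin.cons_zero]

theorem Ph_Xs (i : Fin m) : Ph m K (MvPolynomial.X i.succ) = MvPolynomial.X i := by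
  rw [Ph, MvPolynomial.coe_eval₂Hom, MvPolynomial.eval₂_X, Fin.cons_succ]

/-- `K[X_0, …, X_m] → K[X]`, values `b` for the last variables. -/
noncomputable def th (b : Fin m → K) : MvPolynomial (Fin (m + 1)) K →+* K[X] :=
  MvPolynomial.eval₂Hom (C : K →+* K[X]) (Fin.cons X fun i => C (b i))

theorem th_C (b : Fin m → K) (k : K) : th m K b (MvPolynomial.C k) = C k := by
  rw [th, MvPolynomial.coe_eval₂Hom, MvPolynomial.eval₂_C]

theorem th_X0 (b : Fin m → K) : th m K b (MvPolynomial.X 0) = X := by
  rw [th, MvPolynomial.coe_eval₂Hom, MvPolynomial.eval₂_X, Fin.cons_zero]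

theorem th_Xs (b : Fin m → K) (i : Fin m) : th m K b (MvPolynomial.X i.succ) = C (b i) := by
  rw [th, MvPolynomial.coe_eval₂Hom, MvPolynomial.eval₂_X, Fin.cons_succ]

theorem ev_Ph (b : Fin m → K) :
    (MvPolynomial.eval (fun i => algebraMap K (RatFunc K) (b i))).comp (Ph m K) =
      (algebraMap K[X] (RatFunc K)).comp (th m K b) := by
  refine MvPolynomial.ringHom_ext (fun r => ?_) (fun i => ?_)
  · rw [RingHom.comp_apply, Ph_C, MvPolynomial.eval_C, RingHom.comp_apply, th_C,
      RatFunc.algebraMap_C]
  · refine Fin.cases ?_ (fun i => ?_) i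
    · rw [RingHom.comp_apply, Ph_X0, MvPolynomial.eval_C, RingHom.comp_apply, th_X0,
        RatFunc.algebraMap_X]
    · rw [RingHom.comp_apply, Ph_Xs, MvPolynomial.eval_X, RingHom.comp_apply, th_Xs,
        RatFunc.algebraMap_C, RatFunc.algebraMap_eq_C]

theorem ev_th (a : K) (b : Fin m → K) : (evalRingHom a).comp (th m K b) =
    MvPolynomial.eval (Fin.cons a b : Fin (m + 1) → K) := by
  refine MvPolynomial.ringHom_ext (fun r => ?_) (fun i => ?_)
  · rw [RingHom.comp_apply, th_C, coe_evalRingHom, eval_C, MvPolynomial.eval_C]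
  · refine Fin.cases ?_ (fun i => ?_) i
    · rw [RingHom.comp_apply, th_X0, coe_evalRingHom, eval_X, MvPolynomial.eval_X, Fin.cons_zero]
    · rw [RingHom.comp_apply, th_Xs, coe_evalRingHom, eval_C, MvPolynomial.eval_X, Fin.cons_succ]

theorem Ph_injective [Infinite K] : Function.Injective (Ph m K) := by
  rw [injective_iff_map_eq_zero]
  intro c hc
  refine MvPolynomial.funext (fun x => ?_)
  have h1 : x = Fin.cons (x 0) (fun i => x i.succ) := by
    funext i
    refine Fin.cases ?_ (fun i => ?_) i
    · rw [Fin.cons_zero]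
    · rw [Fin.cons_succ]
  have h2 : th m K (fun i => x i.succ) c = 0 := by
    apply IsFractionRing.injective K[X] (RatFunc K)
    have h3 := RingHom.congr_fun (ev_Ph m K (fun i => x i.succ)) c
    rw [RingHom.comp_apply, RingHom.comp_apply, hc, map_zero] at h3
    rw [← h3, map_zero]
  rw [h1, ← ev_th, RingHom.comp_apply, h2, map_zero, map_zero]

/-- `K[X_0, …, X_m]` in the fraction field of `K(X_0)[X_1, …, X_m]`. -/
noncomputable def jj : MvPolynomial (Fin (m + 1)) K →+*
    FractionRing (MvPolynomial (Fin m) (RatFunc K)) :=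
  (algebraMap (MvPolynomial (Fin m) (RatFunc K))
    (FractionRing (MvPolynomial (Fin m) (RatFunc K)))).comp (Ph m K)

theorem jj_injective [Infinite K] : Function.Injective (jj m K) :=
  (IsFractionRing.injective (MvPolynomial (Fin m) (RatFunc K))
    (FractionRing (MvPolynomial (Fin m) (RatFunc K)))).comp (Ph_injective m K)

theorem lift_bijective [Infinite K] : Function.Bijective
    (IsFractionRing.lift (K := FractionRing (MvPolynomial (Fin (m + 1)) K))
      (jj_injective m K)) := by
  refine ⟨RingHom.injective _, ?_⟩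
  obtain ⟨L, hL⟩ : ∃ L, L = (IsFractionRing.lift
    (K := FractionRing (MvPolynomial (Fin (m + 1)) K)) (jj_injective m K)) := ⟨_, rfl⟩
  rw [← hL]
  have hLa : ∀ x, jj m K x ∈ L.fieldRange := by
    intro x
    refine ⟨algebraMap _ _ x, ?_⟩
    rw [hL]
    exact IsFractionRing.lift_algebraMap _ x
  have hC : ∀ c : RatFunc K, algebraMap (MvPolynomial (Fin m) (RatFunc K))
      (FractionRing (MvPolynomial (Fin m) (RatFunc K))) (MvPolynomial.C c) ∈ L.fieldRange := by
    refine ratfunc_top (L.fieldRange.comap
      ((algebraMap (MvPolynomial (Fin m) (RatFunc K))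
        (FractionRing (MvPolynomial (Fin m) (RatFunc K)))).comp
        (MvPolynomial.C : RatFunc K →+* MvPolynomial (Fin m) (RatFunc K)))) (fun k => ?_) ?_
    · have h1 := hLa (MvPolynomial.C k)
      rw [jj, RingHom.comp_apply, Ph_C] at h1
      exact h1
    · have h1 := hLa (MvPolynomial.X 0)
      rw [jj, RingHom.comp_apply, Ph_X0] at h1
      exact h1
  have hX : ∀ i : Fin m, algebraMap (MvPolynomial (Fin m) (RatFunc K))
      (FractionRing (MvPolynomial (Fin m) (RatFunc K))) (MvPolynomial.X i) ∈ L.fieldRange := by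
    intro i
    have h1 := hLa (MvPolynomial.X i.succ)
    rw [jj, RingHom.comp_apply, Ph_Xs] at h1
    exact h1
  intro z
  exact frac_top L.fieldRange hC hX z

theorem lift_comp [Infinite K] :
    (IsFractionRing.lift (K := FractionRing (MvPolynomial (Fin (m + 1)) K))
      (jj_injective m K)).comp
        (algebraMap (MvPolynomial (Fin (m + 1)) K)
          (FractionRing (MvPolynomial (Fin (m + 1)) K))) = jj m K := by
  refine RingHom.ext fun x => ?_
  rw [RingHom.comp_apply, IsFractionRing.lift_algebraMap]

theorem map_eq [Infinite K] (Q : (MvPolynomial (Fin (m + 1)) K)[X]) :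
    (Q.map (Ph m K)).map (algebraMap (MvPolynomial (Fin m) (RatFunc K))
      (FractionRing (MvPolynomial (Fin m) (RatFunc K)))) =
      (Q.map (algebraMap (MvPolynomial (Fin (m + 1)) K)
        (FractionRing (MvPolynomial (Fin (m + 1)) K)))).map
        (IsFractionRing.lift (K := FractionRing (MvPolynomial (Fin (m + 1)) K))
          (jj_injective m K)) := by
  rw [Polynomial.map_map, Polynomial.map_map, lift_comp, jj]

theorem step1 [Infinite K] (Q : (MvPolynomial (Fin (m + 1)) K)[X])
    (hirr : Irreducible (Q.map (algebraMap (MvPolynomial (Fin (m + 1)) K)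
      (FractionRing (MvPolynomial (Fin (m + 1)) K))))) :
    Irreducible ((Q.map (Ph m K)).map (algebraMap (MvPolynomial (Fin m) (RatFunc K))
      (FractionRing (MvPolynomial (Fin m) (RatFunc K))))) := by
  rw [map_eq]
  obtain ⟨e, he⟩ : ∃ e : FractionRing (MvPolynomial (Fin (m + 1)) K) ≃+*
      FractionRing (MvPolynomial (Fin m) (RatFunc K)),
      (e : FractionRing (MvPolynomial (Fin (m + 1)) K) →+*
        FractionRing (MvPolynomial (Fin m) (RatFunc K))) =
        IsFractionRing.lift (K := FractionRing (MvPolynomial (Fin (m + 1)) K))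
          (jj_injective m K) :=
    ⟨RingEquiv.ofBijective _ (lift_bijective m K), RingHom.ext fun _ => rfl⟩
  rw [← he]
  exact (MulEquiv.irreducible_iff (Polynomial.mapEquiv e)).mpr hirr

theorem step1' [Infinite K] (Q : (MvPolynomial (Fin (m + 1)) K)[X])
    (hsep : (Q.map (algebraMap (MvPolynomial (Fin (m + 1)) K)
      (FractionRing (MvPolynomial (Fin (m + 1)) K)))).Separable) :
    ((Q.map (Ph m K)).map (algebraMap (MvPolynomial (Fin m) (RatFunc K))
      (FractionRing (MvPolynomial (Fin m) (RatFunc K))))).Separable := by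
  rw [map_eq]
  exact hsep.map

end step

/-- No parameters. -/
theorem base (K : Type) [Field K] (Q : (MvPolynomial (Fin 0) K)[X])
    (hirr : Irreducible (Q.map (algebraMap (MvPolynomial (Fin 0) K)
      (FractionRing (MvPolynomial (Fin 0) K)))))
    (hsep : (Q.map (algebraMap (MvPolynomial (Fin 0) K)
      (FractionRing (MvPolynomial (Fin 0) K)))).Separable)
    (c : MvPolynomial (Fin 0) K) (hc : c ≠ 0) (a : Fin 0 → K) :
    MvPolynomial.eval a c ≠ 0 ∧ Irreducible (Q.map (MvPolynomial.eval a)) ∧
      (Q.map (MvPolynomial.eval a)).Separable := by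
  have h1 : (MvPolynomial.C : K →+* MvPolynomial (Fin 0) K).comp (MvPolynomial.eval a) =
      RingHom.id _ := by
    refine MvPolynomial.ringHom_ext (fun r => ?_) (fun i => i.elim0)
    rw [RingHom.comp_apply, MvPolynomial.eval_C, RingHom.id_apply]
  obtain ⟨j, hj⟩ : ∃ j : K →+* FractionRing (MvPolynomial (Fin 0) K),
      j = (algebraMap (MvPolynomial (Fin 0) K) (FractionRing (MvPolynomial (Fin 0) K))).comp
        (MvPolynomial.C : K →+* MvPolynomial (Fin 0) K) := ⟨_, rfl⟩
  have hjb : Function.Bijective j := by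
    refine ⟨RingHom.injective _, fun z => ?_⟩
    refine frac_top j.fieldRange (fun k => ⟨k, ?_⟩) (fun i => i.elim0) z
    rw [hj, RingHom.comp_apply]
  have h2 : Q.map (algebraMap (MvPolynomial (Fin 0) K)
      (FractionRing (MvPolynomial (Fin 0) K))) = (Q.map (MvPolynomial.eval a)).map j := by
    rw [Polynomial.map_map, hj, RingHom.comp_assoc, h1, RingHom.comp_id]
  rw [h2] at hirr hsep
  refine ⟨fun h3 => hc ?_, ?_, ?_⟩
  · have h4 := RingHom.congr_fun h1 c
    rw [RingHom.comp_apply, h3, map_zero, RingHom.id_apply] at h4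
    exact h4.symm
  · obtain ⟨e, he⟩ : ∃ e : K ≃+* FractionRing (MvPolynomial (Fin 0) K),
        (e : K →+* FractionRing (MvPolynomial (Fin 0) K)) = j :=
      ⟨RingEquiv.ofBijective _ hjb, RingHom.ext fun _ => rfl⟩
    rw [← he] at hirr
    exact (MulEquiv.irreducible_iff (Polynomial.mapEquiv e)).mp hirr
  · exact (separable_map j).mp hsep

/-- The main argument over an infinite field `K`. -/
theorem main (hb : HRbStmt) (hcc : HRcStmt) (m : ℕ) :
    ∀ (K : Type) [Field K] [Infinite K] (S : Set K), WHS K S →
    ∀ (Q : (MvPolynomial (Fin m) K)[X]),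
    Irreducible (Q.map (algebraMap (MvPolynomial (Fin m) K)
      (FractionRing (MvPolynomial (Fin m) K)))) →
    (Q.map (algebraMap (MvPolynomial (Fin m) K)
      (FractionRing (MvPolynomial (Fin m) K)))).Separable →
    ∀ c : MvPolynomial (Fin m) K, c ≠ 0 →
    ∃ a : Fin m → K, (∀ i, a i ∈ S) ∧ MvPolynomial.eval a c ≠ 0 ∧
      Irreducible (Q.map (MvPolynomial.eval a)) ∧
      (Q.map (MvPolynomial.eval a)).Separable := by
  induction m with
  | zero =>
    intro K _ _ S _ Q hirr hsep c hc
    exact ⟨fun i => i.elim0, fun i => i.elim0, base K Q hirr hsep c hc _⟩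
  | succ m ih =>
    intro K _ _ S hS Q hirr hsep c hc
    have : Infinite (RatFunc K) := infinite_ratFunc
    -- a nonzero coefficient of the derivative
    obtain ⟨i, hi⟩ : ∃ i, (derivative Q).coeff i ≠ 0 := by
      by_contra hcon
      push Not at hcon
      have h3 : derivative Q = 0 := Polynomial.ext (fun i => by rw [hcon i, coeff_zero])
      have h4 := (separable_iff_derivative_ne_zero hirr).mp hsep
      rw [derivative_map, h3, Polynomial.map_zero] at h4
      exact h4 rfl
    -- separability of irreducible specializations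
    have hsepF : ∀ (F : Type) [Field F] (f : MvPolynomial (Fin (m + 1)) K →+* F),
        f ((derivative Q).coeff i) ≠ 0 → Irreducible (Q.map f) → (Q.map f).Separable := by
      intro F _ f hf hirrF
      rw [separable_iff_derivative_ne_zero hirrF, derivative_map]
      intro h3
      apply hf
      rw [← coeff_map, h3, coeff_zero]
    obtain ⟨a', ha', ha1, ha2, ha3⟩ := ih (RatFunc K) (algebraMap K (RatFunc K) '' S)
      (hb K S hS) (Q.map (Ph m K)) (step1 m K Q hirr) (step1' m K Q hsep)
      (Ph m K (c * (derivative Q).coeff i)) (by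
        intro h3
        have h4 : c * (derivative Q).coeff i = 0 := Ph_injective m K (by rw [h3, map_zero])
        exact (mul_ne_zero hc hi) h4)
    choose b hb1 hb2 using ha'
    have hab : a' = fun i => algebraMap K (RatFunc K) (b i) := funext fun i => (hb2 i).symm
    subst hab
    rw [Polynomial.map_map, ev_Ph, ← Polynomial.map_map] at ha2 ha3
    have ha1' : algebraMap K[X] (RatFunc K) (th m K b (c * (derivative Q).coeff i)) ≠ 0 := by
      have h3 := RingHom.congr_fun (ev_Ph m K b) (c * (derivative Q).coeff i)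
      rw [RingHom.comp_apply, RingHom.comp_apply] at h3
      rw [← h3]
      exact ha1
    obtain ⟨a, ha, hb3, hb4⟩ := hcc K S hS _ ha2 ha3
      (th m K b (c * (derivative Q).coeff i)) (by
        intro h3
        apply ha1'
        rw [h3, map_zero])
    refine ⟨Fin.cons a b, fun i => ?_, ?_⟩
    · refine Fin.cases ?_ (fun i => ?_) i
      · rw [Fin.cons_zero]
        exact ha
      · rw [Fin.cons_succ]
        exact hb1 i
    rw [← ev_th]
    rw [Polynomial.map_map] at hb4
    have hb1' : ((evalRingHom a).comp (th m K b)) (c * (derivative Q).coeff i) ≠ 0 := hb3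
    rw [map_mul] at hb1'
    exact ⟨left_ne_zero_of_mul hb1', hb4, hsepF _ _ (right_ne_zero_of_mul hb1') hb4⟩

end HRmM

open HRmM in
theorem tHRm (h0 : HRaStmt) (h1 : HRbStmt) (h2 : HRcStmt) : HRmStmt := by
  intro p _ m Q _ hirr hsep c hc
  have : Infinite (RatFunc (ZMod p)) := infinite_ratFunc
  obtain ⟨a', ha', h3, h4, h5⟩ := main h1 h2 m (RatFunc (ZMod p)) _ (h0 p) Q hirr hsep c hc
  choose a ha using ha'
  have hab : a' = fun i => algebraMap (ZMod p)[X] (RatFunc (ZMod p)) (a i) :=
    funext fun i => (ha i).symm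
  subst hab
  refine ⟨a, ?_⟩
  intro ev hev
  rw [hev]
  exact ⟨h3, h4, h5⟩

end MP7Z.A3
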