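import Pool.Agent.Lib.MP_7f581e_Z.Alt3.Spec
import Pool.Agent.Lib.MP_7f581e_ntT.Hens

/-!
# Hensel's lemma for power series, for polynomials which are not monic
-/

set_option autoImplicit false

namespace MP7Z.A3

open Polynomial

theorem tHenG : HenGStmt := by
  intro F _ P b h0 h1
  set cc := PowerSeries.constantCoeff (R := F) with hcc
  set r : PowerSeries F := PowerSeries.C b with hr
  have hcr : cc r = b := by simp [hcc, hr]
  set Q := taylor r P with hQ
  have ha0 : cc (Q.coeff 0) = 0 := by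
    rw [hQ, taylor_coeff_zero]
    rw [eval_map, ← hcr] at h0
    rw [← h0, eval₂_at_apply]
  have ha1 : cc (Q.coeff 1) ≠ 0 := by
    rw [hQ, taylor_coeff_one]
    rw [derivative_map, eval_map, ← hcr, eval₂_at_apply] at h1
    exact h1
  have hd : Q.natDegree ≠ 0 := by
    intro h
    have : Q.coeff 1 = 0 := coeff_eq_zero_of_natDegree_lt (by omega)
    rw [this, map_zero] at ha1
    exact ha1 rfl
  obtain ⟨k, hk⟩ : ∃ k, Q.natDegree = k + 1 := Nat.exists_eq_succ_of_ne_zero hd
  set a0 := Q.coeff 0 with ha0d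
  set S : (PowerSeries F)[X] :=
    ∑ i ∈ Finset.range (k + 1), C (Q.coeff (i + 1) * a0 ^ i) * X ^ (k - i) with hS
  have hSdeg : S.degree < ((k + 1 : ℕ) : WithBot ℕ) := by
    rw [← mem_degreeLT]
    refine Submodule.sum_mem _ fun i _ => ?_
    rw [mem_degreeLT]
    refine lt_of_le_of_lt (degree_C_mul_X_pow_le _ _) ?_
    exact_mod_cast (by omega : k - i < k + 1)
  have hmon : (X ^ (k + 1) + S).Monic := monic_X_pow_add hSdeg
  have hmap : (X ^ (k + 1) + S).map cc = X ^ k * (X + C (cc (Q.coeff 1))) := by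
    rw [Polynomial.map_add, Polynomial.map_pow, map_X, hS, Polynomial.map_sum, Finset.sum_eq_single 0]
    · simp
      ring
    · intro i _ hi
      rw [Polynomial.map_mul, map_C, map_mul, map_pow, ha0, zero_pow hi]
      simp
    · intro h
      exact absurd (Finset.mem_range.2 (Nat.succ_pos k)) h
  obtain ⟨W, hW, hWc⟩ := MP7fT.hensel_root (X ^ (k + 1) + S) hmon (-(cc (Q.coeff 1)))
    (by rw [hmap]; simp) (by
      rw [hmap, derivative_mul, eval_add, eval_mul, eval_mul]
      simp [ha1])
  have hWu : IsUnit W := by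
    rw [PowerSeries.isUnit_iff_constantCoeff, ← hcc, hWc]
    exact (neg_ne_zero.2 ha1).isUnit
  obtain ⟨u, hu⟩ := hWu
  set v : PowerSeries F := ↑(u⁻¹) with hv
  have hWv : W * v = 1 := by rw [← hu, hv]; exact u.mul_inv
  have key : Q.eval (a0 * v) = 0 := by
    have h2 : W ^ (k + 1) * Q.eval (a0 * v) = a0 * (X ^ (k + 1) + S).eval W := by
      rw [eval_eq_sum_range, hk, Finset.sum_range_succ', eval_add, hS, eval_finsetSum, mul_add,
        mul_add, Finset.mul_sum, Finset.mul_sum, add_comm]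
      refine congrArg₂ (· + ·) ?_ (Finset.sum_congr rfl fun i hi => ?_)
      · simp only [pow_zero, eval_pow, eval_X, mul_one]
        ring
      · have hi' : i < k + 1 := Finset.mem_range.1 hi
        have h3 : W ^ (k + 1) = W ^ (k - i) * W ^ (i + 1) := by
          rw [← pow_add]; congr 1; omega
        simp only [eval_mul, eval_C, eval_pow, eval_X]
        rw [h3]
        have h4 : W ^ (i + 1) * v ^ (i + 1) = 1 := by rw [← mul_pow, hWv, one_pow]
        calc W ^ (k - i) * W ^ (i + 1) * (Q.coeff (i + 1) * (a0 * v) ^ (i + 1))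
            = W ^ (k - i) * Q.coeff (i + 1) * a0 ^ (i + 1) * (W ^ (i + 1) * v ^ (i + 1)) := by ring
          _ = a0 * (Q.coeff (i + 1) * a0 ^ i * W ^ (k - i)) := by rw [h4]; ring
    rw [hW, mul_zero] at h2
    have h5 : v ^ (k + 1) * (W ^ (k + 1) * Q.eval (a0 * v)) = Q.eval (a0 * v) := by
      rw [← mul_assoc, ← mul_pow, mul_comm v W, hWv, one_pow, one_mul]
    rw [← h5, h2, mul_zero]
  refine ⟨a0 * v + r, ?_, ?_⟩
  · rw [hQ, taylor_eval] at key
    exact key
  · rw [map_add, map_mul, ha0, zero_mul, zero_add, hcr]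

end MP7Z.A3
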