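import Pool.Agent.Lib.MP_7f581e_Z.Alt3.Spec

/-!
# Small degrees, task HomA: the homomorphism defined by a system
-/

set_option autoImplicit false

namespace MP7Z.A3

open MP7Z

theorem tHomA : HomAStmt := by
  classical
  intro p n _ Ω _ _ x Q _ ψ k act ε j₀ y hfin sys E _ π T hmul hsgn huniq
  have hex : ∀ (γ : Gx p x) (j : Fin k), ∃ ρ : Equiv.Perm (Fin n),
      ∀ i, (γ : Ω ≃ₐ[ZMod p] Ω) (y j i) = y (act (ψ γ) j) (ρ i) := by
    intro γ j
    choose ρ hρ using sys.eqv γ j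
    have hinj : Function.Injective ρ := by
      intro i i' hii
      apply sys.inj j
      apply (γ : Ω ≃ₐ[ZMod p] Ω).injective
      rw [hρ, hρ, hii]
    exact ⟨Equiv.ofBijective ρ (Finite.injective_iff_bijective.1 hinj), hρ⟩
  choose P hP using hex
  have hPu : ∀ (γ : Gx p x) (j : Fin k) (ρ : Equiv.Perm (Fin n)),
      (∀ i, (γ : Ω ≃ₐ[ZMod p] Ω) (y j i) = y (act (ψ γ) j) (ρ i)) → P γ j = ρ := by
    intro γ j ρ h
    ext i
    rw [sys.inj _ ((hP γ j i).symm.trans (h i))]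
  have hPsgn : ∀ γ j, Equiv.Perm.sign (P γ j) = ε (ψ γ) j := fun γ j =>
    sys.sgn γ j (P γ j) (hP γ j)
  have hPmul : ∀ γ γ' j, P (γ * γ') j = P γ (act (ψ γ') j) * P γ' j := by
    intro γ γ' j
    apply hPu
    intro i
    change (γ : Ω ≃ₐ[ZMod p] Ω) ((γ' : Ω ≃ₐ[ZMod p] Ω) (y j i)) = _
    rw [hP γ' j i, hP γ _ _, map_mul, map_mul]
    rfl
  choose Ψ hΨ hΨu using fun γ => huniq (ψ γ) (P γ) (hPsgn γ)
  have hT1 : ∀ j, T 1 j = 1 := by
    intro j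
    have h1 := hmul 1 1 j
    rw [mul_one, map_one, map_one, Equiv.Perm.one_apply] at h1
    exact (mul_eq_left.1 h1.symm)
  have hΨmul : ∀ γ γ', Ψ (γ * γ') = Ψ γ * Ψ γ' := by
    intro γ γ'
    refine (hΨu (γ * γ') _ ⟨?_, ?_⟩).symm
    · rw [map_mul, map_mul, (hΨ γ).1, (hΨ γ').1]
    · funext j
      rw [hmul, hPmul, (hΨ γ').1, (hΨ γ).2, (hΨ γ').2]
  refine ⟨MonoidHom.mk' Ψ hΨmul, ?_, fun γ => (hΨ γ).1, ?_⟩
  · obtain ⟨S, hS⟩ := hfin
    refine ⟨S ∪ Finset.univ.image (fun ji : Fin k × Fin n => y ji.1 ji.2), fun γ hγ => ?_⟩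
    have h1 : ψ γ = 1 := hS γ fun s hs => hγ s (Finset.mem_union_left _ hs)
    have h2 : ∀ j, P γ j = 1 := by
      intro j
      apply hPu
      intro i
      rw [hγ (y j i) (Finset.mem_union_right _ (Finset.mem_image.2 ⟨(j, i), Finset.mem_univ _, rfl⟩)),
        h1, map_one]
      rfl
    refine (hΨu γ 1 ⟨?_, ?_⟩).symm
    · rw [map_one, h1]
    · funext j
      rw [hT1, h2]
  · intro γ j i
    rw [hP γ j i]
    change _ = y (act (ψ γ) j) (T (Ψ γ) j i)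
    rw [(hΨ γ).2]

end MP7Z.A3
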