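import Pool.Agent.Lib.MP_7f581e_Z.Alt3.Spec

/-!
# Small degrees, task NDisc: the discriminant in degree `p + 1`
-/

set_option autoImplicit false

namespace MP7Z.A3

open Polynomial MP7Z

namespace NDiscM

/-- The square of the Vandermonde product. -/
theorem vand {n : ℕ} {F : Type} [Field F] (y : Fin n → F) :
    ∏ i, ∏ l ∈ ({i}ᶜ : Finset (Fin n)), (y i - y l) =
      (∏ i : Fin n, ∏ _j ∈ Finset.Ioi i, (-1 : F)) *
        (∏ i, ∏ j ∈ Finset.Ioi i, (y j - y i)) ^ 2 := by
  rw [← Finset.prod_prod_Ioi_mul_eq_prod_prod_off_diag (fun j i => y i - y j),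
    ← Finset.prod_pow, ← Finset.prod_mul_distrib]
  refine Finset.prod_congr rfl fun i _ => ?_
  rw [← Finset.prod_pow, ← Finset.prod_mul_distrib]
  refine Finset.prod_congr rfl fun j _ => ?_
  ring

/-- The sign of the reversal of `2 m + 2` elements. -/
theorem sgn {F : Type} [Field F] (m : ℕ) :
    (∏ i : Fin (2 * m + 1 + 1), ∏ _j ∈ Finset.Ioi i, (-1 : F)) = - (-1) ^ m := by
  have h1 : (∏ i : Fin (2 * m + 1 + 1), ∏ _j ∈ Finset.Ioi i, (-1 : F)) =
      (-1) ^ (∑ i ∈ Finset.range (2 * m + 1 + 1), (2 * m + 1 + 1 - 1 - i)) := by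
    rw [← Finset.prod_pow_eq_pow_sum, ← Fin.prod_univ_eq_prod_range]
    refine Finset.prod_congr rfl fun i _ => ?_
    rw [Finset.prod_const, Fin.card_Ioi]
  rw [h1, Finset.sum_range_reflect (fun i => i)]
  have h2 := Finset.sum_range_id_mul_two (2 * m + 1 + 1)
  have h3 : ∑ i ∈ Finset.range (2 * m + 1 + 1), i = 2 * (m * (m + 1)) + (m + 1) := by
    have h4 : (2 * (m * (m + 1)) + (m + 1)) * 2 = (2 * m + 1 + 1) * (2 * m + 1 + 1 - 1) := by
      rw [Nat.add_sub_cancel]
      ring
    exact Nat.eq_of_mul_eq_mul_right two_pos (h2.trans h4.symm)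
  rw [h3, pow_add, pow_mul, neg_one_sq, one_pow, one_mul, pow_succ]
  ring

end NDiscM

theorem tNDisc (h0 : NSepStmt) : NDiscStmt := by
  intro p _ hp5 F _ _ κ y hP
  obtain ⟨h1, -, -⟩ := h0 p hp5
  obtain ⟨ψ, hψ⟩ : ∃ ψ, ψ = algebraMap (ZMod p) F := ⟨_, rfl⟩
  obtain ⟨α, hα⟩ : ∃ α, α = ψ (nal p) := ⟨_, rfl⟩
  have hα2 : α ^ 2 = 1 := by rw [hα, ← map_pow, h1, map_one]
  have hα0 : α ≠ 0 := by
    rintro rfl
    norm_num at hα2
  have hk : algebraMap (ZMod p) F (nal p + 2) = α + 2 := by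
    rw [map_add, map_ofNat, ← hψ, ← hα]
  rw [nf₀, ← hψ, ← hα] at hP
  rw [hk]
  have hpF : (p : F) = 0 := by
    have h2 : ((p : ZMod p) : ZMod p) = 0 := ZMod.natCast_self p
    have h3 := congrArg ψ h2
    rwa [map_natCast, map_zero] at h3
  obtain ⟨m, hm⟩ : ∃ m, p = 2 * m + 1 := by
    rcases (Fact.out : p.Prime).eq_two_or_odd' with h | ⟨m, h⟩
    · omega
    · exact ⟨m, h⟩
  have hev : Even (p + 1) := ⟨m + 1, by omega⟩
  have hneg : ∀ z : Fin (p + 1) → F, ∏ i, (-z i) = ∏ i, z i := by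
    intro z
    have h5 : ∀ i, -z i = (-1) * z i := fun i => by ring
    simp only [h5]
    rw [Finset.prod_mul_distrib, Finset.prod_const, Finset.card_univ, Fintype.card_fin,
      hev.neg_one_pow, one_mul]
  -- the values at `0`, `1`, `-1`
  have hev' : ∀ a : F, α * a ^ (p + 1) + a ^ 2 + 1 - κ * a = α * ∏ i, (y i - a) := by
    intro a
    have h2 := congrArg (eval a) hP
    rw [eval_mul, eval_prod, eval_C] at h2
    have h3 : ∏ i, eval a (X - C (y i)) = ∏ i, (y i - a) := by
      rw [← hneg]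
      refine Finset.prod_congr rfl fun i _ => ?_
      rw [eval_sub, eval_X, eval_C]
      ring
    rw [h3] at h2
    rw [← h2]
    simp
  have hA := hev' 0
  have hB := hev' 1
  have hC := hev' (-1)
  rw [zero_pow (by omega), zero_pow two_ne_zero] at hA
  rw [one_pow, one_pow] at hB
  rw [hev.neg_one_pow] at hC
  have hA' : ∏ i, y i = α := by
    have h3 : ∏ i, (y i - 0) = ∏ i, y i := Finset.prod_congr rfl fun i _ => sub_zero _
    rw [h3] at hA
    linear_combination (-(∏ i, y i)) * hα2 + (-α) * hA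
  have hB' : ∏ i, (y i - 1) = α * (α + 2 - κ) := by
    linear_combination (-(∏ i, (y i - 1))) * hα2 + (-α) * hB
  have hC' : ∏ i, (y i + 1) = α * (α + 2 + κ) := by
    have h3 : ∏ i, (y i - -1) = ∏ i, (y i + 1) := Finset.prod_congr rfl fun i _ => by ring
    rw [h3] at hC
    linear_combination (-(∏ i, (y i + 1))) * hα2 + (-α) * hC
  -- the derivative
  obtain ⟨P, hPd⟩ : ∃ P : F[X], P = C α * X ^ (p + 1) + X ^ 2 + 1 - C κ * X := ⟨_, rfl⟩
  rw [← hPd] at hP
  have hder : ∀ i, (derivative P).eval (y i) =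
      α * ∏ l ∈ ({i}ᶜ : Finset (Fin (p + 1))), (y i - y l) := by
    intro i
    have h1 : P = (X - C (y i)) * (C α * ∏ l ∈ ({i}ᶜ : Finset (Fin (p + 1))), (X - C (y l))) := by
      rw [hP, ← Finset.mul_prod_erase Finset.univ _ (Finset.mem_univ i)]
      have h2 : (Finset.univ.erase i : Finset (Fin (p + 1))) = {i}ᶜ := by
        ext l
        simp
      rw [h2]
      ring
    rw [h1, derivative_mul, eval_add]
    simp [eval_prod]
  have hroot : ∀ i, P.eval (y i) = 0 := by
    intro i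
    rw [hP, eval_mul, eval_prod, Finset.prod_eq_zero (Finset.mem_univ i) (by simp), mul_zero]
  have hkey : X * derivative P - P = X ^ 2 - 1 := by
    have h2 : ((p : F[X])) = 0 := by
      rw [← map_natCast (C : F →+* F[X]), hpF, map_zero]
    rw [hPd]
    simp only [derivative_sub, derivative_add, derivative_mul, derivative_C, derivative_X_pow,
      derivative_one, derivative_X, zero_mul, zero_add, mul_one, add_zero]
    rw [Nat.add_sub_cancel]
    push_cast
    rw [map_add, map_natCast, h2]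
    simp only [map_one, zero_add, map_ofNat]
    ring
  have hpt : ∀ i, y i * (α * ∏ l ∈ ({i}ᶜ : Finset (Fin (p + 1))), (y i - y l)) =
      (y i - 1) * (y i + 1) := by
    intro i
    have h1 := congrArg (Polynomial.eval (y i)) hkey
    rw [eval_sub, eval_mul, eval_X, hroot, sub_zero, hder] at h1
    rw [h1]
    simp
    ring
  have hall := Finset.prod_congr (rfl : (Finset.univ : Finset (Fin (p + 1))) = Finset.univ)
    (fun i _ => hpt i)
  rw [Finset.prod_mul_distrib, Finset.prod_mul_distrib, Finset.prod_mul_distrib,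
    Finset.prod_const, Finset.card_univ, Fintype.card_fin, NDiscM.vand, hA', hB', hC'] at hall
  have hαn : α ^ (p + 1) = 1 := by
    obtain ⟨r, hr⟩ := hev
    rw [hr, ← two_mul, pow_mul, hα2, one_pow]
  have hε : (∏ i : Fin (p + 1), ∏ _j ∈ Finset.Ioi i, (-1 : F)) = -α := by
    have h2 : α = (-1) ^ m := by
      rw [hα, nal, map_pow, map_neg, map_one]
      congr 1
      omega
    rw [h2]
    have h3 := NDiscM.sgn (F := F) m
    rw [← hm] at h3
    exact h3
  rw [hαn, hε] at hall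
  generalize (∏ i, ∏ j ∈ Finset.Ioi i, (y j - y i)) ^ 2 = Δ at *
  linear_combination (-1) * hall - (Δ + (α + 2) ^ 2 - κ ^ 2) * hα2

end MP7Z.A3
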