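import Pool.Agent.Lib.MP_7f581e_Z.Alt3.Spec

/-!
# Alternating groups of small degree: the generic group in degree `p + 1`
-/

set_option autoImplicit false

namespace MP7Z.A3

open Polynomial MP7Z

namespace NGenM

section field

variable {L N : Type} [Field L] [Field N] [Algebra L N]

theorem alg_mono {K₁ K₂ : IntermediateField L N}
    (h : K₁ ≤ K₂) (ha : Algebra.IsAlgebraic K₁ N) : Algebra.IsAlgebraic K₂ N := by
  let _ : Algebra K₁ K₂ := (IntermediateField.inclusion h).toRingHom.toAlgebra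
  have : IsScalarTower K₁ K₂ N := .of_algebraMap_eq (fun _ => rfl)
  exact Algebra.IsAlgebraic.tower_top (K := K₁) K₂

/-- The elements algebraic over `L(a)`. -/
noncomputable def cl (L : Type) {N : Type} [Field L] [Field N] [Algebra L N] (a : N) :
    IntermediateField L N :=
  (algebraicClosure (IntermediateField.adjoin L {a}) N).restrictScalars L

theorem mem_cl {a z : N} : z ∈ cl L a ↔ IsAlgebraic (IntermediateField.adjoin L {a}) z := by
  rw [cl, IntermediateField.mem_restrictScalars, mem_algebraicClosure_iff]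

theorem self_mem_cl (a : N) : a ∈ cl L a := by
  rw [mem_cl]
  exact isAlgebraic_algebraMap
    (⟨a, IntermediateField.mem_adjoin_simple_self L a⟩ : IntermediateField.adjoin L {a})

theorem mem_cl_of_alg {a z : N} (h : IsAlgebraic (cl L a) z) : z ∈ cl L a := by
  rw [mem_cl]
  have h' : IsAlgebraic (algebraicClosure (IntermediateField.adjoin L {a}) N) z := h
  exact h'.restrictScalars (IntermediateField.adjoin L {a})

theorem alg_of_cl {K : IntermediateField L N} {a : N} (h : K ≤ cl L a)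
    (halg : Algebra.IsAlgebraic K N) :
    Algebra.IsAlgebraic (IntermediateField.adjoin L {a}) N := by
  have h2 : Algebra.IsAlgebraic (cl L a) N := alg_mono h halg
  have h2' : Algebra.IsAlgebraic (algebraicClosure (IntermediateField.adjoin L {a}) N) N := h2
  exact Algebra.IsAlgebraic.trans (IntermediateField.adjoin L {a})
    (algebraicClosure (IntermediateField.adjoin L {a}) N) N

end field

/-- The Vandermonde product with permuted rows. -/
theorem vdm {n : ℕ} {N : Type} [Field N] (σ : N →+* N) (y : Fin n → N)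
    (ρ : Equiv.Perm (Fin n)) (h : ∀ i, σ (y i) = y (ρ i)) :
    σ (∏ i, ∏ j ∈ Finset.Ioi i, (y j - y i)) =
      ((Equiv.Perm.sign ρ : ℤˣ) : N) * ∏ i, ∏ j ∈ Finset.Ioi i, (y j - y i) := by
  have hv : Matrix.vandermonde (fun i => y (ρ i)) = (Matrix.vandermonde y).submatrix ρ id := rfl
  have h3 := Matrix.det_vandermonde (fun i => y (ρ i))
  rw [hv, Matrix.det_permute, Matrix.det_vandermonde] at h3
  rw [h3, map_prod]
  refine Finset.prod_congr rfl fun i _ => ?_
  rw [map_prod]
  refine Finset.prod_congr rfl fun j _ => ?_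
  rw [map_sub, h, h]

end NGenM

open NGenM

theorem tNGen (h0 : NSepStmt) (h1 : NDiscStmt) (h2 : NTrStmt) (h3 : RecStmt) : NGenStmt := by
  intro p _ hp2 hp5 L N _ _ _ _ _ _ _ _ u hu halg w g hw _ y hy hF a ha
  obtain ⟨-, hk0, hS⟩ := h0 p hp5
  have hw0 : w ≠ 0 := hw hp2
  set W : N := algebraMap L N w with hW
  have hW0 : W ≠ 0 := by
    rw [hW, Ne, map_eq_zero]
    exact hw0
  set d : N := W * u 0 with hd
  have hu0 : Transcendental L (u 0) := hu.transcendental 0
  have hWa : IsAlgebraic L (W⁻¹) := (isAlgebraic_algebraMap w).inv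
  have hud : u 0 = W⁻¹ * d := by
    rw [hd, ← mul_assoc, inv_mul_cancel₀ hW0, one_mul]
  have hdt : Transcendental L d := by
    intro h
    apply hu0
    rw [hud]
    exact hWa.mul h
  have h2N : (2 : N) ≠ 0 := by
    have : CharP N p := charP_of_injective_algebraMap' (ZMod p) p
    exact_mod_cast (CharP.cast_eq_zero_iff N p 2).not.2 fun h =>
      absurd (Nat.le_of_dvd (by norm_num) h) (by omega)
  have hd1 : 1 - d ^ 2 ≠ 0 := by
    intro h
    apply hdt
    have h5 : d ^ 2 = 1 := (sub_eq_zero.1 h).symm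
    refine IsAlgebraic.of_pow (n := 2) (by norm_num) ?_
    rw [h5]
    exact isAlgebraic_one
  set k : N := algebraMap (ZMod p) N (nal p + 2) with hk
  have hkN : k ≠ 0 := by
    rw [hk, Ne, map_eq_zero]
    exact hk0
  have hkL : k = algebraMap L N (algebraMap (ZMod p) L (nal p + 2)) :=
    IsScalarTower.algebraMap_apply (ZMod p) L N _
  have hka : IsAlgebraic L k := by
    rw [hkL]
    exact isAlgebraic_algebraMap _
  set κ : N := k * (1 + d ^ 2) / (1 - d ^ 2) with hκ
  obtain ⟨hS1, hS2⟩ := hS N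
  obtain ⟨hnf, hsq⟩ := hS2 d κ hd1 hκ
  have hkk : κ + k = 2 * k / (1 - d ^ 2) := by
    rw [hκ]
    field_simp
    ring
  have hkk0 : κ + k ≠ 0 := by
    rw [hkk]
    exact div_ne_zero (mul_ne_zero h2N hkN) hd1
  have hdk : d ^ 2 = (κ - k) * (κ + k)⁻¹ := by
    rw [eq_mul_inv_iff_mul_eq₀ hkk0, hκ]
    field_simp
    ring
  have hκt : Transcendental L κ := by
    intro h
    apply hdt
    refine IsAlgebraic.of_pow (n := 2) (by norm_num) ?_
    rw [hdk]
    exact (h.sub hka).mul (h.add hka).inv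
  have hkcl : k ∈ cl L κ := by
    rw [hkL]
    exact IntermediateField.algebraMap_mem _ _
  have hdcl : d ∈ cl L κ := by
    have h5 : d ^ 2 ∈ cl L κ := by
      rw [hdk]
      exact mul_mem (sub_mem (self_mem_cl κ) hkcl) (inv_mem (add_mem (self_mem_cl κ) hkcl))
    apply mem_cl_of_alg
    refine IsAlgebraic.of_pow (n := 2) (by norm_num) ?_
    exact isAlgebraic_algebraMap (⟨d ^ 2, h5⟩ : cl L κ)
  have hle : IntermediateField.adjoin L (Set.range u) ≤ cl L κ := by
    rw [IntermediateField.adjoin_le_iff]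
    rintro _ ⟨i, rfl⟩
    have h5 : i = 0 := Subsingleton.elim _ _
    rw [h5, hud]
    refine mul_mem (inv_mem ?_) hdcl
    rw [hW]
    exact IntermediateField.algebraMap_mem _ _
  have halgκ := alg_of_cl hle halg
  have hf : nf₀ p N - C κ * X = C (algebraMap (ZMod p) N (nal p)) * ∏ i, (X - C (y i)) := by
    have h5 : nf p d = C (algebraMap (ZMod p) N (nal p) * (1 - d ^ 2)) * ∏ i, (X - C (y i)) := hF
    rw [hnf, C_mul] at h5
    apply mul_left_cancel₀ (C_ne_zero.2 hd1)
    rw [h5]
    ring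
  obtain ⟨hT1, ρ, hρ, hsw⟩ := h2 p hp5 L N κ hκt halgκ y hy hf
  have hle' := h3 (p + 1) (PermGrp L {κ} y) hT1 ⟨ρ, hρ, Or.inl hsw⟩
  obtain ⟨σ, hσκ, hσy⟩ := hle' ha
  have hσκ' : σ κ = κ := hσκ κ (Set.mem_singleton _)
  have hσk : σ k = k := by
    rw [hkL]
    exact σ.commutes _
  have hdisc := h1 p hp5 N κ y hf
  set Δ : N := ∏ i, ∏ j ∈ Finset.Ioi i, (y j - y i) with hΔ
  have hσΔ : σ Δ = Δ := by
    have h5 := vdm (σ : N →+* N) y a hσy
    rw [Equiv.Perm.mem_alternatingGroup.1 ha, Units.val_one, Int.cast_one, one_mul] at h5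
    exact h5
  set e : N := algebraMap (ZMod p) N (2 * (nal p + 2)) * d / (1 - d ^ 2) with he
  have hek : e = d * (κ + k) := by
    rw [he, hkk, map_mul, map_ofNat]
    ring
  have hΔe : Δ = e ∨ Δ = -e := by
    rw [← sq_eq_sq_iff_eq_or_eq_neg, hdisc, hsq]
  have hσe : σ e = e := by
    rcases hΔe with h5 | h5
    · rw [← h5, hσΔ]
    · have h6 : e = -Δ := by rw [h5, neg_neg]
      rw [h6, map_neg, hσΔ]
  have hσd : σ d = d := by
    rw [hek, map_mul, map_add, hσκ', hσk] at hσe
    exact mul_right_cancel₀ hkk0 hσe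
  refine ⟨σ, fun i => ?_, hσy⟩
  have h5 : i = 0 := Subsingleton.elim _ _
  rw [h5]
  apply mul_left_cancel₀ hW0
  have h6 : σ W = W := σ.commutes _
  rw [hd, map_mul, h6] at hσd
  exact hσd

end MP7Z.A3
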