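import Pool.Agent.Lib.MP_7f581e_Z.Alt3.Spec
import Pool.Agent.Lib.MP_7f581e_Z.Alt.Lab

/-!
# Labelled roots of the family of degree `p + 1`
-/

set_option autoImplicit false

namespace MP7Z.A3

open Polynomial MP7Z

theorem NLab_natCast_ne {p : ℕ} [Fact p.Prime] (Ω : Type) [Field Ω] [Algebra (ZMod p) Ω] (a : ℕ)
    (h0 : 0 < a) (h1 : a < p) : (a : ZMod p) ≠ 0 := by
  intro h
  rw [ZMod.natCast_eq_zero_iff] at h
  exact absurd (Nat.le_of_dvd h0 h) (not_le.2 h1)

theorem NLab_k0 {p : ℕ} [Fact p.Prime] (h5 : 5 ≤ p) : (2 : ZMod p) ≠ 0 ∧ nal p + 2 ≠ 0 := by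
  have h1 : (1 : ZMod p) ≠ 0 := one_ne_zero
  have h2 : ((2 : ℕ) : ZMod p) ≠ 0 := by
    intro h
    rw [ZMod.natCast_eq_zero_iff] at h
    exact absurd (Nat.le_of_dvd (by norm_num) h) (by omega)
  have h3 : ((3 : ℕ) : ZMod p) ≠ 0 := by
    intro h
    rw [ZMod.natCast_eq_zero_iff] at h
    exact absurd (Nat.le_of_dvd (by norm_num) h) (by omega)
  push_cast at h2 h3
  refine ⟨h2, ?_⟩
  rcases neg_one_pow_eq_or (ZMod p) ((p - 1) / 2) with h | h
  · rw [nal, h]
    intro h4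
    apply h3
    linear_combination h4
  · rw [nal, h]
    intro h4
    apply h1
    linear_combination h4

theorem tNLab (h0 : NSepStmt) (h00 : NDiscStmt) (h1 : SgnStmt) : NLabStmt := by
  intro p _ hp2 hp5
  obtain ⟨h20, hk0⟩ := NLab_k0 hp5
  have hne : ∀ (F : Type) [Field F] [Algebra (ZMod p) F] (a : ZMod p), a ≠ 0 →
      algebraMap (ZMod p) F a ≠ 0 := by
    intro F _ _ a ha h
    exact ha ((algebraMap (ZMod p) F).injective (by rw [h, map_zero]))
  have hal : ∀ (F : Type) [Field F] [Algebra (ZMod p) F],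
      algebraMap (ZMod p) F (nal p) ≠ 0 := by
    intro F _ _
    refine hne F _ ?_
    rw [nal]
    exact pow_ne_zero _ (neg_ne_zero.2 one_ne_zero)
  have h2F : ∀ (F : Type) [Field F] [Algebra (ZMod p) F], (2 : F) ≠ 0 := by
    intro F _ _
    have := hne F 2 h20
    rwa [map_ofNat] at this
  refine ⟨?_, ?_, ?_⟩
  · intro Ω _ _ _ w g u hℓ hD
    have hD' : w * u 0 ≠ 0 := hD
    have hℓ' : algebraMap (ZMod p) Ω (nal p) * (1 - (w * u 0) ^ 2) ≠ 0 := hℓ
    have he : 1 - (w * u 0) ^ 2 ≠ 0 := right_ne_zero_of_mul hℓ'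
    obtain ⟨-, -, hall⟩ := h0 p hp5
    obtain ⟨hA, hB⟩ := hall Ω
    obtain ⟨κ, hκ⟩ : ∃ κ : Ω, κ = algebraMap (ZMod p) Ω (nal p + 2) * (1 + (w * u 0) ^ 2) /
      (1 - (w * u 0) ^ 2) := ⟨_, rfl⟩
    obtain ⟨hnf, hsq⟩ := hB (w * u 0) κ he hκ
    obtain ⟨hdeg, hlc, hsep, -, -⟩ := hA κ
    have hr : algebraMap (ZMod p) Ω (2 * (nal p + 2)) * (w * u 0) / (1 - (w * u 0) ^ 2) ≠ 0 :=
      div_ne_zero (mul_ne_zero (hne Ω _ (mul_ne_zero h20 hk0)) hD') he
    have hs := hsep (by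
      intro h
      rw [h, sub_self] at hsq
      exact pow_ne_zero 2 hr hsq.symm)
    obtain ⟨y, hy, hf⟩ := LabM.exists_roots _ (p + 1) hs hdeg
    rw [hlc] at hf
    have hΔ := h00 p hp5 Ω κ y hf
    rw [hsq] at hΔ
    have hF : nf p (w * u 0) = C (algebraMap (ZMod p) Ω (nal p) * (1 - (w * u 0) ^ 2)) *
        ∏ i, (X - C (y i)) := by
      rw [hnf, hf, C_mul]
      ring
    rcases sq_eq_sq_iff_eq_or_eq_neg.1 hΔ with h | h
    · refine ⟨y, hy, hF, ?_⟩
      change (∏ i, ∏ j ∈ Finset.Ioi i, (y j - y i)) * (1 - (w * u 0) ^ 2) = _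
      rw [h, div_mul_cancel₀ _ he]
    · set a : Fin (p + 1) := ⟨0, by omega⟩ with ha
      set b : Fin (p + 1) := ⟨1, by omega⟩ with hb
      have hab : a ≠ b := by
        intro hh
        have := congrArg Fin.val hh
        simp [ha, hb] at this
      refine ⟨fun i => y (Equiv.swap a b i), hy.comp (Equiv.swap a b).injective, ?_, ?_⟩
      · change nf p (w * u 0) = _
        rw [hF]
        congr 1
        exact (Equiv.prod_comp (Equiv.swap a b) (fun i => (X - C (y i) : Polynomial Ω))).symm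
      · change (∏ i, ∏ j ∈ Finset.Ioi i, (y (Equiv.swap a b j) - y (Equiv.swap a b i))) *
          (1 - (w * u 0) ^ 2) = _
        rw [LabM.vd_swap y a b hab, h, neg_neg, div_mul_cancel₀ _ he]
  · intro Ω _ _ σ w w' g u u' ε y y' ρ hℓ _ hw _ hu hy hy' hρ
    have hℓ' : algebraMap (ZMod p) Ω (nal p) * (1 - (w' * u' 0) ^ 2) ≠ 0 := hℓ
    have he' : 1 - (w' * u' 0) ^ 2 ≠ 0 := right_ne_zero_of_mul hℓ'
    have hσd : σ (w * u 0) = ((ε : ℤ) : Ω) * (w' * u' 0) := by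
      rw [map_mul, hw, hu, tw, if_neg hp2, mul_assoc]
    have hσ2 : σ ((w * u 0) ^ 2) = (w' * u' 0) ^ 2 := by
      rw [map_pow, hσd, mul_pow]
      rcases Int.units_eq_one_or ε with h | h <;> rw [h] <;> simp
    have he : 1 - (w * u 0) ^ 2 ≠ 0 := by
      intro h
      apply he'
      rw [← hσ2, ← map_one σ, ← map_sub, h, map_zero]
    have hL : (∏ i, ∏ j ∈ Finset.Ioi i, (y j - y i)) * (1 - (w * u 0) ^ 2) =
        algebraMap (ZMod p) Ω (2 * (nal p + 2)) * (w * u 0) := hy.2.2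
    have hL' : (∏ i, ∏ j ∈ Finset.Ioi i, (y' j - y' i)) * (1 - (w' * u' 0) ^ 2) =
        algebraMap (ZMod p) Ω (2 * (nal p + 2)) * (w' * u' 0) := hy'.2.2
    refine h1 (p + 1) Ω (h2F Ω) σ y y' ρ ε
      (algebraMap (ZMod p) Ω (2 * (nal p + 2)) * (w * u 0) / (1 - (w * u 0) ^ 2))
      (algebraMap (ZMod p) Ω (2 * (nal p + 2)) * (w' * u' 0) / (1 - (w' * u' 0) ^ 2)) hρ hy'.1
      (eq_div_of_mul_eq he hL) (eq_div_of_mul_eq he' hL') ?_
    have hσa : σ (algebraMap (ZMod p) Ω (2 * (nal p + 2))) =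
        algebraMap (ZMod p) Ω (2 * (nal p + 2)) := by
      have h : (σ : Ω →+* Ω).comp (algebraMap (ZMod p) Ω) = algebraMap (ZMod p) Ω :=
        Subsingleton.elim _ _
      exact congrArg (fun f => f (2 * (nal p + 2))) h
    rw [map_div₀, map_mul, hσa, hσd, map_sub, map_one, hσ2]
    ring
  · intro L N _ _ _ _ _ _ u hu w g hw _
    have hw0 : algebraMap L N w ≠ 0 := fun h => hw hp2 ((algebraMap L N).injective (by
      rw [h, map_zero]))
    refine ⟨?_, ?_⟩
    · change algebraMap (ZMod p) N (nal p) * (1 - (algebraMap L N w * u 0) ^ 2) ≠ 0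
      refine mul_ne_zero (hal N) ?_
      intro h
      have htr : Transcendental L (u 0) := hu.transcendental 0
      apply htr
      refine ⟨1 - C (w ^ 2) * X ^ 2, ?_, ?_⟩
      · intro h2
        have h3 := congrArg (fun q => Polynomial.coeff q 0) h2
        simp at h3
      · simp only [map_sub, map_one, map_mul, map_pow, aeval_X, aeval_C]
        rw [← mul_pow]
        exact h
    · change algebraMap L N w * u 0 ≠ 0
      exact mul_ne_zero hw0 (hu.ne_zero 0)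

end MP7Z.A3
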