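import Pool.Agent.Lib.MP_7f581e_Z.Alt3.Spec

/-!
# Degree `p + 1`: inertia of sign `1` has order dividing `p`
-/

set_option autoImplicit false

namespace MP7Z.A3

open Polynomial MP7Z

namespace NLocM

theorem pow_dvd_of_card {k : Type*} [Field k] {n : ℕ} (y : Fin n → k) (a : k)
    (T : Finset (Fin n)) (hT : ∀ i ∈ T, y i = a) (b : k[X]) :
    (X - C a) ^ T.card ∣ b * ∏ i, (X - C (y i)) := by
  have h1 : (X - C a) ^ T.card = ∏ i ∈ T, (X - C (y i)) := by
    rw [← Finset.prod_const]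
    exact Finset.prod_congr rfl fun i hi => by rw [hT i hi]
  rw [h1]
  exact (Finset.prod_dvd_prod_of_subset _ _ _ (Finset.subset_univ T)).mul_left b

/-- Permutations which move only indices with the same value. -/
theorem perm_eq_one {k : Type*} [Field k] {n : ℕ} (y : Fin n → k) (s : k) (b F : k[X])
    (hF : F = b * ∏ i, (X - C (y i))) (h2 : ∀ r : k, (X - C r) ^ 2 ∣ F → r = s)
    (h3 : ¬ (X - C s) ^ 3 ∣ F) (ρ : Equiv.Perm (Fin n)) (hρ : ∀ i, y (ρ i) = y i)
    (hs : Equiv.Perm.sign ρ = 1) : ρ = 1 := by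
  have hmv : ∀ i, ρ i ≠ i → y i = s := by
    intro i hi
    apply h2
    rw [hF]
    have h := pow_dvd_of_card y (y i) {i, ρ i} (by
      intro j hj
      rw [Finset.mem_insert, Finset.mem_singleton] at hj
      rcases hj with rfl | rfl
      · rfl
      · exact hρ i) b
    rwa [Finset.card_pair hi.symm] at h
  have hcard : ρ.support.card ≤ 2 := by
    by_contra hcon
    apply h3
    refine (pow_dvd_pow _ (by omega : 3 ≤ ρ.support.card)).trans ?_
    rw [hF]
    exact pow_dvd_of_card y s _ (fun i hi => hmv i (Equiv.Perm.mem_support.1 hi)) b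
  rcases Nat.lt_or_ge ρ.support.card 2 with h | h
  · exact Equiv.Perm.card_support_le_one.1 (by omega)
  · have h4 : ρ.support.card = 2 := le_antisymm hcard h
    have h5 := (Equiv.Perm.card_support_eq_two.1 h4).sign_eq
    rw [hs] at h5
    exact absurd h5 (by decide)

/-- A sequence in a valued field whose differences are constant modulo the maximal ideal. -/
theorem tele {p : ℕ} [Fact p.Prime] {Ω : Type} [Field Ω] [Algebra (ZMod p) Ω]
    (V : ValuationSubring Ω) (g : ℕ → Ω)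
    (h : ∀ k, V.valuation ((g (k + 1 + 1) - g (k + 1)) - (g (k + 1) - g k)) < 1) :
    V.valuation (g p - g 0) < 1 := by
  have h1 : ∀ k, V.valuation ((g (k + 1) - g k) - (g 1 - g 0)) < 1 := by
    intro k
    induction k with
    | zero =>
      rw [zero_add, sub_self, map_zero]
      exact zero_lt_one
    | succ k ih =>
      have h2 : (g (k + 1 + 1) - g (k + 1)) - (g 1 - g 0) =
          ((g (k + 1 + 1) - g (k + 1)) - (g (k + 1) - g k)) +
            ((g (k + 1) - g k) - (g 1 - g 0)) := by ring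
      rw [h2]
      exact Valuation.map_add_lt _ (h k) ih
  have h3 : g p - g 0 = ∑ k ∈ Finset.range p, ((g (k + 1) - g k) - (g 1 - g 0)) := by
    have hp0 : (p : Ω) = 0 := by
      rw [← map_natCast (algebraMap (ZMod p) Ω) p, ZMod.natCast_self, map_zero]
    rw [Finset.sum_sub_distrib, Finset.sum_range_sub, Finset.sum_const, Finset.card_range,
      nsmul_eq_mul, hp0, zero_mul, sub_zero]
  rw [h3]
  refine Valuation.map_sum_lt' _ zero_lt_one (fun k _ => h1 k)

/-- The value of a nonzero element of the prime field. -/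
theorem val_alg {p : ℕ} [Fact p.Prime] {Ω : Type} [Field Ω] [Algebra (ZMod p) Ω]
    (V : ValuationSubring Ω) (c : ZMod p) (hc : c ≠ 0) :
    V.valuation (algebraMap (ZMod p) Ω c) = 1 := by
  have h1 : algebraMap (ZMod p) Ω c ^ (p - 1) = 1 := by
    rw [← map_pow, ZMod.pow_card_sub_one_eq_one hc, map_one]
  have h2 : V.valuation (algebraMap (ZMod p) Ω c) ^ (p - 1) = 1 := by
    rw [← map_pow, h1, map_one]
  have hp : p - 1 ≠ 0 := by
    have := (Fact.out : p.Prime).two_le
    omega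
  exact (pow_eq_one_iff_of_nonneg zero_le hp).1 h2

/-- The good case. -/
theorem good (h0 : ResStmt) (h1 : NSepStmt) (p : ℕ) [Fact p.Prime] (hp5 : 5 ≤ p) (Ω : Type)
    [Field Ω] [Algebra (ZMod p) Ω] (x : Ω) (hst : IsStage p x) (V : ValuationSubring Ω)
    (hV : V ≠ ⊤) (d : Ω) (hd : d ∈ V) (hval : V.valuation (1 - d ^ 2) = 1)
    (y : Fin (p + 1) → Ω)
    (hf : nf p d = C (algebraMap (ZMod p) Ω (nal p) * (1 - d ^ 2)) * ∏ i, (X - C (y i)))
    (δ : Ω ≃ₐ[ZMod p] Ω) (hδI : δ ∈ Inert p V) (ρ : Equiv.Perm (Fin (p + 1)))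
    (hρ : ∀ i, δ (y i) = y (ρ i)) (hs : Equiv.Perm.sign ρ = 1) : ρ = 1 := by
  obtain ⟨hc, -, -, hδ⟩ := h0 p Ω x hst V hV
  obtain ⟨hal, hk0, hN⟩ := h1 p hp5
  have hal0 : nal p ≠ 0 := by
    intro h
    rw [h] at hal
    simp at hal
  have hz : ∀ c : ZMod p, algebraMap (ZMod p) Ω c ∈ V := fun c =>
    hc _ ((Cst p Ω).algebraMap_mem c)
  let φ : ZMod p →+* V := (algebraMap (ZMod p) Ω).codRestrict V.toSubring hz
  let : Algebra (ZMod p) V := φ.toAlgebra
  obtain ⟨d', hd'⟩ : ∃ e' : V, (e' : Ω) = d := ⟨⟨d, hd⟩, rfl⟩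
  have hinjV : Function.Injective (algebraMap V Ω) := Subtype.val_injective
  have hfV : (nf p d').map (algebraMap V Ω) = nf p d := by
    rw [map_nf]
    have h1 : algebraMap V Ω d' = d := hd'
    rw [h1]
  have hlV : algebraMap V Ω (algebraMap (ZMod p) V (nal p) * (1 - d' ^ 2)) =
      algebraMap (ZMod p) Ω (nal p) * (1 - d ^ 2) := by
    have h1 : algebraMap V Ω d' = d := hd'
    have h2 : algebraMap V Ω (algebraMap (ZMod p) V (nal p)) =
      algebraMap (ZMod p) Ω (nal p) := rfl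
    rw [map_mul, map_sub, map_one, map_pow, h1, h2]
  have hu : IsUnit (algebraMap (ZMod p) V (nal p) * (1 - d' ^ 2)) := by
    rw [V.valuation_eq_one_iff]
    have h2 : ((algebraMap (ZMod p) V (nal p) * (1 - d' ^ 2) : V) : Ω) =
      algebraMap (ZMod p) Ω (nal p) * (1 - d ^ 2) := hlV
    rw [h2, map_mul, val_alg V _ hal0, hval, one_mul]
  obtain ⟨u, hu'⟩ := hu
  have hyV : ∀ i, y i ∈ V := by
    intro i
    have hg : (C (↑(u⁻¹) : V) * nf p d').map (algebraMap V Ω) = ∏ i, (X - C (y i)) := by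
      rw [Polynomial.map_mul, hfV, hf, map_C, ← mul_assoc, ← C_mul, ← hlV, ← map_mul, ← hu',
        Units.inv_mul, map_one, C_1, one_mul]
    have hm : (C (↑(u⁻¹) : V) * nf p d').Monic := by
      apply Polynomial.monic_of_injective hinjV
      rw [hg]
      exact monic_prod_of_monic _ _ fun i _ => monic_X_sub_C _
    have hint : IsIntegral V (y i) := by
      refine ⟨_, hm, ?_⟩
      rw [← eval_map, hg, eval_prod]
      exact Finset.prod_eq_zero (Finset.mem_univ i) (by simp)
    obtain ⟨z, hz⟩ := (IsIntegrallyClosed.isIntegral_iff (R := V) (K := Ω)).1 hint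
    rw [← hz]
    exact z.2
  have hf2 : nf p d' = C (algebraMap (ZMod p) V (nal p) * (1 - d' ^ 2)) *
      ∏ i, (X - C (⟨y i, hyV i⟩ : V)) := by
    apply Polynomial.map_injective _ hinjV
    rw [hfV, hf, Polynomial.map_mul, map_C, hlV, Polynomial.map_prod]
    congr 1
    apply Finset.prod_congr rfl
    intro i _
    rw [Polynomial.map_sub, map_X, map_C]
    rfl
  have hf3 : nf p (IsLocalRing.residue V d') =
      C (IsLocalRing.residue V (algebraMap (ZMod p) V (nal p) * (1 - d' ^ 2))) *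
        ∏ i, (X - C (IsLocalRing.residue V ⟨y i, hyV i⟩)) := by
    rw [← map_nf, hf2, Polynomial.map_mul, map_C, Polynomial.map_prod]
    congr 1
    apply Finset.prod_congr rfl
    intro i _
    rw [Polynomial.map_sub, map_X, map_C]
  have hd0 : 1 - IsLocalRing.residue V d' ^ 2 ≠ 0 := by
    rw [← map_pow, ← map_one (IsLocalRing.residue V), ← map_sub, Ne,
      IsLocalRing.residue_eq_zero_iff, V.valuation_lt_one_iff]
    have h1 : ((1 - d' ^ 2 : V) : Ω) = 1 - d ^ 2 := by
      rw [← hd']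
      rfl
    rw [h1, hval]
    exact lt_irrefl _
  obtain ⟨hN1, hN2⟩ := hN (IsLocalRing.ResidueField V)
  obtain ⟨hN3, -⟩ := hN2 (IsLocalRing.residue V d') _ hd0 rfl
  obtain ⟨-, -, -, hN4, hN5⟩ := hN1 (algebraMap (ZMod p) (IsLocalRing.ResidueField V) (nal p + 2) *
    (1 + IsLocalRing.residue V d' ^ 2) / (1 - IsLocalRing.residue V d' ^ 2))
  have hk0' : algebraMap (ZMod p) (IsLocalRing.ResidueField V) (nal p + 2) ≠ 0 := by
    rw [Ne, map_eq_zero]
    exact hk0
  have hCu : IsUnit (C (1 - IsLocalRing.residue V d' ^ 2) :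
      (IsLocalRing.ResidueField V)[X]) := Polynomial.isUnit_C.2 (isUnit_iff_ne_zero.2 hd0)
  refine perm_eq_one (fun i => IsLocalRing.residue V ⟨y i, hyV i⟩)
    ((algebraMap (ZMod p) (IsLocalRing.ResidueField V) (nal p + 2) *
    (1 + IsLocalRing.residue V d' ^ 2) / (1 - IsLocalRing.residue V d' ^ 2)) /
      algebraMap (ZMod p) (IsLocalRing.ResidueField V) (nal p + 2)) _ _ hf3 ?_ ?_ ρ
    (fun i => ?_) hs
  · intro r hr
    rw [hN3, hCu.dvd_mul_left] at hr
    obtain ⟨-, h2⟩ := hN4 r hr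
    rw [h2, mul_div_cancel_left₀ _ hk0']
  · intro hr
    rw [hN3, hCu.dvd_mul_left] at hr
    exact hN5 _ hr
  · obtain ⟨hδ1, hδ2⟩ := hδI
    have h4 := hδ 1 δ hδ2 (fun c hc => by rw [pow_one]; exact hδ1 c hc) (y i) (hyV i)
    rw [pow_one, hρ i] at h4
    rw [← sub_eq_zero]
    change IsLocalRing.residue V ⟨y (ρ i), hyV (ρ i)⟩ - IsLocalRing.residue V ⟨y i, hyV i⟩ = 0
    rw [← map_sub, IsLocalRing.residue_eq_zero_iff, V.valuation_lt_one_iff]
    exact h4

/-- The bad case. -/
theorem bad (h0 : ResStmt) (p : ℕ) [Fact p.Prime] (hp5 : 5 ≤ p) (Ω : Type)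
    [Field Ω] [Algebra (ZMod p) Ω] (x : Ω) (hst : IsStage p x) (V : ValuationSubring Ω)
    (hV : V ≠ ⊤) (κ : Ω) (hκ : κ ∉ V) (hal : nal p ^ 2 = 1)
    (y : Fin (p + 1) → Ω) (hinj : Function.Injective y)
    (hroot : ∀ i, algebraMap (ZMod p) Ω (nal p) * y i ^ (p + 1) + y i ^ 2 + 1 = κ * y i)
    (δ : Ω ≃ₐ[ZMod p] Ω) (hδ : δ ∈ Inert p V) (ρ : Equiv.Perm (Fin (p + 1)))
    (hρ : ∀ i, δ (y i) = y (ρ i)) : ρ ^ p = 1 := by
  obtain ⟨hc, -, -, hRes⟩ := h0 p Ω x hst V hV
  have hal0 : nal p ≠ 0 := by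
    intro h
    rw [h] at hal
    simp at hal
  have hαV : algebraMap (ZMod p) Ω (nal p) ∈ V := hc _ ((Cst p Ω).algebraMap_mem _)
  have hα1 : V.valuation (algebraMap (ZMod p) Ω (nal p)) = 1 := val_alg V _ hal0
  have : CharP Ω p := charP_of_injective_algebraMap (algebraMap (ZMod p) Ω).injective p
  have hp1 : 1 ≤ p - 1 := by omega
  -- at most one root in `V`
  have hone : ∀ i j, y i ∈ V → y j ∈ V → i = j := by
    intro i j hi hj
    by_contra hij
    have hne : y i - y j ≠ 0 := sub_ne_zero.2 (fun h => hij (hinj h))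
    obtain ⟨c, hc⟩ := sub_dvd_pow_sub_pow (⟨y i, hi⟩ : V) ⟨y j, hj⟩ (p + 1)
    have hc' : y i ^ (p + 1) - y j ^ (p + 1) = (y i - y j) * (c : Ω) := by
      have h1 := congrArg (algebraMap V Ω) hc
      rw [map_sub, map_pow, map_pow, map_mul, map_sub] at h1
      exact h1
    have h2 : κ = algebraMap (ZMod p) Ω (nal p) * c + (y i + y j) := by
      apply mul_right_cancel₀ hne
      have e1 := hroot i
      have e2 := hroot j
      linear_combination e2 - e1 + algebraMap (ZMod p) Ω (nal p) * hc'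
    apply hκ
    rw [h2]
    exact V.add_mem _ _ (V.mul_mem _ _ hαV c.2) (V.add_mem _ _ hi hj)
  -- roots outside `V`
  have hunit : ∀ i j, y i ∉ V → y j ∉ V → i ≠ j → V.valuation (y i - y j) = 1 := by
    intro i j hi hj hij
    have hne : y i - y j ≠ 0 := sub_ne_zero.2 (fun h => hij (hinj h))
    have hi0 : y i ≠ 0 := by
      intro h
      rw [h] at hi
      exact hi V.zero_mem
    have hj0 : y j ≠ 0 := by
      intro h
      rw [h] at hj
      exact hj V.zero_mem
    have e1 := hroot i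
    have e2 := hroot j
    have hfr : (y i - y j) ^ p = y i ^ p - y j ^ p := sub_pow_char _ _
    have hpp : (y i - y j) ^ p = (y i - y j) * (y i - y j) ^ (p - 1) := by
      rw [← pow_succ']
      congr 1
      omega
    have h3 : algebraMap (ZMod p) Ω (nal p) * (y i - y j) ^ (p - 1) =
        -(1 - (y i)⁻¹ * (y j)⁻¹) := by
      apply mul_left_cancel₀ (mul_ne_zero (mul_ne_zero hi0 hj0) hne)
      have h4 : (y i * y j * (y i - y j)) *
          (algebraMap (ZMod p) Ω (nal p) * (y i - y j) ^ (p - 1)) =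
          algebraMap (ZMod p) Ω (nal p) * (y i * y j) * (y i ^ p - y j ^ p) := by
        rw [← hfr, hpp]
        ring
      have h5 : (y i * y j * (y i - y j)) * -(1 - (y i)⁻¹ * (y j)⁻¹) =
          -(y i * y j * (y i - y j)) + (y i - y j) := by
        have h6 : y i * (y i)⁻¹ = 1 := mul_inv_cancel₀ hi0
        have h7 : y j * (y j)⁻¹ = 1 := mul_inv_cancel₀ hj0
        linear_combination (y i - y j) * (y j * (y j)⁻¹) * h6 + (y i - y j) * h7
      rw [h4, h5]
      rw [pow_succ] at e1 e2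
      linear_combination y j * e1 - y i * e2
    have hvi : V.valuation (y i)⁻¹ < 1 := by
      rw [map_inv₀]
      have h6 : 1 < V.valuation (y i) := by
        rw [← not_le, V.valuation_le_one_iff]
        exact hi
      exact inv_lt_one_of_one_lt₀ h6
    have hvj : V.valuation (y j)⁻¹ < 1 := by
      rw [map_inv₀]
      have h6 : 1 < V.valuation (y j) := by
        rw [← not_le, V.valuation_le_one_iff]
        exact hj
      exact inv_lt_one_of_one_lt₀ h6
    have hvij : V.valuation ((y i)⁻¹ * (y j)⁻¹) < 1 := by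
      rw [map_mul]
      exact mul_lt_one_of_lt_of_le hvi hvj.le
    have h7 : V.valuation (1 - (y i)⁻¹ * (y j)⁻¹) = 1 := by
      rw [Valuation.map_sub_eq_of_lt_left _ (by rwa [map_one]), map_one]
    have h8 := congrArg V.valuation h3
    rw [map_mul, hα1, one_mul, Valuation.map_neg, h7, map_pow] at h8
    exact (pow_eq_one_iff_of_nonneg zero_le (by omega)).1 h8
  have hδV : ∀ f, δ f ∈ V ↔ f ∈ V := hδ.2
  have hmod : ∀ u ∈ V, V.valuation (δ u - u) < 1 := by
    intro u hu
    have h3 := hRes 1 δ hδ.2 (fun c hc => by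
      rw [pow_one]
      exact hδ.1 c hc) u hu
    rwa [pow_one] at h3
  have hmem : ∀ i, y (ρ i) ∈ V ↔ y i ∈ V := by
    intro i
    rw [← hρ i]
    exact hδV (y i)
  have hmemp : ∀ (k : ℕ) (i : Fin (p + 1)), y ((ρ ^ k) i) ∈ V ↔ y i ∈ V := by
    intro k i
    induction k with
    | zero => rfl
    | succ k ih =>
      rw [pow_succ', Equiv.Perm.mul_apply, hmem]
      exact ih
  refine Equiv.ext fun i => ?_
  rw [Equiv.Perm.one_apply]
  by_cases hi : y i ∈ V
  · exact hone _ _ ((hmemp p i).2 hi) hi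
  · by_contra hne
    have hin : ∀ k, y ((ρ ^ k) i) ∉ V := fun k h => hi ((hmemp k i).mp h)
    have hg := tele (p := p) V (fun k => y ((ρ ^ k) i)) (fun k => by
      have hk1 : δ (y ((ρ ^ (k + 1)) i) - y ((ρ ^ k) i)) =
          y ((ρ ^ (k + 1 + 1)) i) - y ((ρ ^ (k + 1)) i) := by
        rw [map_sub, hρ, hρ, pow_succ' ρ (k + 1), Equiv.Perm.mul_apply, pow_succ' ρ k,
          Equiv.Perm.mul_apply]
      have hk2 : y ((ρ ^ (k + 1)) i) - y ((ρ ^ k) i) ∈ V := by
        by_cases h4 : (ρ ^ (k + 1)) i = (ρ ^ k) i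
        · rw [h4, sub_self]
          exact V.zero_mem
        · rw [← V.valuation_le_one_iff]
          exact (hunit _ _ (hin _) (hin _) h4).le
      have h5 := hmod _ hk2
      rw [hk1] at h5
      exact h5)
    have h6 := hunit _ _ (hin p) hi hne
    beta_reduce at hg
    rw [pow_zero, Equiv.Perm.one_apply, h6] at hg
    exact lt_irrefl _ hg

end NLocM

open NLocM in
theorem tNLoc (h0 : ResStmt) (h1 : NSepStmt) : NLocStmt := by
  intro p _ h2 hp5 Ω _ _ x hst V hV w g u y hw hg hu hℓ hD hL δ hδ hδw hδg hδu ρ hρ hs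
  obtain ⟨hal, hk0, hN⟩ := h1 p hp5
  have hal0 : nal p ≠ 0 := by
    intro h
    rw [h] at hal
    simp at hal
  obtain ⟨hinj, hf, -⟩ := hL
  have hf' : nf p (w * u 0) = C (algebraMap (ZMod p) Ω (nal p) * (1 - (w * u 0) ^ 2)) *
    ∏ i, (X - C (y i)) := hf
  have hℓ' : algebraMap (ZMod p) Ω (nal p) * (1 - (w * u 0) ^ 2) ≠ 0 := hℓ
  have hd : w * u 0 ∈ V := V.mul_mem _ _ hw (hu 0)
  generalize w * u 0 = d at hf' hℓ' hd
  have he0 : 1 - d ^ 2 ≠ 0 := right_ne_zero_of_mul hℓ'
  have heV : 1 - d ^ 2 ∈ V := V.sub_mem V.one_mem (V.pow_mem hd 2)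
  rcases ((V.valuation_le_one_iff _).2 heV).eq_or_lt with hval | hval
  · rw [good h0 h1 p hp5 Ω x hst V hV d hd hval y hf' δ hδ ρ hρ hs, one_pow]
  · obtain ⟨-, hN2⟩ := hN Ω
    obtain ⟨hN3, -⟩ := hN2 d _ he0 rfl
    set κ := algebraMap (ZMod p) Ω (nal p + 2) * (1 + d ^ 2) / (1 - d ^ 2) with hκdef
    have hf4 : nf₀ p Ω - C κ * X = C (algebraMap (ZMod p) Ω (nal p)) * ∏ i, (X - C (y i)) := by
      apply mul_left_cancel₀ (C_ne_zero.2 he0)
      rw [← hN3, hf', ← mul_assoc, ← C_mul, mul_comm (1 - d ^ 2)]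
    have hroot : ∀ i, algebraMap (ZMod p) Ω (nal p) * y i ^ (p + 1) + y i ^ 2 + 1 =
        κ * y i := by
      intro i
      have h3 := congrArg (eval (y i)) hf4
      rw [eval_mul, eval_prod, Finset.prod_eq_zero (Finset.mem_univ i)
        (by rw [eval_sub, eval_X, eval_C, sub_self]), mul_zero, nf₀] at h3
      simp only [eval_sub, eval_add, eval_mul, eval_C, eval_pow, eval_X, eval_one] at h3
      linear_combination h3
    have hκV : κ ∉ V := by
      intro hκ
      have h2' : V.valuation ((2 : Ω) - (1 - d ^ 2)) = 1 := by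
        have h20 : (2 : ZMod p) ≠ 0 := by
          intro h
          have h3 : ((2 : ℕ) : ZMod p) = 0 := by exact_mod_cast h
          rw [ZMod.natCast_eq_zero_iff] at h3
          have := Nat.le_of_dvd (by norm_num) h3
          omega
        have h3 : V.valuation (2 : Ω) = 1 := by
          have h4 := val_alg V (2 : ZMod p) h20
          rwa [map_ofNat] at h4
        rw [Valuation.map_sub_eq_of_lt_left _ (by rwa [h3]), h3]
      have h5 : κ * (1 - d ^ 2) = algebraMap (ZMod p) Ω (nal p + 2) * (2 - (1 - d ^ 2)) := by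
        rw [hκdef, div_mul_cancel₀ _ he0]
        ring
      have h6 := congrArg V.valuation h5
      rw [map_mul, map_mul, h2', val_alg V _ hk0, mul_one] at h6
      have h7 : V.valuation κ * V.valuation (1 - d ^ 2) < 1 :=
        mul_lt_one_of_nonneg_of_lt_one_right ((V.valuation_le_one_iff _).2 hκ) zero_le hval
      rw [h6] at h7
      exact lt_irrefl _ h7
    exact bad h0 p hp5 Ω x hst V hV κ hκV hal y hinj hroot δ hδ ρ hρ

end MP7Z.A3
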