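import Pool.Agent.Lib.MP_7f581e_Z.Alt3.Spec

/-! # The polynomial `f_κ = α X^(p+1) + X^2 + 1 - κ X` -/

set_option autoImplicit false

namespace MP7Z.A3

open Polynomial MP7Z

namespace NSepP

theorem nal_sq (p : ℕ) : nal p ^ 2 = 1 := by
  rw [nal, ← pow_mul, mul_comm, pow_mul, neg_one_sq, one_pow]

theorem nal_cases (p : ℕ) : nal p = 1 ∨ nal p = -1 := neg_one_pow_eq_or _ _

theorem two_three (p : ℕ) [Fact p.Prime] (hp : 5 ≤ p) : (3 : ZMod p) ≠ 0 := by
  intro h
  have h1 : ((3 : ℕ) : ZMod p) = 0 := by exact_mod_cast h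
  rw [ZMod.natCast_eq_zero_iff] at h1
  have := Nat.le_of_dvd (by norm_num) h1
  omega

theorem two_ne (p : ℕ) [Fact p.Prime] (hp : 5 ≤ p) : (2 : ZMod p) ≠ 0 := by
  intro h
  have h1 : ((2 : ℕ) : ZMod p) = 0 := by exact_mod_cast h
  rw [ZMod.natCast_eq_zero_iff] at h1
  have := Nat.le_of_dvd (by norm_num) h1
  omega

theorem k0_ne (p : ℕ) [Fact p.Prime] (hp : 5 ≤ p) : nal p + 2 ≠ 0 := by
  rcases nal_cases p with h | h
  · rw [h]
    have := two_three p hp
    intro h1
    apply this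
    linear_combination h1
  · rw [h]
    intro h1
    have h2 : (1 : ZMod p) = 0 := by linear_combination h1
    exact one_ne_zero h2

variable {p : ℕ} [Fact p.Prime] {F : Type} [Field F] [Algebra (ZMod p) F]

theorem p_zero (p : ℕ) [Fact p.Prime] (F : Type) [Field F] [Algebra (ZMod p) F] :
    (p : F) = 0 := by
  have h : CharP F p := charP_of_injective_algebraMap (algebraMap (ZMod p) F).injective p
  exact CharP.cast_eq_zero F p

theorem key (κ : F) : X * derivative (nf₀ p F - C κ * X) - (nf₀ p F - C κ * X) =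
    (X ^ 2 - 1 : F[X]) := by
  have hp0 : (C (p : F) : F[X]) = 0 := by rw [p_zero p F, C_0]
  have hd : derivative (nf₀ p F - C κ * X) =
      C (algebraMap (ZMod p) F (nal p)) * X ^ p + 2 * X - C κ := by
    rw [nf₀, derivative_sub, derivative_add, derivative_add, derivative_C_mul, derivative_C_mul,
      derivative_X_pow, derivative_X_pow, derivative_one, derivative_X, Nat.add_sub_cancel]
    push_cast
    rw [C_add, hp0, C_1]
    have h2 : (C (2 : F) : F[X]) = 2 := rfl
    rw [h2]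
    ring
  rw [hd, nf₀]
  ring

omit [Algebra (ZMod p) F] in
theorem even_pow (hp : 5 ≤ p) {r : F} (hr : r ^ 2 = 1) : r ^ (p + 1) = 1 := by
  have hodd : Odd p := (Fact.out : p.Prime).odd_of_ne_two (by omega)
  obtain ⟨k, hk⟩ := hodd
  have h1 : p + 1 = 2 * (k + 1) := by omega
  rw [h1, pow_mul, hr, one_pow]

theorem eval_f (κ r : F) : (nf₀ p F - C κ * X).eval r =
    algebraMap (ZMod p) F (nal p) * r ^ (p + 1) + r ^ 2 + 1 - κ * r := by
  simp [nf₀]

theorem a_ne : algebraMap (ZMod p) F (nal p) ≠ 0 := by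
  intro h
  have h1 : algebraMap (ZMod p) F (nal p ^ 2) = 1 := by rw [nal_sq, map_one]
  rw [map_pow, h] at h1
  simp at h1

theorem deg (hp : 5 ≤ p) (κ : F) : (nf₀ p F - C κ * X).natDegree = p + 1 ∧
    (nf₀ p F - C κ * X).leadingCoeff = algebraMap (ZMod p) F (nal p) := by
  have h0 : (nf₀ p F - C κ * X : F[X]) =
      C (algebraMap (ZMod p) F (nal p)) * X ^ (p + 1) + (X ^ 2 + 1 - C κ * X) := by
    rw [nf₀]; ring
  have h1 : (X ^ 2 + 1 - C κ * X : F[X]).natDegree ≤ 2 := by compute_degree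
  have h2 : (C (algebraMap (ZMod p) F (nal p)) * X ^ (p + 1) : F[X]).natDegree = p + 1 :=
    natDegree_C_mul_X_pow _ _ a_ne
  have h3 : (nf₀ p F - C κ * X).natDegree = p + 1 := by
    rw [h0, natDegree_add_eq_left_of_natDegree_lt (by rw [h2]; omega), h2]
  refine ⟨h3, ?_⟩
  rw [leadingCoeff, h3, h0, coeff_add, coeff_C_mul, coeff_X_pow_self, mul_one,
    coeff_eq_zero_of_natDegree_lt (by omega), add_zero]

theorem dbl (hp : 5 ≤ p) (κ r : F) (h : (X - C r) ^ 2 ∣ nf₀ p F - C κ * X) :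
    r ^ 2 = 1 ∧ κ = algebraMap (ZMod p) F (nal p + 2) * r := by
  obtain ⟨q, hq⟩ := h
  have e1 : (nf₀ p F - C κ * X).eval r = 0 := by
    rw [hq]; simp
  have e2 : (derivative (nf₀ p F - C κ * X)).eval r = 0 := by
    rw [hq]
    simp [derivative_mul, derivative_pow]
  have e3 := congrArg (eval r) (key (p := p) κ)
  rw [eval_sub, eval_mul, e2, e1] at e3
  simp only [mul_zero, sub_zero, eval_sub, eval_pow, eval_X, eval_one] at e3
  have hr : r ^ 2 = 1 := by linear_combination -e3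
  refine ⟨hr, ?_⟩
  rw [eval_f, even_pow hp hr, hr] at e1
  rw [map_add, map_ofNat]
  linear_combination (-r) * e1 + (-κ) * hr

theorem trp (hp : 5 ≤ p) (κ r : F) : ¬ (X - C r) ^ 3 ∣ nf₀ p F - C κ * X := by
  intro h
  have h2 : (X - C r) ^ 2 ∣ nf₀ p F - C κ * X := (pow_dvd_pow _ (by norm_num)).trans h
  obtain ⟨hr, -⟩ := dbl hp κ r h2
  have h3 : (X - C r) ^ 2 ∣ derivative (nf₀ p F - C κ * X) := by
    obtain ⟨q, hq⟩ := h
    refine ⟨3 * q + (X - C r) * derivative q, ?_⟩
    rw [hq, derivative_mul, derivative_X_sub_C_pow]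
    push_cast
    have h2 : (C (3 : F) : F[X]) = 3 := rfl
    rw [h2]
    ring
  have h4 : (X - C r) ^ 2 ∣ (X ^ 2 - 1 : F[X]) := by
    rw [← key (p := p) κ]
    exact dvd_sub (h3.mul_left _) h2
  obtain ⟨q, hq⟩ := h4
  have h5 := congrArg (fun P : F[X] => (derivative P).eval r) hq
  simp [derivative_mul, derivative_pow] at h5
  have h6 : (2 : F) ≠ 0 := by
    intro h
    apply two_ne p hp
    apply (algebraMap (ZMod p) F).injective
    rw [map_ofNat, map_zero, h]
  rcases h5 with h5 | h5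
  · exact h6 h5
  · rw [h5] at hr
    simp at hr

theorem sep (hp : 5 ≤ p) (κ : F) (h : κ ^ 2 ≠ algebraMap (ZMod p) F (nal p + 2) ^ 2) :
    (nf₀ p F - C κ * X).Separable := by
  have c1 : IsCoprime (nf₀ p F - C κ * X) (X - C (1 : F)) := by
    rw [isCoprime_comm, (irreducible_X_sub_C (1 : F)).coprime_iff_not_dvd, dvd_iff_isRoot, IsRoot,
      eval_f, even_pow hp (one_pow 2)]
    intro h1
    apply h
    rw [map_add, map_ofNat]
    have h2 : κ = algebraMap (ZMod p) F (nal p) + 2 := by linear_combination -h1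
    rw [h2]
  have c2 : IsCoprime (nf₀ p F - C κ * X) (X - C (-1 : F)) := by
    rw [isCoprime_comm, (irreducible_X_sub_C (-1 : F)).coprime_iff_not_dvd, dvd_iff_isRoot, IsRoot,
      eval_f, even_pow hp (by norm_num)]
    intro h1
    apply h
    rw [map_add, map_ofNat]
    have h2 : κ = -(algebraMap (ZMod p) F (nal p) + 2) := by linear_combination h1
    rw [h2]
    ring
  have h4 : IsCoprime (nf₀ p F - C κ * X)
      (X * derivative (nf₀ p F - C κ * X) - (nf₀ p F - C κ * X)) := by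
    rw [key]
    have h5 : (X ^ 2 - 1 : F[X]) = (X - C 1) * (X - C (-1)) := by
      simp only [map_one, map_neg]; ring
    rw [h5]
    exact c1.mul_right c2
  have h5 : X * derivative (nf₀ p F - C κ * X) - (nf₀ p F - C κ * X) =
      X * derivative (nf₀ p F - C κ * X) + (nf₀ p F - C κ * X) * (-1) := by ring
  rw [h5] at h4
  exact (h4.of_add_mul_left_right).of_mul_right_right

end NSepP

open NSepP

theorem tNSep : NSepStmt := by
  intro p _ hp
  refine ⟨nal_sq p, k0_ne p hp, ?_⟩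
  intro F _ _
  refine ⟨fun κ => ⟨(deg hp κ).1, (deg hp κ).2, sep hp κ, dbl hp κ, trp hp κ⟩, ?_⟩
  intro d κ hd hκ
  have h1 : (1 - d ^ 2) * κ = algebraMap (ZMod p) F (nal p + 2) * (1 + d ^ 2) := by
    rw [hκ]; field_simp
  constructor
  · rw [nf, ← h1, map_mul]
    ring
  · rw [hκ, map_mul, map_ofNat]
    field_simp
    ring

end MP7Z.A3
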