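import Pool.Agent.Lib.MP_7f581e_Z.Alt3.Spec

/-!
# `MP_7f581e_nt`: the generic group in degree `p + 1` is `2`-transitive with a transposition
-/

set_option autoImplicit false

namespace MP7Z.A3.NTrM

open Polynomial MP7Z MP7Z.A3

section general

variable {L N : Type} [Field L] [Field N] [Algebra L N]

theorem alg_mono {K₁ K₂ : IntermediateField L N}
    (h : K₁ ≤ K₂) (ha : Algebra.IsAlgebraic K₁ N) : Algebra.IsAlgebraic K₂ N := by
  let _ : Algebra K₁ K₂ := (IntermediateField.inclusion h).toRingHom.toAlgebra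
  have : IsScalarTower K₁ K₂ N := .of_algebraMap_eq (fun _ => rfl)
  exact Algebra.IsAlgebraic.tower_top (K := K₁) K₂

/-- A polynomial for which every factorization has a constant factor is irreducible. -/
theorem irr_of {K : Type} [Field K] {P : K[X]} (h0 : P.natDegree ≠ 0)
    (h : ∀ a b : K[X], P = a * b → a.natDegree ≤ 0 ∨ b.natDegree ≤ 0) : Irreducible P := by
  have hP : P ≠ 0 := by
    intro h1
    rw [h1, natDegree_zero] at h0
    exact h0 rfl
  refine ⟨fun hu => h0 (natDegree_eq_zero_of_isUnit hu), fun {a b} hab => ?_⟩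
  have ha : a ≠ 0 := by
    rintro rfl
    exact hP (by rw [hab, zero_mul])
  have hb : b ≠ 0 := by
    rintro rfl
    exact hP (by rw [hab, mul_zero])
  have hu : ∀ c : K[X], c ≠ 0 → c.natDegree ≤ 0 → IsUnit c := by
    intro c hc hd
    have h1 : c.natDegree = 0 := Nat.le_zero.1 hd
    have h2 := eq_C_of_natDegree_eq_zero h1
    rw [h2]
    refine isUnit_C.2 (IsUnit.mk0 _ ?_)
    intro h3
    rw [h3, C_0] at h2
    exact hc h2
  rcases h a b hab with h1 | h1
  · exact Or.inl (hu a ha h1)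
  · exact Or.inr (hu b hb h1)

end general

section fam

variable {p : ℕ} [Fact p.Prime] {L N : Type} [Field L] [Field N]
    [Algebra (ZMod p) L] [Algebra (ZMod p) N] [Algebra L N] [IsScalarTower (ZMod p) L N]

theorem eval_nf₀ (a : N) : (nf₀ p N).eval a =
    algebraMap (ZMod p) N (nal p) * a ^ (p + 1) + a ^ 2 + 1 := by
  simp [nf₀]

theorem aeval_nf₀ (a : N) : aeval a (nf₀ p L) =
    algebraMap (ZMod p) N (nal p) * a ^ (p + 1) + a ^ 2 + 1 := by
  rw [nf₀, map_add, map_add, map_mul, aeval_C, map_pow, map_pow, aeval_X, map_one,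
    ← IsScalarTower.algebraMap_apply]

theorem map_nf₀ : (nf₀ p L).map (algebraMap L N) = nf₀ p N := by
  rw [nf₀, nf₀, Polynomial.map_add, Polynomial.map_add, Polynomial.map_mul, Polynomial.map_pow,
    Polynomial.map_pow, map_X, map_C, Polynomial.map_one, ← IsScalarTower.algebraMap_apply]

variable (κ : N)

/-- The equation of a root. -/
def Rt (p : ℕ) [Fact p.Prime] {N : Type} [Field N] [Algebra (ZMod p) N] (κ a : N) : Prop :=
  algebraMap (ZMod p) N (nal p) * a ^ (p + 1) + a ^ 2 + 1 = κ * a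

theorem rt_iff {κ a : N} : Rt p κ a ↔ (nf₀ p N - C κ * X).eval a = 0 := by
  rw [Rt, eval_sub, eval_mul, eval_C, eval_X, eval_nf₀, sub_eq_zero]

theorem rt_ne {κ a : N} (h : Rt p κ a) : a ≠ 0 := by
  rintro rfl
  rw [Rt, zero_pow (Nat.succ_ne_zero p), zero_pow two_ne_zero, mul_zero, mul_zero, add_zero,
    zero_add] at h
  exact one_ne_zero h

theorem kap_mem {κ a : N} (h : Rt p κ a) (K : IntermediateField L N) (ha : a ∈ K) : κ ∈ K := by
  have h0 := rt_ne h
  have h1 : κ = (algebraMap (ZMod p) N (nal p) * a ^ (p + 1) + a ^ 2 + 1) / a := by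
    rw [h, mul_div_cancel_right₀ _ h0]
  rw [h1, IsScalarTower.algebraMap_apply (ZMod p) L N]
  exact div_mem (add_mem (add_mem (mul_mem (K.algebraMap_mem _) (pow_mem ha _)) (pow_mem ha _))
    (one_mem K)) ha

theorem tr {κ a : N} (hκ : Transcendental L κ) (h : Rt p κ a) : Transcendental L a := by
  intro h1
  have h2 : a ∈ algebraicClosure L N := mem_algebraicClosure_iff.2 h1
  exact hκ (mem_algebraicClosure_iff.1 (kap_mem h _ h2))

/-- Transitivity. -/
theorem trans (h0 : AutLinStmt) [IsAlgClosed N] {κ : N} (hκ : Transcendental L κ)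
    (halg : Algebra.IsAlgebraic (IntermediateField.adjoin L {κ}) N) {a b : N} (ha : Rt p κ a)
    (hb : Rt p κ b) : ∃ σ : N ≃ₐ[L] N, σ κ = κ ∧ σ a = b := by
  have ha' : algebraMap (ZMod p) N (nal p) * a ^ (p + 1) + a ^ 2 + 1 = κ * a := ha
  have hb' : algebraMap (ZMod p) N (nal p) * b ^ (p + 1) + b ^ 2 + 1 = κ * b := hb
  refine h0 L N κ hκ halg (-X) (nf₀ p L) ?_ a b ?_ ?_
  · refine ⟨C (algebraMap (ZMod p) L (nal p)) * X ^ p + X, 1, ?_⟩
    rw [nf₀]
    ring
  · rw [aeval_nf₀, map_neg, aeval_X]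
    linear_combination ha'
  · rw [aeval_nf₀, map_neg, aeval_X]
    linear_combination hb'

/-- The polynomial of *Newt*. -/
noncomputable def qp (p : ℕ) (α : L) : L[X][X] :=
  C (C α * X) * X ^ p + (C (C α * X ^ 2) * X ^ (p - 1) + C X * X + C (X ^ 2 - 1))

omit [Fact p.Prime] [Algebra (ZMod p) L] in
theorem qp_low (hp : 5 ≤ p) (α : L) :
    (C (C α * X ^ 2) * X ^ (p - 1) + C X * X + C (X ^ 2 - 1) : L[X][X]).degree < p := by
  refine lt_of_le_of_lt (degree_add_le _ _) (max_lt (lt_of_le_of_lt (degree_add_le _ _)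
    (max_lt ?_ ?_)) ?_)
  · refine lt_of_le_of_lt (degree_C_mul_X_pow_le _ _) ?_
    exact_mod_cast (by omega : p - 1 < p)
  · refine lt_of_le_of_lt (degree_C_mul_X_le _) ?_
    exact_mod_cast (by omega : 1 < p)
  · refine lt_of_le_of_lt degree_C_le ?_
    exact_mod_cast (by omega : 0 < p)

omit [Fact p.Prime] [Algebra (ZMod p) L] in
theorem qp_deg (hp : 5 ≤ p) {α : L} (hα : α ≠ 0) :
    (qp p α).natDegree = p ∧ (qp p α).leadingCoeff = C α * X := by
  have h1 : (C α * X : L[X]) ≠ 0 := mul_ne_zero (C_ne_zero.2 hα) X_ne_zero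
  have h2 : (C (C α * X) * X ^ p : L[X][X]).degree = p := degree_C_mul_X_pow _ h1
  have h3 : (C (C α * X ^ 2) * X ^ (p - 1) + C X * X + C (X ^ 2 - 1) : L[X][X]).degree <
      (C (C α * X) * X ^ p : L[X][X]).degree := by
    rw [h2]
    exact qp_low hp α
  constructor
  · rw [qp]
    refine natDegree_eq_of_degree_eq_some ?_
    rw [degree_add_eq_left_of_degree_lt h3, h2]
  · rw [qp, leadingCoeff_add_of_degree_lt' h3, leadingCoeff_mul, leadingCoeff_X_pow, mul_one,
      leadingCoeff_C]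

omit [Fact p.Prime] [Algebra (ZMod p) L] in
theorem qp_prim (hp : 5 ≤ p) {α : L} (hα : α ^ 2 = 1) : (qp p α).IsPrimitive := by
  have hα0 : α ≠ 0 := by
    rintro rfl
    rw [zero_pow two_ne_zero] at hα
    exact zero_ne_one hα
  intro r hr
  rw [C_dvd_iff_dvd_coeff] at hr
  have h1 := hr p
  have h2 := hr 0
  have h3 : (qp p α).coeff p = C α * X := by
    rw [← (qp_deg hp hα0).2, leadingCoeff, (qp_deg hp hα0).1]
  have h4 : (qp p α).coeff 0 = X ^ 2 - 1 := by
    rw [coeff_zero_eq_eval_zero, qp]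
    simp only [eval_add, eval_mul, eval_pow, eval_X, eval_C]
    rw [zero_pow (by omega : p ≠ 0), zero_pow (by omega : p - 1 ≠ 0)]
    ring
  rw [h3] at h1
  rw [h4] at h2
  have hc : IsCoprime (C α * X : L[X]) (X ^ 2 - 1) := ⟨C α * X, -1, by
    have h5 : (C α : L[X]) ^ 2 = 1 := by rw [← C_pow, hα, C_1]
    linear_combination X ^ 2 * h5⟩
  exact hc.isUnit_of_dvd' h1 h2

omit [Fact p.Prime] [Algebra (ZMod p) L] in
theorem qp_coeff (_hp : 5 ≤ p) (α : L) (i : ℕ) (hi : 0 < i) : ((qp p α).coeff i).coeff 0 = 0 := by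
  have h1 : (qp p α).map (evalRingHom 0) = C (-1 : L) := by
    rw [qp]
    simp only [Polynomial.map_add, Polynomial.map_mul, Polynomial.map_pow, map_X, map_C,
      coe_evalRingHom, eval_mul, eval_pow, eval_X, eval_C, eval_sub, eval_one]
    rw [mul_zero, C_0, zero_mul, zero_add, zero_pow two_ne_zero, mul_zero, C_0, zero_mul, zero_mul,
      zero_add, zero_add, zero_sub]
  rw [coeff_zero_eq_eval_zero]
  have h2 := congrArg (fun f => coeff f i) h1
  simp only [coeff_map, coe_evalRingHom, coeff_C] at h2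
  rw [h2, if_neg hi.ne']

/-- The stabilizer of a root is transitive on the other roots. -/
theorem stab (h1 : NewtStmt) (h2 : ConjStmt) (h4 : NSepStmt) (hp : 5 ≤ p) [IsAlgClosed N] {κ : N}
    (hκ : Transcendental L κ) (halg : Algebra.IsAlgebraic (IntermediateField.adjoin L {κ}) N)
    {a b c : N} (ha : Rt p κ a) (hb : Rt p κ b) (hc : Rt p κ c) (hba : b ≠ a) (hca : c ≠ a) :
    ∃ σ : N ≃ₐ[L] N, σ κ = κ ∧ σ a = a ∧ σ b = c := by
  have htr := tr (L := L) hκ ha
  obtain ⟨hα, -, -⟩ := h4 p hp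
  set α : L := algebraMap (ZMod p) L (nal p) with hαd
  have hα2 : α ^ 2 = 1 := by rw [hαd, ← map_pow, hα, map_one]
  have hα0 : α ≠ 0 := by
    intro h
    rw [h, zero_pow two_ne_zero] at hα2
    exact zero_ne_one hα2
  have haK : a ∈ IntermediateField.adjoin L {a} := IntermediateField.mem_adjoin_simple_self L a
  have hκK : κ ∈ IntermediateField.adjoin L {a} := kap_mem ha _ haK
  have halgK : Algebra.IsAlgebraic (IntermediateField.adjoin L {a}) N := by
    refine alg_mono ?_ halg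
    rw [IntermediateField.adjoin_simple_le_iff]
    exact hκK
  set K := IntermediateField.adjoin L {a} with hK
  set φ : L[X] →+* K := (aeval (IntermediateField.AdjoinSimple.gen L a) : L[X] →ₐ[L] K).toRingHom
    with hφ
  have hφX : ∀ g : L[X], algebraMap K N (φ g) = aeval a g := by
    intro g
    have h5 := aeval_algebraMap_apply N (IntermediateField.AdjoinSimple.gen L a) g
    rw [IntermediateField.AdjoinSimple.algebraMap_gen] at h5
    exact h5.symm
  have hφi : Function.Injective φ := by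
    intro g g' h5
    have h6 : aeval a g = aeval a g' := by rw [← hφX, ← hφX, h5]
    exact (transcendental_iff_injective.1 htr) h6
  have hN := h1 L N a htr (qp p α) 0 (qp_prim hp hα2) (fun i hi => qp_coeff hp α i hi) (by
    rw [(qp_deg hp hα0).2, coeff_C_mul, coeff_X_one, mul_one]
    exact hα0)
  have hirr : Irreducible ((qp p α).map φ) := by
    refine irr_of ?_ (fun q₁ q₂ h => hN q₁ q₂ h)
    rw [natDegree_map_eq_of_injective hφi, (qp_deg hp hα0).1]
    omega
  have hchar : CharP N p := charP_of_injective_algebraMap (algebraMap (ZMod p) N).injective p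
  have ha' : algebraMap (ZMod p) N (nal p) * a ^ (p + 1) + a ^ 2 + 1 = κ * a := ha
  have hev : ∀ h : N, aeval h ((qp p α).map φ) = algebraMap (ZMod p) N (nal p) * a * h ^ p +
      (algebraMap (ZMod p) N (nal p) * a ^ 2 * h ^ (p - 1) + a * h + (a ^ 2 - 1)) := by
    intro h
    rw [aeval_def, eval₂_eq_eval_map, Polynomial.map_map, qp]
    simp only [Polynomial.map_add, Polynomial.map_mul, Polynomial.map_pow, Polynomial.map_sub,
      Polynomial.map_one, eval_sub, eval_one, map_X, map_C,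
      eval_add, eval_mul, eval_pow, eval_X, eval_C, RingHom.comp_apply, hφX, map_mul,
      map_pow, map_sub, aeval_X, aeval_C, map_one]
    rw [hαd, ← IsScalarTower.algebraMap_apply]
  have hroot : ∀ b : N, b ≠ a → Rt p κ b → aeval (b - a) ((qp p α).map φ) = 0 := by
    intro b hba hb
    have hb' : algebraMap (ZMod p) N (nal p) * b ^ (p + 1) + b ^ 2 + 1 = κ * b := hb
    rw [hev]
    have h5 : b - a ≠ 0 := sub_ne_zero.2 hba
    refine (mul_eq_zero.1 ?_).resolve_left h5
    have h6 : (b - a) ^ p = b ^ p - a ^ p := sub_pow_char b a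
    have h7 : (b - a) * (b - a) ^ (p - 1) = (b - a) ^ p := by
      rw [← pow_succ', Nat.sub_add_cancel (by omega)]
    linear_combination algebraMap (ZMod p) N (nal p) * a ^ 2 * h7 +
      algebraMap (ZMod p) N (nal p) * a * b * h6 + a * hb' - b * ha'
  obtain ⟨σ, hσ⟩ := h2 K N ((qp p α).map φ) hirr (b - a) (c - a) (hroot b hba hb) (hroot c hca hc)
  have hT : IsScalarTower L K N := .of_algebraMap_eq fun _ => rfl
  have hσa : σ a = a := σ.commutes ⟨a, haK⟩
  refine ⟨σ.restrictScalars L, σ.commutes ⟨κ, hκK⟩, hσa, ?_⟩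
  show σ b = c
  rw [map_sub, hσa] at hσ
  exact sub_left_injective hσ

/-- The double root. -/
theorem dbl (h4 : NSepStmt) (hp : 5 ≤ p) (L : Type) [Field L] [Algebra (ZMod p) L]
    [IsAlgClosed L] : ∃ q : L[X],
      nf₀ p L + C (algebraMap (ZMod p) L (nal p + 2)) * (-X) = (X - C 1) ^ 2 * q ∧
      q.Separable ∧ q.eval 1 ≠ 0 := by
  obtain ⟨-, hk, hF⟩ := h4 p hp
  obtain ⟨hF1, -⟩ := hF L
  set k : L := algebraMap (ZMod p) L (nal p + 2) with hkd
  have hk0 : k ≠ 0 := by
    rw [hkd, Ne, map_eq_zero]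
    exact hk
  obtain ⟨-, -, -, hm2, hm3⟩ := hF1 k
  set f : L[X] := nf₀ p L - C k * X with hf
  have hfe : nf₀ p L + C k * (-X) = f := by
    rw [hf]
    ring
  have hchar : CharP L p := charP_of_injective_algebraMap (algebraMap (ZMod p) L).injective p
  have hk1 : k = algebraMap (ZMod p) L (nal p) + 2 := by
    rw [hkd, map_add, map_ofNat]
  have h1 : f.eval 1 = 0 := by
    rw [hf, eval_sub, eval_nf₀, eval_mul, eval_C, eval_X, hk1]
    ring
  have hd1 : (derivative f).eval 1 = 0 := by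
    have h5 : derivative f = C (algebraMap (ZMod p) L (nal p)) * X ^ p + C 2 * X - C k := by
      rw [hf, nf₀, derivative_sub, derivative_add, derivative_add, derivative_one,
        derivative_C_mul, derivative_X_pow, derivative_X_pow, derivative_C_mul, derivative_X,
        Nat.add_sub_cancel]
      have h6 : ((p + 1 : ℕ) : L) = 1 := by
        rw [Nat.cast_add, CharP.cast_eq_zero L p, Nat.cast_one, zero_add]
      rw [h6]
      simp
    rw [h5, eval_sub, eval_add, eval_mul, eval_mul, eval_pow, eval_C, eval_C, eval_C, eval_X, hk1]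
    ring
  obtain ⟨g, hg⟩ := dvd_iff_isRoot.2 (show IsRoot f 1 from h1)
  have hg1 : g.eval 1 = 0 := by
    have h5 := hd1
    rw [hg, derivative_mul, derivative_sub, derivative_X, derivative_C, sub_zero, one_mul,
      eval_add, eval_mul, eval_sub, eval_X, eval_C, sub_self, zero_mul, add_zero] at h5
    exact h5
  obtain ⟨q, hq⟩ := dvd_iff_isRoot.2 (show IsRoot g 1 from hg1)
  have hfq : f = (X - C 1) ^ 2 * q := by
    rw [hg, hq]
    ring
  have hq1 : q.eval 1 ≠ 0 := by
    intro h5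
    obtain ⟨r, hr⟩ := dvd_iff_isRoot.2 (show IsRoot q 1 from h5)
    refine hm3 1 ⟨r, ?_⟩
    rw [hfq, hr]
    ring
  refine ⟨q, by rw [hfe, hfq], ?_, hq1⟩
  refine (Polynomial.isCoprime_iff_aeval_ne_zero_of_isAlgClosed L L q (derivative q)).2 ?_
  intro r
  by_contra h5
  rw [not_or, not_not, not_not] at h5
  obtain ⟨h6, h7⟩ := h5
  have h6' : q.eval r = 0 := by
    rwa [coe_aeval_eq_eval] at h6
  have h7' : (derivative q).eval r = 0 := by
    rwa [coe_aeval_eq_eval] at h7
  obtain ⟨q₁, hq₁⟩ := dvd_iff_isRoot.2 (show IsRoot q r from h6')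
  have h8 : q₁.eval r = 0 := by
    have h9 := h7'
    rw [hq₁, derivative_mul, derivative_sub, derivative_X, derivative_C, sub_zero, one_mul,
      eval_add, eval_mul, eval_sub, eval_X, eval_C, sub_self, zero_mul, add_zero] at h9
    exact h9
  obtain ⟨q₂, hq₂⟩ := dvd_iff_isRoot.2 (show IsRoot q₁ r from h8)
  have h10 := hm2 r ⟨(X - C 1) ^ 2 * q₂, by
    rw [hfq, hq₁, hq₂]
    ring⟩
  have h11 : r = 1 := by
    have h12 : k * (r - 1) = 0 := by linear_combination -h10.2
    exact sub_eq_zero.1 ((mul_eq_zero.1 h12).resolve_left hk0)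
  rw [h11] at h6'
  exact hq1 h6'

end fam

end MP7Z.A3.NTrM

namespace MP7Z.A3

open Polynomial MP7Z NTrM

/-- **NTr.** -/
theorem tNTr (h0 : AutLinStmt) (h1 : NewtStmt) (h2 : ConjStmt) (h3 : CycStmt) (h4 : NSepStmt) :
    NTrStmt := by
  intro p _ hp L N _ _ _ _ _ _ _ _ κ hκ halg y hy hf
  have hα : algebraMap (ZMod p) N (nal p) ≠ 0 := by
    obtain ⟨hα, -, -⟩ := h4 p hp
    rw [Ne, map_eq_zero]
    intro h
    rw [h, zero_pow two_ne_zero] at hα
    exact zero_ne_one hα
  have hroot : ∀ i, Rt p κ (y i) := by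
    intro i
    rw [rt_iff, hf, eval_mul, eval_prod, Finset.prod_eq_zero (Finset.mem_univ i) (by simp),
      mul_zero]
  -- automorphisms which fix `κ` permute the roots
  have hperm : ∀ σ : N ≃ₐ[L] N, σ κ = κ → ∃ ρ ∈ PermGrp L {κ} y, ∀ i, σ (y i) = y (ρ i) := by
    intro σ hσ
    have hσα : (σ : N →+* N) (algebraMap (ZMod p) N (nal p)) = algebraMap (ZMod p) N (nal p) := by
      rw [IsScalarTower.algebraMap_apply (ZMod p) L N]
      exact σ.commutes _
    have hmap : (nf₀ p N - C κ * X).map (σ : N →+* N) = C (algebraMap (ZMod p) N (nal p)) *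
        ∏ i, (X - C (y i)) := by
      rw [← hf, nf₀, Polynomial.map_sub, Polynomial.map_add, Polynomial.map_add,
        Polynomial.map_mul, Polynomial.map_mul, Polynomial.map_pow, Polynomial.map_pow, map_X,
        map_C, map_C, Polynomial.map_one, hσα]
      have h5 : (σ : N →+* N) κ = κ := hσ
      rw [h5]
    obtain ⟨ρ, hρ⟩ := exists_perm hy hα (σ : N →+* N) hf hmap
    refine ⟨ρ, mem_permGrp.2 ⟨σ, fun a ha => ?_, hρ⟩, hρ⟩
    rw [Set.mem_singleton_iff] at ha
    rw [ha, hσ]
  constructor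
  · intro i i' l l' hi hl
    obtain ⟨σ, hσ1, hσ2⟩ := trans h0 hκ halg (hroot i) (hroot l)
    obtain ⟨ρ, hρm, hρ⟩ := hperm σ hσ1
    have hρi : ρ i = l := hy (by rw [← hρ, hσ2])
    have hne : ρ i' ≠ l := by
      rw [← hρi]
      exact fun h => hi (ρ.injective h).symm
    obtain ⟨σ', hσ1', hσ2', hσ3'⟩ := stab h1 h2 h4 hp hκ halg (hroot l) (hroot (ρ i')) (hroot l')
      (fun h => hne (hy h)) (fun h => hl (hy h).symm)
    obtain ⟨ρ', hρm', hρ'⟩ := hperm σ' hσ1'
    refine ⟨ρ' * ρ, mul_mem hρm' hρm, ?_, ?_⟩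
    · rw [Equiv.Perm.mul_apply, hρi]
      exact hy (by rw [← hρ', hσ2'])
    · rw [Equiv.Perm.mul_apply]
      exact hy (by rw [← hρ', hσ3'])
  · obtain ⟨q, hq1, hq2, hq3⟩ := dbl h4 hp L
    have hchar : CharP L p := charP_of_injective_algebraMap (algebraMap (ZMod p) L).injective p
    have h20 : ((2 : ℕ) : L) ≠ 0 := by
      intro h5
      have h6 := (CharP.cast_eq_zero_iff L p 2).1 h5
      have h7 := Nat.le_of_dvd (by norm_num) h6
      omega
    have hdeg : (nf₀ p L).natDegree = p + 1 := by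
      obtain ⟨-, -, hF⟩ := h4 p hp
      have h5 := ((hF L).1 0).1
      rwa [C_0, zero_mul, sub_zero] at h5
    obtain ⟨ρ, hρ1, -, hρ2⟩ := h3 L N κ hκ halg (p + 1) 2 (nf₀ p L) (-X) q 1
      (algebraMap (ZMod p) L (nal p + 2)) le_rfl h20 hdeg (by
        rw [natDegree_neg, natDegree_X]
        omega) hq1 hq2 hq3 (by
        rw [eval_neg, eval_X]
        exact neg_ne_zero.2 one_ne_zero) (algebraMap (ZMod p) N (nal p)) y hy (by
        rw [← hf, map_nf₀, Polynomial.map_neg, map_X]
        ring)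
    exact ⟨ρ, hρ1, Equiv.Perm.card_support_eq_two.1 hρ2⟩

end MP7Z.A3
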