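import Pool.Agent.Lib.MP_7f581e_Z.Alt3.Spec

/-!
# Small degrees, task Newt: factors of a polynomial whose reduction has small degree
-/

set_option autoImplicit false

namespace MP7Z.A3

open Polynomial MP7Z

namespace NewtM

variable {F : Type} [Field F]

/-- A primitive multiple of a polynomial over the field of fractions. -/
theorem exists_prim (q : (RatFunc F)[X]) (hq : q ≠ 0) :
    ∃ (P : F[X][X]) (u : RatFunc F), P.IsPrimitive ∧ u ≠ 0 ∧
      P.map (algebraMap F[X] (RatFunc F)) = C u * q := by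
  classical
  obtain ⟨b, hb⟩ := IsLocalization.integerNormalization_map_to_map (nonZeroDivisors F[X]) q
  obtain ⟨r, hr⟩ : ∃ r, r = IsLocalization.integerNormalization (nonZeroDivisors F[X]) q :=
    ⟨_, rfl⟩
  rw [← hr] at hb
  have hb0 : algebraMap F[X] (RatFunc F) (b : F[X]) ≠ 0 := by
    intro h0
    have h1 := IsFractionRing.injective F[X] (RatFunc F) (h0.trans (map_zero _).symm)
    exact nonZeroDivisors.coe_ne_zero b h1
  have hr0 : r ≠ 0 := by
    rintro rfl
    rw [Polynomial.map_zero] at hb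
    have h1 : algebraMap F[X] (RatFunc F) (b : F[X]) • q = 0 := by
      rw [algebraMap_smul, ← hb]
    exact hq ((smul_eq_zero.1 h1).resolve_left hb0)
  have hc0 : algebraMap F[X] (RatFunc F) r.content ≠ 0 := by
    intro h0
    have h1 := IsFractionRing.injective F[X] (RatFunc F) (h0.trans (map_zero _).symm)
    exact hr0 (content_eq_zero_iff.1 h1)
  refine ⟨r.primPart, (algebraMap F[X] (RatFunc F) r.content)⁻¹ *
    algebraMap F[X] (RatFunc F) (b : F[X]), r.isPrimitive_primPart,
    mul_ne_zero (inv_ne_zero hc0) hb0, ?_⟩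
  have h1 : C (algebraMap F[X] (RatFunc F) r.content) *
      r.primPart.map (algebraMap F[X] (RatFunc F)) =
      C (algebraMap F[X] (RatFunc F) (b : F[X])) * q := by
    rw [← smul_eq_C_mul _ (p := q), algebraMap_smul, ← hb]
    conv_rhs => rw [r.eq_C_content_mul_primPart, Polynomial.map_mul, map_C]
  have h2 : C (algebraMap F[X] (RatFunc F) r.content)⁻¹ *
      (C (algebraMap F[X] (RatFunc F) r.content) *
        r.primPart.map (algebraMap F[X] (RatFunc F))) =
      r.primPart.map (algebraMap F[X] (RatFunc F)) := by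
    rw [← mul_assoc, ← C_mul, inv_mul_cancel₀ hc0, C_1, one_mul]
  rw [← h2, h1, C_mul, mul_assoc]

theorem gauss (q : F[X][X]) (hq : q.IsPrimitive) (q₁ q₂ : (RatFunc F)[X])
    (h : q.map (algebraMap F[X] (RatFunc F)) = q₁ * q₂) :
    ∃ Q₁ Q₂ : F[X][X], q = Q₁ * Q₂ ∧ Q₁.natDegree = q₁.natDegree ∧
      Q₂.natDegree = q₂.natDegree := by
  classical
  have hinj : Function.Injective (algebraMap F[X] (RatFunc F)) :=
    IsFractionRing.injective F[X] (RatFunc F)
  have hq0 : q ≠ 0 := hq.ne_zero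
  have hm0 : q.map (algebraMap F[X] (RatFunc F)) ≠ 0 := by
    rwa [Ne, Polynomial.map_eq_zero_iff hinj]
  have h10 : q₁ ≠ 0 := by
    rintro rfl
    rw [zero_mul] at h
    exact hm0 h
  have h20 : q₂ ≠ 0 := by
    rintro rfl
    rw [mul_zero] at h
    exact hm0 h
  obtain ⟨P₁, u₁, hP₁, hu₁, h1⟩ := exists_prim q₁ h10
  obtain ⟨P₂, u₂, hP₂, hu₂, h2⟩ := exists_prim q₂ h20
  have hd1 : P₁.natDegree = q₁.natDegree := by
    rw [← natDegree_map_eq_of_injective hinj P₁, h1, natDegree_C_mul hu₁]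
  have hd2 : P₂.natDegree = q₂.natDegree := by
    rw [← natDegree_map_eq_of_injective hinj P₂, h2, natDegree_C_mul hu₂]
  have hdq : q.natDegree = q₁.natDegree + q₂.natDegree := by
    rw [← natDegree_map_eq_of_injective hinj q, h, natDegree_mul h10 h20]
  have hdvd : P₁ * P₂ ∣ q := by
    refine (hP₁.mul hP₂).dvd_of_fraction_map_dvd_fraction_map (K := RatFunc F) ?_
    rw [Polynomial.map_mul, h1, h2, h]
    refine ⟨C (u₁ * u₂)⁻¹, ?_⟩
    have h3 : C (u₁ * u₂) * C (u₁ * u₂)⁻¹ = (1 : (RatFunc F)[X]) := by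
      rw [← C_mul, mul_inv_cancel₀ (mul_ne_zero hu₁ hu₂), C_1]
    rw [C_mul] at h3
    linear_combination (-(q₁ * q₂)) * h3
  obtain ⟨R, hR⟩ := hdvd
  have hR0 : R ≠ 0 := by
    rintro rfl
    rw [mul_zero] at hR
    exact hq0 hR
  have hdR : R.natDegree = 0 := by
    have h3 := congrArg natDegree hR
    rw [natDegree_mul (mul_ne_zero hP₁.ne_zero hP₂.ne_zero) hR0,
      natDegree_mul hP₁.ne_zero hP₂.ne_zero, hd1, hd2, hdq] at h3
    omega
  refine ⟨P₁ * R, P₂, by rw [hR]; ring, ?_, hd2⟩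
  rw [natDegree_mul hP₁.ne_zero hR0, hdR, add_zero, hd1]

/-- The claim for a factorization over `F[X]` in which the leading coefficient of the first factor
is not divisible by `X`. -/
theorem red (q Q₁ Q₂ : F[X][X]) (m : ℕ) (hq : q.IsPrimitive)
    (hm : ∀ i, m < i → (q.coeff i).coeff 0 = 0) (h : q = Q₁ * Q₂)
    (hl : Q₁.leadingCoeff.coeff 0 ≠ 0) : Q₁.natDegree ≤ m := by
  obtain ⟨φ, hφ⟩ : ∃ φ : F[X] →+* F, φ = evalRingHom 0 := ⟨_, rfl⟩
  have hφ' : ∀ a : F[X], φ a = a.coeff 0 := fun a => by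
    rw [hφ, coe_evalRingHom, coeff_zero_eq_eval_zero]
  have hq0 : q.map φ ≠ 0 := by
    intro h0
    have h1 : C (X : F[X]) ∣ q := by
      rw [C_dvd_iff_dvd_coeff]
      intro i
      rw [X_dvd_iff, ← hφ', ← coeff_map, h0, coeff_zero]
    exact not_isUnit_X (hq _ h1)
  have h1 : (q.map φ).natDegree ≤ m := by
    rw [natDegree_le_iff_coeff_eq_zero]
    intro i hi
    rw [coeff_map, hφ', hm i hi]
  have h2 : (Q₁.map φ).natDegree = Q₁.natDegree :=
    natDegree_map_of_leadingCoeff_ne_zero φ (by rwa [hφ'])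
  rw [h, Polynomial.map_mul] at hq0 h1
  rw [natDegree_mul (left_ne_zero_of_mul hq0) (right_ne_zero_of_mul hq0), h2] at h1
  omega

end NewtM

theorem tNewt : NewtStmt := by
  intro F M _ _ _ a ha q m hq hm hl q₁ q₂ h
  obtain ⟨e, he⟩ : ∃ e : RatFunc F ≃+* IntermediateField.adjoin F {a},
      e = (RatFunc.algEquivOfTranscendental a ha).toRingEquiv := ⟨_, rfl⟩
  have h5 : ∀ g : F[X], e (algebraMap F[X] (RatFunc F) g) =
      aeval (IntermediateField.AdjoinSimple.gen F a) g := fun g => by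
    rw [he]
    exact RatFunc.algEquivOfTranscendental_algebraMap a ha g
  have h6 : (q.map (algebraMap F[X] (RatFunc F))).map
      (e : RatFunc F →+* IntermediateField.adjoin F {a}) = q₁ * q₂ := by
    rw [← h, Polynomial.map_map]
    congr 1
    exact RingHom.ext h5
  have h7 : q.map (algebraMap F[X] (RatFunc F)) =
      q₁.map (e.symm : IntermediateField.adjoin F {a} →+* RatFunc F) *
        q₂.map (e.symm : IntermediateField.adjoin F {a} →+* RatFunc F) := by
    rw [← Polynomial.map_mul, ← h6, Polynomial.map_map]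
    have h8 : (e.symm : IntermediateField.adjoin F {a} →+* RatFunc F).comp
        (e : RatFunc F →+* IntermediateField.adjoin F {a}) = RingHom.id (RatFunc F) :=
      RingHom.ext fun x => e.symm_apply_apply x
    rw [h8, Polynomial.map_id]
  obtain ⟨Q₁, Q₂, hQ, hd1, hd2⟩ := NewtM.gauss q hq _ _ h7
  have hd1' : (q₁.map (e.symm : IntermediateField.adjoin F {a} →+* RatFunc F)).natDegree =
      q₁.natDegree :=
    natDegree_map_eq_of_injective e.symm.injective q₁
  have hd2' : (q₂.map (e.symm : IntermediateField.adjoin F {a} →+* RatFunc F)).natDegree =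
      q₂.natDegree :=
    natDegree_map_eq_of_injective e.symm.injective q₂
  rw [hd1'] at hd1
  rw [hd2'] at hd2
  rw [← hd1, ← hd2]
  by_cases h1 : Q₁.leadingCoeff.coeff 0 = 0
  · by_cases h2 : Q₂.leadingCoeff.coeff 0 = 0
    · exfalso
      apply hl
      rw [hQ, leadingCoeff_mul, coeff_mul, Finset.Nat.sum_antidiagonal_eq_sum_range_succ_mk,
        Finset.sum_range_succ, Finset.sum_range_one]
      simp [h1, h2]
    · right
      exact NewtM.red q Q₂ Q₁ m hq hm (by rw [hQ, mul_comm]) h2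
  · left
    exact NewtM.red q Q₁ Q₂ m hq hm hQ h1

end MP7Z.A3
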