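import Pool.Agent.Lib.MP_7f581e_Z.Alt3.Spec

/-!
# Alternating groups of small degree: the discriminant
-/

set_option autoImplicit false

namespace MP7Z.A3

open Polynomial MP7Z

namespace ODiscM

/-- The product of the values of a monic divisor of a power of `V` at the roots. -/
theorem prod_eval {p n : ℕ} [Fact p.Prime] (t : OType p n) {F : Type} [Field F]
    [Algebra (ZMod p) F] (M : F[X]) (y : Fin n → F)
    (hP : t.V.map (algebraMap (ZMod p) F) * M + t.W.map (algebraMap (ZMod p) F) =
      ∏ i, (X - C (y i))) (G : (ZMod p)[X]) (hG : G.Monic) {k : ℕ} (hGV : G ∣ t.V ^ k) :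
    ∏ i, (G.map (algebraMap (ZMod p) F)).eval (y i) = ((-1) ^ n) ^ G.natDegree := by
  let L := AlgebraicClosure F
  let φ : F →+* L := algebraMap F L
  apply φ.injective
  rw [map_prod, map_pow, map_pow, map_neg, map_one]
  let Gm : L[X] := (G.map (algebraMap (ZMod p) F)).map φ
  have hGm : Gm.Monic := (hG.map _).map _
  have hsp : Gm.Splits := IsAlgClosed.splits Gm
  have h1 : ∀ i, φ ((G.map (algebraMap (ZMod p) F)).eval (y i)) =
      (Gm.roots.map (fun a => φ (y i) - a)).prod := by
    intro i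
    rw [← hsp.eval_eq_prod_roots_of_monic hGm]
    exact (eval_map_apply φ (y i)).symm
  simp only [h1]
  change (Multiset.map (fun i => (Gm.roots.map (fun a => φ (y i) - a)).prod)
    Finset.univ.val).prod = _
  rw [Multiset.prod_map_prod_map]
  have h2 : ∀ a ∈ Gm.roots, (Multiset.map (fun i => φ (y i) - a) Finset.univ.val).prod =
      (-1) ^ n := by
    intro a ha
    change ∏ i, (φ (y i) - a) = _
    have ha1 : Gm.eval a = 0 := (mem_roots hGm.ne_zero).1 ha
    have hVa : ((t.V.map (algebraMap (ZMod p) F)).map φ).eval a = 0 := by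
      obtain ⟨q, hq⟩ := hGV
      have h3 : ((t.V.map (algebraMap (ZMod p) F)).map φ).eval a ^ k = 0 := by
        rw [← eval_pow, ← Polynomial.map_pow, ← Polynomial.map_pow, hq, Polynomial.map_mul,
          Polynomial.map_mul, eval_mul]
        change Gm.eval a * _ = 0
        rw [ha1, zero_mul]
      exact (pow_eq_zero_iff (n := k) (by
        rintro rfl
        rw [pow_zero] at h3
        exact one_ne_zero h3)).1 h3
    have hW : t.W = 1 := by
      rcases t.hWV with h | h
      · exact h
      · rw [h, Polynomial.map_one, Polynomial.map_one, eval_one] at hVa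
        exact absurd hVa one_ne_zero
    have h3 := congrArg (fun P : F[X] => (P.map φ).eval a) hP
    simp only [Polynomial.map_add, Polynomial.map_mul, eval_add, eval_mul, hVa, hW,
      Polynomial.map_one, eval_one, zero_mul, zero_add, Polynomial.map_prod,
      Polynomial.map_sub, map_X, map_C, eval_C, eval_prod, eval_sub, eval_X] at h3
    have h4 : ∏ i, (φ (y i) - a) = (-1) ^ n * ∏ i, (a - φ (y i)) := by
      have h5 : ∀ i, φ (y i) - a = (-1) * (a - φ (y i)) := fun i => by ring
      simp only [h5]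
      rw [Finset.prod_mul_distrib, Finset.prod_const, Finset.card_univ, Fintype.card_fin]
    rw [h4, ← h3, mul_one]
  rw [Multiset.map_congr rfl h2, Multiset.map_const', Multiset.prod_replicate,
    ← hsp.natDegree_eq_card_roots]
  congr 1
  change ((G.map (algebraMap (ZMod p) F)).map φ).natDegree = _
  rw [natDegree_map, natDegree_map]

/-- The square of the Vandermonde product. -/
theorem vand {n : ℕ} {F : Type} [Field F] (y : Fin n → F) :
    ∏ i, ∏ l ∈ ({i}ᶜ : Finset (Fin n)), (y i - y l) =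
      (∏ i : Fin n, ∏ _j ∈ Finset.Ioi i, (-1 : F)) *
        (∏ i, ∏ j ∈ Finset.Ioi i, (y j - y i)) ^ 2 := by
  rw [← Finset.prod_prod_Ioi_mul_eq_prod_prod_off_diag (fun j i => y i - y j),
    ← Finset.prod_pow, ← Finset.prod_mul_distrib]
  refine Finset.prod_congr rfl fun i _ => ?_
  rw [← Finset.prod_pow, ← Finset.prod_mul_distrib]
  refine Finset.prod_congr rfl fun j _ => ?_
  ring

end ODiscM

theorem tODisc : ODiscStmt := by
  intro p n _ t
  let ε : ZMod p := ∏ i : Fin n, ∏ _j ∈ Finset.Ioi i, (-1 : ZMod p)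
  have hε : ε ^ 2 = 1 := by
    change (∏ i : Fin n, ∏ _j ∈ Finset.Ioi i, (-1 : ZMod p)) ^ 2 = 1
    rw [← Finset.prod_pow]
    refine Finset.prod_eq_one fun i _ => ?_
    rw [← Finset.prod_pow]
    exact Finset.prod_eq_one fun j _ => by norm_num
  have hε0 : ε ≠ 0 := by
    intro h
    rw [h] at hε
    norm_num at hε
  refine ⟨ε * t.c₁ ^ n * (-1) ^ n * ((-1) ^ n) ^ (t.D.natDegree + t.V.natDegree), ?_, ?_⟩
  · have h1 : (-1 : ZMod p) ≠ 0 := neg_ne_zero.2 one_ne_zero
    exact mul_ne_zero (mul_ne_zero (mul_ne_zero hε0 (pow_ne_zero _ t.hc₁)) (pow_ne_zero _ h1))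
      (pow_ne_zero _ (pow_ne_zero _ h1))
  intro F _ _ κ y hP
  set ψ := algebraMap (ZMod p) F with hψ
  have hchar : CharP F p := charP_of_injective_algebraMap' (ZMod p) p
  set M : F[X] := X ^ p - C (ψ t.s) + C κ with hMdef
  have hM : derivative M = 0 := by
    rw [hMdef, derivative_add, derivative_sub, derivative_C, derivative_C, derivative_X_pow,
      CharP.cast_eq_zero, C_0, zero_mul, sub_zero, add_zero]
  have hf : t.f κ = t.V.map ψ * M + t.W.map ψ := rfl
  set P := t.f κ with hPdef
  set Δ := ∏ i, ∏ j ∈ Finset.Ioi i, (y j - y i) with hΔ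
  set dV := t.V.natDegree with hdV
  set dD := t.D.natDegree with hdD
  have hεF : (∏ i : Fin n, ∏ _j ∈ Finset.Ioi i, (-1 : F)) = ψ ε := by
    change _ = ψ (∏ i : Fin n, ∏ _j ∈ Finset.Ioi i, (-1 : ZMod p))
    simp only [map_prod, map_neg, map_one]
  have hV := ODiscM.prod_eval t M y (hf.symm.trans hP) t.V t.hV (k := 1) (by rw [pow_one])
  have hD := ODiscM.prod_eval t M y (hf.symm.trans hP) t.D t.hD t.dvd
  -- values at `s`
  have hs : P.eval (ψ t.s) = ∏ i, (ψ t.s - y i) := by
    rw [hP]
    simp [eval_prod]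
  have hs' : ∏ i, (y i - ψ t.s) = (-1) ^ n * P.eval (ψ t.s) := by
    have h5 : ∀ i, y i - ψ t.s = (-1) * (ψ t.s - y i) := fun i => by ring
    rw [hs]
    simp only [h5]
    rw [Finset.prod_mul_distrib, Finset.prod_const, Finset.card_univ, Fintype.card_fin]
  -- the derivative
  have hder : ∀ i, (derivative P).eval (y i) = ∏ l ∈ ({i}ᶜ : Finset (Fin n)), (y i - y l) := by
    intro i
    have h1 : P = (X - C (y i)) * (∏ l ∈ ({i}ᶜ : Finset (Fin n)), (X - C (y l))) := by
      rw [hP, ← Finset.mul_prod_erase Finset.univ _ (Finset.mem_univ i)]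
      have h2 : (Finset.univ.erase i : Finset (Fin n)) = {i}ᶜ := by
        ext l
        simp
      rw [h2]
    rw [h1, derivative_mul, eval_add]
    simp [eval_prod]
  have hroot : ∀ i, P.eval (y i) = 0 := by
    intro i
    rw [hP, eval_prod, Finset.prod_eq_zero (Finset.mem_univ i) (by simp)]
  have hkey : t.V.map ψ * derivative P - derivative (t.V.map ψ) * P =
      C (ψ t.c₁) * (X - C (ψ t.s)) * t.D.map ψ := by
    have h1 := congrArg (Polynomial.map ψ) t.key
    simp only [Polynomial.map_sub, Polynomial.map_mul, map_C, map_X] at h1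
    rw [← h1, hf, derivative_add, derivative_mul, hM, derivative_map, derivative_map]
    ring
  have hpt : ∀ i, (t.V.map ψ).eval (y i) * (∏ l ∈ ({i}ᶜ : Finset (Fin n)), (y i - y l)) =
      ψ t.c₁ * (y i - ψ t.s) * (t.D.map ψ).eval (y i) := by
    intro i
    have h1 := congrArg (Polynomial.eval (y i)) hkey
    rw [eval_sub, eval_mul, eval_mul, hroot, mul_zero, sub_zero, hder] at h1
    rw [h1]
    simp
  have hall := Finset.prod_congr (rfl : (Finset.univ : Finset (Fin n)) = Finset.univ)
    (fun i _ => hpt i)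
  rw [Finset.prod_mul_distrib, Finset.prod_mul_distrib, Finset.prod_mul_distrib,
    Finset.prod_const, Finset.card_univ,
    Fintype.card_fin, ODiscM.vand, hεF, hV, hD, hs', ← hdV, ← hdD] at hall
  -- the computation
  have hψε : ψ ε ^ 2 = 1 := by rw [← map_pow, hε, map_one]
  have hσ : ((-1 : F) ^ n) ^ 2 = 1 := by rw [← pow_mul, mul_comm, pow_mul]; norm_num
  set σ : F := (-1) ^ n with hσdef
  have hσV : σ ^ dV * σ ^ dV = 1 := by
    rw [← pow_add, ← two_mul, pow_mul, hσ, one_pow]
  have hc : ψ (ε * t.c₁ ^ n * (-1) ^ n * ((-1) ^ n) ^ (dD + dV)) =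
      ψ ε * ψ t.c₁ ^ n * σ * (σ ^ dD * σ ^ dV) := by
    simp only [map_mul, map_pow, map_neg, map_one, ← hσdef, pow_add]
  rw [hc]
  generalize σ ^ dV = a at *
  generalize σ ^ dD = b at *
  generalize P.eval (ψ t.s) = u at *
  generalize ψ ε = e at *
  generalize ψ t.c₁ ^ n = c at *
  linear_combination (a * e) * hall - Δ ^ 2 * hσV - Δ ^ 2 * a * a * hψε

end MP7Z.A3
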