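import Pool.Agent.Lib.MP_7f581e_Z.Alt3.Spec
import Pool.Agent.Lib.MP_7f581e_Z.Alt.Lab

/-!
# Labelled roots of the families of degree `p` and `p + 2`
-/

set_option autoImplicit false

namespace MP7Z.A3

open Polynomial MP7Z

theorem OLab_two_ne_zero {p : ℕ} [Fact p.Prime] (h : p ≠ 2) (Ω : Type) [Field Ω]
    [Algebra (ZMod p) Ω] : (2 : Ω) ≠ 0 := by
  intro h2
  have h3 : algebraMap (ZMod p) Ω ((2 : ℕ) : ZMod p) = 0 := by
    rw [map_natCast]
    exact_mod_cast h2
  have h4 : ((2 : ℕ) : ZMod p) = 0 :=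
    (algebraMap (ZMod p) Ω).injective (by rw [h3, map_zero])
  rw [ZMod.natCast_eq_zero_iff] at h4
  have h5 := (Nat.prime_dvd_prime_iff_eq (Fact.out : p.Prime) Nat.prime_two).1 h4
  exact h h5

theorem tOLab (h0 : OSepStmt) (h1 : SgnStmt) : OLabStmt := by
  intro p n _ t c' hn hdis0
  obtain ⟨hc', hdis⟩ := hdis0
  have hca : ∀ (F : Type) [Field F] [Algebra (ZMod p) F], algebraMap (ZMod p) F c' ≠ 0 := by
    intro F _ _ h
    exact hc' ((algebraMap (ZMod p) F).injective (by rw [h, map_zero]))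
  have hev : ∀ (F : Type) [Field F] [Algebra (ZMod p) F] (d : F),
      (t.f (t.kap c' d)).eval (algebraMap (ZMod p) F t.s) =
        (algebraMap (ZMod p) F c')⁻¹ * d ^ 2 := by
    intro F _ _ d
    rw [(h0 p n t F _).2.2.1, OType.kap, map_inv₀, map_inv₀]
    have hVs : algebraMap (ZMod p) F (t.V.eval t.s) ≠ 0 := by
      intro h
      exact t.hs ((algebraMap (ZMod p) F).injective (by rw [h, map_zero]))
    field_simp
    ring
  refine ⟨?_, ?_, ?_⟩
  · intro Ω _ _ _ w g u _ hD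
    have hD' : w * u 0 ≠ 0 := hD
    obtain ⟨hm, hdeg, -, hsep, -, -⟩ := h0 p n t Ω (t.kap c' (w * u 0))
    have hs := hsep (by
      rw [hev]
      exact mul_ne_zero (inv_ne_zero (hca Ω)) (pow_ne_zero _ hD'))
    obtain ⟨y, hy, hf⟩ := LabM.exists_roots _ n hs hdeg
    rw [hm.leadingCoeff, C_1, one_mul] at hf
    have hΔ := hdis Ω _ y hf
    rw [hev, ← mul_assoc, mul_inv_cancel₀ (hca Ω), one_mul] at hΔ
    rcases sq_eq_sq_iff_eq_or_eq_neg.1 hΔ with h | h
    · refine ⟨y, hy, ?_, h⟩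
      change t.f _ = C 1 * _
      rw [C_1, one_mul]
      exact hf
    · set a : Fin n := ⟨0, by omega⟩ with ha
      set b : Fin n := ⟨1, by omega⟩ with hb
      have hab : a ≠ b := by
        intro hh
        have := congrArg Fin.val hh
        simp [ha, hb] at this
      refine ⟨fun i => y (Equiv.swap a b i), hy.comp (Equiv.swap a b).injective, ?_, ?_⟩
      · change t.f _ = C 1 * _
        rw [C_1, one_mul, hf]
        exact (Equiv.prod_comp (Equiv.swap a b) (fun i => (X - C (y i) : Polynomial Ω))).symm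
      · change ∏ i, ∏ j ∈ Finset.Ioi i, (y (Equiv.swap a b j) - y (Equiv.swap a b i)) = w * u 0
        rw [LabM.vd_swap y a b hab, h, neg_neg]
  · intro Ω _ _ σ w w' g u u' ε y y' ρ _ _ hw _ hu hy hy' hρ
    refine h1 n Ω (OLab_two_ne_zero t.odd Ω) σ y y' ρ ε (w * u 0) (w' * u' 0) hρ hy'.1 hy.2.2
      hy'.2.2 ?_
    rw [map_mul, hw, hu, tw, if_neg t.odd, mul_assoc]
  · intro L N _ _ _ _ _ _ u hu w g hw _
    refine ⟨one_ne_zero, ?_⟩
    change algebraMap L N w * u 0 ≠ 0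
    refine mul_ne_zero (fun h => hw t.odd ?_) (hu.ne_zero 0)
    exact (algebraMap L N).injective (by rw [h, map_zero])

end MP7Z.A3
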