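import Pool.Agent.Lib.MP_7f581e_Z.Alt3.Spec

/-!
# Alternating groups of small degree: inertia, degrees `p` and `p + 2`
-/

set_option autoImplicit false

namespace MP7Z.A3

open Polynomial MP7Z

namespace OLocM

theorem pow_dvd_of_card {k : Type*} [Field k] {n : ℕ} (y : Fin n → k) (a : k)
    (T : Finset (Fin n)) (hT : ∀ i ∈ T, y i = a) :
    (X - C a) ^ T.card ∣ ∏ i, (X - C (y i)) := by
  have h1 : (X - C a) ^ T.card = ∏ i ∈ T, (X - C (y i)) := by
    rw [← Finset.prod_const]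
    exact Finset.prod_congr rfl fun i hi => by rw [hT i hi]
  rw [h1]
  exact Finset.prod_dvd_prod_of_subset _ _ _ (Finset.subset_univ T)

/-- Permutations which move only indices with the same value. -/
theorem perm_eq_one {k : Type*} [Field k] {n : ℕ} (y : Fin n → k) (s : k) (F : k[X])
    (hF : F = ∏ i, (X - C (y i))) (h2 : ∀ r : k, (X - C r) ^ 2 ∣ F → r = s)
    (h3 : ¬ (X - C s) ^ 3 ∣ F) (ρ : Equiv.Perm (Fin n)) (hρ : ∀ i, y (ρ i) = y i)
    (hs : Equiv.Perm.sign ρ = 1) : ρ = 1 := by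
  have hmv : ∀ i, ρ i ≠ i → y i = s := by
    intro i hi
    apply h2
    rw [hF]
    have h := pow_dvd_of_card y (y i) {i, ρ i} (by
      intro j hj
      rw [Finset.mem_insert, Finset.mem_singleton] at hj
      rcases hj with rfl | rfl
      · rfl
      · exact hρ i)
    rwa [Finset.card_pair hi.symm] at h
  have hcard : ρ.support.card ≤ 2 := by
    by_contra hcon
    apply h3
    refine (pow_dvd_pow _ (by omega : 3 ≤ ρ.support.card)).trans ?_
    rw [hF]
    exact pow_dvd_of_card y s _ (fun i hi => hmv i (Equiv.Perm.mem_support.1 hi))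
  rcases Nat.lt_or_ge ρ.support.card 2 with h | h
  · exact Equiv.Perm.card_support_le_one.1 (by omega)
  · have h4 : ρ.support.card = 2 := le_antisymm hcard h
    have h5 := (Equiv.Perm.card_support_eq_two.1 h4).sign_eq
    rw [hs] at h5
    exact absurd h5 (by decide)

/-- The local analysis for the polynomial `t.f κ`. -/
theorem loc (h0 : ResStmt) (h1 : OSepStmt) (p n : ℕ) [Fact p.Prime] (t : OType p n)
    (Ω : Type) [Field Ω] [Algebra (ZMod p) Ω] (x : Ω) (hst : IsStage p x)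
    (V : ValuationSubring Ω) (hV : V ≠ ⊤) (κ : Ω) (y : Fin n → Ω) (hκ : κ ∈ V)
    (hf : t.f κ = ∏ i, (X - C (y i))) (δ : Ω ≃ₐ[ZMod p] Ω) (hδI : δ ∈ Inert p V)
    (ρ : Equiv.Perm (Fin n)) (hρ : ∀ i, δ (y i) = y (ρ i))
    (hs : Equiv.Perm.sign ρ = 1) : ρ = 1 := by
  obtain ⟨hc, -, -, hδ⟩ := h0 p Ω x hst V hV
  have hz : ∀ c : ZMod p, algebraMap (ZMod p) Ω c ∈ V := fun c =>
    hc _ ((Cst p Ω).algebraMap_mem c)
  let φ : ZMod p →+* V := (algebraMap (ZMod p) Ω).codRestrict V.toSubring hz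
  let : Algebra (ZMod p) V := φ.toAlgebra
  obtain ⟨κ', hκ'⟩ : ∃ e' : V, (e' : Ω) = κ := ⟨⟨κ, hκ⟩, rfl⟩
  have hinjV : Function.Injective (algebraMap V Ω) := Subtype.val_injective
  have hfV : (t.f κ').map (algebraMap V Ω) = t.f κ := by
    rw [t.map_f]
    have h3 : algebraMap V Ω κ' = κ := hκ'
    rw [h3]
  have hyV : ∀ i, y i ∈ V := by
    intro i
    have hg : (t.f κ').map (algebraMap V Ω) = ∏ i, (X - C (y i)) := by
      rw [hfV, hf]
    have hm : (t.f κ').Monic := by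
      apply Polynomial.monic_of_injective hinjV
      rw [hg]
      exact monic_prod_of_monic _ _ fun i _ => monic_X_sub_C _
    have hint : IsIntegral V (y i) := by
      refine ⟨_, hm, ?_⟩
      rw [← eval_map, hg, eval_prod]
      exact Finset.prod_eq_zero (Finset.mem_univ i) (by simp)
    obtain ⟨z, hz⟩ := (IsIntegrallyClosed.isIntegral_iff (R := V) (K := Ω)).1 hint
    rw [← hz]
    exact z.2
  have hf2 : t.f κ' = ∏ i, (X - C (⟨y i, hyV i⟩ : V)) := by
    apply Polynomial.map_injective _ hinjV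
    rw [hfV, hf, Polynomial.map_prod]
    apply Finset.prod_congr rfl
    intro i _
    rw [Polynomial.map_sub, map_X, map_C]
    rfl
  have hf3 : t.f (IsLocalRing.residue V κ') =
        ∏ i, (X - C (IsLocalRing.residue V ⟨y i, hyV i⟩)) := by
    rw [← t.map_f, hf2, Polynomial.map_prod]
    apply Finset.prod_congr rfl
    intro i _
    rw [Polynomial.map_sub, map_X, map_C]
  obtain ⟨-, -, -, -, h2, h3⟩ := h1 p n t (IsLocalRing.ResidueField V) (IsLocalRing.residue V κ')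
  refine perm_eq_one (fun i => IsLocalRing.residue V ⟨y i, hyV i⟩)
    (algebraMap (ZMod p) (IsLocalRing.ResidueField V) t.s) _ hf3 h2 h3 ρ (fun i => ?_) hs
  obtain ⟨hδ1, hδ2⟩ := hδI
  have h4 := hδ 1 δ hδ2 (fun c hc => by rw [pow_one]; exact hδ1 c hc) (y i) (hyV i)
  rw [pow_one, hρ i] at h4
  rw [← sub_eq_zero]
  change IsLocalRing.residue V ⟨y (ρ i), hyV (ρ i)⟩ - IsLocalRing.residue V ⟨y i, hyV i⟩ = 0
  rw [← map_sub, IsLocalRing.residue_eq_zero_iff, V.valuation_lt_one_iff]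
  exact h4

end OLocM

open OLocM

theorem tOLoc (h0 : ResStmt) (h1 : OSepStmt) : OLocStmt := by
  intro p n _ t c' Ω _ _ x hst V hV w g u y hw _ hu _ _ hy δ hδ _ _ _ ρ hρ hs
  obtain ⟨-, hf, -⟩ := hy
  obtain ⟨hc, -, -, -⟩ := h0 p Ω x hst V hV
  have hz : ∀ c : ZMod p, algebraMap (ZMod p) Ω c ∈ V := fun c =>
    hc _ ((Cst p Ω).algebraMap_mem c)
  have hκ : t.kap c' (w * u 0) ∈ V := by
    rw [OType.kap]
    exact mul_mem (sub_mem (mul_mem (hz _) (pow_mem (mul_mem hw (hu 0)) 2)) (hz _)) (hz _)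
  have hf' : t.f (t.kap c' (w * u 0)) = ∏ i, (X - C (y i)) := by
    have h2 : (t.fam c').F Ω w g u = t.f (t.kap c' (w * u 0)) := rfl
    have h3 : (t.fam c').ℓ Ω w g u = 1 := rfl
    rw [h2, h3, C_1, one_mul] at hf
    exact hf
  rw [loc h0 h1 p n t Ω x hst V hV _ y hκ hf' δ hδ ρ hρ hs, one_pow]

end MP7Z.A3
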