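import Pool.Agent.Lib.MP_7f581e_Z.Alt3.Spec

/-!
# `MP_7f581e_nt`: the generic group in degree `p + 2` is primitive
-/

set_option autoImplicit false

namespace MP7Z.A3.OPrM

open Polynomial MP7Z MP7Z.A3

section general

variable {L N : Type} [Field L] [Field N] [Algebra L N]

theorem alg_mono {K₁ K₂ : IntermediateField L N}
    (h : K₁ ≤ K₂) (ha : Algebra.IsAlgebraic K₁ N) : Algebra.IsAlgebraic K₂ N := by
  let _ : Algebra K₁ K₂ := (IntermediateField.inclusion h).toRingHom.toAlgebra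
  have : IsScalarTower K₁ K₂ N := .of_algebraMap_eq (fun _ => rfl)
  exact Algebra.IsAlgebraic.tower_top (K := K₁) K₂

end general

section qp

variable {L : Type} [Field L]

/-- The monic polynomial `V(X) (X - T)^(p-1)`. -/
noncomputable def rp (p : ℕ) (L : Type) [Field L] : L[X][X] :=
  X * (X - C 1) * (X - C X) ^ (p - 1)

/-- The polynomial of *Newt*. -/
noncomputable def qp (p : ℕ) (L : Type) [Field L] : L[X][X] :=
  C (X ^ 2 - X) * rp p L - (X + C (X - 1))

theorem rp_monic (p : ℕ) : (rp p L).Monic :=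
  (monic_X.mul (monic_X_sub_C _)).mul ((monic_X_sub_C _).pow _)

theorem rp_deg {p : ℕ} (hp : 5 ≤ p) : (rp p L).natDegree = p + 1 := by
  have h1 : (X * (X - C 1) : L[X][X]).Monic := monic_X.mul (monic_X_sub_C _)
  have h2 : ((X - C X) ^ (p - 1) : L[X][X]).Monic := (monic_X_sub_C _).pow _
  rw [rp, h1.natDegree_mul h2, monic_X.natDegree_mul (monic_X_sub_C _), natDegree_X,
    natDegree_X_sub_C, (monic_X_sub_C _).natDegree_pow, natDegree_X_sub_C]
  omega

theorem VT_ne : (X ^ 2 - X : L[X]) ≠ 0 := by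
  intro h
  have h1 := congrArg (fun f => coeff f 1) h
  simp [coeff_X_pow] at h1

theorem qp_deg {p : ℕ} (hp : 5 ≤ p) :
    (qp p L).natDegree = p + 1 ∧ (qp p L).leadingCoeff = X ^ 2 - X := by
  have h1 : (C (X ^ 2 - X) * rp p L).degree = ((p + 1 : ℕ) : WithBot ℕ) := by
    rw [degree_C_mul VT_ne, degree_eq_natDegree (rp_monic p).ne_zero, rp_deg hp]
  have h2 : (X + C (X - 1) : L[X][X]).degree < (C (X ^ 2 - X) * rp p L).degree := by
    rw [h1, degree_X_add_C]
    exact_mod_cast (by omega : 1 < p + 1)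
  constructor
  · rw [qp]
    refine natDegree_eq_of_degree_eq_some ?_
    rw [degree_sub_eq_left_of_degree_lt h2, h1]
  · rw [qp, leadingCoeff_sub_of_degree_lt h2, leadingCoeff_mul, (rp_monic p).leadingCoeff, mul_one,
      leadingCoeff_C]

theorem qp_prim {p : ℕ} (hp : 5 ≤ p) : (qp p L).IsPrimitive := by
  intro r hr
  have h1 : r ∣ X ^ 2 - X := by
    rw [← (qp_deg hp).2]
    exact (C_dvd_iff_dvd_coeff _ _).1 hr _
  have h2 : C r ∣ C (X ^ 2 - X) * rp p L := by
    obtain ⟨u, hu⟩ := h1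
    exact ⟨C u * rp p L, by rw [hu, C_mul, mul_assoc]⟩
  have h3 : C r ∣ (X + C (X - 1) : L[X][X]) := by
    have h4 := dvd_sub h2 hr
    rwa [qp, sub_sub_cancel] at h4
  have h5 := (C_dvd_iff_dvd_coeff _ _).1 h3 1
  rw [coeff_add, coeff_X_one, coeff_C_succ, add_zero] at h5
  exact isUnit_of_dvd_one h5

theorem qp_coeff {p : ℕ} (i : ℕ) (hi : 1 < i) : ((qp p L).coeff i).coeff 0 = 0 := by
  have h1 : (qp p L).map (evalRingHom 0) = -(X + C (-1)) := by
    rw [qp]
    simp only [Polynomial.map_sub, Polynomial.map_add, Polynomial.map_mul, map_X, map_C,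
      coe_evalRingHom, eval_pow, eval_X, eval_sub, eval_one]
    rw [zero_pow two_ne_zero, sub_zero, C_0, zero_mul, zero_sub, zero_sub]
  rw [coeff_zero_eq_eval_zero]
  have h2 := congrArg (fun f => coeff f i) h1
  simp only [coeff_map, coe_evalRingHom, coeff_neg, coeff_add, coeff_C, coeff_X] at h2
  rw [h2, if_neg (by omega), if_neg (by omega), add_zero, neg_zero]

end qp

section fam

variable {p : ℕ} [Fact p.Prime] {L N : Type} [Field L] [Field N]
    [Algebra (ZMod p) L] [Algebra (ZMod p) N] [Algebra L N] [IsScalarTower (ZMod p) L N]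

/-- The equation of a root. -/
def Rt (s κ a : N) (p : ℕ) : Prop := (a ^ 2 - a) * (a ^ p - s + κ) + 1 = 0

omit [Algebra (ZMod p) L] [Algebra L N] [IsScalarTower (ZMod p) L N] [Field L] in
theorem eval_f (t : OType p (p + 2)) (hV : t.V = X ^ 2 - X) (hW : t.W = 1) (κ b : N) :
    (t.f κ).eval b = (b ^ 2 - b) * (b ^ p - algebraMap (ZMod p) N t.s + κ) + 1 := by
  rw [OType.f, hV, hW]
  simp

omit [Fact p.Prime] [Algebra (ZMod p) L] [Algebra L N] [IsScalarTower (ZMod p) L N] [Field L]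
  [Algebra (ZMod p) N] in
theorem rt_ne {s κ a : N} (h : Rt s κ a p) : a ^ 2 - a ≠ 0 := by
  intro h1
  rw [Rt, h1, zero_mul, zero_add] at h
  exact one_ne_zero h

omit [Fact p.Prime] [Algebra (ZMod p) L] [IsScalarTower (ZMod p) L N]
  [Algebra (ZMod p) N] in
theorem kap_mem {s κ a : N} (h : Rt s κ a p) (K : IntermediateField L N) (hs : s ∈ K)
    (ha : a ∈ K) : κ ∈ K := by
  have h0 := rt_ne h
  have h1 : κ = s - a ^ p - (a ^ 2 - a)⁻¹ := by
    have h2 : (a ^ 2 - a) * (a ^ p - s + κ) + 1 = 0 := h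
    have h3 : a ^ p - s + κ = -(a ^ 2 - a)⁻¹ := by
      rw [eq_neg_iff_add_eq_zero]
      apply (mul_eq_zero.1 _).resolve_left h0
      rw [mul_add, mul_inv_cancel₀ h0]
      exact h2
    linear_combination h3
  rw [h1]
  have h5 : a ^ p ∈ K := pow_mem ha p
  have h6 : a ^ 2 ∈ K := pow_mem ha 2
  exact K.sub_mem (K.sub_mem hs h5) (K.inv_mem (K.sub_mem h6 ha))

omit [Algebra (ZMod p) L] [IsScalarTower (ZMod p) L N] in
/-- The data over `K = L(a)`: the polynomial `Q`, and its properties. -/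
theorem dat (h0 : NewtStmt) (hp : 5 ≤ p)
    {s κ : N} (s₀ : L) (hs : s = algebraMap L N s₀)
    (hκ : Transcendental L κ) (halg : Algebra.IsAlgebraic (IntermediateField.adjoin L {κ}) N)
    {a : N} (ha : Rt s κ a p) : ∃ K : IntermediateField L N, a ∈ K ∧ κ ∈ K ∧
      Algebra.IsAlgebraic K N ∧ ∃ Q : K[X], Q.natDegree = p + 1 ∧
      (∀ q₁ q₂ : K[X], Q = q₁ * q₂ → q₁.natDegree ≤ 1 ∨ q₂.natDegree ≤ 1) ∧
      (∀ b : N, (b - a) * aeval b Q =
        (a ^ 2 - a) * ((b ^ 2 - b) * (b ^ p - s + κ) + 1)) := by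
  have hsm : ∀ K : IntermediateField L N, s ∈ K := fun K => by
    rw [hs]
    exact K.algebraMap_mem _
  have htr : Transcendental L a := by
    intro h2
    have h3 : a ∈ algebraicClosure L N := mem_algebraicClosure_iff.2 h2
    exact hκ (mem_algebraicClosure_iff.1 (kap_mem ha _ (hsm _) h3))
  have haK : a ∈ IntermediateField.adjoin L {a} := IntermediateField.mem_adjoin_simple_self L a
  have hκK : κ ∈ IntermediateField.adjoin L {a} := kap_mem ha _ (hsm _) haK
  have halgK : Algebra.IsAlgebraic (IntermediateField.adjoin L {a}) N := by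
    refine alg_mono ?_ halg
    rw [IntermediateField.adjoin_simple_le_iff]
    exact hκK
  set K := IntermediateField.adjoin L {a} with hK
  set φ : L[X] →+* K := (aeval (IntermediateField.AdjoinSimple.gen L a) : L[X] →ₐ[L] K).toRingHom
    with hφ
  have hφX : ∀ g : L[X], algebraMap K N (φ g) = aeval a g := by
    intro g
    have h5 := aeval_algebraMap_apply N (IntermediateField.AdjoinSimple.gen L a) g
    rw [IntermediateField.AdjoinSimple.algebraMap_gen] at h5
    exact h5.symm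
  have hφi : Function.Injective φ := by
    intro g g' h5
    have h6 : aeval a g = aeval a g' := by rw [← hφX, ← hφX, h5]
    exact (transcendental_iff_injective.1 htr) h6
  have hN := h0 L N a htr (qp p L) 1 (qp_prim hp) (fun i hi => qp_coeff i hi) (by
    rw [(qp_deg hp).2, coeff_sub, coeff_X_pow, coeff_X_one, if_neg (by norm_num), zero_sub]
    exact neg_ne_zero.2 one_ne_zero)
  have hchar : CharP N p := charP_of_injective_algebraMap (algebraMap (ZMod p) N).injective p
  have ha' : (a ^ 2 - a) * (a ^ p - s + κ) + 1 = 0 := ha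
  refine ⟨K, haK, hκK, halgK, (qp p L).map φ, ?_, fun q₁ q₂ h => hN q₁ q₂ h, ?_⟩
  · rw [natDegree_map_eq_of_injective hφi, (qp_deg hp).1]
  · intro b
    have hev : aeval b ((qp p L).map φ) = (a ^ 2 - a) * (b * (b - 1) * (b - a) ^ (p - 1)) -
        (b + (a - 1)) := by
      rw [aeval_def, eval₂_eq_eval_map, Polynomial.map_map, qp, rp]
      simp only [Polynomial.map_add, Polynomial.map_mul, Polynomial.map_pow, Polynomial.map_sub,
        Polynomial.map_one, eval_sub, eval_one, map_X, map_C,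
        eval_add, eval_mul, eval_pow, eval_X, eval_C, RingHom.comp_apply, hφX,
        map_pow, map_sub, aeval_X, map_one]
    rw [hev]
    have h6 : (b - a) ^ p = b ^ p - a ^ p := sub_pow_char b a
    have h7 : (b - a) * (b - a) ^ (p - 1) = (b - a) ^ p := by
      rw [← pow_succ', Nat.sub_add_cancel (by omega)]
    linear_combination (a ^ 2 - a) * (b ^ 2 - b) * h7 + (a ^ 2 - a) * (b ^ 2 - b) * h6 -
      (b ^ 2 - b) * ha'

omit [Fact p.Prime] [Algebra (ZMod p) L] [Algebra (ZMod p) N] [IsScalarTower (ZMod p) L N] in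
/-- At most one further root in `K`. -/
theorem atmost {K : IntermediateField L N} {Q : K[X]} (hp : 5 ≤ p) (hQ : Q.natDegree = p + 1)
    (hN : ∀ q₁ q₂ : K[X], Q = q₁ * q₂ → q₁.natDegree ≤ 1 ∨ q₂.natDegree ≤ 1) {b c : N}
    (hb : aeval b Q = 0) (hc : aeval c Q = 0) (hbc : b ≠ c) (hbK : b ∈ K) (hcK : c ∈ K) :
    False := by
  have hev : ∀ u : K, aeval (u : N) Q = 0 → Q.eval u = 0 := by
    intro u hu
    have h1 := aeval_algebraMap_apply N u Q
    have h2 : algebraMap K N u = (u : N) := rfl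
    rw [h2, hu, coe_aeval_eq_eval] at h1
    exact (map_eq_zero (algebraMap K N)).1 h1.symm
  obtain ⟨g, hg⟩ := dvd_iff_isRoot.2 (show IsRoot Q ⟨b, hbK⟩ from hev ⟨b, hbK⟩ hb)
  have hcQ := hev ⟨c, hcK⟩ hc
  rw [hg, eval_mul, eval_sub, eval_X, eval_C] at hcQ
  have h3 : (⟨c, hcK⟩ - ⟨b, hbK⟩ : K) ≠ 0 := by
    rw [sub_ne_zero]
    intro h
    exact hbc (congrArg Subtype.val h).symm
  obtain ⟨g', hg'⟩ := dvd_iff_isRoot.2
    (show IsRoot g ⟨c, hcK⟩ from (mul_eq_zero.1 hcQ).resolve_left h3)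
  have hg0 : g' ≠ 0 := by
    rintro rfl
    rw [mul_zero] at hg'
    rw [hg, hg', mul_zero, natDegree_zero] at hQ
    omega
  have hd : ((X - C ⟨b, hbK⟩) * (X - C ⟨c, hcK⟩) : K[X]).natDegree = 2 := by
    rw [natDegree_mul (X_sub_C_ne_zero _) (X_sub_C_ne_zero _), natDegree_X_sub_C,
      natDegree_X_sub_C]
  have hQe : Q = ((X - C ⟨b, hbK⟩) * (X - C ⟨c, hcK⟩)) * g' := by
    rw [hg, hg', mul_assoc]
  have hd' : Q.natDegree = 2 + g'.natDegree := by
    rw [hQe, natDegree_mul (mul_ne_zero (X_sub_C_ne_zero _) (X_sub_C_ne_zero _)) hg0, hd]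
  rcases hN _ _ hQe with h | h
  · rw [hd] at h
    omega
  · omega

omit [Fact p.Prime] [Algebra (ZMod p) L] [Algebra (ZMod p) N] [IsScalarTower (ZMod p) L N] in
/-- Many conjugates. -/
theorem many {K : IntermediateField L N} {Q : K[X]} [IsAlgClosed N] (hp : 5 ≤ p)
    (halg : Algebra.IsAlgebraic K N) (hQ : Q.natDegree = p + 1)
    (hN : ∀ q₁ q₂ : K[X], Q = q₁ * q₂ → q₁.natDegree ≤ 1 ∨ q₂.natDegree ≤ 1)
    {n : ℕ} (y : Fin n → N) (hy : Function.Injective y) (a : N) (c : N) (hc : c ≠ 0)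
    (hf : (X - C a) * Q.map (algebraMap K N) = C c * ∏ i, (X - C (y i)))
    (i : Fin n) (hi : aeval (y i) Q = 0) (hiK : y i ∉ K) :
    ∃ T : Finset (Fin n), (∀ i' ∈ T, aeval (y i') (minpoly K (y i)) = 0) ∧ p ≤ T.card := by
  classical
  set m := minpoly K (y i) with hm
  have hint : IsIntegral K (y i) := (Algebra.IsAlgebraic.isAlgebraic (y i)).isIntegral
  have hm0 : m ≠ 0 := minpoly.ne_zero hint
  obtain ⟨g, hg⟩ : m ∣ Q := minpoly.dvd K (y i) hi
  have hQ0 : Q ≠ 0 := by
    rintro rfl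
    rw [natDegree_zero] at hQ
    omega
  have hg0 : g ≠ 0 := by
    rintro rfl
    exact hQ0 (by rw [hg, mul_zero])
  have hdeg : p ≤ m.natDegree := by
    have h1 : Q.natDegree = m.natDegree + g.natDegree := by
      rw [hg, natDegree_mul hm0 hg0]
    rcases hN m g hg with h | h
    · exfalso
      have h2 : 0 < m.natDegree := minpoly.natDegree_pos hint
      have h3 : m.natDegree = 1 := by omega
      obtain ⟨u, hu⟩ := minpoly.natDegree_eq_one_iff.1 h3
      apply hiK
      rw [← hu]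
      exact u.2
    · omega
  have hdvd : m.map (algebraMap K N) ∣ ∏ i, (X - C (y i)) := by
    have h1 : m.map (algebraMap K N) ∣ C c * ∏ i, (X - C (y i)) := by
      rw [← hf, hg, Polynomial.map_mul]
      exact Dvd.dvd.mul_left (dvd_mul_right _ _) _
    exact (IsUnit.dvd_mul_left (isUnit_C.2 (IsUnit.mk0 c hc))).1 h1
  have hsep : (m.map (algebraMap K N)).Separable :=
    (separable_prod_X_sub_C_iff.2 hy).of_dvd hdvd
  have hcard : (m.map (algebraMap K N)).roots.toFinset.card = m.natDegree := by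
    rw [Multiset.toFinset_card_of_nodup (nodup_roots hsep),
      ← (IsAlgClosed.splits (m.map (algebraMap K N))).natDegree_eq_card_roots, natDegree_map]
  have hmm0 : m.map (algebraMap K N) ≠ 0 := (Polynomial.map_ne_zero_iff (algebraMap K N).injective).2 hm0
  refine ⟨Finset.univ.filter fun i' => aeval (y i') m = 0, fun i' hi' => (Finset.mem_filter.1 hi').2,
    ?_⟩
  refine (hdeg.trans hcard.ge).trans ?_
  refine (Finset.card_le_card (t := (Finset.univ.filter fun i' => aeval (y i') m = 0).image y)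
    ?_).trans Finset.card_image_le
  intro b hb
  rw [Multiset.mem_toFinset, mem_roots hmm0] at hb
  have hb1 : (∏ i, (X - C (y i))).eval b = 0 := eval_eq_zero_of_dvd_of_eval_eq_zero hdvd hb
  rw [eval_prod, Finset.prod_eq_zero_iff] at hb1
  obtain ⟨i', -, hi'⟩ := hb1
  rw [eval_sub, eval_X, eval_C, sub_eq_zero] at hi'
  rw [Finset.mem_image]
  refine ⟨i', Finset.mem_filter.2 ⟨Finset.mem_univ _, ?_⟩, hi'.symm⟩
  rw [aeval_def, ← eval_map, ← hi']
  exact hb

end fam

end MP7Z.A3.OPrM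

namespace MP7Z.A3

open Polynomial MP7Z OPrM
open scoped Pointwise

/-- **OPr.** -/
theorem tOPr (h0 : NewtStmt) (h1 : ConjStmt) (h2 : OTrStmt) : OPrStmt := by
  classical
  intro p _ hp t hV hW L N _ _ _ _ _ _ _ _ κ hκ halg y hy hf
  have htr := (h2 p (p + 2) t L N κ hκ halg y hy hf).1
  set s : N := algebraMap (ZMod p) N t.s with hs
  have hs' : s = algebraMap L N (algebraMap (ZMod p) L t.s) := by
    rw [hs, IsScalarTower.algebraMap_apply (ZMod p) L N]
  have hroot : ∀ i, Rt s κ (y i) p := by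
    intro i
    rw [Rt, ← eval_f t hV hW κ (y i), hf, eval_prod, Finset.prod_eq_zero (Finset.mem_univ i)
      (by simp)]
  -- automorphisms which fix `κ` permute the roots
  have hperm : ∀ σ : N ≃ₐ[L] N, σ κ = κ → ∃ ρ ∈ PermGrp L {κ} y, ∀ i, σ (y i) = y (ρ i) := by
    intro σ hσ
    have h3 : (σ : N →+* N) κ = κ := hσ
    have hf1 : t.f κ = C 1 * ∏ i, (X - C (y i)) := by rw [C_1, one_mul, hf]
    have hmap : (t.f κ).map (σ : N →+* N) = C 1 * ∏ i, (X - C (y i)) := by
      rw [t.map_f, h3, hf1]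
    obtain ⟨ρ, hρ⟩ := exists_perm hy one_ne_zero (σ : N →+* N) hf1 hmap
    refine ⟨ρ, mem_permGrp.2 ⟨σ, fun a ha => ?_, hρ⟩, hρ⟩
    rw [Set.mem_singleton_iff] at ha
    rw [ha, hσ]
  have hpt : MulAction.IsPretransitive (PermGrp L {κ} y) (Fin (p + 2)) :=
    ⟨fun i l => by
      obtain ⟨ρ, hρ, hρi⟩ := htr i l
      exact ⟨⟨ρ, hρ⟩, hρi⟩⟩
  refine { hpt with isTrivialBlock_of_isBlock := ?_ }
  intro B hB
  by_cases hsub : B.Subsingleton
  · exact Or.inl hsub
  right
  rw [Set.not_subsingleton_iff] at hsub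
  obtain ⟨l, hl, i, hi, hli⟩ := hsub
  obtain ⟨K, haK, hκK, halgK, Q, hQd, hQN, hQe⟩ := dat h0 hp _ hs' hκ halg (hroot l)
  have hV0 : y l ^ 2 - y l ≠ 0 := rt_ne (hroot l)
  have hQr : ∀ i, i ≠ l → aeval (y i) Q = 0 := by
    intro i hil
    have h3 := hQe (y i)
    have h4 : (y i ^ 2 - y i) * (y i ^ p - s + κ) + 1 = 0 := hroot i
    rw [h4, mul_zero] at h3
    exact (mul_eq_zero.1 h3).resolve_left (sub_ne_zero.2 fun h => hil (hy h))
  have hpoly : (X - C (y l)) * Q.map (algebraMap K N) =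
      C (y l ^ 2 - y l) * ∏ i, (X - C (y i)) := by
    have : Infinite N := IsAlgClosed.instInfinite
    refine Polynomial.funext fun b => ?_
    rw [← hf, eval_mul, eval_mul, eval_sub, eval_X, eval_C, eval_C, eval_f t hV hW, eval_map,
      ← aeval_def]
    exact hQe b
  -- the stabilizer
  have hstab : ∀ i, i ≠ l → ∀ i', aeval (y i') (minpoly K (y i)) = 0 →
      i' ≠ l ∧ ∃ ρ ∈ PermGrp L {κ} y, ρ l = l ∧ ρ i = i' := by
    intro i hil i' hi'
    have hint : IsIntegral K (y i) := (Algebra.IsAlgebraic.isAlgebraic (y i)).isIntegral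
    obtain ⟨σ, hσ⟩ := h1 K N (minpoly K (y i)) (minpoly.irreducible hint) (y i) (y i')
      (minpoly.aeval K (y i)) hi'
    have hT : IsScalarTower L K N := .of_algebraMap_eq fun _ => rfl
    have hσa : σ (y l) = y l := σ.commutes ⟨y l, haK⟩
    have hσκ : σ κ = κ := σ.commutes ⟨κ, hκK⟩
    obtain ⟨ρ, hρ, hρσ⟩ := hperm (σ.restrictScalars L) hσκ
    have hρσ' : ∀ i, σ (y i) = y (ρ i) := hρσ
    refine ⟨?_, ρ, hρ, hy ?_, hy ?_⟩
    · intro h3
      rw [h3, ← hσa] at hσ
      exact hil (hy (σ.injective hσ))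
    · rw [← hρσ', hσa]
    · rw [← hρσ', hσ]
  have hBs : ∀ i ∈ B, i ≠ l → ∀ i', aeval (y i') (minpoly K (y i)) = 0 → i' ∈ B := by
    intro i hi hil i' hi'
    obtain ⟨-, ρ, hρ, hρl, hρi⟩ := hstab i hil i' hi'
    have h3 : (⟨ρ, hρ⟩ : PermGrp L {κ} y) • l = l := hρl
    have h4 : (⟨ρ, hρ⟩ : PermGrp L {κ} y) • B = B := hB.smul_eq_of_mem hl (by rw [h3]; exact hl)
    have h5 : (⟨ρ, hρ⟩ : PermGrp L {κ} y) • i ∈ (⟨ρ, hρ⟩ : PermGrp L {κ} y) • B :=
      Set.smul_mem_smul_set hi
    rw [h4] at h5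
    have h6 : (⟨ρ, hρ⟩ : PermGrp L {κ} y) • i = i' := hρi
    rwa [h6] at h5
  by_cases hall : ∀ i ∈ B, i ≠ l → y i ∈ K
  · exfalso
    have hB2 : B = {l, i} := by
      ext i'
      constructor
      · intro hi'
        by_contra h3
        rw [Set.mem_insert_iff, Set.mem_singleton_iff, not_or] at h3
        exact atmost hp hQd hQN (hQr i hli.symm) (hQr i' h3.1) (fun h => h3.2 (hy h).symm)
          (hall i hi hli.symm) (hall i' hi' h3.1)
      · rintro (rfl | h3)
        · exact hl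
        · rw [Set.mem_singleton_iff] at h3
          rw [h3]
          exact hi
    have h3 := hB.ncard_dvd_card ⟨l, hl⟩
    rw [hB2, Set.ncard_pair hli, Nat.card_eq_fintype_card, Fintype.card_fin] at h3
    have h4 : 2 ∣ p := by omega
    have h5 := (Nat.prime_dvd_prime_iff_eq Nat.prime_two (Fact.out : p.Prime)).1 h4
    omega
  · rw [not_forall] at hall
    obtain ⟨j, hj⟩ := hall
    rw [Classical.not_imp, Classical.not_imp] at hj
    obtain ⟨hjB, hjl, hjK⟩ := hj
    obtain ⟨T, hT1, hT2⟩ := many hp halgK hQd hQN y hy (y l) _ hV0 hpoly j (hQr j hjl) hjK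
    have hlT : l ∉ T := fun h => (hstab j hjl l (hT1 l h)).1 rfl
    refine hB.eq_univ_of_card_lt ?_
    have h3 : ((insert l T : Finset (Fin (p + 2))) : Set (Fin (p + 2))) ⊆ B := by
      intro i' hi'
      rw [Finset.mem_coe, Finset.mem_insert] at hi'
      rcases hi' with h4 | h4
      · rw [h4]
        exact hl
      · exact hBs j hjB hjl i' (hT1 i' h4)
    have h5 := Set.ncard_le_ncard h3 (Set.toFinite B)
    rw [Set.ncard_coe_finset, Finset.card_insert_of_notMem hlT] at h5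
    rw [Nat.card_eq_fintype_card, Fintype.card_fin]
    omega

end MP7Z.A3
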