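import Pool.Agent.Lib.MP_7f581e_Z.Alt3.Spec

/-!
# Alternating groups of small degree: value at `s`, degree, separability, multiple roots
-/

set_option autoImplicit false

namespace MP7Z.A3

open Polynomial MP7Z

namespace OSepM

variable {p n : ℕ} [Fact p.Prime] (t : OType p n) {F : Type} [Field F] [Algebra (ZMod p) F]

/-- `V P' - V' P = c₁ (X - s) D`. -/
theorem wronski {M : F[X]} (hM : derivative M = 0) :
    t.V.map (algebraMap (ZMod p) F) *
        derivative (t.V.map (algebraMap (ZMod p) F) * M + t.W.map (algebraMap (ZMod p) F)) -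
      derivative (t.V.map (algebraMap (ZMod p) F)) *
        (t.V.map (algebraMap (ZMod p) F) * M + t.W.map (algebraMap (ZMod p) F)) =
      C (algebraMap (ZMod p) F t.c₁) * (X - C (algebraMap (ZMod p) F t.s)) *
        t.D.map (algebraMap (ZMod p) F) := by
  have h := congrArg (Polynomial.map (algebraMap (ZMod p) F)) t.key
  simp only [Polynomial.map_sub, Polynomial.map_mul, map_C, map_X] at h
  rw [← derivative_map, ← derivative_map] at h
  rw [← h, derivative_add, derivative_mul, hM]
  ring

/-- A root of `D` is a root of `V`. -/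
theorem root_V {r : F} (h : (t.D.map (algebraMap (ZMod p) F)).eval r = 0) :
    (t.V.map (algebraMap (ZMod p) F)).eval r = 0 := by
  obtain ⟨Q, hQ⟩ := t.dvd
  have h1 := congrArg (fun R : (ZMod p)[X] => (R.map (algebraMap (ZMod p) F)).eval r) hQ
  simp only [Polynomial.map_mul, Polynomial.map_pow, eval_mul, eval_pow, h, zero_mul] at h1
  exact eq_zero_of_pow_eq_zero h1

theorem c_ne : algebraMap (ZMod p) F t.c₁ ≠ 0 := by
  rw [Ne, FaithfulSMul.algebraMap_eq_zero_iff]
  exact t.hc₁

theorem sep {M : F[X]} (hM : derivative M = 0)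
    (hs : (t.V.map (algebraMap (ZMod p) F) * M + t.W.map (algebraMap (ZMod p) F)).eval
      (algebraMap (ZMod p) F t.s) ≠ 0) :
    (t.V.map (algebraMap (ZMod p) F) * M + t.W.map (algebraMap (ZMod p) F)).Separable := by
  have key := wronski t hM
  set V := t.V.map (algebraMap (ZMod p) F) with hV
  set W := t.W.map (algebraMap (ZMod p) F) with hW
  set P := V * M + W with hP
  have h1 : IsCoprime P V := by
    rcases t.hWV with h | h
    · refine ⟨1, -M, ?_⟩
      rw [hP, hW, h, Polynomial.map_one]
      ring
    · rw [hV, h, Polynomial.map_one]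
      exact isCoprime_one_right
  have h2 : IsCoprime P (t.D.map (algebraMap (ZMod p) F)) := by
    have h3 : t.D.map (algebraMap (ZMod p) F) ∣ V ^ t.k := by
      rw [hV, ← Polynomial.map_pow]
      exact Polynomial.map_dvd _ t.dvd
    exact IsCoprime.of_isCoprime_of_dvd_right (h1.pow_right (n := t.k)) h3
  have h3 : IsCoprime P (X - C (algebraMap (ZMod p) F t.s)) := by
    rw [isCoprime_comm, (irreducible_X_sub_C (algebraMap (ZMod p) F t.s)).coprime_iff_not_dvd,
      dvd_iff_isRoot]
    exact hs
  have hc : IsUnit (C (algebraMap (ZMod p) F t.c₁)) := by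
    rw [isUnit_C, isUnit_iff_ne_zero]
    exact c_ne t
  have h4 : IsCoprime P (V * derivative P - derivative V * P) := by
    rw [key, mul_assoc, isCoprime_mul_unit_left_right hc]
    exact h3.mul_right h2
  have h5 : V * derivative P - derivative V * P = V * derivative P + P * (-derivative V) := by
    ring
  rw [h5] at h4
  exact (h4.of_add_mul_left_right).of_mul_right_right

theorem mul {M : F[X]} (hM : derivative M = 0) :
    (∀ r : F, (X - C r) ^ 2 ∣ t.V.map (algebraMap (ZMod p) F) * M +
      t.W.map (algebraMap (ZMod p) F) → r = algebraMap (ZMod p) F t.s) ∧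
    ¬ (X - C (algebraMap (ZMod p) F t.s)) ^ 3 ∣ t.V.map (algebraMap (ZMod p) F) * M +
      t.W.map (algebraMap (ZMod p) F) := by
  have hw := wronski t hM
  refine ⟨fun r hr => ?_, fun h3 => ?_⟩
  · by_contra hne
    have hP : X - C r ∣ t.V.map (algebraMap (ZMod p) F) * M + t.W.map (algebraMap (ZMod p) F) :=
      (dvd_pow_self _ two_ne_zero).trans hr
    have hP' : X - C r ∣ derivative
        (t.V.map (algebraMap (ZMod p) F) * M + t.W.map (algebraMap (ZMod p) F)) := by
      have h1 := pow_sub_one_dvd_derivative_of_pow_dvd hr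
      rwa [show 2 - 1 = 1 from rfl, pow_one] at h1
    have h2 := dvd_sub (hP'.mul_left (t.V.map (algebraMap (ZMod p) F)))
      (hP.mul_left (derivative (t.V.map (algebraMap (ZMod p) F))))
    rw [hw, dvd_iff_isRoot, IsRoot, eval_mul, eval_mul, eval_C, eval_sub, eval_X, eval_C] at h2
    have h4 : (t.D.map (algebraMap (ZMod p) F)).eval r = 0 :=
      (mul_eq_zero.mp h2).resolve_left (mul_ne_zero (c_ne t) (sub_ne_zero.mpr hne))
    have h5 := root_V t h4
    rw [dvd_iff_isRoot, IsRoot, eval_add, eval_mul, h5, zero_mul, zero_add] at hP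
    rcases t.hWV with h6 | h6
    · rw [h6, Polynomial.map_one, eval_one] at hP
      exact one_ne_zero hP
    · rw [h6, Polynomial.map_one, eval_one] at h5
      exact one_ne_zero h5
  · have hP' : (X - C (algebraMap (ZMod p) F t.s)) ^ 2 ∣ derivative
        (t.V.map (algebraMap (ZMod p) F) * M + t.W.map (algebraMap (ZMod p) F)) := by
      have h1 := pow_sub_one_dvd_derivative_of_pow_dvd h3
      rwa [show 3 - 1 = 2 from rfl] at h1
    have hP : (X - C (algebraMap (ZMod p) F t.s)) ^ 2 ∣
        t.V.map (algebraMap (ZMod p) F) * M + t.W.map (algebraMap (ZMod p) F) :=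
      (pow_dvd_pow _ (by norm_num)).trans h3
    have h2 := dvd_sub (hP'.mul_left (t.V.map (algebraMap (ZMod p) F)))
      (hP.mul_left (derivative (t.V.map (algebraMap (ZMod p) F))))
    rw [hw] at h2
    obtain ⟨Q, hQ⟩ := h2
    have h4 : C (algebraMap (ZMod p) F t.c₁) * t.D.map (algebraMap (ZMod p) F) =
        (X - C (algebraMap (ZMod p) F t.s)) * Q := by
      apply mul_left_cancel₀ (X_sub_C_ne_zero (algebraMap (ZMod p) F t.s))
      linear_combination hQ
    have h5 := congrArg (eval (algebraMap (ZMod p) F t.s)) h4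
    rw [eval_mul, eval_mul, eval_C, eval_sub, eval_X, eval_C, sub_self, zero_mul] at h5
    have h6 := root_V t ((mul_eq_zero.mp h5).resolve_left (c_ne t))
    rw [eval_map_algebraMap, aeval_algebraMap_apply_eq_algebraMap_eval,
      FaithfulSMul.algebraMap_eq_zero_iff] at h6
    exact t.hs h6

end OSepM

open OSepM

theorem tOSep : OSepStmt := by
  intro p n _ t F _ _ κ
  have hp : p.Prime := Fact.out
  have : CharP F p := charP_of_injective_algebraMap' (ZMod p) p
  set M : F[X] := X ^ p - C (algebraMap (ZMod p) F t.s) + C κ with hMdef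
  have hf : t.f κ = t.V.map (algebraMap (ZMod p) F) * M + t.W.map (algebraMap (ZMod p) F) := rfl
  have hM : derivative M = 0 := by
    rw [hMdef, derivative_add, derivative_sub, derivative_C, derivative_C, derivative_X_pow,
      CharP.cast_eq_zero, C_0, zero_mul, sub_zero, add_zero]
  have hM' : M = X ^ p + C (κ - algebraMap (ZMod p) F t.s) := by
    rw [hMdef, C_sub]
    ring
  have hMm : M.Monic := by
    rw [hM']
    exact monic_X_pow_add_C _ hp.ne_zero
  have hMd : M.natDegree = p := by
    rw [hM']
    exact natDegree_X_pow_add_C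
  have hVm : (t.V.map (algebraMap (ZMod p) F)).Monic := t.hV.map _
  have hVMm : (t.V.map (algebraMap (ZMod p) F) * M).Monic := hVm.mul hMm
  have hVMd : (t.V.map (algebraMap (ZMod p) F) * M).natDegree = n := by
    rw [hVm.natDegree_mul hMm, hMd, t.hV.natDegree_map, add_comm]
    exact t.hn.symm
  have hWd : (t.W.map (algebraMap (ZMod p) F)).natDegree <
      (t.V.map (algebraMap (ZMod p) F) * M).natDegree := by
    rw [hVMd]
    exact lt_of_le_of_lt natDegree_map_le t.hWn
  refine ⟨?_, ?_, ?_, ?_, ?_, ?_⟩
  · rw [hf]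
    exact hVMm.add_of_left (degree_lt_degree hWd)
  · rw [hf, natDegree_add_eq_left_of_natDegree_lt hWd, hVMd]
  · rw [hf, eval_add, eval_mul, eval_map_algebraMap, eval_map_algebraMap,
      aeval_algebraMap_apply_eq_algebraMap_eval, aeval_algebraMap_apply_eq_algebraMap_eval,
      hMdef, eval_add, eval_sub, eval_pow, eval_X, eval_C, eval_C, ← map_pow, ZMod.pow_card,
      sub_self, zero_add]
  · intro hs
    rw [hf] at hs ⊢
    exact sep t hM hs
  · rw [hf]
    exact (mul t hM).1
  · rw [hf]
    exact (mul t hM).2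

end MP7Z.A3
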