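import Pool.Agent.Lib.MP_7f581e_Z.Alt3.Spec

/-!
# Alternating groups of small degree: the generic group is transitive and contains a transposition
-/

set_option autoImplicit false

namespace MP7Z.A3

open Polynomial MP7Z

namespace OTrM

variable {p n : ℕ} [Fact p.Prime] (t : OType p n) {F : Type} [Field F] [Algebra (ZMod p) F]

/-- `V P' - V' P = c₁ (X - s) D`. -/
theorem wronski {M : F[X]} (hM : derivative M = 0) :
    t.V.map (algebraMap (ZMod p) F) *
        derivative (t.V.map (algebraMap (ZMod p) F) * M + t.W.map (algebraMap (ZMod p) F)) -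
      derivative (t.V.map (algebraMap (ZMod p) F)) *
        (t.V.map (algebraMap (ZMod p) F) * M + t.W.map (algebraMap (ZMod p) F)) =
      C (algebraMap (ZMod p) F t.c₁) * (X - C (algebraMap (ZMod p) F t.s)) *
        t.D.map (algebraMap (ZMod p) F) := by
  have h := congrArg (Polynomial.map (algebraMap (ZMod p) F)) t.key
  simp only [Polynomial.map_sub, Polynomial.map_mul, map_C, map_X] at h
  rw [← derivative_map, ← derivative_map] at h
  rw [← h, derivative_add, derivative_mul, hM]
  ring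

theorem evalV_ne : (t.V.map (algebraMap (ZMod p) F)).eval (algebraMap (ZMod p) F t.s) ≠ 0 := by
  rw [eval_map_algebraMap, aeval_algebraMap_apply_eq_algebraMap_eval, Ne,
    FaithfulSMul.algebraMap_eq_zero_iff]
  exact t.hs

/-- `t.f κ = t.f 0 + κ V`. -/
theorem f_eq (κ : F) : t.f κ = t.f 0 + C κ * t.V.map (algebraMap (ZMod p) F) := by
  rw [OType.f, OType.f, C_0]
  ring

theorem cop : IsCoprime (t.V.map (algebraMap (ZMod p) F)) (t.f (0 : F)) := by
  rcases t.hWV with h | h
  · refine ⟨-(X ^ p - C (algebraMap (ZMod p) F t.s) + C 0), 1, ?_⟩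
    rw [OType.f, h, Polynomial.map_one]
    ring
  · rw [h, Polynomial.map_one]
    exact isCoprime_one_left

/-- A root at `s` is a double root. -/
theorem sq_dvd (κ : F) (h : (t.f κ).eval (algebraMap (ZMod p) F t.s) = 0) :
    (X - C (algebraMap (ZMod p) F t.s)) ^ 2 ∣ t.f κ := by
  have : CharP F p := charP_of_injective_algebraMap' (ZMod p) p
  set M : F[X] := X ^ p - C (algebraMap (ZMod p) F t.s) + C κ with hMdef
  have hf : t.f κ = t.V.map (algebraMap (ZMod p) F) * M + t.W.map (algebraMap (ZMod p) F) := rfl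
  have hM : derivative M = 0 := by
    rw [hMdef, derivative_add, derivative_sub, derivative_C, derivative_C, derivative_X_pow,
      CharP.cast_eq_zero, C_0, zero_mul, sub_zero, add_zero]
  have hw := wronski t hM
  rw [← hf] at hw
  obtain ⟨g, hg⟩ := dvd_iff_isRoot.2 h
  have h1 := congrArg (eval (algebraMap (ZMod p) F t.s)) hw
  rw [eval_sub, eval_mul, eval_mul, eval_mul, eval_mul, h, eval_sub, eval_X, eval_C, eval_C,
    sub_self, mul_zero, mul_zero, zero_mul, sub_zero, hg, derivative_mul, derivative_sub, derivative_X,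
    derivative_C, sub_zero, one_mul, eval_add, eval_mul, eval_sub, eval_X, eval_C, sub_self,
    zero_mul, add_zero] at h1
  have h2 := (mul_eq_zero.1 h1).resolve_left (evalV_ne t)
  obtain ⟨q, hq⟩ := dvd_iff_isRoot.2 h2
  refine ⟨q, ?_⟩
  rw [hg, hq]
  ring

theorem separable_of_root [IsAlgClosed F] {q : F[X]}
    (h : ∀ r, ¬ ((X - C r) ^ 2 ∣ q)) : q.Separable := by
  rw [Polynomial.separable_def, Polynomial.isCoprime_iff_aeval_ne_zero_of_isAlgClosed F F]
  intro r
  by_contra hcon
  push Not at hcon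
  obtain ⟨h1, h2⟩ := hcon
  rw [coe_aeval_eq_eval] at h1 h2
  obtain ⟨g, hg⟩ := dvd_iff_isRoot.2 h1
  rw [hg, derivative_mul, derivative_sub, derivative_X, derivative_C, sub_zero, one_mul,
    eval_add, eval_mul, eval_sub, eval_X, eval_C, sub_self, zero_mul, add_zero] at h2
  obtain ⟨g', hg'⟩ := dvd_iff_isRoot.2 h2
  apply h r
  refine ⟨g', ?_⟩
  rw [hg, hg']
  ring

end OTrM

open OTrM

theorem tOTr (h0 : AutLinStmt) (h1 : CycStmt) (h2 : OSepStmt) : OTrStmt := by
  intro p n _ t L N _ _ _ _ _ _ _ _ κ hκ halg y hy hf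
  have hmV : (t.V.map (algebraMap (ZMod p) L)).map (algebraMap L N) =
      t.V.map (algebraMap (ZMod p) N) := by
    rw [Polynomial.map_map]
    congr 1
    exact Subsingleton.elim _ _
  have hm0 : (t.f (0 : L)).map (algebraMap L N) = t.f (0 : N) := by
    rw [t.map_f, map_zero]
  refine ⟨fun i l => ?_, ?_⟩
  · have hroot : ∀ i, κ * aeval (y i) (t.V.map (algebraMap (ZMod p) L)) +
        aeval (y i) (t.f (0 : L)) = 0 := by
      intro i
      have h3 : (t.f κ).eval (y i) = 0 := by
        rw [hf, eval_prod]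
        exact Finset.prod_eq_zero (Finset.mem_univ i) (by simp)
      rw [f_eq t κ, eval_add, eval_mul, eval_C, ← hmV, ← hm0, eval_map_algebraMap,
        eval_map_algebraMap] at h3
      rw [add_comm]
      exact h3
    obtain ⟨σ, hσ1, hσ2⟩ := h0 L N κ hκ halg _ _ (cop t) (y i) (y l) (hroot i) (hroot l)
    have h4 : (t.f κ).map (σ : N →+* N) = C 1 * ∏ i, (X - C (y i)) := by
      rw [t.map_f]
      have h5 : (σ : N →+* N) κ = κ := hσ1
      rw [h5, hf, C_1, one_mul]
    obtain ⟨ρ, hρ⟩ := exists_perm (c := (1 : N)) hy one_ne_zero (σ : N →+* N)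
      (by rw [hf, C_1, one_mul]) h4
    refine ⟨ρ, ⟨σ, ?_, hρ⟩, ?_⟩
    · intro a ha
      rw [Set.mem_singleton_iff] at ha
      rw [ha, hσ1]
    · apply hy
      rw [← hρ i]
      exact hσ2
  · have : CharP L p := charP_of_injective_algebraMap' (ZMod p) p
    have hp2 : ((2 : ℕ) : L) ≠ 0 := by
      intro h
      rw [CharP.cast_eq_zero_iff L p] at h
      exact t.odd ((Nat.prime_dvd_prime_iff_eq Fact.out Nat.prime_two).1 h)
    have hVs := evalV_ne (F := L) t
    obtain ⟨-, hdeg, -, -, -, -⟩ := h2 p n t L 0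
    set κ₀ : L := -algebraMap (ZMod p) L (t.W.eval t.s) /
      algebraMap (ZMod p) L (t.V.eval t.s) with hκ₀
    obtain ⟨-, -, hev, -, hmul, htri⟩ := h2 p n t L κ₀
    have hVs' : algebraMap (ZMod p) L (t.V.eval t.s) ≠ 0 := by
      rw [Ne, FaithfulSMul.algebraMap_eq_zero_iff]
      exact t.hs
    have h0s : (t.f κ₀).eval (algebraMap (ZMod p) L t.s) = 0 := by
      rw [hev, hκ₀, mul_div_cancel₀ _ hVs', neg_add_cancel]
    obtain ⟨q, hq⟩ := sq_dvd t κ₀ h0s
    have hqs : q.eval (algebraMap (ZMod p) L t.s) ≠ 0 := by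
      intro h
      obtain ⟨g, hg⟩ := dvd_iff_isRoot.2 h
      apply htri
      refine ⟨g, ?_⟩
      rw [hq, hg]
      ring
    have hsep : q.Separable := by
      apply separable_of_root
      intro r hr
      have h3 := hmul r (by rw [hq]; exact hr.mul_left _)
      rw [h3] at hr
      apply hqs
      obtain ⟨g, hg⟩ := hr
      rw [hg, eval_mul, eval_pow, eval_sub, eval_X, eval_C, sub_self, zero_pow two_ne_zero,
        zero_mul]
    have hVd : (t.V.map (algebraMap (ZMod p) L)).natDegree < n :=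
      lt_of_le_of_lt natDegree_map_le t.hVn
    obtain ⟨ρ, hρ, -, hcard⟩ := h1 L N κ hκ halg n 2 (t.f 0)
      (t.V.map (algebraMap (ZMod p) L)) q (algebraMap (ZMod p) L t.s) κ₀ le_rfl hp2 hdeg hVd
      (by rw [← f_eq t κ₀, hq]) hsep hqs hVs 1 y hy
      (by rw [hm0, hmV, ← f_eq t κ, hf, C_1, one_mul])
    exact ⟨ρ, hρ, Equiv.Perm.card_support_eq_two.1 hcard⟩

end MP7Z.A3
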