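import Pool.Agent.Lib.MP_7f581e_Z.Alt3.Spec

/-!
# Alternating groups of small degree: the types of the degrees `p` and `p + 2`
-/

set_option autoImplicit false

namespace MP7Z.A3

open Polynomial MP7Z

namespace OTyM

theorem two_ne {p : ℕ} [Fact p.Prime] (hp : 5 ≤ p) : (2 : ZMod p) ≠ 0 := by
  intro h
  have h1 : ((2 : ℕ) : ZMod p) = 0 := by exact_mod_cast h
  rw [ZMod.natCast_eq_zero_iff] at h1
  have h2 := Nat.le_of_dvd (by norm_num) h1
  omega

theorem natDegree_V {p : ℕ} [Fact p.Prime] : (X ^ 2 - X : (ZMod p)[X]).natDegree = 2 := by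
  rw [natDegree_sub_eq_left_of_natDegree_lt]
  · rw [natDegree_X_pow]
  · rw [natDegree_X_pow, natDegree_X]
    norm_num

theorem monic_V {p : ℕ} [Fact p.Prime] : (X ^ 2 - X : (ZMod p)[X]).Monic := by
  apply (monic_X_pow 2).sub_of_left
  rw [degree_X, degree_X_pow]
  norm_num

end OTyM

open OTyM

theorem tOTy : OTyStmt := by
  intro p _ hp
  have h2 := two_ne hp
  refine ⟨⟨⟨1, X ^ 2, 1, 0, 2, 0, ?_, ?_, ?_, ?_, ?_, ?_, ?_, ?_, ?_, ?_, ?_⟩, rfl, rfl⟩,
    ⟨⟨X ^ 2 - X, 1, 1, 2⁻¹, -2, 0, ?_, ?_, ?_, ?_, ?_, ?_, ?_, ?_, ?_, ?_, ?_⟩, rfl, rfl⟩⟩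
  · omega
  · exact monic_one
  · exact monic_one
  · rw [natDegree_one, add_zero]
  · exact h2
  · rw [eval_one]
    exact one_ne_zero
  · rw [derivative_one, derivative_X_pow, C_0]
    push_cast
    rw [show (C (2 : ZMod p) : (ZMod p)[X]) = 2 from rfl]
    ring
  · rw [pow_zero]
  · exact Or.inr rfl
  · rw [natDegree_X_pow]
    omega
  · rw [natDegree_one]
    omega
  · omega
  · exact monic_V
  · exact monic_one
  · rw [natDegree_V]
  · exact neg_ne_zero.2 h2
  · rw [eval_sub, eval_pow, eval_X]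
    intro h
    have h3 : (2 : ZMod p)⁻¹ * 2 = 1 := inv_mul_cancel₀ h2
    have h4 : (1 : ZMod p) = 0 := by
      linear_combination (-4) * h - (1 - 2 * (2 : ZMod p)⁻¹ - 0) * h3
    exact one_ne_zero h4
  · rw [derivative_one, derivative_sub, derivative_X_pow, derivative_X]
    have h3 : C (-2 : ZMod p) * (X - C (2 : ZMod p)⁻¹) * 1 = -2 * X + 1 := by
      rw [mul_one, mul_sub, ← C_mul, neg_mul, mul_inv_cancel₀ h2, C_neg, C_neg, C_1]
      rw [show (C (2 : ZMod p) : (ZMod p)[X]) = 2 from rfl]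
      ring
    rw [h3]
    push_cast
    rw [show (C (2 : ZMod p) : (ZMod p)[X]) = 2 from rfl]
    ring
  · rw [pow_zero]
  · exact Or.inl rfl
  · rw [natDegree_one]
    omega
  · rw [natDegree_V]
    omega

end MP7Z.A3
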