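import Pool.Agent.Lib.MP_7f581e_Z.Alt3.Spec

/-!
# Alternating groups of small degree: the equivariant elements (module ParB)
-/

set_option autoImplicit false

namespace MP7Z.A3

open Polynomial MP7Z

namespace ParBM

theorem fixes_adjoin {p : ℕ} [Fact p.Prime] {Ω : Type} [Field Ω] [Algebra (ZMod p) Ω] {x : Ω}
    {γ : Ω ≃ₐ[ZMod p] Ω} (hγ : γ ∈ Gx p x) : ∀ a ∈ Algebra.adjoin (ZMod p) {x}, γ a = a := by
  intro a ha
  have h : Algebra.adjoin (ZMod p) {x} ≤ AlgHom.equalizer (γ : Ω →ₐ[ZMod p] Ω) (AlgHom.id _ _) := by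
    rw [Algebra.adjoin_le_iff]
    intro z hz
    rw [Set.mem_singleton_iff] at hz
    subst hz
    exact mem_Gx.1 hγ
  exact h ha

/-- the elements `h j` are distinct -/
theorem inj {p : ℕ} [Fact p.Prime] {Ω : Type} [Field Ω] [Algebra (ZMod p) Ω] {x : Ω}
    {Q : Type} [Group Q] {ψ : Gx p x →* Q} (hsurj : Function.Surjective ψ)
    {k : ℕ} {act : Q →* Equiv.Perm (Fin k)} {j₀ : Fin k} (htr : ∀ j, ∃ q, act q j₀ = j)
    {V : ValuationSubring Ω} {h : Fin k → Ω}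
    (hγ : ∀ (γ : Gx p x) (j : Fin k), (γ : Ω ≃ₐ[ZMod p] Ω) (h j) = h (act (ψ γ) j))
    (h0 : V.valuation (h j₀ - 1) < 1) (h1 : ∀ j, j ≠ j₀ → V.valuation (h j) < 1) :
    Function.Injective h := by
  intro i j hij
  by_contra hne
  obtain ⟨q, hq⟩ := htr i
  obtain ⟨γ, rfl⟩ := hsurj q
  obtain ⟨j', hj'⟩ := (act (ψ γ)).surjective j
  have hj0 : j' ≠ j₀ := by
    rintro rfl
    exact hne (hq.symm.trans hj')
  have h2 : h j₀ = h j' := by
    apply (γ : Ω ≃ₐ[ZMod p] Ω).injective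
    rw [hγ, hγ, hq, hj', hij]
  have h3 : V.valuation (h j' - (h j₀ - 1)) < 1 :=
    Valuation.map_sub_lt _ (h1 j' hj0) h0
  rw [h2, sub_sub_cancel, map_one] at h3
  exact lt_irrefl _ h3

end ParBM

theorem tParB (h0 : ParStmt) (h1 : A2.AddStmt) (h2 : A2.DenStmt) : ParBStmt := by
  intro p _ Ω _ _ x hx Q _ _ ψ hψ hsurj k act ε j₀ hcoc htr
  obtain ⟨V₁, -, -, -, x₀, -, -, -, -, ⟨w, hw0, hwi, hw, -⟩, hh⟩ :=
    h0 p Ω x hx Q ψ hψ hsurj k act ε j₀ hcoc htr ∅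
  obtain ⟨h, hhi, hhγ, hh1, hhlt⟩ := hh 1 (one_mem _) (fun δ _ => map_one δ)
  have hinj : Function.Injective h := ParBM.inj hsurj htr hhγ hh1 hhlt
  by_cases hp : p = 2
  · subst hp
    obtain ⟨d, hd⟩ := h1 Ω x hx Q ψ hψ hsurj k act ε hcoc
    obtain ⟨g, hg, hg0, hint⟩ := h2 Ω x hx k d
    refine ⟨h, fun j => g * d j, g, hinj, hhγ, ?_, hg, hg0, fun h => absurd rfl h, hhi, hint⟩
    intro γ j
    change (γ : Ω ≃ₐ[ZMod 2] Ω) (g * d j) = tw 2 (ε (ψ γ) j) (g * d (act (ψ γ) j)) g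
    rw [map_mul, ParBM.fixes_adjoin γ.2 g hg, hd, tw, if_pos rfl, chi]
    split_ifs <;> ring
  · refine ⟨h, w, 1, hinj, hhγ, ?_, one_mem _, one_ne_zero, fun _ => hw0, hhi, hwi⟩
    intro γ j
    rw [hw, tw, if_neg hp]

end MP7Z.A3
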