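import Pool.Agent.Lib.MP_7f581e_Z.Alt3.Spec

set_option autoImplicit false

/-!
# The alternating group is perfect (`PerStmt`)
-/

namespace MP7Z.A3

theorem tPer : PerStmt := by
  intro n hn K K' hK hc
  have h5 : 5 ≤ Nat.card (Fin n) := by simpa using hn
  have h1 : ⁅alternatingGroup (Fin n), alternatingGroup (Fin n)⁆ = alternatingGroup (Fin n) := by
    rw [← Subgroup.map_subtype_commutator, commutator_alternatingGroup_eq_top h5]
    rw [← MonoidHom.range_eq_map, Subgroup.range_subtype]
  rw [← h1, Subgroup.commutator_le]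
  intro a ha b hb
  exact hc a (hK ha) b (hK hb)

end MP7Z.A3
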