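import Pool.Agent.Lib.MP_7f581e_Z.Alt3.Spec

set_option autoImplicit false

/-!
# Recognition of the alternating group (`RecStmt`)
-/

namespace MP7Z.A3

open Equiv.Perm MulAction

theorem tRec : RecStmt := by
  intro n G htr hex
  have h2 : IsMultiplyPretransitive G (Fin n) 2 := by
    rw [is_two_pretransitive_iff]
    intro a b c d hab hcd
    obtain ⟨g, hg, h1, h2⟩ := htr a b c d hab hcd
    exact ⟨⟨g, hg⟩, h1, h2⟩
  have hprim := isPreprimitive_of_is_two_pretransitive h2
  obtain ⟨ρ, hρ, h | h⟩ := hex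
  · have h3 : G = ⊤ := subgroup_eq_top_of_isPreprimitive_of_isSwap_mem hprim ρ h hρ
    rw [h3]
    exact le_top
  · exact alternatingGroup_le_of_isPreprimitive_of_isThreeCycle_mem hprim h hρ

end MP7Z.A3
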