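import Pool.Agent.Lib.MP_7f581e_Z.Alt3.Spec

/-!
# The alternating step from systems
-/

set_option autoImplicit false

namespace MP7Z.A3

open Polynomial MP7Z

theorem tStepA (hAct : ActStmt) (hGrp : GrpStmt) (hHom : HomAStmt) (hSOf : SOfAStmt) :
    StepAStmt := by
  intro p n _ hn5 hn6 hSys Ω _ _ x G _ _ ψ hψ E _ _ f hf S _ _ κ' _ hS hker hmin
  obtain ⟨eS⟩ := hS
  obtain ⟨φ₀⟩ := hker
  obtain ⟨k, ⟨eκ⟩⟩ := Finite.exists_equiv_fin κ'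
  let φ : f.ker ≃* (Fin k → alternatingGroup (Fin n)) := φ₀.trans (MulEquiv.arrowCongr eκ eS)
  have hsurj : Function.Surjective ψ := fun g => by
    obtain ⟨γ, -, hγ⟩ := hψ.reg g
    exact ⟨γ, hγ⟩
  rcases Nat.eq_zero_or_pos k with hk | hk
  · -- trivial kernel
    subst hk
    have hinj : Function.Injective f := by
      rw [← MonoidHom.ker_eq_bot_iff, Subgroup.eq_bot_iff_forall]
      intro a ha
      have h1 : φ ⟨a, ha⟩ = φ 1 := funext fun i => i.elim0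
      exact congrArg Subtype.val (φ.injective h1)
    let eG : E ≃* G := MulEquiv.ofBijective f ⟨hinj, hf⟩
    have heG : ∀ g : E, eG.symm (f g) = g := fun g => eG.symm_apply_apply g
    refine ⟨x, eG.symm.toMonoidHom.comp ψ, ⟨hψ.stage, ?_, ?_, ?_⟩⟩
    · obtain ⟨A, hA⟩ := hψ.fin
      refine ⟨A, fun γ hγ => ?_⟩
      show eG.symm (ψ γ) = 1
      rw [hA γ hγ, map_one]
    · intro g
      obtain ⟨γ, hγ, hγ'⟩ := hψ.reg (f g)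
      refine ⟨γ, hγ, ?_⟩
      show eG.symm (ψ γ) = g
      rw [hγ', heG]
    · intro ℓ hℓ hℓp V hV hbad γ hγ hdvd
      apply hψ.inv ℓ hℓ hℓp V hV hbad γ hγ
      have h1 : orderOf (eG.symm.toMonoidHom.comp ψ γ) = orderOf (ψ γ) :=
        MulEquiv.orderOf_eq eG.symm (ψ γ)
      rwa [h1] at hdvd
  · let j₀ : Fin k := ⟨0, hk⟩
    obtain ⟨act, T, ε, k1, k2, k3, k4, k5, k6, k7⟩ := hAct n k hn5 hn6 E G f hf φ hmin
    obtain ⟨y, hsys⟩ := hSys Ω x hψ.stage G ψ hψ.fin hsurj k act ε j₀ k6 (k7 j₀)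
    obtain ⟨Ψ, hfin, hπ, hΨ⟩ := hHom p n Ω x G ψ k act ε j₀ y hψ.fin hsys E f T k1 k2 k3
    obtain ⟨hinv, δ, hδ, hδ1, hδ2, hδ3⟩ := hSOf p n Ω x hψ.stage G ψ k act ε j₀ y
      hψ.inv hsys E f T k1 k2 k3 Ψ hπ hΨ
    let Γ₀ : Subgroup (Gx p x) := (Fx p (Cst p Ω : Set Ω)).subgroupOf (Gx p x)
    have hΓ₀ : ∀ γ : Gx p x, γ ∈ Γ₀ ↔ (γ : Ω ≃ₐ[ZMod p] Ω) ∈ Fx p (Cst p Ω : Set Ω) := fun γ =>
      Subgroup.mem_subgroupOf
    have hnormal : Γ₀.Normal := by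
      constructor
      intro γ hγ g
      rw [hΓ₀] at hγ ⊢
      intro a ha
      have h1 : (g : Ω ≃ₐ[ZMod p] Ω)⁻¹ a ∈ (Cst p Ω : Set Ω) :=
        (map_mem_algebraicClosure_iff ((g : Ω ≃ₐ[ZMod p] Ω)⁻¹ : Ω ≃ₐ[ZMod p] Ω).toAlgHom).2 ha
      have h2 := hγ _ h1
      show (g : Ω ≃ₐ[ZMod p] Ω) ((γ : Ω ≃ₐ[ZMod p] Ω) ((g : Ω ≃ₐ[ZMod p] Ω)⁻¹ a)) = a
      rw [h2]
      exact (g : Ω ≃ₐ[ZMod p] Ω).apply_symm_apply a
    refine ⟨x, Ψ, ⟨hψ.stage, hfin, ?_, hinv⟩⟩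
    intro g
    obtain ⟨γ, h1, h2⟩ := hGrp n k hn5 E G (Gx p x) f φ act T j₀ (k7 j₀) k1 k4 k5 Γ₀ Ψ
      (fun q => by
        obtain ⟨γ, h1, h2⟩ := hψ.reg q
        exact ⟨γ, (hΓ₀ γ).2 h1, by rw [hπ, h2]⟩)
      (fun a ha => by
        obtain ⟨γ, h1, h2⟩ := hsys.alt a ha
        refine ⟨γ, by rw [hπ, h1], ?_⟩
        ext1 i
        apply hsys.inj j₀
        have h3 := hΨ γ j₀ i
        rw [h1, map_one, Equiv.Perm.one_apply, h2] at h3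
        exact h3.symm)
      δ ((hΓ₀ δ).2 hδ) (by rw [hπ, hδ1]) hδ2 hδ3 g
    exact ⟨γ, (hΓ₀ γ).1 h1, h2⟩

end MP7Z.A3
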