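import Pool.Agent.Lib.MP_7f581e_Z.Alt3.Spec
import Pool.Agent.Lib.MP_7f581e_Z.Lie.Int

/-!
# A family with all properties gives systems
-/

set_option autoImplicit false

namespace MP7Z.A3

open Polynomial MP7Z

namespace SysKM

theorem exists_ab {n : ℕ} (hn : 5 ≤ n) : ∃ a ∈ alternatingGroup (Fin n),
    ∃ b ∈ alternatingGroup (Fin n), a * b ≠ b * a := by
  let i0 : Fin n := ⟨0, by omega⟩
  let i1 : Fin n := ⟨1, by omega⟩
  let i2 : Fin n := ⟨2, by omega⟩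
  let i3 : Fin n := ⟨3, by omega⟩
  have h01 : i0 ≠ i1 := by simp [i0, i1]
  have h02 : i0 ≠ i2 := by simp [i0, i2]
  have h03 : i0 ≠ i3 := by simp [i0, i3]
  have h12 : i1 ≠ i2 := by simp [i1, i2]
  have h13 : i1 ≠ i3 := by simp [i1, i3]
  have h23 : i2 ≠ i3 := by simp [i2, i3]
  have hmem : ∀ j : Fin n, i1 ≠ j →
      Equiv.swap i0 i1 * Equiv.swap i1 j ∈ alternatingGroup (Fin n) := by
    intro j hj
    rw [Equiv.Perm.mem_alternatingGroup, map_mul, Equiv.Perm.sign_swap h01,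
      Equiv.Perm.sign_swap hj]
    rfl
  refine ⟨_, hmem i2 h12, _, hmem i3 h13, fun h => ?_⟩
  have h1 := congrArg (fun σ : Equiv.Perm (Fin n) => σ i2) h
  simp only [Equiv.Perm.mul_apply] at h1
  rw [Equiv.swap_apply_of_ne_of_ne h12.symm h23, Equiv.swap_apply_of_ne_of_ne h02.symm h12.symm,
    Equiv.swap_apply_right, Equiv.swap_apply_right, Equiv.swap_apply_of_ne_of_ne h01 h03,
    Equiv.swap_apply_left] at h1
  exact h01 h1

end SysKM

theorem tSysK (h0 : ChoStmt) (h1 : ComCStmt) (h2 : ParBStmt) : SysKStmt := by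
  classical
  intro p n r _ G hn hG Ω _ _ x hst Q _ _ ψ hfin hsurj k act ε j₀ hε htr
  have hsc : IsSepClosed Ω := hst.sepClosed
  obtain ⟨θ, w, g, hθinj, hθ, hw, hg, hg0, hw0, hθint, hwint⟩ :=
    h2 p Ω x hst Q ψ hfin hsurj k act ε j₀ hε htr
  have hact1 : ∀ j, act 1 j = j := fun j => by rw [map_one]; rfl
  have hε1 : ∀ j, ε 1 j = 1 := by
    intro j
    have h := hε 1 1 j
    rw [mul_one, hact1] at h
    exact left_eq_mul.mp h
  have htw1 : ∀ w g : Ω, tw p 1 w g = w := by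
    intro w g
    unfold tw
    by_cases h : p = 2
    · rw [if_pos h, if_pos rfl, add_zero]
    · rw [if_neg h, Units.val_one, Int.cast_one, one_mul]
  have hadj : ∀ (γ : Gx p x), ∀ a ∈ Algebra.adjoin (ZMod p) {x},
      (γ : Ω ≃ₐ[ZMod p] Ω) a = a := fun γ => Int_.fixes_adjoin γ.2
  have hw1 : ∀ (γ : Gx p x) j, ψ γ = 1 → (γ : Ω ≃ₐ[ZMod p] Ω) (w j) = w j := by
    intro γ j hγ
    rw [hw, hγ, hact1, hε1, htw1]
  obtain ⟨u, hu, hcho⟩ := h0 p n r G hG.lab hG.gen hG.ne Ω x hst Q ψ hfin hsurj k θ w g hθinj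
    (fun γ j hγ => by rw [hθ, hγ, hact1]) hw1 hg hg0 hw0
  obtain ⟨v, hv⟩ : ∃ v : Fin k → Fin r → Ω, ∀ j i, v j i = ∑ l : Fin k, θ j ^ (l : ℕ) * u (l, i) :=
    ⟨_, fun _ _ => rfl⟩
  obtain ⟨hne, halt⟩ := hcho v hv
  have hvact : ∀ (γ : Gx p x) j i, (γ : Ω ≃ₐ[ZMod p] Ω) (v j i) = v (act (ψ γ) j) i := by
    intro γ j i
    rw [hv, hv, map_sum]
    refine Finset.sum_congr rfl fun l _ => ?_
    rw [map_mul, map_pow, hθ, hadj γ _ (hu _)]
  have hvint : ∀ j i, IsIntegral (Algebra.adjoin (ZMod p) {x}) (v j i) := by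
    intro j i
    rw [hv]
    refine IsIntegral.sum _ fun l _ => ?_
    exact ((hθint j).pow _).mul (isIntegral_algebraMap
      (x := (⟨u (l, i), hu _⟩ : Algebra.adjoin (ZMod p) {x})))
  choose y hy using fun j => hG.lab Ω (w j) g (v j) (hne j).1 (hne j).2
  have hexp : ∀ (γ : Gx p x) j, ∃ ρ : Equiv.Perm (Fin n),
      ∀ i, (γ : Ω ≃ₐ[ZMod p] Ω) (y j i) = y (act (ψ γ) j) (ρ i) := by
    intro γ j
    refine exists_perm (hy j).1 (hne j).1 ((γ : Ω ≃ₐ[ZMod p] Ω) : Ω →+* Ω) (hy j).2.1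
      (c' := G.ℓ Ω (w (act (ψ γ) j)) g (v (act (ψ γ) j))) ?_
    rw [G.map_F, ← (hy (act (ψ γ) j)).2.1]
    change G.F Ω ((γ : Ω ≃ₐ[ZMod p] Ω) (w j)) ((γ : Ω ≃ₐ[ZMod p] Ω) g)
      (fun i => (γ : Ω ≃ₐ[ZMod p] Ω) (v j i)) = _
    rw [hw, hadj γ g hg, G.tw_F]
    congr 1
    funext i
    exact hvact γ j i
  have hsgn : ∀ (γ : Gx p x) j (ρ : Equiv.Perm (Fin n)),
      (∀ i, (γ : Ω ≃ₐ[ZMod p] Ω) (y j i) = y (act (ψ γ) j) (ρ i)) →
      Equiv.Perm.sign ρ = ε (ψ γ) j := by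
    intro γ j ρ hρ
    exact hG.sgn Ω ((γ : Ω ≃ₐ[ZMod p] Ω) : Ω ≃+* Ω) (w j) (w (act (ψ γ) j)) g (v j)
      (v (act (ψ γ) j)) (ε (ψ γ) j) (y j) (y (act (ψ γ) j)) ρ (hne _).1 (hne _).2 (hw γ j)
      (hadj γ g hg) (fun i => hvact γ j i) (hy j) (hy _) hρ
  refine ⟨y, ?_⟩
  exact
    { inj := fun j => (hy j).1
      eqv := fun γ j i => by
        obtain ⟨ρ, hρ⟩ := hexp γ j
        exact ⟨ρ i, hρ i⟩
      sgn := hsgn
      loc := by
        intro V hV hxV γ hγ hγ1 j ρ hρ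
        refine hG.loc Ω x hst V hV (w j) g (v j) (y j) (Int_.integral_mem hxV (hwint j))
          (Int_.adjoin_sub hxV g hg) (fun i => Int_.integral_mem hxV (hvint j i)) (hne j).1
          (hne j).2 (hy j) γ hγ (hw1 γ j hγ1) (hadj γ g hg) (fun i => ?_) ρ hρ ?_
        · rw [hvact, hγ1, hact1]
        · have h3 := hsgn γ j ρ (fun i => by rw [hγ1, hact1]; exact hρ i)
          rw [h3, hγ1, hε1]
      alt := by
        intro a ha
        obtain ⟨γ, hγ, h3, -⟩ := halt y (fun j => (hy j).1) (fun j => (hy j).2.1) j₀ a ha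
        exact ⟨γ, hγ, h3⟩
      one := by
        obtain ⟨a, ha, b, hb, hab⟩ := SysKM.exists_ab hn
        obtain ⟨γ, hγ, h3, h4⟩ := halt y (fun j => (hy j).1) (fun j => (hy j).2.1) j₀ a ha
        obtain ⟨δ, hδ, h5, h6⟩ := halt y (fun j => (hy j).1) (fun j => (hy j).2.1) j₀ b hb
        have hinv : ∀ (γ : Gx p x) (z z' : Ω), (γ : Ω ≃ₐ[ZMod p] Ω) z = z' →
            ((γ⁻¹ : Gx p x) : Ω ≃ₐ[ZMod p] Ω) z' = z := by
          intro γ z z' h
          rw [← h]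
          exact (γ : Ω ≃ₐ[ZMod p] Ω).symm_apply_apply z
        have hmul : ∀ (γ δ : Gx p x) (z : Ω), ((γ * δ : Gx p x) : Ω ≃ₐ[ZMod p] Ω) z =
            (γ : Ω ≃ₐ[ZMod p] Ω) ((δ : Ω ≃ₐ[ZMod p] Ω) z) := fun _ _ _ => rfl
        refine ⟨γ * δ * γ⁻¹ * δ⁻¹, ?_, ?_, ?_, ?_⟩
        · intro c hc
          have h7 : ((δ⁻¹ : Gx p x) : Ω ≃ₐ[ZMod p] Ω) c ∈ Cst p Ω := by
            have h8 : IsAlgebraic (ZMod p) c := mem_algebraicClosure_iff.1 hc
            exact mem_algebraicClosure_iff.2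
              (h8.algHom (((δ⁻¹ : Gx p x) : Ω ≃ₐ[ZMod p] Ω) : Ω →ₐ[ZMod p] Ω))
          rw [hmul, hmul, hmul, h1 p Ω (δ : Ω ≃ₐ[ZMod p] Ω) ((γ⁻¹ : Gx p x) : Ω ≃ₐ[ZMod p] Ω) _ h7]
          have h9 : (δ : Ω ≃ₐ[ZMod p] Ω) (((δ⁻¹ : Gx p x) : Ω ≃ₐ[ZMod p] Ω) c) = c :=
            (δ : Ω ≃ₐ[ZMod p] Ω).apply_symm_apply c
          rw [h9]
          exact (γ : Ω ≃ₐ[ZMod p] Ω).apply_symm_apply c
        · rw [map_mul, map_mul, map_mul, map_inv, map_inv, hγ, hδ]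
          simp
        · by_contra hcon
          push Not at hcon
          apply hab
          ext1 i
          apply (hy j₀).1
          have h7 := hcon (b (a i))
          rw [hmul, hmul, hmul] at h7
          have h8 : ((δ⁻¹ : Gx p x) : Ω ≃ₐ[ZMod p] Ω) (y j₀ (b (a i))) = y j₀ (a i) :=
            hinv δ _ _ (h5 (a i))
          have h9 : ((γ⁻¹ : Gx p x) : Ω ≃ₐ[ZMod p] Ω) (y j₀ (a i)) = y j₀ i :=
            hinv γ _ _ (h3 i)
          rw [h8, h9, h5, h3] at h7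
          exact h7
        · intro j hj i
          rw [hmul, hmul, hmul, hinv δ _ _ (h6 j hj i), hinv γ _ _ (h4 j hj i), h6 j hj i,
            h4 j hj i] }

end MP7Z.A3
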