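import Pool.Agent.Lib.MP_7f581e_Z.Alt2.Main
import Pool.Agent.Lib.MP_7f581e_Z.Types.AllLie
import Pool.Agent.Lib.MP_7f581e_Z.Alt3.Asm
import Pool.Agent.Lib.MP_7f581e_Z.Alt3.A5
import Pool.Agent.Lib.MP_7f581e_Z.Alt3.AlgI
import Pool.Agent.Lib.MP_7f581e_Z.Alt3.AutLin
import Pool.Agent.Lib.MP_7f581e_Z.Alt3.B3C
import Pool.Agent.Lib.MP_7f581e_Z.Alt3.BC10
import Pool.Agent.Lib.MP_7f581e_Z.Alt3.BC7
import Pool.Agent.Lib.MP_7f581e_Z.Alt3.BC8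
import Pool.Agent.Lib.MP_7f581e_Z.Alt3.BC9
import Pool.Agent.Lib.MP_7f581e_Z.Alt3.BDer
import Pool.Agent.Lib.MP_7f581e_Z.Alt3.BGen
import Pool.Agent.Lib.MP_7f581e_Z.Alt3.BLab
import Pool.Agent.Lib.MP_7f581e_Z.Alt3.BLoc
import Pool.Agent.Lib.MP_7f581e_Z.Alt3.BLocA
import Pool.Agent.Lib.MP_7f581e_Z.Alt3.BLocB
import Pool.Agent.Lib.MP_7f581e_Z.Alt3.BSep
import Pool.Agent.Lib.MP_7f581e_Z.Alt3.BTr
import Pool.Agent.Lib.MP_7f581e_Z.Alt3.BTy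
import Pool.Agent.Lib.MP_7f581e_Z.Alt3.Cho
import Pool.Agent.Lib.MP_7f581e_Z.Alt3.ComC
import Pool.Agent.Lib.MP_7f581e_Z.Alt3.Conj
import Pool.Agent.Lib.MP_7f581e_Z.Alt3.Cyc
import Pool.Agent.Lib.MP_7f581e_Z.Alt3.CycP
import Pool.Agent.Lib.MP_7f581e_Z.Alt3.E6
import Pool.Agent.Lib.MP_7f581e_Z.Alt3.GenK
import Pool.Agent.Lib.MP_7f581e_Z.Alt3.HRm
import Pool.Agent.Lib.MP_7f581e_Z.Alt3.HenG
import Pool.Agent.Lib.MP_7f581e_Z.Alt3.HilbF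
import Pool.Agent.Lib.MP_7f581e_Z.Alt3.HomA
import Pool.Agent.Lib.MP_7f581e_Z.Alt3.NDisc
import Pool.Agent.Lib.MP_7f581e_Z.Alt3.NGen
import Pool.Agent.Lib.MP_7f581e_Z.Alt3.NLab
import Pool.Agent.Lib.MP_7f581e_Z.Alt3.NLoc
import Pool.Agent.Lib.MP_7f581e_Z.Alt3.NSep
import Pool.Agent.Lib.MP_7f581e_Z.Alt3.NTr
import Pool.Agent.Lib.MP_7f581e_Z.Alt3.Newt
import Pool.Agent.Lib.MP_7f581e_Z.Alt3.ODisc
import Pool.Agent.Lib.MP_7f581e_Z.Alt3.OGen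
import Pool.Agent.Lib.MP_7f581e_Z.Alt3.OLab
import Pool.Agent.Lib.MP_7f581e_Z.Alt3.OLoc
import Pool.Agent.Lib.MP_7f581e_Z.Alt3.OPr
import Pool.Agent.Lib.MP_7f581e_Z.Alt3.OSep
import Pool.Agent.Lib.MP_7f581e_Z.Alt3.OTr
import Pool.Agent.Lib.MP_7f581e_Z.Alt3.OTy
import Pool.Agent.Lib.MP_7f581e_Z.Alt3.ParB
import Pool.Agent.Lib.MP_7f581e_Z.Alt3.Per
import Pool.Agent.Lib.MP_7f581e_Z.Alt3.Rec
import Pool.Agent.Lib.MP_7f581e_Z.Alt3.SOfA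
import Pool.Agent.Lib.MP_7f581e_Z.Alt3.StepA
import Pool.Agent.Lib.MP_7f581e_Z.Alt3.SysK

/-! # Alternating groups of all degrees `n ≥ p`, `n ≥ 5`, `n ≠ 6` -/

set_option autoImplicit false

namespace MP7Z

open MP7fE

namespace A3

theorem a_par : ParBStmt := tParB alt_par (A2.tAdd lie_fam lie_pres) A2.tDen
theorem a_cho : ChoStmt := tCho (tHilbF (tHRm tHRa tHRb tHRc)) (tGenK tAlgI)
theorem a_sysK : SysKStmt := tSysK a_cho tComC a_par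
theorem a_cyc : CycStmt := tCyc (tCycP tHenG)
theorem a_oTr : OTrStmt := tOTr tAutLin a_cyc tOSep
theorem a_nDisc : NDiscStmt := tNDisc tNSep
theorem a_nTr : NTrStmt := tNTr tAutLin tNewt tConj a_cyc tNSep
theorem a_bLoc : BLocStmt := tBLoc (tBLocA br_res tBSep) (tBLocB br_res tBSep)
theorem a_step : StepAStmt := tStepA tAct tGrp tHomA tSOfA

theorem a_small (p n : ℕ) [Fact p.Prime] (h5 : 5 ≤ n) (h6 : n ≠ 6)
    (h : (5 ≤ p ∧ p ≤ n ∧ n ≤ p + 2) ∨ (p = 2 ∧ 7 ≤ n ∧ n ≤ 10)) :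
    LieStep p (fun S [Group S] => Nonempty (S ≃* alternatingGroup (Fin n))) :=
  small_step a_sysK tOTy tODisc (tOLab tOSep tSgn) (tOLoc br_res tOSep) a_oTr
    (tOPr tNewt tConj a_oTr) (tOGen tOSep a_oTr) (tNLab tNSep a_nDisc tSgn)
    (tNLoc br_res tNSep) (tNGen tNSep a_nDisc a_nTr tRec) (tBLab tBSep A2.tPrm) a_bLoc
    (tBGen (tBTr tAutLin) (tB3C a_cyc tBSep) tRec (tBDer tPer)) tBTy
    (tBC7 A2.tE2 A2.tBB A2.tHD) (tBC8 A2.tE2 A2.tBB A2.tHD) (tBC9 A2.tE2 A2.tBB A2.tHD)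
    (tBC10 A2.tE2 A2.tBB A2.tHD tE6) a_step p n h5 h6 h

end A3

/-- `A_5` is classical in characteristic two. -/
theorem classical_a5 : IsClassical 2 (alternatingGroup (Fin 5)) := by
  obtain ⟨F, _, hF, he⟩ := A3.tA5
  refine ⟨alternatingGroup.isSimpleGroup (by
    rw [Nat.card_eq_fintype_card, Fintype.card_fin]), Matrix.SpecialLinearGroup (Fin 2) F,
    inferInstance, ?_, he⟩
  exact ⟨F, _, 2, 2, Or.inl ⟨hF, le_refl 2, fun _ => by norm_num, ⟨MulEquiv.refl _⟩⟩⟩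

/-- **The alternating step**, for all degrees `n ≥ p`. -/
theorem alt_all (p : ℕ) [hp : Fact p.Prime] (n : ℕ) (h5 : 5 ≤ n) (hpn : p ≤ n) (h6 : n ≠ 6) :
    LieStep p (fun S [Group S] => Nonempty (S ≃* alternatingGroup (Fin n))) := by
  rcases eq_or_ne p 2 with h2 | h2
  · subst h2
    rcases lt_or_ge n 11 with h11 | h11
    · rcases lt_or_ge n 7 with h7 | h7
      · obtain rfl : n = 5 := by omega
        intro Ω _ _ x G _ _ ψ hψ E _ _ f hf S _ _ κ _ hS hθ hmin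
        obtain ⟨e⟩ := hS
        exact lieStep_classical 2 Ω x G ψ hψ E f hf S κ (classical_a5.congr e.symm) hθ hmin
      · exact A3.a_small 2 n h5 h6 (Or.inr ⟨rfl, h7, by omega⟩)
    · intro Ω _ _ x G _ _ ψ hψ E _ _ f hf S _ _ κ _ hS hθ hmin
      exact A2.a2_step Ω x G ψ hψ E f hf S κ ⟨n, h11, hS⟩ hθ hmin
  · rcases lt_or_ge p 5 with hp5 | hp5
    · have h3 : p = 3 := by
        have h7 := hp.out.two_le
        have h44 : p ≠ 4 := fun h => by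
          have h7 := hp.out
          rw [h] at h7
          norm_num at h7
        omega
      intro Ω _ _ x G _ _ ψ hψ E _ _ f hf S _ _ κ _ hS hθ hmin
      exact alt_step p Ω x G ψ hψ E f hf S κ ⟨h2, n, h5, h6, Or.inr h3, hS⟩ hθ hmin
    · rcases lt_or_ge n (p + 3) with hn | hn
      · exact A3.a_small p n h5 h6 (Or.inl ⟨hp5, hpn, by omega⟩)
      · intro Ω _ _ x G _ _ ψ hψ E _ _ f hf S _ _ κ _ hS hθ hmin
        exact alt_step p Ω x G ψ hψ E f hf S κ ⟨h2, n, h5, h6, Or.inl hn, hS⟩ hθ hmin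

end MP7Z
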