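import Pool.Agent.Lib.MP_7f581e_Z.Alt3.Spec
import Pool.Agent.Lib.MP_7f581e_Z.Alt2.TE

/-!
# Small degrees, task BC8: the sign class in degree eight
-/

set_option autoImplicit false

namespace MP7Z.A3

open Polynomial MP7Z

namespace BC8M

variable {F : Type} [Field F] [Algebra (ZMod 2) F]

theorem der (A κ : F) : derivative (X ^ 8 + X ^ 3 + C A * X ^ 2 + C κ : F[X]) = X ^ 2 := by
  have h2 := two_eq_zero' F
  have e2 : ((2 : ℕ) : F) = 0 := by
    push_cast
    exact h2
  have e3 : ((3 : ℕ) : F) = 1 := by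
    push_cast
    linear_combination h2
  have e8 : ((8 : ℕ) : F) = 0 := by
    push_cast
    linear_combination 4 * h2
  rw [derivative_add, derivative_add, derivative_add, derivative_X_pow, derivative_X_pow,
    derivative_C_mul_X_pow, derivative_C, e2, e3, e8, mul_zero, C_0, C_1, zero_mul, zero_mul,
    one_mul, zero_add, add_zero, add_zero]

theorem h2 (A κ : F) :
    hasseDeriv 2 (X ^ 8 + X ^ 3 + C A * X ^ 2 + C κ : F[X]) = X + C A := by
  have h2 := two_eq_zero' F
  rw [map_add, map_add, map_add]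
  have e0 : hasseDeriv 2 ((X : F[X]) ^ 8) = 0 := by
    rw [← monomial_one_right_eq_X_pow, hasseDeriv_monomial]
    have h3 : ((Nat.choose 8 2 : ℕ) : F) = 0 := by
      rw [show Nat.choose 8 2 = 28 from rfl]
      push_cast
      linear_combination 14 * h2
    rw [h3, zero_mul, map_zero]
  have e1 : hasseDeriv 2 (C A * X ^ 2) = C A := by
    rw [C_mul_X_pow_eq_monomial, hasseDeriv_monomial]
    simp
  have e2 : hasseDeriv 2 ((X : F[X]) ^ 3) = X := by
    rw [← monomial_one_right_eq_X_pow, hasseDeriv_monomial]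
    have h3 : ((Nat.choose 3 2 : ℕ) : F) = 1 := by
      rw [show Nat.choose 3 2 = 3 from rfl]
      push_cast
      linear_combination h2
    rw [h3, mul_one]
    exact monomial_one_one_eq_X
  have e3 : hasseDeriv 2 (C κ : F[X]) = 0 := hasseDeriv_C 2 κ two_pos
  rw [e0, e1, e2, e3, zero_add, add_zero]

theorem h3 (A κ : F) :
    hasseDeriv 3 (X ^ 8 + X ^ 3 + C A * X ^ 2 + C κ : F[X]) = 1 := by
  have h2 := two_eq_zero' F
  rw [map_add, map_add, map_add]
  have e0 : hasseDeriv 3 ((X : F[X]) ^ 8) = 0 := by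
    rw [← monomial_one_right_eq_X_pow, hasseDeriv_monomial]
    have h3 : ((Nat.choose 8 3 : ℕ) : F) = 0 := by
      rw [show Nat.choose 8 3 = 56 from rfl]
      push_cast
      linear_combination 28 * h2
    rw [h3, zero_mul, map_zero]
  have e1 : hasseDeriv 3 (C A * X ^ 2) = 0 := by
    rw [C_mul_X_pow_eq_monomial, hasseDeriv_monomial]
    simp
  have e2 : hasseDeriv 3 ((X : F[X]) ^ 3) = 1 := by
    rw [← monomial_one_right_eq_X_pow, hasseDeriv_monomial]
    simp
  have e3 : hasseDeriv 3 (C κ : F[X]) = 0 := hasseDeriv_C 3 κ three_pos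
  rw [e0, e1, e2, e3, zero_add, add_zero, add_zero]

end BC8M

theorem tBC8 (h0 : A2.E2Stmt) (h1 : A2.BBStmt) (h2 : A2.HDStmt) : BC8Stmt := by
  intro t htP htR
  obtain ⟨κ₁, hκ₁⟩ := h1 8
  refine ⟨κ₁, ?_⟩
  intro F _ _ A κ y hκ hy hf
  have h20 := two_eq_zero' F
  have hchar : CharP F 2 := AType2.charP F
  have hfe : t.f A κ = (X ^ 8 + X ^ 3 + C A * X ^ 2 + C κ : F[X]) := by
    rw [BType.f, htP, htR]
    simp only [Polynomial.map_one, Polynomial.map_add, Polynomial.map_pow, map_X]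
    ring
  obtain ⟨P, hPdef⟩ : ∃ P : F[X], P = X ^ 8 + X ^ 3 + C A * X ^ 2 + C κ := ⟨_, rfl⟩
  have hder : derivative P = X ^ 2 := by rw [hPdef, BC8M.der]
  have hh2 : hasseDeriv 2 P = X + C A := by rw [hPdef, BC8M.h2]
  have hh3 : hasseDeriv 3 P = 1 := by rw [hPdef, BC8M.h3]
  have hP : P = C 1 * ∏ i, (X - C (y i)) := by
    rw [C_1, one_mul, ← hf, hfe, hPdef]
  have hP' : P = ∏ i, (X + C (y i)) := by
    rw [hP, C_1, one_mul]
    refine Finset.prod_congr rfl fun i _ => ?_
    rw [CharTwo.sub_eq_add]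
  have hc0 : P.coeff 0 = κ := by
    rw [hPdef]
    simp
  have hc1 : P.coeff 1 = 0 := by
    rw [hPdef]
    simp [coeff_X_pow, coeff_C]
  have hc2 : P.coeff 2 = A := by
    rw [hPdef]
    simp [coeff_X_pow, coeff_C]
  -- the roots are not zero
  have hprod : ∏ i, y i = κ := by
    rw [← hc0, hP', coeff_zero_eq_eval_zero, eval_prod]
    refine Finset.prod_congr rfl fun i _ => ?_
    rw [eval_add, eval_X, eval_C, zero_add]
  have hy0 : ∀ i, y i ≠ 0 := by
    intro i hi
    apply hκ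
    rw [← hprod, Finset.prod_eq_zero (Finset.mem_univ i) hi]
  obtain ⟨τ, hτ⟩ : ∃ τ : Fin 8 → F, τ = fun i => (y i)⁻¹ := ⟨_, rfl⟩
  have hτ' : ∀ i, τ i = (y i)⁻¹ := fun i => by rw [hτ]
  have hPτ : P = C κ * ∏ i, (1 + C (τ i) * X) := by
    rw [hP', ← hprod, map_prod, ← Finset.prod_mul_distrib]
    refine Finset.prod_congr rfl fun i _ => ?_
    rw [mul_add, mul_one, ← mul_assoc, ← C_mul, hτ' i, mul_inv_cancel₀ (hy0 i), C_1, one_mul,
      add_comm]
  obtain ⟨-, q1, q2, -⟩ := A2.TE_coeff h20 Finset.univ τ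
  have s1 : ∑ i, τ i = 0 := by
    rw [hPτ, coeff_C_mul, q1] at hc1
    exact (mul_eq_zero.1 hc1).resolve_left hκ
  have s2 : esym2 τ = A / κ := by
    rw [hPτ, coeff_C_mul, q2, A2.TE_e2_univ] at hc2
    rw [eq_div_iff hκ, ← hc2, mul_comm]
  have hD := h2 8 F P 1 y hy one_ne_zero hP
  have hz : ∀ i, ∑ j ∈ Finset.univ.erase i, y i / (y i + y j) = 1 + A * τ i := by
    intro i
    have h1 := (hD i).2.1
    rw [hder, hh2] at h1
    simp only [eval_add, eval_pow, eval_X, eval_C] at h1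
    have h4 := hy0 i
    rw [eq_div_iff (pow_ne_zero 2 h4) |>.2 h1, hτ' i]
    field_simp
  have hw : ∀ i, ∑ j ∈ Finset.univ.erase i, ∑ l ∈ (Finset.Ioi j).erase i,
      y i / (y i + y j) * (y i / (y i + y l)) = 1 := by
    intro i
    have h1 := (hD i).2.2
    rw [hder, hh3] at h1
    simp only [eval_pow, eval_X, eval_one] at h1
    rw [eq_div_iff (pow_ne_zero 2 (hy0 i)) |>.2 h1, mul_one, div_self (pow_ne_zero 2 (hy0 i))]
  have hne : ∀ i j, i ≠ j → y i + y j ≠ 0 := fun i j hij h => hij (hy (CharTwo.add_eq_zero.1 h))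
  have hab : ∀ i j, i ≠ j → y i / (y i + y j) + y j / (y j + y i) = 1 := by
    intro i j hij
    rw [add_comm (y j) (y i), ← add_div, div_self (hne i j hij)]
  have hbb := hκ₁ F (fun i j => y i / (y i + y j)) hab
  have hbeta : bsum y ^ 2 + bsum y =
      ∑ i, ∑ j ∈ Finset.Ioi i, y i / (y i + y j) * (y j / (y j + y i)) := by
    rw [bsum, sum_pow_char 2, ← Finset.sum_add_distrib]
    refine Finset.sum_congr rfl fun i _ => ?_
    rw [sum_pow_char 2, ← Finset.sum_add_distrib]
    refine Finset.sum_congr rfl fun j hj => ?_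
    have hij : i ≠ j := (Finset.mem_Ioi.1 hj).ne
    have h3 : y j / (y j + y i) = 1 - y i / (y i + y j) := by
      rw [← hab i j hij]
      ring
    rw [h3]
    linear_combination (y i / (y i + y j)) ^ 2 * h20
  simp only [hz, hw] at hbb
  rw [← hbeta] at hbb
  have E1 := (h0 8 F (fun _ => 1) (fun i => A * τ i) 1).1
  have E1c := (h0 8 F (fun _ => 1) τ 1).2.2.2
  have E5 := (h0 8 F τ τ A).2.1
  have v0 : ∑ i, A * τ i = 0 := by
    rw [← Finset.mul_sum, s1, mul_zero]
  simp only [one_mul] at E1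
  rw [v0, mul_zero, add_zero, add_zero, E1c, E5, s2] at E1
  rw [E1, Finset.sum_const, Finset.card_univ, Fintype.card_fin, nsmul_eq_mul] at hbb
  have e28 : ((Nat.choose 8 2 : ℕ) : F) = 0 := by
    rw [show Nat.choose 8 2 = 28 from rfl]
    push_cast
    linear_combination 14 * h20
  rw [e28] at hbb
  have e8 : ((8 : ℕ) : F) = 0 := by
    push_cast
    linear_combination 4 * h20
  rw [e8] at hbb
  have e3 : A ^ 2 * (A / κ) = A ^ 3 / κ := by ring
  rw [e3] at hbb
  linear_combination -hbb - (algebraMap (ZMod 2) F κ₁) * h20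

end MP7Z.A3
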