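import Pool.Agent.Lib.MP_7f581e_Z.Alt3.Spec

/-!
# The types of polynomials in characteristic two
-/

set_option autoImplicit false

namespace MP7Z.A3

open Polynomial MP7Z

namespace BTyM

theorem h2 : (2 : (ZMod 2)[X]) = 0 := two_eq_zero' _

/-- Degree `7`. -/
noncomputable def t7 : BType 7 where
  P := X ^ 4 + 1
  R := X ^ 4 + X + 1
  D := (X ^ 4 + 1) ^ 2
  k := 2
  hR := by monicity!
  P_zero := by simp
  R_zero := by simp
  hn := by
    have h : (X ^ 4 + X + 1 : (ZMod 2)[X]).natDegree = 4 := by compute_degree!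
    rw [h]
  hP := by
    have h : (X ^ 4 + 1 : (ZMod 2)[X]).natDegree = 4 := by compute_degree!
    rw [h]
    norm_num
  cop := ⟨1 + X ^ 3, -X ^ 3, by ring⟩
  key := by
    simp only [derivative_mul, derivative_add, derivative_X_pow, derivative_one, derivative_X,
      Nat.cast_ofNat, map_ofNat, Nat.add_one_sub_one]
    norm_num
    linear_combination (5 * X ^ 10 + 4 * X ^ 7 + 6 * X ^ 6 + 2 * X ^ 3 + X ^ 2) * h2
  dvd := dvd_rfl
  le := le_rfl

/-- Degree `8`. -/
noncomputable def t8 : BType 8 where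
  P := 1
  R := X ^ 5 + 1
  D := 1
  k := 0
  hR := by monicity!
  P_zero := by simp
  R_zero := by simp
  hn := by
    have h : (X ^ 5 + 1 : (ZMod 2)[X]).natDegree = 5 := by compute_degree!
    rw [h]
  hP := by
    rw [natDegree_one]
    norm_num
  cop := isCoprime_one_left
  key := by
    simp only [derivative_mul, derivative_add, derivative_X_pow, derivative_one, derivative_X,
      Nat.cast_ofNat, map_ofNat, Nat.add_one_sub_one]
    norm_num
    linear_combination (4 * X ^ 7 + X ^ 2) * h2
  dvd := one_dvd _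
  le := by norm_num

/-- Degree `9`. -/
noncomputable def t9 : BType 9 where
  P := 1 + X
  R := X ^ 6 + X ^ 5 + 1
  D := 1
  k := 0
  hR := by monicity!
  P_zero := by simp
  R_zero := by simp
  hn := by
    have h : (X ^ 6 + X ^ 5 + 1 : (ZMod 2)[X]).natDegree = 6 := by compute_degree!
    rw [h]
  hP := by
    have h : (1 + X : (ZMod 2)[X]).natDegree = 1 := by compute_degree!
    rw [h]
    norm_num
  cop := ⟨X ^ 5, 1, by linear_combination (X ^ 5 + X ^ 6) * h2⟩
  key := by
    simp only [derivative_mul, derivative_add, derivative_X_pow, derivative_one, derivative_X,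
      Nat.cast_ofNat, map_ofNat, Nat.add_one_sub_one]
    norm_num
    linear_combination (5 * X ^ 9 + 9 * X ^ 8 + 4 * X ^ 7 + 2 * X ^ 3 + X ^ 2) * h2
  dvd := one_dvd _
  le := by norm_num

/-- Degree `10`. -/
noncomputable def t10 : BType 10 where
  P := 1
  R := X ^ 7 + 1
  D := 1
  k := 0
  hR := by monicity!
  P_zero := by simp
  R_zero := by simp
  hn := by
    have h : (X ^ 7 + 1 : (ZMod 2)[X]).natDegree = 7 := by compute_degree!
    rw [h]
  hP := by
    rw [natDegree_one]
    norm_num
  cop := isCoprime_one_left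
  key := by
    simp only [derivative_mul, derivative_add, derivative_X_pow, derivative_one, derivative_X,
      Nat.cast_ofNat, map_ofNat, Nat.add_one_sub_one]
    norm_num
    linear_combination (5 * X ^ 9 + X ^ 2) * h2
  dvd := one_dvd _
  le := by norm_num

end BTyM

theorem tBTy : BTyStmt :=
  ⟨⟨BTyM.t7, rfl, rfl⟩, ⟨BTyM.t8, rfl, rfl⟩, ⟨BTyM.t9, rfl, rfl⟩, ⟨BTyM.t10, rfl, rfl⟩⟩

end MP7Z.A3
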