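import Pool.Agent.Lib.MP_7f581e_Z.Alt2.Spec

/-!
# Alternating groups of small degree: families of polynomials with independent parameters

`GFam p n r`: a polynomial `F` of degree `n` for every `𝔽_p`-algebra, depending on `w`, `g` and on the
parameters `u : Fin r → R`; the sign character is `w ↦ ε w` for `p` odd and `w ↦ w + g` for `p = 2`
(`tw`).  Three kinds of families:

* `OType.fam`: `V (X^p - s + κ) + W`, `κ = (c'⁻¹ d² - W(s)) / V(s)`, `d = w u₀`, degrees `p` and `p + 2`;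
* `nfam`: `(1 - d²) (α X^(p+1) + X² + 1) - k₀ (1 + d²) X`, `d = w u₀`, degree `p + 1`;
* `BType.fam`: `P (κ + A X²) + X³ R` in characteristic two, `κ = den²`, `den = h (h² + A)`,
  `A = s² + s h + c h²`, `s = u₀ + u₁ w`, `h = g u₁`.
-/

set_option autoImplicit false

namespace MP7Z.A3

open Polynomial MP7Z

/-- The change of the parameter `w` by a sign. -/
def tw (p : ℕ) {R : Type} [Ring R] (ε : ℤˣ) (w g : R) : R :=
  if p = 2 then w + (if ε = 1 then 0 else g) else ((ε : ℤ) : R) * w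

/-- A family of polynomials of degree `n` with `r` parameters. -/
structure GFam (p n r : ℕ) [Fact p.Prime] where
  /-- the polynomial -/
  F : ∀ (R : Type) [CommRing R] [Algebra (ZMod p) R], R → R → (Fin r → R) → R[X]
  /-- the leading coefficient -/
  ℓ : ∀ (R : Type) [CommRing R] [Algebra (ZMod p) R], R → R → (Fin r → R) → R
  /-- the second condition for separability -/
  D : ∀ (R : Type) [CommRing R] [Algebra (ZMod p) R], R → R → (Fin r → R) → R
  /-- the labelling of the roots -/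
  Lbl : ∀ (Ω : Type) [Field Ω] [Algebra (ZMod p) Ω], Ω → Ω → (Fin r → Ω) → (Fin n → Ω) → Prop
  map_F : ∀ (R R' : Type) [CommRing R] [CommRing R'] [Algebra (ZMod p) R] [Algebra (ZMod p) R']
    (φ : R →+* R') (w g : R) (u : Fin r → R),
    (F R w g u).map φ = F R' (φ w) (φ g) (fun i => φ (u i))
  map_ℓ : ∀ (R R' : Type) [CommRing R] [CommRing R'] [Algebra (ZMod p) R] [Algebra (ZMod p) R']
    (φ : R →+* R') (w g : R) (u : Fin r → R), φ (ℓ R w g u) = ℓ R' (φ w) (φ g) (fun i => φ (u i))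
  map_D : ∀ (R R' : Type) [CommRing R] [CommRing R'] [Algebra (ZMod p) R] [Algebra (ZMod p) R']
    (φ : R →+* R') (w g : R) (u : Fin r → R), φ (D R w g u) = D R' (φ w) (φ g) (fun i => φ (u i))
  tw_F : ∀ (R : Type) [CommRing R] [Algebra (ZMod p) R] (ε : ℤˣ) (w g : R) (u : Fin r → R),
    F R (tw p ε w g) g u = F R w g u

namespace GFam

variable {p n r : ℕ} [Fact p.Prime] (G : GFam p n r)

/-- Labelled roots. -/
def Lbd (Ω : Type) [Field Ω] [Algebra (ZMod p) Ω] (w g : Ω) (u : Fin r → Ω) (y : Fin n → Ω) :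
    Prop :=
  Function.Injective y ∧ G.F Ω w g u = C (G.ℓ Ω w g u) * ∏ i, (X - C (y i)) ∧ G.Lbl Ω w g u y

/-- Labelled roots exist over separably closed fields. -/
def Lab : Prop :=
  ∀ (Ω : Type) [Field Ω] [Algebra (ZMod p) Ω] [IsSepClosed Ω] (w g : Ω) (u : Fin r → Ω),
    G.ℓ Ω w g u ≠ 0 → G.D Ω w g u ≠ 0 → ∃ y : Fin n → Ω, G.Lbd Ω w g u y

/-- The sign of an isomorphism of labelled roots. -/
def Sgn : Prop :=
  ∀ (Ω : Type) [Field Ω] [Algebra (ZMod p) Ω] (σ : Ω ≃+* Ω) (w w' g : Ω) (u u' : Fin r → Ω)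
    (ε : ℤˣ) (y y' : Fin n → Ω) (ρ : Equiv.Perm (Fin n)),
    G.ℓ Ω w' g u' ≠ 0 → G.D Ω w' g u' ≠ 0 → σ w = tw p ε w' g → σ g = g →
    (∀ i, σ (u i) = u' i) → G.Lbd Ω w g u y → G.Lbd Ω w' g u' y' →
    (∀ i, σ (y i) = y' (ρ i)) → Equiv.Perm.sign ρ = ε

/-- Inertia of sign `1` has order dividing `p`. -/
def Loc : Prop :=
  ∀ (Ω : Type) [Field Ω] [Algebra (ZMod p) Ω] (x : Ω), IsStage p x →
    ∀ V : ValuationSubring Ω, V ≠ ⊤ → ∀ (w g : Ω) (u : Fin r → Ω) (y : Fin n → Ω),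
    w ∈ V → g ∈ V → (∀ i, u i ∈ V) → G.ℓ Ω w g u ≠ 0 → G.D Ω w g u ≠ 0 → G.Lbd Ω w g u y →
    ∀ δ ∈ Inert p V, δ w = w → δ g = g → (∀ i, δ (u i) = u i) →
    ∀ ρ : Equiv.Perm (Fin n), (∀ i, δ (y i) = y (ρ i)) → Equiv.Perm.sign ρ = 1 → ρ ^ p = 1

/-- The generic group contains the alternating group. -/
def Gen : Prop :=
  ∀ (L N : Type) [Field L] [Field N] [Algebra (ZMod p) L] [Algebra (ZMod p) N] [Algebra L N]
    [IsScalarTower (ZMod p) L N] [IsAlgClosed L] [IsAlgClosed N] (u : Fin r → N),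
    AlgebraicIndependent L u →
    Algebra.IsAlgebraic (IntermediateField.adjoin L (Set.range u)) N →
    ∀ w g : L, (p ≠ 2 → w ≠ 0) → (p = 2 → g ≠ 0) → ∀ y : Fin n → N, Function.Injective y →
    G.F N (algebraMap L N w) (algebraMap L N g) u =
      C (G.ℓ N (algebraMap L N w) (algebraMap L N g) u) * ∏ i, (X - C (y i)) →
    ∀ a ∈ alternatingGroup (Fin n), ∃ σ : N ≃ₐ[L] N, (∀ i, σ (u i) = u i) ∧
      ∀ i, σ (y i) = y (a i)

/-- The generic polynomial is separable of degree `n`. -/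
def Ne : Prop :=
  ∀ (L N : Type) [Field L] [Field N] [Algebra (ZMod p) L] [Algebra (ZMod p) N] [Algebra L N]
    [IsScalarTower (ZMod p) L N] (u : Fin r → N), AlgebraicIndependent L u →
    ∀ w g : L, (p ≠ 2 → w ≠ 0) → (p = 2 → g ≠ 0) →
    G.ℓ N (algebraMap L N w) (algebraMap L N g) u ≠ 0 ∧
      G.D N (algebraMap L N w) (algebraMap L N g) u ≠ 0

/-- All properties. -/
structure Good : Prop where
  lab : G.Lab
  sgn : G.Sgn
  loc : G.Loc
  gen : G.Gen
  ne : G.Ne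

end GFam

/-! ## Systems -/

/-- The system of labelled sets of roots. -/
structure AltA {p n : ℕ} [Fact p.Prime] {Ω : Type} [Field Ω] [Algebra (ZMod p) Ω] {x : Ω}
    {Q : Type} [Group Q] (ψ : Gx p x →* Q) {k : ℕ} (act : Q →* Equiv.Perm (Fin k))
    (ε : Q → Fin k → ℤˣ) (j₀ : Fin k) (y : Fin k → Fin n → Ω) : Prop where
  inj : ∀ j, Function.Injective (y j)
  eqv : ∀ (γ : Gx p x) j i, ∃ l, (γ : Ω ≃ₐ[ZMod p] Ω) (y j i) = y (act (ψ γ) j) l
  sgn : ∀ (γ : Gx p x) j (ρ : Equiv.Perm (Fin n)),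
    (∀ i, (γ : Ω ≃ₐ[ZMod p] Ω) (y j i) = y (act (ψ γ) j) (ρ i)) →
      Equiv.Perm.sign ρ = ε (ψ γ) j
  loc : ∀ V : ValuationSubring Ω, V ≠ ⊤ → x ∈ V → ∀ γ : Gx p x,
    (γ : Ω ≃ₐ[ZMod p] Ω) ∈ Inert p V → ψ γ = 1 → ∀ j (ρ : Equiv.Perm (Fin n)),
    (∀ i, (γ : Ω ≃ₐ[ZMod p] Ω) (y j i) = y j (ρ i)) → ρ ^ p = 1
  alt : ∀ a ∈ alternatingGroup (Fin n), ∃ γ : Gx p x, ψ γ = 1 ∧
    ∀ i, (γ : Ω ≃ₐ[ZMod p] Ω) (y j₀ i) = y j₀ (a i)
  one : ∃ δ : Gx p x, (δ : Ω ≃ₐ[ZMod p] Ω) ∈ Fx p (Cst p Ω : Set Ω) ∧ ψ δ = 1 ∧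
    (∃ i, (δ : Ω ≃ₐ[ZMod p] Ω) (y j₀ i) ≠ y j₀ i) ∧
    ∀ j, j ≠ j₀ → ∀ i, (δ : Ω ≃ₐ[ZMod p] Ω) (y j i) = y j i

/-- Systems exist for the degree `n`. -/
def SysA (p n : ℕ) [Fact p.Prime] : Prop :=
  ∀ (Ω : Type) [Field Ω] [Algebra (ZMod p) Ω] (x : Ω), IsStage p x →
    ∀ (Q : Type) [Group Q] [Finite Q] (ψ : Gx p x →* Q), FinLevel ψ → Function.Surjective ψ →
    ∀ (k : ℕ) (act : Q →* Equiv.Perm (Fin k)) (ε : Q → Fin k → ℤˣ) (j₀ : Fin k),
    (∀ a b j, ε (a * b) j = ε a (act b j) * ε b j) → (∀ j, ∃ q, act q j₀ = j) →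
    ∃ y : Fin k → Fin n → Ω, AltA ψ act ε j₀ y

/-! ## Degrees `p` and `p + 2`, `p` odd -/

/-- The data of a family of polynomials `V (X^p - s + κ) + W`. -/
structure OType (p n : ℕ) [Fact p.Prime] where
  V : (ZMod p)[X]
  W : (ZMod p)[X]
  D : (ZMod p)[X]
  s : ZMod p
  c₁ : ZMod p
  k : ℕ
  odd : p ≠ 2
  hV : V.Monic
  hD : D.Monic
  hn : n = p + V.natDegree
  hc₁ : c₁ ≠ 0
  hs : V.eval s ≠ 0
  key : V * derivative W - derivative V * W = C c₁ * (X - C s) * D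
  dvd : D ∣ V ^ k
  hWV : W = 1 ∨ V = 1
  hWn : W.natDegree < n
  hVn : V.natDegree < n

namespace OType

variable {p n : ℕ} [Fact p.Prime] (t : OType p n)

section ring

variable {R : Type} [CommRing R] [Algebra (ZMod p) R]

/-- The polynomial `V (X^p - s + κ) + W`. -/
noncomputable def f (κ : R) : R[X] :=
  t.V.map (algebraMap (ZMod p) R) * (X ^ p - C (algebraMap (ZMod p) R t.s) + C κ) +
    t.W.map (algebraMap (ZMod p) R)

/-- The parameter `κ` for which the value at `s` is `c'⁻¹ d^2`. -/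
noncomputable def kap (c' : ZMod p) (d : R) : R :=
  (algebraMap (ZMod p) R c'⁻¹ * d ^ 2 - algebraMap (ZMod p) R (t.W.eval t.s)) *
    algebraMap (ZMod p) R (t.V.eval t.s)⁻¹

theorem map_f {R' : Type} [CommRing R'] [Algebra (ZMod p) R'] (φ : R →+* R') (κ : R) :
    (t.f κ).map φ = t.f (φ κ) := by
  have h : φ.comp (algebraMap (ZMod p) R) = algebraMap (ZMod p) R' := Subsingleton.elim _ _
  have h' : ∀ a, φ (algebraMap (ZMod p) R a) = algebraMap (ZMod p) R' a := fun a => by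
    rw [← h]; rfl
  simp only [f, Polynomial.map_add, Polynomial.map_mul, Polynomial.map_map, h,
    Polynomial.map_sub, Polynomial.map_pow, map_X, map_C, h']

theorem map_kap {R' : Type} [CommRing R'] [Algebra (ZMod p) R'] (φ : R →+* R') (c' : ZMod p)
    (d : R) : φ (t.kap c' d) = t.kap c' (φ d) := by
  have h : φ.comp (algebraMap (ZMod p) R) = algebraMap (ZMod p) R' := Subsingleton.elim _ _
  have h' : ∀ a, φ (algebraMap (ZMod p) R a) = algebraMap (ZMod p) R' a := fun a => by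
    rw [← h]; rfl
  simp only [kap, map_mul, map_sub, map_pow, h']

theorem kap_neg (c' : ZMod p) (d : R) : t.kap c' (-d) = t.kap c' d := by
  rw [kap, kap]
  ring

end ring

/-- The family. -/
noncomputable def fam (c' : ZMod p) : GFam p n 1 where
  F R _ _ w _ u := t.f (t.kap c' (w * u 0))
  ℓ R _ _ _ _ _ := 1
  D R _ _ w _ u := w * u 0
  Lbl Ω _ _ w _ u y := ∏ i, ∏ j ∈ Finset.Ioi i, (y j - y i) = w * u 0
  map_F R R' _ _ _ _ φ w g u := by rw [map_f, map_kap, map_mul]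
  map_ℓ R R' _ _ _ _ φ w g u := map_one φ
  map_D R R' _ _ _ _ φ w g u := map_mul φ _ _
  tw_F R _ _ ε w g u := by
    rw [tw, if_neg t.odd]
    rcases Int.units_eq_one_or ε with h | h
    · rw [h]
      simp
    · rw [h]
      simp only [Units.val_neg, Units.val_one, Int.cast_neg, Int.cast_one, neg_mul, one_mul]
      rw [kap_neg]

end OType

/-! ## Degree `p + 1`, `p ≥ 5` -/

section nfam

/-- `α = (-1)^((p-1)/2)`. -/
def nal (p : ℕ) : ZMod p := (-1) ^ ((p - 1) / 2)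

variable (p : ℕ) [Fact p.Prime] {R : Type} [CommRing R] [Algebra (ZMod p) R]

/-- The polynomial `α X^(p+1) + X^2 + 1`. -/
noncomputable def nf₀ (R : Type) [CommRing R] [Algebra (ZMod p) R] : R[X] :=
  C (algebraMap (ZMod p) R (nal p)) * X ^ (p + 1) + X ^ 2 + 1

/-- The polynomial `(1 - d²) (α X^(p+1) + X² + 1) - k₀ (1 + d²) X`, `k₀ = α + 2`. -/
noncomputable def nf (d : R) : R[X] :=
  C (1 - d ^ 2) * nf₀ p R - C (algebraMap (ZMod p) R (nal p + 2) * (1 + d ^ 2)) * X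

theorem map_nf {R' : Type} [CommRing R'] [Algebra (ZMod p) R'] (φ : R →+* R') (d : R) :
    (nf p d).map φ = nf p (φ d) := by
  have h : φ.comp (algebraMap (ZMod p) R) = algebraMap (ZMod p) R' := Subsingleton.elim _ _
  have h' : ∀ a, φ (algebraMap (ZMod p) R a) = algebraMap (ZMod p) R' a := fun a => by
    rw [← h]; rfl
  simp only [nf, nf₀, Polynomial.map_add, Polynomial.map_mul, Polynomial.map_sub,
    Polynomial.map_pow, map_X, map_C, h', Polynomial.map_one, map_sub, map_mul, map_add, map_pow,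
    map_one]

theorem nf_neg (d : R) : nf p (-d) = nf p d := by
  rw [nf, nf, neg_sq]

/-- The family of degree `p + 1`. -/
noncomputable def nfam (p : ℕ) [Fact p.Prime] (hp : p ≠ 2) : GFam p (p + 1) 1 where
  F R _ _ w _ u := nf p (w * u 0)
  ℓ R _ _ w _ u := algebraMap (ZMod p) R (nal p) * (1 - (w * u 0) ^ 2)
  D R _ _ w _ u := w * u 0
  Lbl Ω _ _ w _ u y := (∏ i, ∏ j ∈ Finset.Ioi i, (y j - y i)) * (1 - (w * u 0) ^ 2) =
    algebraMap (ZMod p) Ω (2 * (nal p + 2)) * (w * u 0)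
  map_F R R' _ _ _ _ φ w g u := by rw [map_nf, map_mul]
  map_ℓ R R' _ _ _ _ φ w g u := by
    have h : φ.comp (algebraMap (ZMod p) R) = algebraMap (ZMod p) R' := Subsingleton.elim _ _
    have h' : ∀ a, φ (algebraMap (ZMod p) R a) = algebraMap (ZMod p) R' a := fun a => by
      rw [← h]; rfl
    simp only [map_mul, map_sub, map_pow, map_one, h']
  map_D R R' _ _ _ _ φ w g u := map_mul φ _ _
  tw_F R _ _ ε w g u := by
    rw [tw, if_neg hp]
    rcases Int.units_eq_one_or ε with h | h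
    · rw [h]
      simp
    · rw [h]
      simp only [Units.val_neg, Units.val_one, Int.cast_neg, Int.cast_one, neg_mul, one_mul]
      rw [nf_neg]

end nfam

/-! ## Characteristic two -/

/-- The data of a family of polynomials `P (κ + A X²) + X³ R` of degree `n`. -/
structure BType (n : ℕ) where
  P : (ZMod 2)[X]
  R : (ZMod 2)[X]
  D : (ZMod 2)[X]
  k : ℕ
  hR : R.Monic
  P_zero : P.eval 0 = 1
  R_zero : R.eval 0 = 1
  hn : n = R.natDegree + 3
  hP : P.natDegree + 2 < n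
  cop : IsCoprime P R
  key : derivative (X ^ 3 * P * R) = X ^ 2 * D
  dvd : D ∣ P ^ k
  le : 7 ≤ n

section bpar

variable {R : Type} [CommRing R] [Algebra (ZMod 2) R]

/-- `A = s² + s h + c h²`. -/
def bA (c : ZMod 2) (s h : R) : R := s ^ 2 + s * h + algebraMap (ZMod 2) R c * h ^ 2

/-- `den = h (h² + A)`. -/
def bDen (c : ZMod 2) (s h : R) : R := h * (h ^ 2 + bA c s h)

/-- `num = s³ + c s h² + c h³`. -/
def bNum (c : ZMod 2) (s h : R) : R :=
  s ^ 3 + algebraMap (ZMod 2) R c * s * h ^ 2 + algebraMap (ZMod 2) R c * h ^ 3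

theorem two_eq_zero' (R : Type) [CommRing R] [Algebra (ZMod 2) R] : (2 : R) = 0 := by
  have h : (2 : ZMod 2) = 0 := rfl
  have h2 := congrArg (algebraMap (ZMod 2) R) h
  rwa [map_ofNat, map_zero] at h2

theorem algMap_sq (c : ZMod 2) :
    algebraMap (ZMod 2) R c ^ 2 = algebraMap (ZMod 2) R c := by
  rw [← map_pow, ZMod.pow_card]

theorem bA_add (c : ZMod 2) (s h : R) : bA c (s + h) h = bA c s h := by
  rw [bA, bA]
  linear_combination (s * h + h ^ 2) * two_eq_zero' R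

theorem bDen_add (c : ZMod 2) (s h : R) : bDen c (s + h) h = bDen c s h := by
  rw [bDen, bDen, bA_add]

theorem bNum_add (c : ZMod 2) (s h : R) : bNum c (s + h) h = bNum c s h + bDen c s h := by
  rw [bNum, bNum, bDen, bA]
  linear_combination (s ^ 2 * h + s * h ^ 2) * two_eq_zero' R

/-- `num² + num den = A³ + c den²`. -/
theorem bNum_sq (c : ZMod 2) (s h : R) : bNum c s h ^ 2 + bNum c s h * bDen c s h =
    bA c s h ^ 3 + algebraMap (ZMod 2) R c * bDen c s h ^ 2 := by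
  have h2 := two_eq_zero' R
  have hc := algMap_sq (R := R) c
  rw [bNum, bDen, bA]
  generalize algebraMap (ZMod 2) R c = e at *
  linear_combination (-(e * h ^ 6) - e * s * h ^ 5 - 4 * e * s ^ 2 * h ^ 4 - 2 * e * s ^ 3 * h ^ 3 -
    s ^ 4 * h ^ 2 - e * s ^ 4 * h ^ 2 - s ^ 5 * h) * h2 +
    (-2 * h ^ 6 - 2 * e * h ^ 6 - 2 * s * h ^ 5 - 4 * s ^ 2 * h ^ 4) * hc

theorem map_bA {R' : Type} [CommRing R'] [Algebra (ZMod 2) R'] (φ : R →+* R') (c : ZMod 2)
    (s h : R) : φ (bA c s h) = bA c (φ s) (φ h) := by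
  have h0 : φ.comp (algebraMap (ZMod 2) R) = algebraMap (ZMod 2) R' := Subsingleton.elim _ _
  have h' : ∀ a, φ (algebraMap (ZMod 2) R a) = algebraMap (ZMod 2) R' a := fun a => by
    rw [← h0]; rfl
  simp only [bA, map_add, map_mul, map_pow, h']

theorem map_bDen {R' : Type} [CommRing R'] [Algebra (ZMod 2) R'] (φ : R →+* R') (c : ZMod 2)
    (s h : R) : φ (bDen c s h) = bDen c (φ s) (φ h) := by
  simp only [bDen, map_add, map_mul, map_pow, map_bA]

end bpar

namespace BType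

variable {n : ℕ} (t : BType n)

/-- The polynomial `P (κ + A X²) + X³ R`. -/
noncomputable def f {R : Type} [CommRing R] [Algebra (ZMod 2) R] (A κ : R) : R[X] :=
  t.P.map (algebraMap (ZMod 2) R) * (C κ + C A * X ^ 2) + X ^ 3 * t.R.map (algebraMap (ZMod 2) R)

theorem map_f {R R' : Type} [CommRing R] [Algebra (ZMod 2) R] [CommRing R'] [Algebra (ZMod 2) R']
    (φ : R →+* R') (A κ : R) : (t.f A κ).map φ = t.f (φ A) (φ κ) := by
  have h : φ.comp (algebraMap (ZMod 2) R) = algebraMap (ZMod 2) R' := Subsingleton.elim _ _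
  simp only [f, Polynomial.map_add, Polynomial.map_mul, Polynomial.map_map, h,
    Polynomial.map_pow, map_X, map_C]

/-- The family. -/
noncomputable def fam (c : ZMod 2) : GFam 2 n 2 where
  F R _ _ w g u := t.f (bA c (u 0 + u 1 * w) (g * u 1)) (bDen c (u 0 + u 1 * w) (g * u 1) ^ 2)
  ℓ R _ _ _ _ _ := 1
  D R _ _ w g u := bDen c (u 0 + u 1 * w) (g * u 1)
  Lbl Ω _ _ w g u y := bsum y * bDen c (u 0 + u 1 * w) (g * u 1) =
    bNum c (u 0 + u 1 * w) (g * u 1)
  map_F R R' _ _ _ _ φ w g u := by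
    rw [map_f, map_bA, map_pow, map_bDen]
    simp only [map_add, map_mul]
  map_ℓ R R' _ _ _ _ φ w g u := map_one φ
  map_D R R' _ _ _ _ φ w g u := by
    rw [map_bDen]
    simp only [map_add, map_mul]
  tw_F R _ _ ε w g u := by
    rw [tw, if_pos rfl]
    split_ifs with h
    · rw [add_zero]
    · have h1 : u 0 + u 1 * (w + g) = (u 0 + u 1 * w) + g * u 1 := by ring
      rw [h1, bA_add, bDen_add]

end BType

/-! ## Permutations of the roots -/

/-- The permutations of `y` induced by automorphisms of `N` over `L` which fix the set `S`. -/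
def PermGrp (L : Type) {N : Type} [Field L] [Field N] [Algebra L N] (S : Set N) {n : ℕ}
    (y : Fin n → N) : Subgroup (Equiv.Perm (Fin n)) where
  carrier := {ρ | ∃ σ : N ≃ₐ[L] N, (∀ a ∈ S, σ a = a) ∧ ∀ i, σ (y i) = y (ρ i)}
  mul_mem' := by
    rintro ρ ρ' ⟨σ, h1, h2⟩ ⟨σ', h1', h2'⟩
    refine ⟨σ * σ', fun a ha => ?_, fun i => ?_⟩
    · rw [AlgEquiv.mul_apply, h1' a ha, h1 a ha]
    · rw [AlgEquiv.mul_apply, h2', h2, Equiv.Perm.mul_apply]
  one_mem' := ⟨1, fun a _ => rfl, fun i => rfl⟩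
  inv_mem' := by
    rintro ρ ⟨σ, h1, h2⟩
    refine ⟨σ⁻¹, fun a ha => ?_, fun i => ?_⟩
    · have h3 : σ⁻¹ (σ a) = a := σ.symm_apply_apply a
      rwa [h1 a ha] at h3
    · have h3 : σ⁻¹ (σ (y (ρ⁻¹ i))) = y (ρ⁻¹ i) := σ.symm_apply_apply _
      have h4 : ρ (ρ⁻¹ i) = i := ρ.apply_symm_apply i
      rwa [h2, h4] at h3

theorem mem_permGrp {L N : Type} [Field L] [Field N] [Algebra L N] {S : Set N} {n : ℕ}
    {y : Fin n → N} {ρ : Equiv.Perm (Fin n)} : ρ ∈ PermGrp L S y ↔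
      ∃ σ : N ≃ₐ[L] N, (∀ a ∈ S, σ a = a) ∧ ∀ i, σ (y i) = y (ρ i) := Iff.rfl

/-- An isomorphism of fields which maps a polynomial to another one maps its roots to the roots of
the other one. -/
theorem exists_perm {N N' : Type} [Field N] [Field N'] {n : ℕ} {y : Fin n → N} {y' : Fin n → N'}
    (hy : Function.Injective y) {c : N} {c' : N'} (hc : c ≠ 0) {f : N[X]} (σ : N →+* N')
    (h : f = C c * ∏ i, (X - C (y i))) (h' : f.map σ = C c' * ∏ i, (X - C (y' i))) :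
    ∃ ρ : Equiv.Perm (Fin n), ∀ i, σ (y i) = y' (ρ i) := by
  have h1 : ∀ i, ∃ l, σ (y i) = y' l := by
    intro i
    have h2 : (f.map σ).eval (σ (y i)) = 0 := by
      have h5 : f.eval (y i) = 0 := by
        rw [h, eval_mul, eval_prod, Finset.prod_eq_zero (Finset.mem_univ i), mul_zero]
        rw [eval_sub, eval_X, eval_C, sub_self]
      rw [eval_map, eval₂_at_apply, h5, map_zero]
    have h3 : c' ≠ 0 := by
      intro h4
      rw [h4, C_0, zero_mul, Polynomial.map_eq_zero, h] at h'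
      exact mul_ne_zero (C_ne_zero.2 hc) (Finset.prod_ne_zero_iff.2 fun i _ => X_sub_C_ne_zero _) h'
    rw [h', eval_mul, eval_C, mul_eq_zero, or_iff_right h3, eval_prod, Finset.prod_eq_zero_iff] at h2
    obtain ⟨l, -, hl⟩ := h2
    exact ⟨l, by rwa [eval_sub, eval_X, eval_C, sub_eq_zero] at hl⟩
  choose e he using h1
  have hinj : Function.Injective e := fun a b hab => hy (σ.injective (by rw [he, he, hab]))
  exact ⟨Equiv.ofBijective e (Finite.injective_iff_bijective.1 hinj), fun i => he i⟩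

/-- The formula for the sign class of the roots. -/
def BCls {n : ℕ} (t : BType n) (c : ZMod 2) : Prop :=
  ∀ (Ω : Type) [Field Ω] [Algebra (ZMod 2) Ω] (A κ : Ω) (y : Fin n → Ω), κ ≠ 0 →
    Function.Injective y → t.f A κ = ∏ i, (X - C (y i)) →
    bsum y ^ 2 + bsum y = A ^ 3 / κ + algebraMap (ZMod 2) Ω c

end MP7Z.A3
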