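import Pool.Agent.Lib.MP_7f581e_Z.Alt3.Spec
import Pool.Agent.Lib.MP_7f581e_Z.Alt.Hilb

/-!
# Specialization of Galois groups, for a family of polynomials and several parameters
-/

set_option autoImplicit false

namespace MP7Z.A3

open Polynomial MP7fS MP7Z

open HilbM in
/-- **Specialization of Galois groups.** -/
theorem tHilbF (h0 : HRmStmt) : HilbFStmt := by
  intro p _ Ω _ _ x hst G _ _ ψ hfin hsurj L hL N _ _ _ m U hUT halg k n g ℓ c η evN hevN hη hℓ
    hc hg
  obtain ⟨α, -, hα1, hα2⟩ := FamM.exists_gen hst ψ hfin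
  have hsc := hst.sepClosed
  -- the fields and rings
  let F := IntermediateField.adjoin (ZMod p) {x}
  let e : RatFunc (ZMod p) ≃ₐ[ZMod p] F := RatFunc.algEquivOfTranscendental x hst.transc
  let ι : RatFunc (ZMod p) →+* Ω :=
    (algebraMap F Ω).comp (e : RatFunc (ZMod p) →+* F)
  have hι : ∀ a : (ZMod p)[X], ι (algebraMap (ZMod p)[X] (RatFunc (ZMod p)) a) = aeval x a := by
    intro a
    change algebraMap F Ω (e (algebraMap (ZMod p)[X] (RatFunc (ZMod p)) a)) = _
    rw [RatFunc.algEquivOfTranscendental_algebraMap, ← aeval_algebraMap_apply]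
    rfl
  let mapA : MvPolynomial (Fin m) (RatFunc (ZMod p)) →+* MvPolynomial (Fin m) Ω :=
    MvPolynomial.map ι
  let mapL : MvPolynomial (Fin m) L →+* MvPolynomial (Fin m) Ω :=
    MvPolynomial.map (algebraMap L Ω)
  let jB : MvPolynomial (Fin m) Ω →+* N :=
    MvPolynomial.eval₂Hom (algebraMap Ω N) U
  have hjB : Function.Injective jB := by
    intro a b hab
    exact hUT hab
  have hmapA : Function.Injective mapA := MvPolynomial.map_injective _ ι.injective
  have hmapL : Function.Injective mapL := MvPolynomial.map_injective _ (algebraMap L Ω).injective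
  have hevN' : evN = jB.comp mapL := by
    rw [hevN]
    refine MvPolynomial.ringHom_ext (fun a => ?_) (fun i => ?_)
    · simp [jB, mapL]
    · simp [jB, mapL]
  let jA : MvPolynomial (Fin m) (RatFunc (ZMod p)) →+* N := jB.comp mapA
  have hjA : Function.Injective jA := hjB.comp hmapA
  have hinjN : Function.Injective evN := by
    rw [hevN']
    exact hjB.comp hmapL
  have hℓN : ∀ j, evN (ℓ j) ≠ 0 := fun j h => hℓ j (hinjN (h.trans (map_zero evN).symm))
  have hcN : evN c ≠ 0 := fun h => hc (hinjN (h.trans (map_zero evN).symm))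
  let _ : Algebra (MvPolynomial (Fin m) (RatFunc (ZMod p))) N := jA.toAlgebra
  let _ : Algebra (FractionRing (MvPolynomial (Fin m) (RatFunc (ZMod p)))) N :=
    (IsFractionRing.lift hjA : FractionRing (MvPolynomial (Fin m) (RatFunc (ZMod p))) →+* N).toAlgebra
  have htow : IsScalarTower (MvPolynomial (Fin m) (RatFunc (ZMod p)))
      (FractionRing (MvPolynomial (Fin m) (RatFunc (ZMod p)))) N :=
    IsScalarTower.of_algebraMap_eq fun r => (IsFractionRing.lift_algebraMap hjA r).symm
  -- separability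
  let iF : F →+* FractionRing (MvPolynomial (Fin m) (RatFunc (ZMod p))) :=
    (algebraMap (MvPolynomial (Fin m) (RatFunc (ZMod p)))
      (FractionRing (MvPolynomial (Fin m) (RatFunc (ZMod p))))).comp
      ((MvPolynomial.C : RatFunc (ZMod p) →+* MvPolynomial (Fin m) (RatFunc (ZMod p))).comp
        (e.symm : F →+* RatFunc (ZMod p)))
  have hiF : (algebraMap (FractionRing (MvPolynomial (Fin m) (RatFunc (ZMod p)))) N).comp iF =
      (algebraMap Ω N).comp (algebraMap F Ω) := by
    ext y
    have h1 : algebraMap (FractionRing (MvPolynomial (Fin m) (RatFunc (ZMod p)))) N (iF y) =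
        jA (MvPolynomial.C (e.symm y)) :=
      (IsScalarTower.algebraMap_apply (MvPolynomial (Fin m) (RatFunc (ZMod p)))
        (FractionRing (MvPolynomial (Fin m) (RatFunc (ZMod p)))) N _).symm
    have h2 : jA (MvPolynomial.C (e.symm y)) = algebraMap Ω N (ι (e.symm y)) := by
      simp [jA, jB, mapA]
    have h3 : ι (e.symm y) = algebraMap F Ω y := by
      change algebraMap F Ω (e (e.symm y)) = _
      rw [AlgEquiv.apply_symm_apply]
    exact (h1.trans h2).trans (congrArg _ h3)
  have hsΩ : ∀ ω : Ω, IsSeparable (FractionRing (MvPolynomial (Fin m) (RatFunc (ZMod p))))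
      (algebraMap Ω N ω) := sep_const hst iF hiF
  have hsX : ∀ i : Fin m, U i ∈ separableClosure
      (FractionRing (MvPolynomial (Fin m) (RatFunc (ZMod p)))) N := by
    intro i
    have h1 : U i = algebraMap (FractionRing (MvPolynomial (Fin m) (RatFunc (ZMod p)))) N
        (algebraMap (MvPolynomial (Fin m) (RatFunc (ZMod p))) _ (MvPolynomial.X i)) := by
      rw [← IsScalarTower.algebraMap_apply]
      change _ = jA (MvPolynomial.X i)
      simp [jA, jB, mapA]
    rw [h1]
    exact IntermediateField.algebraMap_mem _ _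
  have hev : ∀ a, evN a ∈ separableClosure
      (FractionRing (MvPolynomial (Fin m) (RatFunc (ZMod p)))) N := by
    intro a
    induction a using MvPolynomial.induction_on with
    | C a =>
      rw [hevN, MvPolynomial.coe_eval₂Hom, MvPolynomial.eval₂_C]
      exact hsΩ _
    | add a b ha hb =>
      rw [map_add]
      exact add_mem ha hb
    | mul_X a i ha =>
      rw [map_mul]
      refine mul_mem ha ?_
      rw [hevN, MvPolynomial.coe_eval₂Hom, MvPolynomial.eval₂_X]
      exact hsX i
  have hηs := fun j => sep_roots (g j) evN (η j) hev (hη j) (ℓ j) (hℓN j) (hg j)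
  let z : (Fin k × Fin n) ⊕ (Fin k ⊕ Fin 2) → N := Sum.elim (fun q => η q.1 q.2)
    (Sum.elim (fun j => (evN (ℓ j))⁻¹) ![algebraMap Ω N α, (evN c)⁻¹])
  have hz : ∀ i, IsSeparable (FractionRing (MvPolynomial (Fin m) (RatFunc (ZMod p)))) (z i) := by
    rintro (i | j | i)
    · exact hηs i.1 i.2
    · exact inv_mem (hev (ℓ j))
    · fin_cases i
      · exact hsΩ α
      · exact inv_mem (hev c)
  obtain ⟨θ, Q, hQm, hQi, hQs, hQθ, c₀, hc₀, P, hP⟩ :=
    prim_int (A := MvPolynomial (Fin m) (RatFunc (ZMod p))) z hz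
  change Q.eval₂ jA θ = 0 at hQθ
  have hP' : ∀ i, jA c₀ * z i = (P i).eval₂ jA θ := hP
  obtain ⟨a, hab⟩ := h0 p m Q hQm hQi hQs c₀ hc₀
  let evA : MvPolynomial (Fin m) (RatFunc (ZMod p)) →+* RatFunc (ZMod p) :=
    MvPolynomial.eval (fun i => algebraMap (ZMod p)[X] (RatFunc (ZMod p)) (a i))
  obtain ⟨hd, hirr, hsepQ⟩ := hab evA rfl
  let evB : MvPolynomial (Fin m) Ω →+* Ω := MvPolynomial.eval (fun i => aeval x (a i))
  have hevB : evB.comp mapA = ι.comp evA := by
    refine MvPolynomial.ringHom_ext (fun k => ?_) (fun i => ?_)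
    · simp [evB, evA, mapA]
    · simp [evB, evA, mapA, hι]
  obtain ⟨R, _, inc, Φ, oB, hinc, hoB, hΦ, hroot⟩ := spec_ext' jB hjB evB
    (MvPolynomial.C : Ω →+* MvPolynomial (Fin m) Ω) (fun a => by simp [evB])
  have hQsp : ((Q.map mapA).map evB).Splits := by
    rw [Polynomial.map_map, hevB, ← Polynomial.map_map]
    exact hsc.splits_of_separable _ (Polynomial.Separable.map hsepQ)
  have hrootQ : ∀ t : N, Q.eval₂ jA t = 0 → ∃ r, inc r = t := by
    intro t ht
    refine hroot (Q.map mapA) (hQm.map _) hQsp t ?_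
    rw [eval₂_map]
    exact ht
  have hincP : ∀ (P : (MvPolynomial (Fin m) (RatFunc (ZMod p)))[X]) (r : R),
      inc (P.eval₂ (oB.comp mapA) r) = P.eval₂ jA (inc r) := by
    intro P r
    rw [hom_eval₂, ← RingHom.comp_assoc, hoB]
  have hΦP : ∀ (P : (MvPolynomial (Fin m) (RatFunc (ZMod p)))[X]) (r : R),
      Φ (P.eval₂ (oB.comp mapA) r) = P.eval₂ (ι.comp evA) (Φ r) := by
    intro P r
    rw [hom_eval₂, ← RingHom.comp_assoc, hΦ, hevB]
  have hincB : ∀ b, inc (oB b) = jB b := fun b => RingHom.congr_fun hoB b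
  have hΦB : ∀ b, Φ (oB b) = evB b := fun b => RingHom.congr_fun hΦ b
  have hevBA : ∀ k, evB (mapA k) = ι (evA k) := fun k => RingHom.congr_fun hevB k
  have hroot0 : ∀ r : R, Q.eval₂ jA (inc r) = 0 → Q.eval₂ (ι.comp evA) (Φ r) = 0 := by
    intro r hr
    rw [← hΦP]
    have h1 : Q.eval₂ (oB.comp mapA) r = 0 := by
      apply hinc
      rw [hincP, hr, map_zero]
    rw [h1, map_zero]
  obtain ⟨r, hr⟩ := hrootQ θ hQθ
  have hω0 := hroot0 r (by rw [hr]; exact hQθ)
  have hd0 : ι (evA c₀) ≠ 0 := by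
    rw [ne_eq, map_eq_zero_iff _ ι.injective]
    exact hd
  -- elements with inverses
  have hinv : ∀ (s : MvPolynomial (Fin m) L) (i : (Fin k × Fin n) ⊕ (Fin k ⊕ Fin 2)), evN s ≠ 0 →
      z i = (evN s)⁻¹ → evB (mapL s) ≠ 0 := by
    intro s i hs hi h
    have hs' : evN s = jB (mapL s) := RingHom.congr_fun hevN' s
    have h1 : oB (mapA c₀) = (P i).eval₂ (oB.comp mapA) r * oB (mapL s) := by
      apply hinc
      rw [map_mul, hincP, hincB, hincB, hr, ← hP', hi, ← hs', mul_assoc, inv_mul_cancel₀ hs,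
        mul_one]
      rfl
    have h2 := congrArg Φ h1
    rw [map_mul, hΦB, hΦB, h, mul_zero, hevBA] at h2
    exact hd0 h2
  refine ⟨fun i => aeval x (a i), fun i => aeval_mem_adjoin_singleton _ _, fun ev hevv => ?_⟩
  have hev' : ev = evB.comp mapL := by
    rw [hevv]
    refine MvPolynomial.ringHom_ext (fun a => ?_) (fun i => ?_)
    · simp [evB, mapL]
    · simp [evB, mapL]
  refine ⟨?_, ?_, fun j i => (P (Sum.inl (j, i))).eval₂ (ι.comp evA) (Φ r) / ι (evA c₀), ?_, ?_⟩
  · intro j
    rw [hev']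
    exact hinv (ℓ j) (Sum.inr (Sum.inl j)) (hℓN j) rfl
  · rw [hev']
    exact hinv c (Sum.inr (Sum.inr 1)) hcN rfl
  · -- the factorization
    intro j
    have h1 : C (oB (mapA c₀)) ^ n * (g j).map (oB.comp mapL) = C (oB (mapL (ℓ j))) *
        ∏ i : Fin n, (C (oB (mapA c₀)) * X -
          C ((P (Sum.inl (j, i))).eval₂ (oB.comp mapA) r)) := by
      apply Polynomial.map_injective inc hinc
      rw [Polynomial.map_mul, Polynomial.map_pow, map_C, Polynomial.map_map,
        ← RingHom.comp_assoc, hoB, ← hevN', hg j, Polynomial.map_mul, map_C, Polynomial.map_prod,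
        hincB, hincB]
      have h2 : ∀ i : Fin n, Polynomial.map inc (C (oB (mapA c₀)) * X -
          C ((P (Sum.inl (j, i))).eval₂ (oB.comp mapA) r)) = C (jA c₀) * (X - C (η j i)) := by
        intro i
        rw [Polynomial.map_sub, Polynomial.map_mul, map_C, map_X, map_C, hincP, hincB, hr, ← hP',
          mul_sub, ← C_mul]
        rfl
      rw [Finset.prod_congr rfl fun i _ => h2 i, Finset.prod_mul_distrib, Finset.prod_const,
        Finset.card_univ, Fintype.card_fin, hevN']
      change C (jA c₀) ^ n * (C (jB (mapL (ℓ j))) * _) = _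
      ring
    have h3 := congrArg (Polynomial.map Φ) h1
    rw [Polynomial.map_mul, Polynomial.map_pow, map_C, Polynomial.map_map,
      ← RingHom.comp_assoc, hΦ, ← hev', Polynomial.map_mul, map_C, Polynomial.map_prod,
      hΦB, hΦB, hevBA] at h3
    have h4 : ∀ i : Fin n, Polynomial.map Φ (C (oB (mapA c₀)) * X -
        C ((P (Sum.inl (j, i))).eval₂ (oB.comp mapA) r)) = C (ι (evA c₀)) *
          (X - C ((P (Sum.inl (j, i))).eval₂ (ι.comp evA) (Φ r) / ι (evA c₀))) := by
      intro i
      rw [Polynomial.map_sub, Polynomial.map_mul, map_C, map_X, map_C, hΦP, hΦB, hevBA, mul_sub,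
        ← C_mul, mul_div_cancel₀ _ hd0]
    rw [Finset.prod_congr rfl fun i _ => h4 i, Finset.prod_mul_distrib, Finset.prod_const,
      Finset.card_univ, Fintype.card_fin] at h3
    have h5 : C (ι (evA c₀)) ^ n ≠ 0 := pow_ne_zero _ (C_ne_zero.2 hd0)
    apply mul_left_cancel₀ h5
    rw [h3, hev']
    exact mul_left_comm _ _ _
  · intro σ hσL hσU π hπ
    -- `σ` fixes the coefficients
    have hιL : ∀ k, ι k ∈ L := by
      intro k
      rw [hL]
      intro γ _
      exact SplM.toFix γ.2 (e k).2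
    have hσA : (σ : N →+* N).comp jA = jA := by
      refine MvPolynomial.ringHom_ext (fun k => ?_) (fun i => ?_)
      · have h1 : jA (MvPolynomial.C k) = algebraMap Ω N (ι k) := by
          simp [jA, jB, mapA]
        rw [RingHom.comp_apply, h1]
        exact hσL ⟨ι k, hιL k⟩
      · have h1 : jA (MvPolynomial.X i) = U i := by
          simp [jA, jB, mapA]
        rw [RingHom.comp_apply, h1]
        exact hσU i
    have hσP : ∀ P : (MvPolynomial (Fin m) (RatFunc (ZMod p)))[X],
        σ (P.eval₂ jA θ) = P.eval₂ jA (σ θ) := by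
      intro P
      have h1 := hom_eval₂ P jA (σ : N →+* N) θ
      rw [hσA] at h1
      exact h1
    have hσc : σ (jA c₀) = jA c₀ := RingHom.congr_fun hσA c₀
    obtain ⟨r', hr'⟩ := hrootQ (σ θ) (by rw [← hσP, hQθ, map_zero])
    have hω0' := hroot0 r' (by rw [hr', ← hσP, hQθ, map_zero])
    have hrel : ∀ i j, σ (z i) = z j →
        (P j).eval₂ (ι.comp evA) (Φ r) = (P i).eval₂ (ι.comp evA) (Φ r') := by
      intro i j hij
      rw [← hΦP, ← hΦP]
      congr 1
      apply hinc
      rw [hincP, hincP, hr, hr', ← hσP, ← hP', ← hP', map_mul, hσc, hij]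
    -- the automorphism
    have hsepF := hst.sep
    have hclos : IsSepClosure F Ω := ⟨hsc, hsepF⟩
    have hgal : IsGalois F Ω := inferInstance
    let eF : RatFunc (ZMod p) ≃+* F := e.toRingEquiv
    have hirrF : Irreducible ((Q.map evA).map (eF : RatFunc (ZMod p) →+* F)) := by
      have h1 := (MulEquiv.irreducible_iff (Polynomial.mapEquiv eF).toMulEquiv).2 hirr
      exact h1
    have hmin : ∀ w : Ω, Q.eval₂ (ι.comp evA) w = 0 →
        (Q.map evA).map (eF : RatFunc (ZMod p) →+* F) = minpoly F w := by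
      intro w hw
      refine minpoly.eq_of_irreducible_of_monic hirrF ?_ ((hQm.map _).map _)
      rw [aeval_def, eval₂_map, eval₂_map]
      exact hw
    have hconj : IsConjRoot F (Φ r') (Φ r) := (hmin _ hω0').symm.trans (hmin _ hω0)
    obtain ⟨τ, hτ⟩ := isConjRoot_iff_exists_algEquiv.1 hconj
    have hτι : ∀ k, τ (ι k) = ι k := fun k => τ.commutes (e k)
    have hτP : ∀ P : (MvPolynomial (Fin m) (RatFunc (ZMod p)))[X],
        τ (P.eval₂ (ι.comp evA) (Φ r)) = P.eval₂ (ι.comp evA) (Φ r') := by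
      intro P
      have h1 := hom_eval₂ P (ι.comp evA) (τ : Ω →+* Ω) (Φ r)
      have h2 : ((τ : Ω →+* Ω).comp (ι.comp evA)) = ι.comp evA := by
        ext k
        · exact hτι _
        · exact hτι _
      rw [h2] at h1
      refine h1.trans ?_
      rw [← hτ]
      rfl
    refine ⟨SplM.ofGal τ, ?_, ?_⟩
    · apply hα2
      rw [SplM.ofGal_apply]
      have h1 := hrel (Sum.inr (Sum.inr 0)) (Sum.inr (Sum.inr 0)) (hσL ⟨α, (hL α).2 hα1⟩)
      have h2 : ι (evA c₀) * α = (P (Sum.inr (Sum.inr 0))).eval₂ (ι.comp evA) (Φ r) := by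
        have h3 : oB (mapA c₀) * oB (MvPolynomial.C α) =
            (P (Sum.inr (Sum.inr 0))).eval₂ (oB.comp mapA) r := by
          apply hinc
          rw [map_mul, hincP, hincB, hincB, hr, ← hP']
          change jA c₀ * _ = jA c₀ * algebraMap Ω N α
          simp [jB]
        have h4 := congrArg Φ h3
        rw [map_mul, hΦP, hΦB, hΦB, hevBA] at h4
        rw [← h4]
        simp [evB]
      have h5 := hτP (P (Sum.inr (Sum.inr 0)))
      rw [← h1, ← h2, map_mul, hτι] at h5
      exact mul_left_cancel₀ hd0 h5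
    · intro j i
      have h1 := hrel (Sum.inl (j, i)) (Sum.inl (j, π j i)) (hπ j i)
      rw [SplM.ofGal_apply, map_div₀, hτP, hτι, ← h1]

end MP7Z.A3
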