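import Pool.Agent.Lib.MP_7f581e_Z.Alt3.Spec

/-!
# The generic group contains the alternating group, also over `L(u₀)`
-/

set_option autoImplicit false

namespace MP7Z.A3

open Polynomial MP7Z

namespace OGenM

/-- If the generators of `E` over `L` are algebraic over `K ≤ E` and `N` is algebraic over `E`, it is
algebraic over `K`. -/
theorem alg_of_alg {L N : Type} [Field L] [Field N] [Algebra L N] (K : IntermediateField L N)
    (S : Set N) (hK : K ≤ IntermediateField.adjoin L S) (hS : ∀ x ∈ S, IsAlgebraic K x)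
    (h : Algebra.IsAlgebraic (IntermediateField.adjoin L S) N) : Algebra.IsAlgebraic K N := by
  let _ : Algebra K (IntermediateField.adjoin L S) := (IntermediateField.inclusion hK).toRingHom.toAlgebra
  have _ : IsScalarTower K (IntermediateField.adjoin L S) N := IsScalarTower.of_algebraMap_eq fun _ => rfl
  have hE : ∀ x ∈ IntermediateField.adjoin L S, IsAlgebraic K x := by
    intro x hx
    induction hx using IntermediateField.adjoin_induction with
    | mem x hx => exact hS x hx
    | algebraMap x =>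
      exact isAlgebraic_algebraMap (A := N) (⟨algebraMap L N x, K.algebraMap_mem x⟩ : K)
    | add x y _ _ h1 h2 => exact h1.add h2
    | inv x _ h1 => exact h1.inv
    | mul x y _ _ h1 h2 => exact h1.mul h2
  have _ : Algebra.IsAlgebraic K (IntermediateField.adjoin L S) := by
    refine ⟨fun e => ?_⟩
    have h1 := hE (e : N) e.2
    exact (isAlgebraic_algebraMap_iff (R := K) (S := IntermediateField.adjoin L S) (A := N)
      (FaithfulSMul.algebraMap_injective _ _)).1 h1
  exact ⟨fun x => IsAlgebraic.restrictScalars K (h.isAlgebraic x)⟩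

end OGenM

theorem tOGen (h0 : OSepStmt) (h1 : OTrStmt) : OGenStmt := by
  intro p n _ t c' hdis hprim L N _ _ _ _ _ _ _ _ u hu halg w g hw hg y hy hF a ha
  have hw0 : w ≠ 0 := hw t.odd
  have hc' : c' ≠ 0 := hdis.1
  set d := algebraMap L N w * u 0 with hd
  set κ := t.kap c' d with hκd
  have hF' : t.f κ = ∏ i, (X - C (y i)) := by
    have h : t.f κ = C (1 : N) * ∏ i, (X - C (y i)) := hF
    rw [h, C_1, one_mul]
  have hwN : algebraMap L N w ≠ 0 := (_root_.map_ne_zero _).2 hw0
  set m := algebraMap (ZMod p) N with hm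
  have hVs : m (t.V.eval t.s) * m (t.V.eval t.s)⁻¹ = 1 := by
    rw [← map_mul, mul_inv_cancel₀ t.hs, map_one]
  have hcc : m c' * m c'⁻¹ = 1 := by rw [← map_mul, mul_inv_cancel₀ hc', map_one]
  have hκ1 : m (t.V.eval t.s) * κ + m (t.W.eval t.s) = m c'⁻¹ * d ^ 2 := by
    rw [hκd, OType.kap, ← hm]
    linear_combination (m c'⁻¹ * d ^ 2 - m (t.W.eval t.s)) * hVs
  have hκ2 : d ^ 2 = m c' * (m (t.V.eval t.s) * κ + m (t.W.eval t.s)) := by
    rw [hκ1]
    linear_combination (-d ^ 2) * hcc
  have hmL : ∀ z : ZMod p, m z = algebraMap L N (algebraMap (ZMod p) L z) := fun z =>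
    IsScalarTower.algebraMap_apply (ZMod p) L N z
  have hu0 : u 0 = (algebraMap L N w)⁻¹ * d := by
    rw [hd, ← mul_assoc, inv_mul_cancel₀ hwN, one_mul]
  -- `κ` is transcendental
  have hκt : Transcendental L κ := by
    intro hk
    have h2 : IsAlgebraic L (d ^ 2) := by
      rw [hκ2, hmL, hmL, hmL]
      exact (isAlgebraic_algebraMap _).mul
        (((isAlgebraic_algebraMap _).mul hk).add (isAlgebraic_algebraMap _))
    have h3 : IsAlgebraic L d := IsAlgebraic.of_pow (by norm_num) h2
    have h4 : IsAlgebraic L (u 0) := by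
      rw [hu0, ← map_inv₀]
      exact (isAlgebraic_algebraMap _).mul h3
    exact hu.transcendental 0 h4
  set K := IntermediateField.adjoin L {κ} with hK
  have hκK : κ ∈ K := IntermediateField.mem_adjoin_simple_self L κ
  have hmK : ∀ z : ZMod p, m z ∈ K := fun z => by rw [hmL]; exact K.algebraMap_mem _
  have hmE : ∀ z : ZMod p, m z ∈ IntermediateField.adjoin L (Set.range u) := fun z => by
    rw [hmL]; exact (IntermediateField.adjoin L (Set.range u)).algebraMap_mem _
  have hKalg : Algebra.IsAlgebraic K N := by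
    refine OGenM.alg_of_alg K (Set.range u) ?_ ?_ halg
    · rw [hK, IntermediateField.adjoin_le_iff, Set.singleton_subset_iff, SetLike.mem_coe]
      have hdE : d ∈ IntermediateField.adjoin L (Set.range u) := by
        rw [hd]
        exact mul_mem (IntermediateField.algebraMap_mem _ _)
          (IntermediateField.subset_adjoin L _ ⟨0, rfl⟩)
      rw [hκd, OType.kap, ← hm]
      exact mul_mem (sub_mem (mul_mem (hmE _) (pow_mem hdE _)) (hmE _)) (hmE _)
    · rintro x ⟨i, rfl⟩
      rw [Subsingleton.elim i 0, hu0, ← map_inv₀]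
      have h2 : IsAlgebraic K (d ^ 2) := by
        have hd2 : d ^ 2 ∈ K := by
          rw [hκ2]
          exact mul_mem (hmK _) (add_mem (mul_mem (hmK _) hκK) (hmK _))
        exact isAlgebraic_algebraMap (A := N) (⟨d ^ 2, hd2⟩ : K)
      have h3 : IsAlgebraic K d := IsAlgebraic.of_pow (by norm_num) h2
      exact (isAlgebraic_algebraMap (A := N)
        (⟨algebraMap L N w⁻¹, K.algebraMap_mem _⟩ : K)).mul h3
  have hG : PermGrp L {κ} y = ⊤ := by
    have hpr := hprim L N κ hκt hKalg y hy hF'
    obtain ⟨ρ, hρ, hsw⟩ := (h1 p n t L N κ hκt hKalg y hy hF').2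
    exact Equiv.Perm.subgroup_eq_top_of_isPreprimitive_of_isSwap_mem hpr ρ hsw hρ
  obtain ⟨σ, hσ1, hσ2⟩ := mem_permGrp.1 (show a ∈ PermGrp L {κ} y by rw [hG]; trivial)
  refine ⟨σ, ?_, hσ2⟩
  set Δ := ∏ i, ∏ j ∈ Finset.Ioi i, (y j - y i) with hΔ
  have hσΔ : σ Δ = Δ := by
    have hv : Matrix.vandermonde (fun i => y (a i)) = (Matrix.vandermonde y).submatrix a id := rfl
    have h3 := Matrix.det_vandermonde (fun i => y (a i))
    rw [hv, Matrix.det_permute, Matrix.det_vandermonde, Equiv.Perm.mem_alternatingGroup.1 ha] at h3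
    have h4 : σ Δ = ∏ i, ∏ j ∈ Finset.Ioi i, (y (a j) - y (a i)) := by
      rw [hΔ, map_prod]
      refine Finset.prod_congr rfl fun i _ => ?_
      rw [map_prod]
      refine Finset.prod_congr rfl fun j _ => ?_
      rw [map_sub, hσ2, hσ2]
    rw [h4, ← h3]
    simp [hΔ]
  have hΔ2 : Δ ^ 2 = d ^ 2 := by
    have h5 := hdis.2 N κ y hF'
    rw [(h0 p n t N κ).2.2.1, ← hm] at h5
    rw [hΔ, h5, hκ1]
    linear_combination d ^ 2 * hcc
  have hσd : σ d = d := by
    rcases sq_eq_sq_iff_eq_or_eq_neg.1 hΔ2 with h6 | h6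
    · rw [← h6, hσΔ]
    · have h7 : d = -Δ := by rw [h6, neg_neg]
      rw [h7, map_neg, hσΔ]
  intro i
  rw [Subsingleton.elim i 0]
  have h8 : algebraMap L N w * σ (u 0) = algebraMap L N w * u 0 := by
    have h9 := hσd
    rw [hd, map_mul, AlgEquiv.commutes] at h9
    exact h9
  exact mul_left_cancel₀ hwN h8

end MP7Z.A3
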