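import Pool.Agent.Lib.MP_7f581e_Z.Alt3.Spec
import Pool.Agent.Lib.MP_7f581e_Z.Lie.RQ
import Pool.Agent.Lib.MP_7f581e_Z.Lie.TorS

/-!
# Small degrees, task SOfA: the invariant (S), and an element of one factor
-/

set_option autoImplicit false

namespace MP7Z.A3

open MP7Z

theorem tSOfA : SOfAStmt := by
  intro p n _ Ω _ _ x hst Q _ _ ψ k act ε j₀ y hS hsys E _ π T k1 k2 k3 Ψ hπ hΨ
  -- `T 1 = 1`
  have hT1 : ∀ j, T 1 j = 1 := by
    intro j
    have h1 := k1 1 1 j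
    rw [mul_one, map_one, map_one, Equiv.Perm.one_apply] at h1
    exact (mul_eq_left.mp h1.symm)
  have hε : ∀ j, ε 1 j = 1 := by
    intro j
    have h1 := k2 1 j
    rwa [hT1, Equiv.Perm.sign_one, map_one, eq_comm] at h1
  -- powers
  have hpow : ∀ (g : E), π g = 1 → ∀ (N : ℕ) j, T (g ^ N) j = T g j ^ N := by
    intro g hg N
    induction N with
    | zero =>
      intro j
      rw [pow_zero, pow_zero, hT1]
    | succ N ih =>
      intro j
      rw [pow_succ, k1, hg, map_one, Equiv.Perm.one_apply, ih, pow_succ]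
  -- the action
  have hact : ∀ γ : Gx p x, ψ γ = 1 → ∀ j i,
      (γ : Ω ≃ₐ[ZMod p] Ω) (y j i) = y j (T (Ψ γ) j i) := by
    intro γ hγ j i
    rw [hΨ, hγ, map_one, Equiv.Perm.one_apply]
  -- elements of inertia in the kernel of `ψ`
  have hker : ∀ V : ValuationSubring Ω, V ≠ ⊤ → x ∈ V → ∀ γ : Gx p x,
      (γ : Ω ≃ₐ[ZMod p] Ω) ∈ Inert p V → ψ γ = 1 → Ψ γ ^ p = 1 := by
    intro V hV hxV γ hγ hγ1
    have hTp : ∀ j, T (Ψ γ ^ p) j = 1 := by
      intro j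
      rw [hpow _ (by rw [hπ, hγ1])]
      exact hsys.loc V hV hxV γ hγ hγ1 j (T (Ψ γ) j) (hact γ hγ1 j)
    obtain ⟨g, -, hg⟩ := k3 1 (fun _ => 1) (fun j => by rw [hε, Equiv.Perm.sign_one])
    have h1 : Ψ γ ^ p = g := hg _ ⟨by rw [map_pow, hπ, hγ1, one_pow], funext hTp⟩
    have h2 : (1 : E) = g := hg _ ⟨map_one _, funext hT1⟩
    rw [h1, ← h2]
  refine ⟨?_, ?_⟩
  · -- the invariant (S)
    intro ℓ hℓ hℓp V hV hbadV γ hγ hdvd
    have hxV : x ∈ V := TorS_mem hbadV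
    set m := orderOf (ψ γ) with hm
    have h1 : ¬ ℓ ∣ m := hS ℓ hℓ hℓp V hV hbadV γ hγ
    have h2 : ψ (γ ^ m) = 1 := by rw [map_pow, hm, pow_orderOf_eq_one]
    have h3 : ((γ ^ m : Gx p x) : Ω ≃ₐ[ZMod p] Ω) ∈ Inert p V := by
      rw [SubgroupClass.coe_pow]
      exact pow_mem hγ m
    have h4 := hker V hV hxV (γ ^ m) h3 h2
    rw [map_pow, ← pow_mul] at h4
    have h5 : ℓ ∣ m * p := hdvd.trans (orderOf_dvd_of_pow_eq_one h4)
    rcases hℓ.dvd_mul.mp h5 with h6 | h6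
    · exact h1 h6
    · exact hℓp ((Nat.prime_dvd_prime_iff_eq hℓ (Fact.out : p.Prime)).mp h6)
  · -- the element of one factor
    obtain ⟨δ, hδ, hδ1, ⟨i, hi⟩, hδj⟩ := hsys.one
    refine ⟨δ, hδ, hδ1, ?_, ?_⟩
    · intro h3
      apply hi
      have h4 := hact δ hδ1 j₀ i
      rw [h3, Equiv.Perm.one_apply] at h4
      exact h4
    · intro j hj
      ext i
      have h4 := hact δ hδ1 j i
      rw [hδj j hj i] at h4
      rw [← hsys.inj j h4]
      rfl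

end MP7Z.A3
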