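import Pool.Agent.Lib.MP_7f581e_Z.Alt3.Defs

/-!
# Alternating groups of small degree: statements with complete proofs in the docstrings

Goal: `LieStep p 𝒮` for `𝒮` = the alternating groups `A_n`, `n ≥ 5`, `n ≠ 6`, `n ≥ p`.  Already known:
`n ≥ p + 3`, or `p = 3` (package `Alt`), and `n ≥ 11` for `p = 2` (package `Alt2`).  New: `n = p, p + 1, p + 2`
for `p ≥ 5` and `n = 7, 8, 9, 10` for `p = 2`, by families of polynomials with independent parameters (no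
wildly ramified place is needed), and `n = 5` for `p = 2` by `A_5 ≅ SL_2(F_4)`.

Each `def XStmt : Prop` (in the namespace `MP7Z.A3`) is one Lean task: file `Alt3/X.lean`, import only this
file (and files named in the task), `theorem MP7Z.A3.tX : XStmt`; statements listed under *Uses* are
hypotheses, e.g. `theorem tGenK (hAlgI : AlgIStmt) : GenKStmt`.  Statements *of Alt* or *of Alt2* are the
statements of `Alt/Spec.lean` (namespace `MP7Z`) and of `Alt2/Spec.lean` (namespace `MP7Z.A2`).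

`Alt3/Defs.lean` has the families (`OType`, `nfam`, `BType`), `GFam`, the properties `Lab`, `Sgn`, `Loc`,
`Gen`, `Ne` of a family, `AltA`, `SysA`, `PermGrp` and `exists_perm`.

Notation of the docstrings: `|a| = V.valuation a`; for `P` in `(ZMod p)[X]` the same letter is used for its
image over a field of characteristic `p`.
-/

set_option autoImplicit false

namespace MP7Z.A3

open Polynomial MP7Z

/-! ## Part 1.  Systems from families -/

/-- **HRm.** Several parameters.  *Model*: `Alt/HR2.lean`.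

*Proof.*  Claim, by induction on `m`, for all infinite fields `K` with a subset `S` and `WHS K S`: for `Q` in
`(MvPolynomial (Fin m) K)[X]`, monic, irreducible and separable over the fraction field, and `c ≠ 0`, there is
`a : Fin m → K` with values in `S` such that `c(a) ≠ 0` and `Q(a, Y)` is irreducible and separable over `K`.
`m = 0`: `MvPolynomial (Fin 0) K = K`.  `m + 1`: view `Q` as a polynomial over
`MvPolynomial (Fin m) K[X_0] ⊂ MvPolynomial (Fin m) (RatFunc K)` (`MvPolynomial.optionEquivRight`, or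
`finSuccEquiv` and its inverse); the fraction field is the same, so `Q` is irreducible and separable over it.
`RatFunc K` has the property `WHS` with the values `S` (*HRb*).  The induction hypothesis for `RatFunc K` gives
`b_1, …, b_m ∈ S` with `Q(X_0, b, Y) ∈ K[X_0][Y]` (monic) irreducible and separable over `RatFunc K` and
`c(X_0, b) ≠ 0`.  *HRc* (for `K`) and the product of `c(X_0, b)` and a nonzero coefficient of `∂Q/∂Y (X_0, b, Y)`
(separable of positive degree, so not zero): `b_0 ∈ S`.  Apply this to `K = RatFunc (ZMod p)` and *HRa*.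
*Uses*: HRa, HRb, HRc (of Alt). -/
def HRmStmt : Prop :=
  ∀ (p : ℕ) [Fact p.Prime] (m : ℕ) (Q : (MvPolynomial (Fin m) (RatFunc (ZMod p)))[X]), Q.Monic →
    Irreducible (Q.map (algebraMap (MvPolynomial (Fin m) (RatFunc (ZMod p)))
      (FractionRing (MvPolynomial (Fin m) (RatFunc (ZMod p)))))) →
    (Q.map (algebraMap (MvPolynomial (Fin m) (RatFunc (ZMod p)))
      (FractionRing (MvPolynomial (Fin m) (RatFunc (ZMod p)))))).Separable →
    ∀ c : MvPolynomial (Fin m) (RatFunc (ZMod p)), c ≠ 0 →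
    ∃ a : Fin m → (ZMod p)[X], ∀ ev : MvPolynomial (Fin m) (RatFunc (ZMod p)) →+* RatFunc (ZMod p),
      ev = MvPolynomial.eval (fun i => algebraMap (ZMod p)[X] (RatFunc (ZMod p)) (a i)) →
      ev c ≠ 0 ∧ Irreducible (Q.map ev) ∧ (Q.map ev).Separable

/-- **HilbF.** Specialization of Galois groups, for a family of polynomials and several parameters.

*Proof.*  Repeat the proof of `tHilb` (`Alt/Hilb.lean`, and its docstring in `Alt/Spec.lean`) with `Fin m`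
instead of `Fin 2` and with the finite index set `(Fin k × Fin n) ⊕ (Fin k ⊕ Fin 2)` for the elements `η_{j,i}`,
`(ℓ_j)⁻¹`, `α`, `c⁻¹`.  (The lemmas of the namespace `MP7Z.HilbM` are general; import `Alt/Hilb.lean`.)
*Uses*: HRm. -/
def HilbFStmt : Prop :=
  ∀ (p : ℕ) [Fact p.Prime] (Ω : Type) [Field Ω] [Algebra (ZMod p) Ω] (x : Ω), IsStage p x →
    ∀ (Q : Type) [Group Q] [Finite Q] (ψ : Gx p x →* Q), FinLevel ψ → Function.Surjective ψ →
    ∀ (L : IntermediateField (ZMod p) Ω),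
    (∀ a, a ∈ L ↔ ∀ γ : Gx p x, ψ γ = 1 → (γ : Ω ≃ₐ[ZMod p] Ω) a = a) →
    ∀ (N : Type) [Field N] [Algebra Ω N] [IsAlgClosed N] (m : ℕ) (U : Fin m → N),
    AlgebraicIndependent Ω U →
    Algebra.IsAlgebraic (IntermediateField.adjoin Ω (Set.range U)) N →
    ∀ (k n : ℕ) (g : Fin k → (MvPolynomial (Fin m) L)[X]) (ℓ : Fin k → MvPolynomial (Fin m) L)
      (c : MvPolynomial (Fin m) L) (η : Fin k → Fin n → N)
      (evN : MvPolynomial (Fin m) L →+* N),
    evN = MvPolynomial.eval₂Hom ((algebraMap Ω N).comp (algebraMap L Ω)) U →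
    (∀ j, Function.Injective (η j)) → (∀ j, ℓ j ≠ 0) → c ≠ 0 →
    (∀ j, (g j).map evN = C (evN (ℓ j)) * ∏ i, (X - C (η j i))) →
    ∃ u : Fin m → Ω, (∀ i, u i ∈ Algebra.adjoin (ZMod p) {x}) ∧
    ∀ ev : MvPolynomial (Fin m) L →+* Ω,
      ev = MvPolynomial.eval₂Hom (algebraMap L Ω) u →
      (∀ j, ev (ℓ j) ≠ 0) ∧ ev c ≠ 0 ∧ ∃ y : Fin k → Fin n → Ω,
      (∀ j, (g j).map ev = C (ev (ℓ j)) * ∏ i, (X - C (y j i))) ∧
      ∀ σ : N ≃+* N, (∀ a : L, σ (algebraMap Ω N a) = algebraMap Ω N a) → (∀ i, σ (U i) = U i) →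
      ∀ π : Fin k → Equiv.Perm (Fin n), (∀ j i, σ (η j i) = η j (π j i)) →
        ∃ γ : Gx p x, ψ γ = 1 ∧ ∀ j i, (γ : Ω ≃ₐ[ZMod p] Ω) (y j i) = y j (π j i)

/-- **AlgI.** Independent parameters from a linear substitution.

*Proof.*  The matrix `(θ_j^l)` is a Vandermonde matrix with distinct nodes, so it is invertible over `Ω`
(`Matrix.det_vandermonde_ne_zero_iff`), with inverse `(M_{lj})`: `U_{l,i} = Σ_j M_{lj} v_{j,i}`.  This gives the
last claim, and `Ω(v) = Ω(U)`.  The family `(v_{j,i})` is algebraically independent over `Ω`: `P(v) = (P ∘ A)(U)`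
with an invertible linear substitution `A` of the variables, so `P(v) = 0` gives `P ∘ A = 0`, `P = 0` (apply
`MvPolynomial.aeval` twice).  (Or: `kr` elements over which `N` is algebraic, in a field of transcendence
degree `kr`.)  Let `S = {v_{j,i} : j ≠ j₀}` and `L` the algebraic closure of `Ω(S)` in `N` (`algebraicClosure`,
restricted to `Ω`); it is algebraically closed because `N` is.  The family `v_{j₀}` is algebraically
independent over `Ω[S]` (`AlgebraicIndependent.sumElim_iff` or the like, after reindexing), so over `Ω(S)`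
(clear denominators), so over the algebraic extension `L` (`AlgebraicIndependent.extendScalars` or the
like).  `N` is algebraic over `Ω(U) = Ω(v) ⊆ L(v_{j₀})`. -/
def AlgIStmt : Prop :=
  ∀ (Ω N : Type) [Field Ω] [Field N] [Algebra Ω N] [IsAlgClosed N] (k r : ℕ)
    (U : Fin k × Fin r → N), AlgebraicIndependent Ω U →
    Algebra.IsAlgebraic (IntermediateField.adjoin Ω (Set.range U)) N →
    ∀ (θ : Fin k → Ω), Function.Injective θ → ∀ v : Fin k → Fin r → N,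
    (∀ j i, v j i = ∑ l : Fin k, algebraMap Ω N (θ j) ^ (l : ℕ) * U (l, i)) → ∀ j₀ : Fin k,
    ∃ L : IntermediateField Ω N, IsAlgClosed L ∧ (∀ j, j ≠ j₀ → ∀ i, v j i ∈ L) ∧
      AlgebraicIndependent L (v j₀) ∧
      Algebra.IsAlgebraic (IntermediateField.adjoin L (Set.range (v j₀))) N ∧
      ∀ σ : N ≃ₐ[Ω] N, (∀ j i, σ (v j i) = v j i) → ∀ l, σ (U l) = U l

/-- **GenK.** The generic group of the family of `k` polynomials contains `A_n` in each factor.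

*Proof.*  First claim for `j`: *AlgI* with `j₀ = j` gives `L`; *Ne* for `L`, `w = w_j`, `g`, `u = v_j`.  Second claim:
*AlgI* gives `L`; *Gen* for `L`, `w_{j₀}`, `g`, `u = v_{j₀}`, `y = η_{j₀}`, `a`: an automorphism `σ` of `N` over `L`
with `σ v_{j₀,i} = v_{j₀,i}` and `σ η_{j₀,i} = η_{j₀,a i}`.  For `j ≠ j₀` the polynomial `F_j` has coefficients in
`L` (`map_F` for `L → N`, as `v_j`, `w_j`, `g` are in `L`), and it is not zero (`ℓ ≠ 0`); `η_{j,i}` is a root, so it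
is algebraic over `L`, so in `L` (`L` is algebraically closed), and `σ` fixes it.  `σ` fixes `Ω`, `v_j` for `j ≠ j₀`
and `v_{j₀}`, so all `U_l` (last claim of *AlgI*).
*Uses*: AlgI. -/
def GenKStmt : Prop :=
  ∀ (p n r : ℕ) [Fact p.Prime] (G : GFam p n r), G.Gen → G.Ne →
    ∀ (Ω N : Type) [Field Ω] [Field N] [Algebra (ZMod p) Ω] [Algebra (ZMod p) N] [Algebra Ω N]
      [IsScalarTower (ZMod p) Ω N] [IsAlgClosed N] (k : ℕ) (U : Fin k × Fin r → N),
    AlgebraicIndependent Ω U →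
    Algebra.IsAlgebraic (IntermediateField.adjoin Ω (Set.range U)) N →
    ∀ (θ w : Fin k → Ω) (g : Ω), Function.Injective θ → (p ≠ 2 → ∀ j, w j ≠ 0) →
    (p = 2 → g ≠ 0) → ∀ v : Fin k → Fin r → N,
    (∀ j i, v j i = ∑ l : Fin k, algebraMap Ω N (θ j) ^ (l : ℕ) * U (l, i)) →
    (∀ j, G.ℓ N (algebraMap Ω N (w j)) (algebraMap Ω N g) (v j) ≠ 0 ∧
      G.D N (algebraMap Ω N (w j)) (algebraMap Ω N g) (v j) ≠ 0) ∧
    ∀ η : Fin k → Fin n → N, (∀ j, Function.Injective (η j)) →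
      (∀ j, G.F N (algebraMap Ω N (w j)) (algebraMap Ω N g) (v j) =
        C (G.ℓ N (algebraMap Ω N (w j)) (algebraMap Ω N g) (v j)) * ∏ i, (X - C (η j i))) →
      ∀ j₀, ∀ a ∈ alternatingGroup (Fin n), ∃ σ : N ≃ₐ[Ω] N, (∀ l, σ (U l) = U l) ∧
        (∀ i, σ (η j₀ i) = η j₀ (a i)) ∧ ∀ j, j ≠ j₀ → ∀ i, σ (η j i) = η j i

/-- **Cho.** Choice of the parameters.  *Model*: `Alt/Trans.lean`.

*Proof.*  Let `L` be the intermediate field of the elements of `Ω` fixed by `ker ψ`: it contains `θ_j`, `w_j`, `g`.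
`m = k r`, `e : Fin k × Fin r ≃ Fin m`; `N = AlgebraicClosure (FractionRing (MvPolynomial (Fin m) Ω))`, `U_i` the
images of the variables, `U' = U ∘ e`.  In `A_L = MvPolynomial (Fin m) L`: `v_{j,i} = Σ_l C(θ_j)^l X_{e(l,i)}`,
`g_j = G.F A_L (C w_j) (C g) v_j`, `ℓ_j`, `D_j` (`G.ℓ`, `G.D`), `c = ∏ D_j`.  Their images in `N` are the `F`, `ℓ`, `D` of
*GenK* (`map_F`, `map_ℓ`, `map_D`), so `ℓ_j ≠ 0`, `c ≠ 0`.  *Lab* for `N` gives injective `η_j` with
`F_j = ℓ_j ∏ (X - η_{j,i})`.  *HilbF* gives `u : Fin m → 𝔽_p[x]` and `y'_j`; the parameters are `u ∘ e`.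
Given `y` as in the statement: `F_j = ℓ_j ∏ (X - y_{j,i}) = ℓ_j ∏ (X - y'_{j,i})` with `ℓ_j ≠ 0` and `y_j` injective, so
`y_j = y'_j ∘ π_j` for a permutation `π_j` (`exists_perm` with `σ = RingHom.id`).  Given `a ∈ A_n`: `a' = π_{j₀} a π_{j₀}⁻¹`
is even; *GenK*: `σ` with `σ η_{j₀,i} = η_{j₀,a' i}`, `σ η_{j,i} = η_{j,i}` for `j ≠ j₀`.  *HilbF*: `γ`, `ψ γ = 1`,
`γ y'_{j₀,i} = y'_{j₀,a' i}`, `γ y'_{j,i} = y'_{j,i}`; so `γ y_{j₀,i} = γ y'_{j₀,π i} = y'_{j₀,a' π i} = y'_{j₀,π a i} = y_{j₀,a i}`.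
*Uses*: HilbF, GenK. -/
def ChoStmt : Prop :=
  ∀ (p n r : ℕ) [Fact p.Prime] (G : GFam p n r), G.Lab → G.Gen → G.Ne →
    ∀ (Ω : Type) [Field Ω] [Algebra (ZMod p) Ω] (x : Ω), IsStage p x →
    ∀ (Q : Type) [Group Q] [Finite Q] (ψ : Gx p x →* Q), FinLevel ψ → Function.Surjective ψ →
    ∀ (k : ℕ) (θ w : Fin k → Ω) (g : Ω), Function.Injective θ →
    (∀ (γ : Gx p x) j, ψ γ = 1 → (γ : Ω ≃ₐ[ZMod p] Ω) (θ j) = θ j) →
    (∀ (γ : Gx p x) j, ψ γ = 1 → (γ : Ω ≃ₐ[ZMod p] Ω) (w j) = w j) →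
    g ∈ Algebra.adjoin (ZMod p) {x} → g ≠ 0 → (p ≠ 2 → ∀ j, w j ≠ 0) →
    ∃ u : Fin k × Fin r → Ω, (∀ l, u l ∈ Algebra.adjoin (ZMod p) {x}) ∧
      ∀ v : Fin k → Fin r → Ω, (∀ j i, v j i = ∑ l : Fin k, θ j ^ (l : ℕ) * u (l, i)) →
      (∀ j, G.ℓ Ω (w j) g (v j) ≠ 0 ∧ G.D Ω (w j) g (v j) ≠ 0) ∧
      ∀ y : Fin k → Fin n → Ω, (∀ j, Function.Injective (y j)) →
      (∀ j, G.F Ω (w j) g (v j) = C (G.ℓ Ω (w j) g (v j)) * ∏ i, (X - C (y j i))) →
      ∀ j₀, ∀ a ∈ alternatingGroup (Fin n), ∃ γ : Gx p x, ψ γ = 1 ∧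
        (∀ i, (γ : Ω ≃ₐ[ZMod p] Ω) (y j₀ i) = y j₀ (a i)) ∧
        ∀ j, j ≠ j₀ → ∀ i, (γ : Ω ≃ₐ[ZMod p] Ω) (y j i) = y j i

/-- **ComC.** Automorphisms commute on the constants.

*Proof.*  `c` is algebraic over `ZMod p`, `𝔽_p(c)` is a finite field with `p^d` elements, `c^(p^d) = c`.  An
automorphism `γ` maps `c` to a conjugate over `ZMod p`, that is to `c^(p^i)` for some `i`: `∏_{i<d} (X - c^(p^i))`
has coefficients in `ZMod p` (or: the Galois group of a finite field is generated by the Frobenius map).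
So `γ (δ c) = γ (c^(p^j)) = c^(p^i p^j) = δ (γ c)`. -/
def ComCStmt : Prop :=
  ∀ (p : ℕ) [Fact p.Prime] (Ω : Type) [Field Ω] [Algebra (ZMod p) Ω] (γ δ : Ω ≃ₐ[ZMod p] Ω),
    ∀ c ∈ Cst p Ω, γ (δ c) = δ (γ c)

/-- **ParB.** The equivariant elements.

*Proof.*  *Par* (of Alt, `B = ∅`) gives a place `V₁` and, for `a = 1`, integral elements `h_j` with
`γ h_j = h_{act j}`, `|h_{j₀} - 1| < 1` and `|h_j| < 1` for `j ≠ j₀`; `θ_j = h_j`.  They are distinct: `h_{j₀} ≠ h_j` for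
`j ≠ j₀` (`|h_{j₀}| = 1`).  If `i ≠ j`, take `γ` with `act (ψ γ) j₀ = i` and `j'` with `act (ψ γ) j' = j`, `j' ≠ j₀`:
`θ_i = γ θ_{j₀} ≠ γ θ_{j'} = θ_j`.
`p ≠ 2`: `g = 1`, `w` from *Par*; `tw p ε w g = ε w`.
`p = 2`: *Add* (of Alt2) gives `d_j` with `γ d_j = d_{act j} + chi(ε)`, *Den* (of Alt2) gives `g ∈ 𝔽_p[x]`, `g ≠ 0`, with
`g d_j` integral; `w_j = g d_j`: `γ w_j = g d_{act j} + g chi(ε) = tw 2 ε w_{act j} g` (`γ g = g` as `γ x = x`).
*Uses*: Par (of Alt), Add, Den (of Alt2). -/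
def ParBStmt : Prop :=
  ∀ (p : ℕ) [Fact p.Prime] (Ω : Type) [Field Ω] [Algebra (ZMod p) Ω] (x : Ω), IsStage p x →
    ∀ (Q : Type) [Group Q] [Finite Q] (ψ : Gx p x →* Q), FinLevel ψ → Function.Surjective ψ →
    ∀ (k : ℕ) (act : Q →* Equiv.Perm (Fin k)) (ε : Q → Fin k → ℤˣ) (j₀ : Fin k),
    (∀ a b j, ε (a * b) j = ε a (act b j) * ε b j) → (∀ j, ∃ q, act q j₀ = j) →
    ∃ (θ w : Fin k → Ω) (g : Ω), Function.Injective θ ∧
      (∀ (γ : Gx p x) j, (γ : Ω ≃ₐ[ZMod p] Ω) (θ j) = θ (act (ψ γ) j)) ∧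
      (∀ (γ : Gx p x) j, (γ : Ω ≃ₐ[ZMod p] Ω) (w j) = tw p (ε (ψ γ) j) (w (act (ψ γ) j)) g) ∧
      g ∈ Algebra.adjoin (ZMod p) {x} ∧ g ≠ 0 ∧ (p ≠ 2 → ∀ j, w j ≠ 0) ∧
      (∀ j, IsIntegral (Algebra.adjoin (ZMod p) {x}) (θ j)) ∧
      ∀ j, IsIntegral (Algebra.adjoin (ZMod p) {x}) (w j)

/-- **SysK.** A family with all properties gives systems.

*Proof.*  `θ, w, g` from *ParB*.  `ε(1)_j = 1` (cocycle relation for `1 · 1`), `act 1 = 1` and `tw p 1 w g = w`, so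
`ker ψ` fixes `θ_j` and `w_j`.  *Cho* gives `u`; `v_{j,i} = Σ_l θ_j^l u_{l,i}`, `γ v_{j,i} = v_{act j,i}` (`γ` fixes `𝔽_p[x]`).
*Lab* for each `j` (`IsStage` gives `IsSepClosed`): labelled roots `y_j` of `F_j = G.F Ω w_j g v_j`.
`inj` clear.  `eqv`: `F_j.map γ = G.F Ω (γ w_j) g (γ v_j) = G.F Ω (tw ε w_{act j} g) g v_{act j} = F_{act j}` (`map_F`,
`tw_F`), and `exists_perm`.  `sgn`: *Sgn* (for `w' = w_{act j}`, `u' = v_{act j}`).  `loc`: `x ∈ V`, so `𝔽_p[x] ⊆ V` and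
integral elements are in `V` (`V` is integrally closed): `w_j, g, v_{j,i} ∈ V`; `γ` fixes them (`ψ γ = 1`); the sign
of `ρ` is `ε(1)_j = 1` (`sgn`); *Loc*.  `alt`: *Cho*.  `one`: let `a, b ∈ A_n` with `a b ≠ b a` (`n ≥ 5`: two
`3`-cycles with one common point), `γ_a, γ_b` from *Cho*, `δ = γ_a γ_b γ_a⁻¹ γ_b⁻¹`: `ψ δ = 1`, it acts on the `y_{j₀,i}`
as `a b a⁻¹ b⁻¹ ≠ 1` and fixes the `y_{j,i}`, `j ≠ j₀`; it fixes the constants by *ComC*.
*Uses*: Cho, ComC, ParB. -/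
def SysKStmt : Prop :=
  ∀ (p n r : ℕ) [Fact p.Prime] (G : GFam p n r), 5 ≤ n → G.Good → SysA p n

/-- **HomA.** The homomorphism defined by a system.  *Model*: `Alt/Hom.lean` (same proof; the
permutation `τ_j(γ)` is given by `eqv` and `inj`). -/
def HomAStmt : Prop :=
  ∀ (p n : ℕ) [Fact p.Prime] (Ω : Type) [Field Ω] [Algebra (ZMod p) Ω] (x : Ω)
    (Q : Type) [Group Q] (ψ : Gx p x →* Q) (k : ℕ) (act : Q →* Equiv.Perm (Fin k))
    (ε : Q → Fin k → ℤˣ) (j₀ : Fin k) (y : Fin k → Fin n → Ω), FinLevel ψ →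
    AltA ψ act ε j₀ y →
    ∀ (E : Type) [Group E] (π : E →* Q) (T : E → Fin k → Equiv.Perm (Fin n)),
    (∀ g g' j, T (g * g') j = T g (act (π g') j) * T g' j) →
    (∀ g j, Equiv.Perm.sign (T g j) = ε (π g) j) →
    (∀ (q : Q) (τ : Fin k → Equiv.Perm (Fin n)), (∀ j, Equiv.Perm.sign (τ j) = ε q j) →
      ∃! g : E, π g = q ∧ T g = τ) →
    ∃ Ψ : Gx p x →* E, FinLevel Ψ ∧ (∀ γ, π (Ψ γ) = ψ γ) ∧
      ∀ (γ : Gx p x) j i, (γ : Ω ≃ₐ[ZMod p] Ω) (y j i) = y (act (ψ γ) j) (T (Ψ γ) j i)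

/-- **SOfA.** The invariant (S), and an element of one factor.  *Model*: `Alt/SOf.lean`.

*Proof.*  (1) Let `V ≠ ⊤`, `x ∈ V`, `γ ∈ Gx ⊓ Inert V`, `ψ γ = 1`.  For each `j` the permutation `ρ = T (Ψ γ) j`
satisfies `γ y_{j,i} = y_{j,ρ i}` (`act 1 = 1`), so `ρ^p = 1` (`loc`).  So `T ((Ψ γ)^p) j = ρ^p = 1` for all `j`
(multiplication rule), and `(Ψ γ)^p = 1` (uniqueness; `T 1 = 1`).
(S): let `V` be `ℓ`-bad, `ℓ ≠ p`; `x ∈ V`; `γ ∈ Gx ⊓ Inert V`, `m` the order of `ψ γ`, prime to `ℓ` (`SInv` for `ψ`).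
`γ^m ∈ ker ψ`, so `(Ψ γ)^(m p) = 1`; the order of `Ψ γ` divides `m p` and is prime to `ℓ`.
(2) `δ` from `one`. -/
def SOfAStmt : Prop :=
  ∀ (p n : ℕ) [Fact p.Prime] (Ω : Type) [Field Ω] [Algebra (ZMod p) Ω] (x : Ω),
    IsStage p x → ∀ (Q : Type) [Group Q] [Finite Q] (ψ : Gx p x →* Q) (k : ℕ)
    (act : Q →* Equiv.Perm (Fin k)) (ε : Q → Fin k → ℤˣ) (j₀ : Fin k)
    (y : Fin k → Fin n → Ω), SInv p x ψ → AltA ψ act ε j₀ y →
    ∀ (E : Type) [Group E] (π : E →* Q) (T : E → Fin k → Equiv.Perm (Fin n)),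
    (∀ g g' j, T (g * g') j = T g (act (π g') j) * T g' j) →
    (∀ g j, Equiv.Perm.sign (T g j) = ε (π g) j) →
    (∀ (q : Q) (τ : Fin k → Equiv.Perm (Fin n)), (∀ j, Equiv.Perm.sign (τ j) = ε q j) →
      ∃! g : E, π g = q ∧ T g = τ) →
    ∀ Ψ : Gx p x →* E, (∀ γ, π (Ψ γ) = ψ γ) →
      (∀ (γ : Gx p x) j i, (γ : Ω ≃ₐ[ZMod p] Ω) (y j i) = y (act (ψ γ) j) (T (Ψ γ) j i)) →
      SInv p x Ψ ∧ ∃ δ : Gx p x, (δ : Ω ≃ₐ[ZMod p] Ω) ∈ Fx p (Cst p Ω : Set Ω) ∧ ψ δ = 1 ∧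
        T (Ψ δ) j₀ ≠ 1 ∧ ∀ j, j ≠ j₀ → T (Ψ δ) j = 1

/-- **StepA.** The alternating step from systems.  *Model*: `Alt/AStep.lean`.

*Proof.*  As in `Alt/AStep.lean`: `S ≃ A_n`, `φ : f.ker ≃* (Fin k → A_n)`; `k = 0` trivial.  Otherwise `j₀ : Fin k`, the
data from *Act* (of Alt); `y` from `SysA`, *HomA* and *SOfA* (`π = f`) give `Ψ`, `δ`; the hypothesis of *Grp* (of Alt)
on `A_n` is `alt` of the system: `γ y_{j₀,i} = y_{j₀,a i}` gives `T (Ψ γ) j₀ = a` (injectivity of `y_{j₀}`).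
*Uses*: Act, Grp (of Alt), HomA, SOfA. -/
def StepAStmt : Prop :=
  ∀ (p n : ℕ) [Fact p.Prime], 5 ≤ n → n ≠ 6 → SysA p n →
    LieStep p (fun S [Group S] => Nonempty (S ≃* alternatingGroup (Fin n)))

/-! ## Part 2.  General lemmas -/

/-- **AutLin.** Pencils `α A + B` have transitive groups.

*Proof.*  `y` is transcendental over `F`: otherwise `A(y) ≠ 0` (if `A(y) = 0` then `B(y) = 0`, contradiction to
coprimality) and `α = -B(y)/A(y)` would be algebraic over `F`.  So are `z`, and `A(y), A(z) ≠ 0`.  There is an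
isomorphism `F(y) ≃ F(z)` over `F` with `y ↦ z`; it maps `α = -B(y)/A(y)` to `-B(z)/A(z) = α`.  `N` is algebraic over
`F(α) ⊆ F(y)` and over `F(z)`, and it is algebraically closed, so the isomorphism extends to an automorphism
of `N` (`IsAlgClosure.equivOfEquiv` or `IsAlgClosed.lift`; an `F(z)`-embedding of `N` in `N` is onto as
`N` is algebraic over `F(z)`). -/
def AutLinStmt : Prop :=
  ∀ (F N : Type) [Field F] [Field N] [Algebra F N] [IsAlgClosed N] (α : N), Transcendental F α →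
    Algebra.IsAlgebraic (IntermediateField.adjoin F {α}) N → ∀ A B : F[X], IsCoprime A B →
    ∀ y z : N, α * aeval y A + aeval y B = 0 → α * aeval z A + aeval z B = 0 →
    ∃ σ : N ≃ₐ[F] N, σ α = α ∧ σ y = z

/-- **Conj.** Conjugate roots.

*Proof.*  `N` is a normal extension of `K` (algebraic, algebraically closed), and `a`, `b` have the same
minimal polynomial. -/
def ConjStmt : Prop :=
  ∀ (K N : Type) [Field K] [Field N] [Algebra K N] [IsAlgClosed N] [Algebra.IsAlgebraic K N]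
    (P : K[X]), Irreducible P → ∀ a b : N, aeval a P = 0 → aeval b P = 0 →
    ∃ σ : N ≃ₐ[K] N, σ a = b

/-- **HenG.** Hensel's lemma for power series, for polynomials which are not monic.

*Proof.*  `P(b + Y) = a₀ + a₁ Y + … + a_d Y^d` with power series `a_i` (`b` means `PowerSeries.C b`); `a₀` has constant
coefficient `0` and `a₁` is a unit.  If `a₀ = 0` take `z = b`.  Let `d ≥ 1` and
`H = W^d + a₁ W^(d-1) + a₂ a₀ W^(d-2) + … + a_d a₀^(d-1)`, monic; modulo `t` it is `W^(d-1) (W + ā₁)`, with the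
simple root `-ā₁ ≠ 0`.  `MP7fT.hensel_root` (`Pool/Agent/Lib/MP_7f581e_ntT/Hens.lean`) gives a root `W`, a unit;
`z = b + a₀/W`: `P(z) = a₀ (1 + a₁/W + a₂ a₀/W² + …) = a₀ H(W)/W^d = 0`.  (Or Newton iteration.) -/
def HenGStmt : Prop :=
  ∀ (F : Type) [Field F] (P : (PowerSeries F)[X]) (b : F),
    (P.map (PowerSeries.constantCoeff (R := F))).eval b = 0 →
    (derivative (P.map (PowerSeries.constantCoeff (R := F)))).eval b ≠ 0 →
    ∃ z : PowerSeries F, P.eval z = 0 ∧ PowerSeries.constantCoeff z = b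

/-- **CycP.** The local situation at a root of multiplicity `m`, over the power series ring.

*Proof.*  `t = PowerSeries.X`, `A = F⟦t⟧`, `c = -q(s)/f₁(s) ≠ 0`, `κ = κ₀ + c t^m`, `f = f₀ + κ f₁`,
`f = (X - s)^m q + c t^m f₁`.  Let `ζ` be a primitive `m`-th root of unity of `F` (`m ≠ 0` in `F`, `F` algebraically
closed), `τ` the automorphism `P(t) ↦ P(ζ t)` (`PowerSeries.rescale`, inverse `rescale ζ⁻¹`); `τ(t^m) = t^m`.
(1) Roots of the first kind: `g(Z) = Z^m q(s + t Z) + c f₁(s + t Z)` satisfies `f(s + t Z) = t^m g(Z)`; modulo `t` it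
is `q(s) (Z^m - 1)`, with the simple roots `ζ^i`, `i < m`.  *HenG*: there are roots `z_i = s + t Z_i`, `Z_i ≡ ζ^i`,
`i < m`, of `f` in `A`, different from each other.
(2) Roots of the second kind: `q` is separable with `q(s) ≠ 0` and `F` is algebraically closed: `q` has `n - m`
different roots `b ≠ s` (`deg q = n - m`, because `deg(f₀ + κ₀ f₁) = n`); `f ≡ (X - s)^m q` modulo `t` has the
simple root `b`, so `f` has a root `≡ b` (*HenG*).
So `f`, of degree `n` with leading coefficient `lc(f₀)`, has `n` different roots in the domain `A`: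
`f = lc(f₀) ∏ (X - z_i)`.
(3) `τ` maps roots of `f` to roots (`τ` fixes `F` and `κ`).  `τ(s + t Z_i) = s + t ζ τ(Z_i)` with
`ζ τ(Z_i) ≡ ζ^(i+1)`, so it is the root number `i + 1` modulo `m` (it is `≡ s`, and the roots of the first kind
are distinguished by the residue of `(z - s)/t`).  A root of the second kind is determined by its residue,
which `τ` preserves.  So `ρ` is a cycle of length `m` (for `m = 2, 3` or in general:
`Equiv.Perm.IsCycle`; e.g. transport `finRotate m`, or show that `ρ` moves exactly the roots of the first kind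
and is transitive on them).
*Uses*: HenG. -/
def CycPStmt : Prop :=
  ∀ (F : Type) [Field F] [IsAlgClosed F] (n m : ℕ) (f₀ f₁ q : F[X]) (s κ₀ : F), 2 ≤ m →
    (m : F) ≠ 0 → f₀.natDegree = n → f₁.natDegree < n →
    f₀ + C κ₀ * f₁ = (X - C s) ^ m * q → q.Separable → q.eval s ≠ 0 → f₁.eval s ≠ 0 →
    ∃ (c : F) (τ : PowerSeries F ≃+* PowerSeries F) (z : Fin n → PowerSeries F)
      (ρ : Equiv.Perm (Fin n)), c ≠ 0 ∧
      (∀ a : F, τ (PowerSeries.C a) = PowerSeries.C a) ∧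
      τ (PowerSeries.X ^ m) = PowerSeries.X ^ m ∧ Function.Injective z ∧
      f₀.map (PowerSeries.C (R := F)) +
        C (PowerSeries.C κ₀ + PowerSeries.C c * PowerSeries.X ^ m) *
          f₁.map (PowerSeries.C (R := F)) =
        C (PowerSeries.C f₀.leadingCoeff) * ∏ i, (X - C (z i)) ∧
      (∀ i, τ (z i) = z (ρ i)) ∧ ρ.IsCycle ∧ ρ.support.card = m

/-- **Cyc.** A root of multiplicity `m` gives a cycle of length `m`.

*Proof.*  *CycP*.  `K = FractionRing (PowerSeries F)`, `M = AlgebraicClosure K`; `τ` extends to `K`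
(`IsFractionRing.ringEquivOfRingEquiv` or the like) and to an automorphism `τ̃` of `M`
(`IsAlgClosure.equivOfEquiv`).  `κ_M = κ₀ + c t^m ∈ M` is transcendental over `F` (`t` is transcendental: a
polynomial relation for `t` in `F⟦t⟧` is trivial).  `F(κ) ≃ F(κ_M) ⊂ M`, and `N` is algebraic over `F(κ)`: there is an
embedding `ι : N → M` over `F` with `ι κ = κ_M`.  An element of `M` algebraic over `F(κ_M)` is in `ι(N)` (`N` is
algebraically closed and `F(κ_M) ⊆ ι(N)`); `τ̃` fixes `F` and `κ_M`, so it maps `ι(N)` to itself, as does its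
inverse.  So there is `σ : N ≃ₐ[F] N` with `ι ∘ σ = τ̃ ∘ ι`, `σ κ = κ`.  `ι` maps the roots `y_i` of `f` to the roots
`z_i` (`exists_perm`): `ι y_i = z_{π i}`, so `ι σ y_i = τ̃ z_{π i} = z_{ρ π i}`, `σ y_i = y_{π⁻¹ ρ π i}`; the conjugate
`π⁻¹ ρ π` is a cycle with support of `m` elements.
*Uses*: CycP. -/
def CycStmt : Prop :=
  ∀ (F N : Type) [Field F] [Field N] [Algebra F N] [IsAlgClosed F] [IsAlgClosed N] (κ : N),
    Transcendental F κ → Algebra.IsAlgebraic (IntermediateField.adjoin F {κ}) N →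
    ∀ (n m : ℕ) (f₀ f₁ q : F[X]) (s κ₀ : F), 2 ≤ m → (m : F) ≠ 0 → f₀.natDegree = n →
    f₁.natDegree < n → f₀ + C κ₀ * f₁ = (X - C s) ^ m * q → q.Separable → q.eval s ≠ 0 →
    f₁.eval s ≠ 0 → ∀ (lc : N) (y : Fin n → N), Function.Injective y →
    f₀.map (algebraMap F N) + C κ * f₁.map (algebraMap F N) = C lc * ∏ i, (X - C (y i)) →
    ∃ ρ ∈ PermGrp F {κ} y, ρ.IsCycle ∧ ρ.support.card = m

/-- **Newt.** Factors of a polynomial over `F(a)` whose reduction modulo `a` has small degree.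

*Proof.*  `F(a)` is a fraction field of `F[X]` through `X ↦ a` (`a` is transcendental; see the proof of
`Alt/Eis.lean`).  Let `q̂` be the image of `q`, `q̂ = q₁ q₂` (`q̂ ≠ 0`: the map is injective and a primitive
polynomial is not zero).  By the lemma of Gauss there are `Q₁, Q₂ ∈ F[X][Y]` with `q = Q₁ Q₂` and
`deg Q_i = deg q_i` (multiply `q_i` by constants to make them primitive: `IsLocalization.integerNormalization`
and content, `F[X]` is a normalized gcd domain; the product of primitive polynomials is primitive, so the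
constant which appears is a unit).  If `natDegree q ≤ m` both claims hold.  Otherwise `X ∣ lc q` in `F[X]`
(second hypothesis), `X² ∤ lc q = lc Q₁ · lc Q₂` (third hypothesis), so for one `i`, `X ∤ lc Q_i`.  Reduce modulo
`X` (map the coefficients by `eval 0`): `q̄ = Q̄₁ Q̄₂ ≠ 0` (`q` is primitive), `deg q̄ ≤ m`, `deg Q̄_i = deg Q_i`, so
`deg Q_i ≤ deg q̄ ≤ m`. -/
def NewtStmt : Prop :=
  ∀ (F M : Type) [Field F] [Field M] [Algebra F M] (a : M), Transcendental F a →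
    ∀ (q : F[X][X]) (m : ℕ), q.IsPrimitive → (∀ i, m < i → (q.coeff i).coeff 0 = 0) →
    q.leadingCoeff.coeff 1 ≠ 0 → ∀ q₁ q₂ : (IntermediateField.adjoin F {a})[X],
    q.map (aeval (IntermediateField.AdjoinSimple.gen F a) :
      F[X] →ₐ[F] IntermediateField.adjoin F {a}).toRingHom = q₁ * q₂ →
    q₁.natDegree ≤ m ∨ q₂.natDegree ≤ m

/-- **Rec.** Recognition of the alternating group.

*Proof.*  A `2`-transitive group is primitive (`MulAction.isPreprimitive_of_is_two_pretransitive`, as in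
`Alt/Jor.lean`).  With a transposition:
`Equiv.Perm.subgroup_eq_top_of_isPreprimitive_of_isSwap_mem`; with a `3`-cycle:
`Equiv.Perm.alternatingGroup_le_of_isPreprimitive_of_isThreeCycle_mem`. -/
def RecStmt : Prop :=
  ∀ (n : ℕ) (G : Subgroup (Equiv.Perm (Fin n))),
    (∀ i i' l l' : Fin n, i ≠ i' → l ≠ l' → ∃ g ∈ G, g i = l ∧ g i' = l') →
    (∃ ρ ∈ G, ρ.IsSwap ∨ ρ.IsThreeCycle) → alternatingGroup (Fin n) ≤ G

/-- **Per.** The alternating group is perfect.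

*Proof.*  `commutator_alternatingGroup_eq_top`: every element of `A_n` is a product of commutators of
elements of `A_n ≤ K` (and inverses; the inverse of a commutator is a commutator). -/
def PerStmt : Prop :=
  ∀ (n : ℕ), 5 ≤ n → ∀ K K' : Subgroup (Equiv.Perm (Fin n)), alternatingGroup (Fin n) ≤ K →
    (∀ a ∈ K, ∀ b ∈ K, a * b * a⁻¹ * b⁻¹ ∈ K') → alternatingGroup (Fin n) ≤ K'

/-! ## Part 3.  Degrees `p` and `p + 2` -/

/-- **OTy.** The types.

*Proof.*  `n = p`: `V = 1`, `W = X^2`, `D = 1`, `s = 0`, `c₁ = 2`, `k = 0`.  `n = p + 2`: `V = X (X - 1) = X^2 - X`, `W = 1`,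
`D = 1`, `s = 1/2`, `c₁ = -2`, `k = 0`: `V W' - V' W = -(2X - 1) = -2 (X - 1/2)`; `V(1/2) = -1/4 ≠ 0`. -/
def OTyStmt : Prop :=
  ∀ (p : ℕ) [Fact p.Prime], 5 ≤ p → (∃ t : OType p p, t.V = 1 ∧ t.W = X ^ 2) ∧
    ∃ t : OType p (p + 2), t.V = X ^ 2 - X ∧ t.W = 1

/-- **OSep.** Value at `s`, degree, separability and multiple roots.  *Models*: `Alt/Sep.lean`,
`Alt/Mul.lean`.

*Proof.*  `f = V M + W`, `M = X^p - s + κ`, `M' = 0`, `M(s) = κ` (`s^p = s` in `ZMod p`).  Degree: `V M` is monic of degree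
`deg V + p = n > deg W`.  `V f' - V' f = V W' - V' W = c₁ (X - s) D` (`key`).  As in `Alt/Sep.lean`, `Alt/Mul.lean`: `f` is
coprime to `V` (`W = 1` or `V = 1`), so to `D` (`dvd`); separable if `f(s) ≠ 0`; if `(X - r)^2 ∣ f` then `r = s`, and
`(X - s)^3 ∤ f`. -/
def OSepStmt : Prop :=
  ∀ (p n : ℕ) [Fact p.Prime] (t : OType p n) (F : Type) [Field F] [Algebra (ZMod p) F] (κ : F),
    (t.f κ).Monic ∧ (t.f κ).natDegree = n ∧
    (t.f κ).eval (algebraMap (ZMod p) F t.s) = algebraMap (ZMod p) F (t.V.eval t.s) * κ +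
      algebraMap (ZMod p) F (t.W.eval t.s) ∧
    ((t.f κ).eval (algebraMap (ZMod p) F t.s) ≠ 0 → (t.f κ).Separable) ∧
    (∀ r : F, (X - C r) ^ 2 ∣ t.f κ → r = algebraMap (ZMod p) F t.s) ∧
    ¬ (X - C (algebraMap (ZMod p) F t.s)) ^ 3 ∣ t.f κ

/-- The formula for the discriminant. -/
def ODis {p n : ℕ} [Fact p.Prime] (t : OType p n) (c' : ZMod p) : Prop :=
  c' ≠ 0 ∧ ∀ (F : Type) [Field F] [Algebra (ZMod p) F] (κ : F) (y : Fin n → F),
    t.f κ = ∏ i, (X - C (y i)) →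
    (∏ i, ∏ j ∈ Finset.Ioi i, (y j - y i)) ^ 2 = algebraMap (ZMod p) F c' *
      (t.f κ).eval (algebraMap (ZMod p) F t.s)

/-- **ODisc.** The discriminant.  *Model*: `Alt/Disc.lean` (with leading coefficient `1`; the case
distinction `V = 1`, `W = 1` is the same). -/
def ODiscStmt : Prop :=
  ∀ (p n : ℕ) [Fact p.Prime] (t : OType p n), ∃ c' : ZMod p, ODis t c'

/-- **OLab.** Labelled roots, nonvanishing and signs.  *Models*: `Alt/Lab.lean`, `Alt/Sgn.lean`.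

*Proof.*  `d = w u₀`, `κ = t.kap c' d`, so `f(s) = c'⁻¹ d^2` (*OSep*, `V(s) ≠ 0`).  `Lab`: `d ≠ 0`, so `f` is separable, monic of
degree `n`, and splits: `f = ∏ (X - y_i)`, `y` injective.  `Δ^2 = c' f(s) = d^2` (`ODis`), `Δ = ± d`; if the sign is
`-` replace `y` by `y ∘ swap 0 1` (`n ≥ 2`).  `Sgn`: *Sgn* (of Alt) with `a = w u₀`, `a' = w' u'₀`,
`σ a = ε w' u'₀` (`tw`, `p ≠ 2`).  `Ne`: `w ≠ 0`, `u₀` is transcendental over `L`.
*Uses*: OSep, Sgn (of Alt). -/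
def OLabStmt : Prop :=
  ∀ (p n : ℕ) [Fact p.Prime] (t : OType p n) (c' : ZMod p), 2 ≤ n → ODis t c' →
    (t.fam c').Lab ∧ (t.fam c').Sgn ∧ (t.fam c').Ne

/-- **OLoc.** Inertia acts trivially if its sign is `1`.  *Model*: `Alt/LocA.lean`.

*Proof.*  `κ ∈ V`, `f` is monic with coefficients in `V`, so the `y_i` are in `V`.  Reduction modulo the maximal
ideal: `f̄ = t.f κ̄ = ∏ (X - ȳ_i)` (`map_f`), inertia preserves residues (*Res*), so `ρ` moves only indices `i` with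
`ȳ_i = s`, and at most two indices have this residue (*OSep* for the residue field).  So `ρ` is `1` or a
transposition, so `ρ = 1`, `ρ^p = 1`.
*Uses*: Res (of BR), OSep. -/
def OLocStmt : Prop :=
  ∀ (p n : ℕ) [Fact p.Prime] (t : OType p n) (c' : ZMod p), (t.fam c').Loc

/-- **OTr.** The generic group is transitive and contains a transposition.

*Proof.*  `f = κ V + (V (X^p - s) + W)`; `V` and `V (X^p - s) + W` are coprime (`W = 1` or `V = 1`), so *AutLin* gives for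
`i, l` an automorphism `σ` with `σ κ = κ`, `σ y_i = y_l`; `σ` permutes the roots (`exists_perm`), so there is
`ρ ∈ PermGrp L {κ} y` with `ρ i = l`.  Transposition: *Cyc* for `m = 2`, `f₀ = V (X^p - s) + W`, `f₁ = V`,
`κ₀ = -W(s)/V(s)`: `f₀ + κ₀ f₁ = t.f κ₀` has the value `0` at `s`; it is `(X - s)^2 q` with `q(s) ≠ 0`, `q` separable: the
root `s` is multiple because `V f' - V' f = c₁ (X - s) D` vanishes at `s`, `V(s) ≠ 0`; the other claims by *OSep*
(`L` is algebraically closed: a common root `r` of `q` and `q'` would be a multiple root of `f`, so `r = s`,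
and `q(s) = 0` would give `(X - s)^3 ∣ f`).  `2 ≠ 0` in `L`.
*Uses*: AutLin, Cyc, OSep. -/
def OTrStmt : Prop :=
  ∀ (p n : ℕ) [Fact p.Prime] (t : OType p n) (L N : Type) [Field L] [Field N]
    [Algebra (ZMod p) L] [Algebra (ZMod p) N] [Algebra L N] [IsScalarTower (ZMod p) L N]
    [IsAlgClosed L] [IsAlgClosed N] (κ : N), Transcendental L κ →
    Algebra.IsAlgebraic (IntermediateField.adjoin L {κ}) N → ∀ y : Fin n → N,
    Function.Injective y → t.f κ = ∏ i, (X - C (y i)) →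
    (∀ i l, ∃ ρ ∈ PermGrp L {κ} y, ρ i = l) ∧ ∃ ρ ∈ PermGrp L {κ} y, ρ.IsSwap

/-- **OPr.** Degree `p + 2`: the generic group is primitive.

*Proof.*  Let `l : Fin n`, `a = y_l`.  `a` is transcendental over `L` (`V(a) ≠ 0` because `f(a) = V(a) M(a) + 1 = 0`, and
`κ = s - a^p - 1/V(a)`).  `f = V (X^p - a^p) - V/V(a) + 1`, so `V(a) f = V(a) V (X - a)^p + (V(a) - V)` and
`V(a) - V(X) = -(X - a)(X + a - 1)`: `V(a) f = (X - a) Q_a`, `Q_a = V(a) V(X) (X - a)^(p-1) - (X + a - 1)`.  The `y_i`,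
`i ≠ l`, are the roots of `Q_a`, all different.  *Newt* with `m = 1`, `q = V(T) V(X) (X - T)^(p-1) - (X + T - 1) ∈
L[T][X]`: degree `p + 1`, leading coefficient `V(T) = T^2 - T`, its coefficient of `T` is `-1`; for `T = 0` it is
`-(X - 1)`; primitive: the coefficient of `X` is `-T^(p-1) V(T) - 1` (`V(X) = -X + X^2`, `(-T)^(p-1) = T^(p-1)`), coprime to
the leading coefficient `V(T)`.  So over `K = L(a)` in every factorization `Q_a = q₁ q₂` one factor has degree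
`≤ 1`.  Consequences: (i) at most one `y_i`, `i ≠ l`, is in `K` (two of them: `q₁ = (X - y_i)(X - y_{i'})`, `q₂` of degree
`p - 1 ≥ 2`); (ii) the minimal polynomial over `K` of `y_i ∉ K` has degree `≥ p` (it divides `Q_a`; its degree is
`≥ 2`, so the cofactor has degree `≤ 1`).  Let `H ≤ PermGrp L {κ} y` be the stabilizer of `l`; it contains the
permutations induced by the automorphisms of `N` over `K` (`κ ∈ K`), so the orbit of `i` under `H` contains all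
roots of the minimal polynomial of `y_i` over `K` (*Conj*): by (ii) if `y_i ∉ K` the orbit has `≥ p` elements.
Let `B` be a block of `G = PermGrp L {κ} y`, with at least two elements; show `B = univ`.  Let `l ∈ B`.  `|B|`
divides `p + 2` (`MulAction.IsBlock.ncard_dvd_card`, transitivity by *OTr*), and `B` is stable under `H` (the
stabilizer of a point of a block stabilizes the block).  If some `i ∈ B`, `i ≠ l`, has `y_i ∉ K`: `B ⊇` orbit of `i`,
and `l`, so `|B| ≥ p + 1 > (p + 2)/2`, `|B| = p + 2`.  Otherwise `B \ {l}` has exactly one element (i), `|B| = 2`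
divides the odd number `p + 2`, contradiction.
*Uses*: Newt, Conj, OTr. -/
def OPrStmt : Prop :=
  ∀ (p : ℕ) [Fact p.Prime], 5 ≤ p → ∀ (t : OType p (p + 2)), t.V = X ^ 2 - X → t.W = 1 →
    ∀ (L N : Type) [Field L] [Field N]
    [Algebra (ZMod p) L] [Algebra (ZMod p) N] [Algebra L N] [IsScalarTower (ZMod p) L N]
    [IsAlgClosed L] [IsAlgClosed N] (κ : N), Transcendental L κ →
    Algebra.IsAlgebraic (IntermediateField.adjoin L {κ}) N → ∀ y : Fin (p + 2) → N,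
    Function.Injective y → t.f κ = ∏ i, (X - C (y i)) →
    MulAction.IsPreprimitive (PermGrp L {κ} y) (Fin (p + 2))

/-- **OGen.** The generic group contains the alternating group, also over `L(u₀)`.

*Proof.*  `d = w u₀`, `κ = t.kap c' d`: `f(s) = c'⁻¹ d^2` (*OSep*), so `d` is algebraic over `L(κ)` and conversely; `κ` is
transcendental over `L` and `N` is algebraic over `L(κ)`.  `G = PermGrp L {κ} y` is primitive by hypothesis and
contains a transposition, so `G = ⊤` (`Equiv.Perm.subgroup_eq_top_of_isPreprimitive_of_isSwap_mem`).  Let `a` be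
an even permutation, `σ` over `L` with `σ κ = κ`, `σ y_i = y_{a i}`.  `Δ = ∏ (y_j - y_i)`: `Δ^2 = c' f(s) = d^2` (`ODis`),
`Δ = ± d`, and `σ Δ = sign(a) Δ = Δ` (Vandermonde determinant with permuted rows; or `Alt/Sgn.lean`).  So
`σ d = d`, `σ u₀ = u₀` (`d = w u₀`, `w ∈ L`, `w ≠ 0`).
*Uses*: OSep, OTr. -/
def OGenStmt : Prop :=
  ∀ (p n : ℕ) [Fact p.Prime] (t : OType p n) (c' : ZMod p), ODis t c' →
    (∀ (L N : Type) [Field L] [Field N]
      [Algebra (ZMod p) L] [Algebra (ZMod p) N] [Algebra L N] [IsScalarTower (ZMod p) L N]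
      [IsAlgClosed L] [IsAlgClosed N] (κ : N), Transcendental L κ →
      Algebra.IsAlgebraic (IntermediateField.adjoin L {κ}) N → ∀ y : Fin n → N,
      Function.Injective y → t.f κ = ∏ i, (X - C (y i)) →
      MulAction.IsPreprimitive (PermGrp L {κ} y) (Fin n)) →
    (t.fam c').Gen

/-! ## Part 4.  Degree `p + 1` -/

/-- **NSep.** The polynomial `f_κ = α X^(p+1) + X^2 + 1 - κ X`: degree, separability, multiple roots.

*Proof.*  `α = ± 1`.  `X f' - f = X^2 - 1` (`(p + 1) X^(p+1) = X^(p+1)`).  If `(X - r)^2 ∣ f` then `f(r) = f'(r) = 0`, so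
`r^2 = 1`, and `0 = f(r) = α + 2 - κ r` (`r^(p+1) = 1` as `p + 1` is even), so `κ = k₀ r` with `k₀ = α + 2`
(`r = r⁻¹`), `κ^2 = k₀^2`.  If `(X - r)^3 ∣ f` then `(X - r)^2 ∣ X^2 - 1`, impossible as `r = ± 1` is a simple
root of `X^2 - 1` (`p ≠ 2`).  `nf p d = (1 - d^2) f_κ` with `κ = k₀ (1 + d^2)/(1 - d^2)`, and
`κ^2 - k₀^2 = k₀^2 4 d^2/(1 - d^2)^2`. -/
def NSepStmt : Prop :=
  ∀ (p : ℕ) [Fact p.Prime], 5 ≤ p → nal p ^ 2 = 1 ∧ nal p + 2 ≠ 0 ∧
    ∀ (F : Type) [Field F] [Algebra (ZMod p) F],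
    (∀ κ : F, (nf₀ p F - C κ * X).natDegree = p + 1 ∧
      (nf₀ p F - C κ * X).leadingCoeff = algebraMap (ZMod p) F (nal p) ∧
      (κ ^ 2 ≠ algebraMap (ZMod p) F (nal p + 2) ^ 2 → (nf₀ p F - C κ * X).Separable) ∧
      (∀ r : F, (X - C r) ^ 2 ∣ nf₀ p F - C κ * X → r ^ 2 = 1 ∧
        κ = algebraMap (ZMod p) F (nal p + 2) * r) ∧
      ∀ r : F, ¬ (X - C r) ^ 3 ∣ nf₀ p F - C κ * X) ∧
    ∀ d κ : F, 1 - d ^ 2 ≠ 0 → κ = algebraMap (ZMod p) F (nal p + 2) * (1 + d ^ 2) / (1 - d ^ 2) →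
      nf p d = C (1 - d ^ 2) * (nf₀ p F - C κ * X) ∧
      κ ^ 2 - algebraMap (ZMod p) F (nal p + 2) ^ 2 =
        (algebraMap (ZMod p) F (2 * (nal p + 2)) * d / (1 - d ^ 2)) ^ 2

/-- **NDisc.** The discriminant of `f_κ`.

*Proof.*  `f = f_κ = α ∏ (X - y_i)`, `n = p + 1` even.  `f'(y_i) = α ∏_{l ≠ i} (y_i - y_l)` and `y_i f'(y_i) = y_i^2 - 1`.
Multiply over `i`: `∏ y_i · α^n (-1)^(n(n-1)/2) Δ^2 = ∏ (y_i - 1) ∏ (y_i + 1)`.  `∏ y_i = f(0)/α = α`, `∏ (y_i - 1) = f(1)/α`,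
`∏ (y_i + 1) = f(-1)/α` (`n` even), `f(± 1) = k₀ ∓ κ`; `α^n = 1`, `α^2 = 1`.  `(-1)^(n(n-1)/2) = (-1)^((p+1)/2) = -α`
(`n(n-1)/2 = p (p+1)/2`, `p` odd).  So `α (-α) Δ^2 = k₀^2 - κ^2`, `Δ^2 = κ^2 - k₀^2`.  *Model* for the product of
the `f'(y_i)`: `Alt/Disc.lean`.
*Uses*: NSep. -/
def NDiscStmt : Prop :=
  ∀ (p : ℕ) [Fact p.Prime], 5 ≤ p → ∀ (F : Type) [Field F] [Algebra (ZMod p) F] (κ : F)
    (y : Fin (p + 1) → F),
    nf₀ p F - C κ * X = C (algebraMap (ZMod p) F (nal p)) * ∏ i, (X - C (y i)) →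
    (∏ i, ∏ j ∈ Finset.Ioi i, (y j - y i)) ^ 2 = κ ^ 2 - algebraMap (ZMod p) F (nal p + 2) ^ 2

/-- **NLab.** Labelled roots, nonvanishing and signs.  *Models*: `Alt/Lab.lean`, `Alt/Sgn.lean`.

*Proof.*  `d = w u₀ ≠ 0`, `1 - d^2 ≠ 0` (as `ℓ ≠ 0`), `κ = k₀ (1 + d^2)/(1 - d^2)`: `nf d = (1 - d^2) f_κ`, `κ^2 ≠ k₀^2`, so `f_κ` is
separable of degree `p + 1` (*NSep*), `nf d = α (1 - d^2) ∏ (X - y_i)`, `y` injective.  *NDisc*: `Δ^2 = κ^2 - k₀^2 =
(2 k₀ d/(1 - d^2))^2` (*NSep*); choose the sign by a transposition.  `Sgn`: *Sgn* (of Alt) with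
`a = 2 k₀ d/(1 - d^2)`, `σ a = ε a'`, as `σ d = ε d'`, `σ d^2 = d'^2`.  `Ne`: `d` is transcendental over `L`, so `d^2 ≠ 1`.
*Uses*: NSep, NDisc, Sgn (of Alt). -/
def NLabStmt : Prop :=
  ∀ (p : ℕ) [Fact p.Prime] (h2 : p ≠ 2), 5 ≤ p →
    (nfam p h2).Lab ∧ (nfam p h2).Sgn ∧ (nfam p h2).Ne

/-- **NLoc.** Inertia of sign `1` has order dividing `p`.  *Models*: `Alt/LocA.lean`, `Alt/LocB.lean`.

*Proof.*  `d = w u₀ ∈ V`.
(1) `|1 - d^2| = 1`: `κ = k₀ (1 + d^2)/(1 - d^2) ∈ V`; the `y_i` are roots of `f_κ`, integral over `V` with unit leading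
coefficient `α`, so in `V`; reduction `f̄_κ̄ = α ∏ (X - ȳ_i)`; inertia preserves residues, so `ρ` moves only `i` for
which `ȳ_i` is a multiple root `r` of `f̄`, and then `κ̄ = k₀ r`, so there is only one such `r` (`k₀ ≠ 0`), and at
most two indices with this residue (*NSep*).  So `ρ` is `1` or a transposition; sign `1`: `ρ = 1`.
(2) `|1 - d^2| < 1`, `e = 1 - d^2`, `e ≠ 0`.  `κ = k₀ (1 + d^2)/e`, `1 + d^2 = 2 - e`, `|κ| = 1/|e| > 1`.  A root `y ∈ V`: from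
`κ y = α y^(p+1) + y^2 + 1`, `|y| ≤ |e| < 1`.  There is at most one root in `V`: for two such roots `y ≠ y'`
`κ (y - y') = α (y^(p+1) - y'^(p+1)) + (y^2 - y'^2)`, and the right side has value `≤ |y - y'|`, contradiction.  For two
roots `y ≠ y'` outside `V`: `α y^p + y + 1/y = κ` and the same for `y'`; subtract, `y^p - y'^p = (y - y')^p`:
`α (y - y')^(p-1) + 1 - 1/(y y') = 0`, and `|1/(y y')| < 1`, so `|y - y'| = 1`.
`δ` preserves `V`, so `ρ` preserves `S = {i : y_i ∉ V}` and fixes the element of the complement (if any).  Fix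
`i₀ ∈ S`; `θ_i` = residue of `y_i - y_{i₀}` (`i ∈ S`); distinct; `δ (y_i - y_{i₀}) = y_{ρ i} - y_{ρ i₀}` has the same residue
(*Res*), so `θ_{ρ i} = θ_i + θ_{ρ i₀}`, `θ_{ρ^p i} = θ_i + p θ_{ρ i₀} = θ_i`, `ρ^p i = i`.
*Uses*: Res (of BR), NSep. -/
def NLocStmt : Prop :=
  ∀ (p : ℕ) [Fact p.Prime] (h2 : p ≠ 2), 5 ≤ p → (nfam p h2).Loc

/-- **NTr.** The generic group of `f_κ` is `2`-transitive and contains a transposition.

*Proof.*  Transitive: `f_κ = κ (-X) + nf₀`, `-X` and `nf₀` are coprime (`nf₀(0) = 1`): *AutLin*.  Stabilizer of `l`,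
`a = y_l` (transcendental over `L`: `a ≠ 0`, `κ = nf₀(a)/a`): for `i ≠ l`, `h = y_i - a ≠ 0` is a root of
`q_a = α a h^p + α a^2 h^(p-1) + a h + a^2 - 1` (`a f_κ(a + h) = h q_a(h)`: use `(a + h)^(p+1) = (a^p + h^p)(a + h)` and
`κ = (α a^(p+1) + a^2 + 1)/a`).  *Newt* with `m = 0`, `q = α T Y^p + α T^2 Y^(p-1) + T Y + T^2 - 1 ∈ L[T][Y]` (primitive:
`α T` and `T^2 - 1` are coprime; leading coefficient `α T`): `q_a` is irreducible over `K = L(a)` (a
factor of degree `0` is a unit, and `deg = p > 0`).  *Conj*: for `i, i' ≠ l` there is `σ` over `K ∋ κ` with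
`σ (y_i - a) = y_{i'} - a`, `σ y_i = y_{i'}`, `σ y_l = y_l`.  Together: `2`-transitive.  All these `σ` permute the
roots (`exists_perm`).
Transposition: *Cyc* with `m = 2`, `f₀ = nf₀`, `f₁ = -X`, `κ₀ = k₀`, `s = 1`: `f_{k₀} = (X - 1)^2 q`: `f(1) = α + 2 - k₀ = 0`,
`f'(1) = α + 2 - k₀ = 0`; `q` is separable with `q(1) ≠ 0` by *NSep* (multiple roots `r` satisfy `k₀ = k₀ r`, so `r = 1`,
and the multiplicity is at most two; `L` is algebraically closed).  A cycle with support of two elements is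
a transposition.
*Uses*: AutLin, Newt, Conj, Cyc, NSep. -/
def NTrStmt : Prop :=
  ∀ (p : ℕ) [Fact p.Prime], 5 ≤ p → ∀ (L N : Type) [Field L] [Field N]
    [Algebra (ZMod p) L] [Algebra (ZMod p) N] [Algebra L N] [IsScalarTower (ZMod p) L N]
    [IsAlgClosed L] [IsAlgClosed N] (κ : N), Transcendental L κ →
    Algebra.IsAlgebraic (IntermediateField.adjoin L {κ}) N → ∀ y : Fin (p + 1) → N,
    Function.Injective y →
    nf₀ p N - C κ * X = C (algebraMap (ZMod p) N (nal p)) * ∏ i, (X - C (y i)) →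
    (∀ i i' l l', i ≠ i' → l ≠ l' → ∃ ρ ∈ PermGrp L {κ} y, ρ i = l ∧ ρ i' = l') ∧
    ∃ ρ ∈ PermGrp L {κ} y, ρ.IsSwap

/-- **NGen.** The generic group contains the alternating group, also over `L(u₀)`.

*Proof.*  `d = w u₀`, transcendental over `L`; `κ = k₀ (1 + d^2)/(1 - d^2)` is transcendental over `L`, and `N` is
algebraic over `L(κ)`: `d^2 (κ + k₀) = κ - k₀`, `κ + k₀ ≠ 0`.  *NTr*, *Rec*: every even permutation `a` is induced by
`σ` over `L` with `σ κ = κ`.  `Δ^2 = κ^2 - k₀^2 = (2 k₀ d/(1 - d^2))^2` (*NDisc*, *NSep*), `Δ = ± 2 k₀ d/(1 - d^2)`, `σ Δ = Δ`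
(even permutation).  `d = (2 k₀ d/(1 - d^2))/(κ + k₀)` because `κ + k₀ = 2 k₀/(1 - d^2)`; so `σ d = d`, `σ u₀ = u₀`.
*Uses*: NSep, NDisc, NTr, Rec. -/
def NGenStmt : Prop :=
  ∀ (p : ℕ) [Fact p.Prime] (h2 : p ≠ 2), 5 ≤ p → (nfam p h2).Gen

/-! ## Part 5.  Characteristic two -/

/-- **BTy.** The types.

*Proof.*  `(X^3 P R)'` (characteristic two): `n = 7`: `X^3 P R = X^3 (X^4 + 1)(X^4 + X + 1) = X^11 + X^8 + X^4 + X^3`
(check), derivative `X^10 + X^2 = X^2 (X^8 + 1) = X^2 P^2`: `D = P^2`, `k = 2`.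
`n = 8`: `X^8 + X^3`, derivative `X^2`, `D = 1`, `k = 0`.
`n = 9`: `X^3 (1 + X)(X^6 + X^5 + 1) = X^10 + X^8 + X^4 + X^3`, derivative `X^2`, `D = 1`.
`n = 10`: `X^10 + X^3`, derivative `X^2`, `D = 1`.
Coprimality: `n = 7`: `R - P = X`, `P = X^4 + 1`; `n = 9`: `R + X^5 P = 1`. -/
def BTyStmt : Prop :=
  (∃ t : BType 7, t.P = X ^ 4 + 1 ∧ t.R = X ^ 4 + X + 1) ∧
  (∃ t : BType 8, t.P = 1 ∧ t.R = X ^ 5 + 1) ∧
  (∃ t : BType 9, t.P = 1 + X ∧ t.R = X ^ 6 + X ^ 5 + 1) ∧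
  ∃ t : BType 10, t.P = 1 ∧ t.R = X ^ 7 + 1

/-- **BC7.** The sign class in degree `7`.

*Proof.*  `f = X^7 + A X^6 + (κ + 1) X^4 + X^3 + A X^2 + κ`, `a_ij = y_i/(y_i + y_j)`, `a_ij + a_ji = 1`, `bsum² + bsum =
Σ_{i<j} a_ij a_ji` (`a² + a = a (1 + a)`).  `f' = X^6 + X^2 = X^2 (X^4 + 1)`, Hasse derivatives
`f[2] = X^5 + A X^4 + X + A = (X + A)(X^4 + 1)`, `f[3] = X^4 + 1`.  *HD* (of Alt2): `f'(y_i) ≠ 0`,
`z_i = Σ_j a_ij = y_i f[2]/f' = (y_i + A)/y_i = 1 + A t_i`, `t_i = 1/y_i` (`y_i ≠ 0`, `f(0) = κ ≠ 0`), and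
`w_i = e₂(a_i*) = y_i² f[3]/f' = 1`.  The `t_i` are the roots of the reversed polynomial
`κ X^7 + A X^5 + X^4 + (κ+1) X^3 + A X + 1`: `Σ t = 0`, `e₂(t) = A/κ`.  (Prove this from the coefficients of
`f = ∏ (X - y_i)`, or from `∏ (1 + t_i X)`: the first coefficients of `∏ (X + y_i) = ∏ y_i ∏ (1 + t_i X)` are
`κ`, `κ Σ t`, `κ e₂(t)`; compare with `TE` of Alt2 and its proof.)  *E2*: `e₂(1 + A t) = C(7,2) + A² e₂(t) +
7 A Σ t + A Σ t = 1 + A³/κ`.  *BB*: `bsum² + bsum = e₂(z) + Σ w + κ₁ = A³/κ + 1 + 7 + κ₁`.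
*Uses*: E2, BB, HD (of Alt2). -/
def BC7Stmt : Prop :=
  ∀ t : BType 7, t.P = X ^ 4 + 1 → t.R = X ^ 4 + X + 1 → ∃ c : ZMod 2, BCls t c

/-- **BC8.** The sign class in degree `8`.

*Proof.*  As *BC7*: `f = X^8 + X^3 + A X^2 + κ`, `f' = X^2`, `f[2] = X + A`, `f[3] = 1`, `z_i = 1 + A t_i`, `w_i = 1`, `Σ t = 0`,
`e₂(t) = A/κ`, `e₂(1 + A t) = C(8,2) + A² e₂(t) + (8 + 1) A Σ t = A³/κ` (`C(8,2) = 28`), `Σ w = 8 = 0`.
*Uses*: E2, BB, HD (of Alt2). -/
def BC8Stmt : Prop :=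
  ∀ t : BType 8, t.P = 1 → t.R = X ^ 5 + 1 → ∃ c : ZMod 2, BCls t c

/-- **BC9.** The sign class in degree `9`.

*Proof.*  As *BC7*: `f = X^9 + X^8 + (A + 1) X^3 + A X^2 + κ X + κ`.  `(1 + X) f = κ + (A + κ) X^2 + (A + 1) X^4 + X^3 + X^8 +
X^10` has the derivative `X^2`, so `f'(y) = y^2/(1 + y)` (`1 + y ≠ 0`: `f(1) = 1 + 1 + A + 1 + A + κ + κ = 1`).
`f[2] = (A + 1) X + A`, `f[3] = A + 1`.  `z_i = y f[2]/f' = ((A+1) y + A)(1 + y)/y = 1 + A t + (A + 1) y` and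
`w_i = (A + 1)(1 + y_i)`.  `Σ y = 1`, `e₂(y) = 0` (coefficients of `X^8`, `X^7`), `Σ t = 1`, `e₂(t) = A/κ` (coefficients of
`1, X, X^2`: `κ, κ, A`).  With `v = A t + (A + 1) y`: `e₂(v) = A² e₂(t) + (A+1)² e₂(y) + A (A+1) Σt Σy +
A (A+1) Σ t y = A³/κ + A (A + 1)(1 + 9) = A³/κ`; `e₂(1 + v) = C(9,2) + 9 Σ v + Σ v + e₂(v) = A³/κ`.
`Σ w = (A + 1)(9 + 1) = 0`.
*Uses*: E2, BB, HD (of Alt2). -/
def BC9Stmt : Prop :=
  ∀ t : BType 9, t.P = 1 + X → t.R = X ^ 6 + X ^ 5 + 1 → ∃ c : ZMod 2, BCls t c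

/-- **E6.** The second elementary symmetric function of the cubes, in characteristic two.

*Proof.*  Let `e_k` be the coefficient of `X^k` in `∏ (1 + t_i X)`.  Then `e₂(t³) = e₂³ + e₁ e₂ e₃ + e₃² + e₁² e₄ + e₂ e₄ +
e₁ e₅ + e₆` and `Σ t³ = e₁³ + e₁ e₂ + e₃`: induction on `n`; a new factor `1 + t X` changes `e_k` to `e_k + t e_{k-1}`
(`e₀ = 1`), `e₂(t³)` to `e₂(t³) + t³ Σ t_i³` and `Σ t³` to `Σ t³ + t³`; expand, `2 = 0`.  *Model*: `Alt2/TE.lean`. -/
def E6Stmt : Prop :=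
  ∀ (n : ℕ) (F : Type) [Field F] [Algebra (ZMod 2) F] (t : Fin n → F) (e : ℕ → F),
    (∀ k, e k = (∏ i, (1 + C (t i) * X) : F[X]).coeff k) →
    esym2 (fun i => t i ^ 3) = e 2 ^ 3 + e 1 * e 2 * e 3 + e 3 ^ 2 + e 1 ^ 2 * e 4 + e 2 * e 4 +
      e 1 * e 5 + e 6

/-- **BC10.** The sign class in degree `10`.

*Proof.*  As *BC7*: `f = X^10 + X^3 + A X^2 + κ`, `f' = X^2`, `f[2] = X^8 + X + A`, `f[3] = 1` (`C(10,2) = 45`,
`C(10,3) = 120`).  `z_i = y (y^8 + y + A)/y^2 = y^7 + 1 + A t`, and `f(y) = 0` gives `y^7 = κ t³ + A t + 1`, so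
`z_i = κ t_i³`; `w_i = 1`, `Σ w = 10 = 0`.  The coefficients of `∏ (1 + t_i X) = X^10-reversal`: `f = ∏ (X + y_i) =
κ ∏ (1 + t_i X)`, so `e₁ = 0`, `e₂ = A/κ`, `e₃ = 1/κ`, `e₄ = e₅ = e₆ = 0`.  *E6*: `e₂(t³) = A³/κ³ + 1/κ²`.  *E2*:
`e₂(z) = κ² e₂(t³) = A³/κ + 1`.  *BB*: `bsum² + bsum = A³/κ + 1 + κ₁`.
*Uses*: E2, BB, HD (of Alt2), E6. -/
def BC10Stmt : Prop :=
  ∀ t : BType 10, t.P = 1 → t.R = X ^ 7 + 1 → ∃ c : ZMod 2, BCls t c

/-- **BSep.** Degree, separability and multiple roots of `f = P (κ + A X^2) + X^3 R`.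

*Proof.*  `deg (P (κ + A X^2)) ≤ deg P + 2 < n`, `X^3 R` is monic of degree `n`.  `(P f)' = (P^2 (κ + A X^2))' + (X^3 P R)' =
X^2 D` (`P^2` and `κ + A X^2` have zero derivative).  `P(0) = R(0) = 1`; `f(0) = κ`.  If `(X - r)^2 ∣ f` then `r` is a
root of `X^2 D`; if `D(r) = 0` then `P(r) = 0` (`dvd`), so `0 = f(r) = r^3 R(r)`, `r ≠ 0` (`P(0) ≠ 0`), so
`R(r) = 0`, contradiction to `cop`.  So `r = 0` and `κ = 0`.  `κ ≠ 0`: pass to an algebraic closure, no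
multiple root, so separable (or: a Bezout argument as in `Alt2/Sep.lean`: `f` is coprime to `X` and to `D`).
If `κ = 0`: `f = X^2 (A P + X R)`, so `X^3 ∣ f` only if `A = 0`; if `κ = A = 0`, `f = X^3 R`, `R(0) = 1`, and
`R` is separable (a multiple root `r` of `R` is a root of `X^2 D`, `r ≠ 0`, so `P(r) = 0`). -/
def BSepStmt : Prop :=
  ∀ (n : ℕ) (t : BType n) (F : Type) [Field F] [Algebra (ZMod 2) F],
    (∀ A κ : F, (t.f A κ).Monic ∧ (t.f A κ).natDegree = n ∧ (t.f A κ).eval 0 = κ ∧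
      (κ ≠ 0 → (t.f A κ).Separable) ∧ (∀ r : F, (X - C r) ^ 2 ∣ t.f A κ → r = 0 ∧ κ = 0) ∧
      (X ^ 3 ∣ t.f A κ → A = 0) ∧
      derivative (t.P.map (algebraMap (ZMod 2) F) * t.f A κ) =
        X ^ 2 * t.D.map (algebraMap (ZMod 2) F)) ∧
    (t.R.map (algebraMap (ZMod 2) F)).Separable

/-- **BLab.** Labelled roots, nonvanishing and signs.  *Models*: `Alt2/Lab.lean`, and `sgn` in
`Alt2/Sys.lean`.

*Proof.*  `s = u₀ + u₁ w`, `h = g u₁`, `A`, `den`, `num` as in `Defs`, `κ = den²`, `den ≠ 0`.  `Lab`: `f` is separable, monic of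
degree `n` (*BSep*): `f = ∏ (X - y_i)`; `ζ = num/den` satisfies `ζ² + ζ = A³/κ + c` (`bNum_sq`), so
(`BCls`) `(bsum y + ζ)² = bsum y + ζ`, `bsum y = ζ` or `ζ + 1`; in the second case replace `y` by `y ∘ swap 0 1`
(*Prm* of Alt2).
`Sgn`: `σ s = u'₀ + u'₁ (w' + [ε ≠ 1] g) = s' + [ε ≠ 1] h'`, `σ h = h'`, so `σ A = A'`, `σ den = den'`,
`σ num = num' + [ε ≠ 1] den'` (`map_bA`, `bA_add`, `bNum_add`, …): `σ (bsum y) = σ ζ = ζ' + chi ε`.  And `σ (bsum y) =
bsum (y' ∘ ρ) = bsum y' + chi (sign ρ)` (*Prm*).  So `chi ε = chi (sign ρ)`, `ε = sign ρ`.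
`Ne`: `den` is a nonzero polynomial in the independent elements `u₀, u₁` (`h = g u₁ ≠ 0`; if `h² + s² + s h + c h² = 0`
then `s/h`, so `u₀/u₁`, would be algebraic over `L`: `(s/h)² + s/h + 1 + c = 0`).
*Uses*: BSep, Prm (of Alt2). -/
def BLabStmt : Prop :=
  ∀ (n : ℕ) (t : BType n) (c : ZMod 2), BCls t c →
    (t.fam c).Lab ∧ (t.fam c).Sgn ∧ (t.fam c).Ne

/-- **BLocA.** Local analysis away from `A = κ = 0`.  *Model*: `Alt2/LocA.lean`.

*Proof.*  `f` is monic with coefficients in `V`, so the `y_i` are in `V`; reduction `f̄ = t.f Ā κ̄ = ∏ (X - ȳ_i)`.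
Inertia preserves residues, so if `ρ i ≠ i` then `ȳ_i` is a multiple root of `f̄`, so `ȳ_i = 0` and `κ̄ = 0` (*BSep*);
the hypothesis gives `Ā ≠ 0`, so at most two indices have the residue `0` (*BSep*: `X^3 ∤ f̄`).  So `ρ` is `1` or
a transposition, so `ρ = 1`.
*Uses*: Res (of BR), BSep. -/
def BLocAStmt : Prop :=
  ∀ (n : ℕ) (t : BType n) (Ω : Type) [Field Ω] [Algebra (ZMod 2) Ω] (x : Ω),
    IsStage 2 x → ∀ V : ValuationSubring Ω, V ≠ ⊤ → ∀ (A κ : Ω) (y : Fin n → Ω),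
    A ∈ V → κ ∈ V → (V.valuation A = 1 ∨ V.valuation κ = 1) → Function.Injective y →
    t.f A κ = ∏ i, (X - C (y i)) →
    ∀ δ ∈ Inert 2 V, ∀ ρ : Equiv.Perm (Fin n), (∀ i, δ (y i) = y (ρ i)) →
      Equiv.Perm.sign ρ = 1 → ρ = 1

/-- **BLocB.** Local analysis at a common zero of `A` and `κ`.

*Proof.*  All `y_i ∈ V`; the reduction of `f` is `X^3 R`, `R(0) = 1`, so exactly three roots, the small roots,
have value `< 1`, the others have value `1` and different residues (`R` is separable, *BSep*; `f̄ = X^3 R =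
∏ (X - ȳ_i)`).  `ρ` preserves residues (*Res*), so it moves only the three small indices; as `sign ρ = 1`, it
is `1` or a `3`-cycle on them.  Suppose that it is a `3`-cycle.  `|a|, |b| < 1`: `|a b| = |A| < 1` and
`a³ + b³ = den`, `|den|² = |κ| < 1`: if `|a| ≥ 1` then `|b| < 1` and `|a³| = |den + b³| < 1`, contradiction.  By symmetry
assume `|b| ≤ |a|`; `a ≠ 0` (`den ≠ 0`), `β = b/a ∈ V`.  Let `y` be a small root, `Z = y/a²`.  Divide `f(y) = 0` by `a⁶`: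
`P(y) ((1 + β³)² + β Z²) + Z³ R(y) = 0` (`κ/a⁶ = ((a³ + b³)/a³)²`, `A a⁴/a⁶ = b/a`), and `|P(y)| = |R(y)| = 1` (`|y| < 1`).
`|Z| ≤ 1` (otherwise the last term dominates).  `δ` fixes `a`, so `δ Z_i = Z_{ρ i}`, and `|δ Z_i - Z_i| < 1` (*Res*): so
`|Z_i - Z_j| < 1` for the three small roots.  `(P f)' = X² D` (*BSep*) at `y_i`: `P(y_i) f'(y_i) = y_i² D(y_i)` and
`|D(y_i)| = 1` (`D ∣ P^k`, `P(0) = 1`), `f'(y_i) = ∏_{j≠i} (y_i - y_j)`, the differences with non-small roots are units: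
`|y_i|² = |y_i - y_j| |y_i - y_l|` for the small roots, so `|Z_i|² = |Z_i - Z_j| |Z_i - Z_l| < 1`.  So `|Z_i| < 1` for
all three, and the equation gives `|1 + β³|² ≤ max(|β Z²|, |Z³|) < 1`, so `|β|³ = 1`, `|β| = 1`, `|β Z_i²| > |Z_i³|`
(`Z_i ≠ 0`, as `κ ≠ 0`), so `|1 + β³|² = |Z_i|²`, `q := |1 + β³| = |Z_i|`.  The product of all roots is `f(0) = κ`
(up to sign), so `|y₁ y₂ y₃| = |κ|`, `|Z₁ Z₂ Z₃| = |κ/a⁶| = q²`, so `q³ = q²`, `q = 1` or `q = 0`; both are impossible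
(`q = |Z_i| < 1`, `Z_i ≠ 0`).
*Uses*: Res (of BR), BSep. -/
def BLocBStmt : Prop :=
  ∀ (n : ℕ) (t : BType n) (Ω : Type) [Field Ω] [Algebra (ZMod 2) Ω] (x : Ω),
    IsStage 2 x → ∀ V : ValuationSubring Ω, V ≠ ⊤ → ∀ (A κ a b : Ω) (y : Fin n → Ω),
    V.valuation A < 1 → V.valuation κ < 1 → κ ≠ 0 → A = a * b → κ = (a ^ 3 + b ^ 3) ^ 2 →
    Function.Injective y → t.f A κ = ∏ i, (X - C (y i)) →
    ∀ δ ∈ Inert 2 V, δ a = a → δ b = b → ∀ ρ : Equiv.Perm (Fin n), (∀ i, δ (y i) = y (ρ i)) →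
      Equiv.Perm.sign ρ = 1 → ρ = 1

/-- **BLoc.** Inertia acts trivially if its sign is `1`.

*Proof.*  `s, h ∈ V`, so `A, den, κ = den² ∈ V`.  If `|A| = 1` or `|κ| = 1`: *BLocA*.  Otherwise *BLocB* with
`a = s + h ρ₀`, `b = a + h`, where `ρ₀ ∈ Ω`, `ρ₀² + ρ₀ = c` (`c = 0`: `ρ₀ = 0`; `c = 1`: a primitive cube root of unity, `Ω` is
separably closed): `a b = s² + s h + c h² = A`, `a³ + b³ = (a + b)((a + b)² + a b) = den`.  `ρ₀` is algebraic over `𝔽₂`, a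
constant, so `δ` fixes it, and `δ s = s`, `δ h = h`.
*Uses*: BLocA, BLocB. -/
def BLocStmt : Prop :=
  ∀ (n : ℕ) (t : BType n) (c : ZMod 2), (t.fam c).Loc

/-- **BTr.** The generic group of `t.f A κ` over `L(A, κ)` is `2`-transitive.

*Proof.*  FIRST: *AutLin* with `F = L(A) ⊂ N` (`IntermediateField.adjoin L {A}`), `α = κ` (transcendental over `F`, and
`N` is algebraic over `F(κ)`), the polynomials `P` and `A X² P + X³ R`: coprime, as `P` is coprime to `X` (`P(0) = 1`)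
and to `R`.  So for all `i, l` there is `σ` over `F` (so `σ A = A`) with `σ κ = κ`, `σ y_i = y_l`.
SECOND: fix `l`, `a = y_l`.  `P(a) ≠ 0` (else `0 = f(a) = a³ R(a)`; `a ≠ 0` as `f(0) = κ ≠ 0`, so `R(a) = 0`, contradiction to
`cop`), `κ = A a² + c₀`, `c₀ = a³ R(a)/P(a)`.  *AutLin* with `F = L(a)`, `α = A`: `A` is transcendental over `L(a)`: `L(A, κ) ⊆
L(a, A)` and `A, κ` are algebraically independent, so `a, A` are too; `N` is algebraic over `F(A) ∋ κ`.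
`f = P (c₀ + A (X² + a²)) + X³ R = A P (X + a)² + Φ`, `Φ = c₀ P + X³ R ∈ F[X]`, `Φ(a) = 0`, `Φ = (X + a) Φ₁`.
`f = (X + a) (A A₁ + Φ₁)`, `A₁ = P (X + a)`.  `A₁` and `Φ₁` are coprime: `Φ₁(a) = Φ'(a) = c₀ P'(a) + (X³R)'(a) =
[P' X³ R + P (X³ R)'](a)/P(a) = (X³ P R)'(a)/P(a) = a² D(a)/P(a) ≠ 0` (`D ≠ 0` as it divides `P^k ≠ 0`, `a` is
transcendental over `𝔽₂`); `P` and `Φ₁` are coprime, as `P` and `Φ = c₀ P + X³ R` are (`P` is coprime to `X³ R`).  The
`y_i`, `i ≠ l`, are roots of `A A₁ + Φ₁` (`y` is injective).  So for `i, i' ≠ l` there is `σ` over `L(a)` with `σ A = A`,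
`σ y_i = y_{i'}`, and `σ κ = κ`.  Together: `2`-transitive; the `σ` permute the roots (`exists_perm`).
*Uses*: AutLin. -/
def BTrStmt : Prop :=
  ∀ (n : ℕ) (t : BType n) (L N : Type) [Field L] [Field N]
    [Algebra (ZMod 2) L] [Algebra (ZMod 2) N] [Algebra L N] [IsScalarTower (ZMod 2) L N]
    [IsAlgClosed N] (A κ : N), AlgebraicIndependent L ![A, κ] →
    Algebra.IsAlgebraic (IntermediateField.adjoin L {A, κ}) N → ∀ y : Fin n → N,
    Function.Injective y → t.f A κ = ∏ i, (X - C (y i)) →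
    ∀ i i' l l', i ≠ i' → l ≠ l' → ∃ ρ ∈ PermGrp L {A, κ} y, ρ i = l ∧ ρ i' = l'

/-- **B3C.** The generic group contains a `3`-cycle.

*Proof.*  `A' = A/κ`, `f = κ P (1 + A' X²) + X³ R`.  Let `F` be the algebraic closure of `L(A')` in `N`; it is
algebraically closed, and `κ` is transcendental over `F` (`A = A' κ`, `κ` are algebraically independent over
`L`), `N` is algebraic over `F(κ)`.  *Cyc* with `m = 3`, `f₀ = X³ R`, `f₁ = P (1 + A' X²)`, `κ₀ = 0`, `s = 0`, `q = R`: separable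
(*BSep*), `R(0) = 1`, `f₁(0) = 1`, `deg f₁ ≤ deg P + 2 < n = deg f₀`.  So some `ρ ∈ PermGrp F {κ} y` is a `3`-cycle; it
is in `PermGrp L {A, κ} y` (an automorphism over `F` fixes `A'`, `κ`, so `A`).
*Uses*: Cyc, BSep. -/
def B3CStmt : Prop :=
  ∀ (n : ℕ) (t : BType n) (L N : Type) [Field L] [Field N]
    [Algebra (ZMod 2) L] [Algebra (ZMod 2) N] [Algebra L N] [IsScalarTower (ZMod 2) L N]
    [IsAlgClosed N] (A κ : N), AlgebraicIndependent L ![A, κ] →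
    Algebra.IsAlgebraic (IntermediateField.adjoin L {A, κ}) N → ∀ y : Fin n → N,
    Function.Injective y → t.f A κ = ∏ i, (X - C (y i)) →
    ∃ ρ ∈ PermGrp L {A, κ} y, ρ.IsThreeCycle

/-- **BDer.** Automorphisms fixing `a b` and `(a³ + b³)²`: the second commutators fix `a` and `b`.

*Proof.*  `Γ = {σ : σ A = A, σ κ = κ}`, `A = a b`, `κ = den²`, `den = a³ + b³ ≠ 0`.  `σ ∈ Γ`: `(σ den)² = den²`, so `σ den = den`
(characteristic two); `a³`, `b³` are the roots of `Z² + den Z + A³`, so `σ(a³) ∈ {a³, b³}` and `a³ ≠ b³`.  So a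
commutator of elements of `Γ` fixes `a³` (and `b³`).  If `σ, τ ∈ Γ` fix `a³`: `σ a = ω a`, `τ a = ω' a` with
cube roots of unity `ω, ω' ∈ L` (`L` is algebraically closed; `a ≠ 0`, as `A ≠ 0`), so `σ τ a = τ σ a` and the
commutator of `σ` and `τ` fixes `a`, and `b = A/a`.  In terms of permutations:
`K = PermGrp L {A, κ} y`, `K₁ = PermGrp L {A, κ, a³} y`, `K₂ = PermGrp L {a, b} y`; *Per* for `K, K₁` and for `K₁, K₂`.
*Uses*: Per. -/
def BDerStmt : Prop :=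
  ∀ (n : ℕ) (L N : Type) [Field L] [Field N]
    [Algebra (ZMod 2) L] [Algebra (ZMod 2) N] [Algebra L N] [IsScalarTower (ZMod 2) L N]
    [IsAlgClosed L] (A κ a b : N), 5 ≤ n → A ≠ 0 → κ ≠ 0 → A = a * b → κ = (a ^ 3 + b ^ 3) ^ 2 →
    ∀ y : Fin n → N, alternatingGroup (Fin n) ≤ PermGrp L {A, κ} y →
      alternatingGroup (Fin n) ≤ PermGrp L {a, b} y

/-- **BGen.** The generic group contains the alternating group, also over `L(u₀, u₁)`.

*Proof.*  `s = u₀ + u₁ w`, `h = g u₁`, `ρ₀ ∈ L`, `ρ₀² + ρ₀ = c` (`L` is algebraically closed), `a = s + h ρ₀`, `b = a + h`: `a b = A`,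
`a³ + b³ = den` (see *BLoc*), `κ = den²`.  `h = a + b`, `s = a + h ρ₀`, `u₁ = h/g`, `u₀ = s + u₁ w` (`g ≠ 0`), so `L(a, b) =
L(u₀, u₁)`, and it is algebraic over `L(A, κ)` (`a³` is a root of `Z² + den Z + A³`, `den² = κ`).  So `N` is algebraic over
`L(A, κ)`, and `A, κ` are algebraically independent over `L` (two elements over which a field of
transcendence degree two is algebraic).  *BTr*, *B3C*, *Rec*: `A_n ≤ PermGrp L {A, κ} y`; *BDer*:
`A_n ≤ PermGrp L {a, b} y`, and an automorphism over `L` which fixes `a`, `b` fixes `u₀`, `u₁`.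
*Uses*: BTr, B3C, Rec, BDer. -/
def BGenStmt : Prop :=
  ∀ (n : ℕ) (t : BType n) (c : ZMod 2), (t.fam c).Gen

/-! ## Part 6.  Degree five in characteristic two -/

/-- **A5.** `A_5 ≅ SL_2(F_4)`.

*Proof.*  `F = GaloisField 2 2`, `q = 4`; `H = SL_2(F)`.  `H` acts on the projective line `Projectivization F (Fin 2 → F)`
(`5` points: `Projectivization.card'` or the like), the kernel of `H → Perm` consists of the matrices with
all vectors as eigenvectors, the scalar matrices, so it is the centre: `H ⧸ centre` embeds in `Perm (Fin 5)`.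
`|GL_2(F)| = (16 - 1)(16 - 4) = 180` (`Matrix.card_GL_field`), the determinant is onto `Fˣ` (`3` elements) with kernel
`H`, so `|H| = 60`; the centre is trivial (`a² = 1` implies `a = 1` in characteristic two), so `|H ⧸ centre| = 60`.
A subgroup of `Perm (Fin 5)` of order `60` has index two, so it is the alternating group
(`Equiv.Perm.eq_alternatingGroup_of_index_eq_two`, or the like). -/
def A5Stmt : Prop :=
  ∃ (F : Type) (_ : Field F), Nat.card F = 4 ∧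
    Nonempty (alternatingGroup (Fin 5) ≃*
      Matrix.SpecialLinearGroup (Fin 2) F ⧸ Subgroup.center (Matrix.SpecialLinearGroup (Fin 2) F))

end MP7Z.A3
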